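import Mathlib
import Pool.Agent.H28.PCP.Defs

set_option autoImplicit false

/-!
# Definitions for the undecidability of the Post correspondence problem with three pairs

See `proofs` 242 (MP_07c050_lc) for the paper proof.  Letters of words are natural numbers.
Steps: P (three pairs and the hole model `HM`), H (hole model and two words `XW`), A (`XW` and the
clocked machine `Par.st`), B (clocked machine and queue machine `Prog.step`), C (ring program),
G (choice of the parameters), K (computability).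
-/

namespace Pool.Agent.H15.PCP3

open Pool.Agent.H28.PCP (HasSol vl stepW cnt)

/-- sum of `A` over the active and `B` over the passive steps before time `T` -/
def xs (A B : ℕ) (X : ℕ → Bool) : ℕ → ℕ
  | 0 => 0
  | T + 1 => xs A B X T + (if X T then A else B)

/-- number of letters x among the first `n` letters of `W` -/
def cx (W : ℕ → Bool) (n : ℕ) : ℕ := Nat.count (fun i => W i = true) n

/-! ## Step P: the three pairs -/

/-- code of a letter (`true` is the letter x): `1^(M-1) 0 1^(a-b)` for x, `1^(M-1) 0` for y -/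
def cd3 (M a b : ℕ) (c : Bool) : List ℕ :=
  List.replicate (M - 1) 1 ++ 0 :: List.replicate (if c then a - b else 0) 1

/-- the long word `V'`: `1^(M-1) V' = <V> 1^(M-1) 0 1^(M-b)` -/
def gA (V : ℕ → Bool) (M a b : ℕ) : List ℕ :=
  ((vl V (M - 1)).flatMap (cd3 M a b) ++
    (List.replicate (M - 1) 1 ++ 0 :: List.replicate (M - b) 1)).drop (M - 1)

/-- the three pairs -/
def inst3 (V : ℕ → Bool) (M a b : ℕ) : Fin 3 → List ℕ × List ℕ :=
  ![(gA V M a b, cd3 M a b true), ([1], cd3 M a b true), ([1], cd3 M a b false)]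

/-- letter at position `p` of the text `V z_0 V z_1 V z_2 ...` -/
def hlet (V : ℕ → Bool) (M : ℕ) (z : ℕ → Bool) (p : ℕ) : Bool :=
  if p % M = M - 1 then z (p / M) else V (p % M)

/-- the hole model -/
def HM (V : ℕ → Bool) (M a b : ℕ) : Prop :=
  ∃ (k : ℕ) (z : ℕ → Bool), z k = true ∧
    M - 1 + xs a b z (k + 1) = (k + 1) * M + (M - 1) ∧
    ∀ i ≤ k, hlet V M z (M - 1 + xs a b z i) = true

/-! ## Step H: two words -/

/-- letter at position `p` of the text `w_(X 0) w_(X 1) ...` (`true`: word `W1` of length `l1`,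
`false`: word `W2` of length `l2`) is x -/
def XTxt (W1 W2 : ℕ → Bool) (l1 l2 : ℕ) (X : ℕ → Bool) (p : ℕ) : Prop :=
  ∃ t, xs l1 l2 X t ≤ p ∧ p < xs l1 l2 X (t + 1) ∧
    (if X t then W1 (p - xs l1 l2 X t) else W2 (p - xs l1 l2 X t)) = true

/-- the two word problem: a text all of whose visited letters are x, and the visits end at its end -/
def XW (W1 W2 : ℕ → Bool) (l1 l2 A1 A2 : ℕ) : Prop :=
  ∃ (K : ℕ) (X : ℕ → Bool), X K = false ∧ xs A1 A2 X (K + 1) = xs l1 l2 X (K + 1) ∧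
    ∀ T ≤ K, XTxt W1 W2 l1 l2 X (xs A1 A2 X T)

/-- the second word `x^lam y x^(lam-1)` -/
def w2f (lam : ℕ) (q : ℕ) : Bool := decide (q ≠ lam)

/-- the word `V` of step H: the residues of the proper nonempty prefixes of the two words -/
def Vh (W1 : ℕ → Bool) (l1 lam M a b : ℕ) (r : ℕ) : Bool :=
  decide ((∃ n < l1, 1 ≤ n ∧ (M - 1 + a * cx W1 n + b * (n - cx W1 n)) % M = r) ∨
    (∃ n < 2 * lam, 1 ≤ n ∧
      (M - 1 + a * cx (w2f lam) n + b * (n - cx (w2f lam) n)) % M = r))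

/-- hypotheses of step H -/
structure HHyp (W1 : ℕ → Bool) (l1 lam A1 A2 M a b : ℕ) : Prop where
  hlam : 3 ≤ lam
  h0 : W1 0 = true
  h1 : W1 1 = false
  h2 : W1 2 = false
  hl5 : 5 ≤ l1
  he1 : W1 (l1 - 1) = false
  he2 : W1 (l1 - 2) = false
  hNx : cx W1 l1 + 2 ≤ lam
  hb14 : 4 ≤ l1 - cx W1 l1
  hM : M + cx W1 l1 = (2 * lam - 1) * (l1 - cx W1 l1)
  ha : a + A1 = A2 * (l1 - cx W1 l1)
  hb : b + cx W1 l1 * A2 = (2 * lam - 1) * A1
  hA1 : 1 ≤ A1
  hA2 : 1 ≤ A2
  hb1 : 1 ≤ b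
  hbM : b < M
  haM : M ≤ a
  hco : Nat.Coprime a M

/-! ## Step A: the clocked machine -/

/-- parameters of the clocked machine: number of slots `N`, geometry `β`, `lam`, shift `S`, number
of padding letters `pc`, event table `Eh e m̂` (slot `e`, shifted phase `m̂ = m + P S`) -/
structure Par where
  N : ℕ
  β : ℕ
  lam : ℕ
  S : ℕ
  pc : ℕ
  Eh : ℕ → ℕ → Bool

namespace Par

variable (p : Par)

/-- the period -/
def P : ℕ := 4 * p.N + 3

def Om : ℕ := p.P * (p.β - 2) + 2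

/-- length of the first word -/
def l1 : ℕ := p.lam * p.Om + p.P

/-- advance of an active step -/
def A1 : ℕ := (2 * p.β - p.P) * p.lam + 2

/-- advance of a passive step -/
def A2 : ℕ := 2 * p.β * p.lam + 2

/-- `(κ, ω)` is the place of an event -/
def Ev (κ ω : ℕ) : Bool :=
  decide (κ % 4 = 3 ∧ (κ - 3) / 4 < p.N ∧ (p.β * κ + ω) % 2 = 0 ∧
    ω ≤ p.β * κ + 2 * (p.P - 1) + 2 * p.P * p.S) &&
  p.Eh ((κ - 3) / 4) ((p.β * κ + 2 * (p.P - 1) + 2 * p.P * p.S - ω) / 2)

/-- the first word -/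
def W1 (q : ℕ) : Bool :=
  if q = 0 then true
  else if p.lam + p.P + 1 ≤ q ∧ q < p.lam + p.P + 1 + p.pc then true
  else if p.P < q % p.lam ∨ q / p.lam = 0 ∨ p.Om ≤ q / p.lam then false
  else if q % p.lam = 2 ∧ q / p.lam + p.P = 2 * p.β then true
  else if p.Ev (q % p.lam) (q / p.lam) then false
  else if p.Ev (q % p.lam) (q / p.lam + p.P) then true
  else decide ((q % p.lam + q / p.lam) % 2 = 0 ∧ q / p.lam ≠ (p.β - 1) * (q % p.lam))

/-- push condition at time `T` for the list `l` of the push times before `T` -/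
def PC (T : ℕ) (l : List ℕ) : Bool :=
  decide (T / p.P < l.length ∧ 2 * p.N + 2 ≤ T % p.P ∧ T % p.P % 2 = 0 ∧
    (T % p.P - (2 * p.N + 2)) / 2 < p.N) &&
  p.Eh ((T % p.P - (2 * p.N + 2)) / 2)
    (l.getD (T / p.P) 0 + p.P * (l.length + p.S) - 2 * p.P * (T / p.P))

/-- the list of the push times before time `T` -/
def st : ℕ → List ℕ
  | 0 => []
  | T + 1 => if T = 0 ∨ p.PC T (st T) = true then st T ++ [T] else st T

/-- hypotheses of step A -/
structure OK (Mb : ℕ) : Prop where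
  hN : 1 ≤ p.N
  hβ1 : p.β % 2 = 1
  hβ2 : 2 * Mb + 8 * p.P ≤ p.β
  hlam : 2 * p.P + p.pc + 2 ≤ p.lam
  hS : Mb ≤ p.P * p.S
  hE : ∀ e < p.N, p.Eh e (2 * p.N + 2 + 2 * e + p.P * p.S) = false
  hB : ∀ T, 1 ≤ T → T / p.P < (p.st T).length →
    2 * p.P * (T / p.P) ≤ (p.st T).getD (T / p.P) 0 + p.P * (p.st T).length + Mb ∧
    (p.st T).getD (T / p.P) 0 + p.P * (p.st T).length ≤ 2 * p.P * (T / p.P) + Mb

end Par

/-! ## Step B: the queue machine -/

/-- a program of the queue machine: types `< Tn`, at most `I` pushes at a step, shift `S`, initial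
type `tI`; a token of type `t` popped at shifted length difference `b̂ = b + S` pushes
`ln t b̂` tokens, the `i`-th one of type `gt t b̂ i` -/
structure Prog where
  Tn : ℕ
  I : ℕ
  S : ℕ
  tI : ℕ
  ln : ℕ → ℕ → ℕ
  gt : ℕ → ℕ → ℕ → ℕ

namespace Prog

variable (r : Prog)

/-- one step; a token is `(type, Δ)`, `Δ` the length of the queue at its push (reader included) -/
def step : List (ℕ × ℕ) → List (ℕ × ℕ)
  | [] => []
  | (t, Δ) :: q => q ++ (List.range (r.ln t (q.length + 1 + r.S - Δ))).map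
      (fun i => (r.gt t (q.length + 1 + r.S - Δ) i, q.length + 1 + i))

/-- initial queue -/
def q0 : List (ℕ × ℕ) := [(r.tI, 0)]

/-- the next step is regular -/
def Reg (B0 : ℕ) : List (ℕ × ℕ) → Prop
  | [] => True
  | (t, Δ) :: q =>
    (q.length + 1 ≤ Δ + B0 ∧ Δ ≤ q.length + 1 + B0) ∧
    (∀ j, 1 ≤ j → j ≤ q.length + 1 + r.S - Δ →
      r.ln t (q.length + 1 + r.S - Δ - j) ≤ r.ln t (q.length + 1 + r.S - Δ) + j) ∧
    (0 < r.ln t (q.length + 1 + r.S - Δ) → r.ln t (q.length + 1 + r.S - Δ + 1) = 0) ∧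
    r.ln t (q.length + 1 + r.S - Δ) ≤ r.I ∧
    (∀ i < r.ln t (q.length + 1 + r.S - Δ), r.gt t (q.length + 1 + r.S - Δ) i < r.Tn)

/-- number of slots -/
def N : ℕ := r.I * r.Tn

/-- event table of a program: slot `e = i Tn + t` is the `i`-th push, of type `t` -/
def Eh (e mh : ℕ) : Bool :=
  decide (e / r.Tn ≤ mh / (4 * r.N + 3) ∧
    e / r.Tn < r.ln (if mh % (4 * r.N + 3) = 0 then r.tI
      else (mh % (4 * r.N + 3) - (2 * r.N + 2)) / 2 % r.Tn) (mh / (4 * r.N + 3) - e / r.Tn) ∧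
    r.gt (if mh % (4 * r.N + 3) = 0 then r.tI
      else (mh % (4 * r.N + 3) - (2 * r.N + 2)) / 2 % r.Tn) (mh / (4 * r.N + 3) - e / r.Tn)
        (e / r.Tn) = e % r.Tn)

/-- hypotheses of step B -/
structure Good (B0 : ℕ) : Prop where
  hTn : 1 ≤ r.Tn
  hI : 1 ≤ r.I
  htI : r.tI < r.Tn
  hB0 : 1 ≤ B0
  hS : r.S = B0 + r.I + 2
  hself : ∀ t i, t < r.Tn → i ≤ r.S → i < r.ln t (r.S - i) → r.gt t (r.S - i) i ≠ t
  hreg : ∀ u, r.Reg B0 (r.step^[u] r.q0)

/-- the clocked machine of a program -/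
def par (β lam pc : ℕ) : Par := ⟨r.N, β, lam, r.S, pc, r.Eh⟩

end Prog

/-! ## Step C: the ring program -/

/-- size of a cell -/
def Qn (A : ℕ) : ℕ := 4 * A + 8

/-- maximal number of pushes -/
def In (A n : ℕ) : ℕ := Qn A * (n + 2) + 4 * A

/-- bound for the length differences at the heads of cells -/
def b0n (A n : ℕ) : ℕ := Qn A * (n + 3) + 4 * A

/-- bound for all length differences -/
def B0n (A n : ℕ) : ℕ := b0n A n + 3 * In A n

/-- shift -/
def Sn (A n : ℕ) : ℕ := B0n A n + In A n + 2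

/-- bound for the offsets -/
def OBn (A n : ℕ) : ℕ := Sn A n + Qn A * (n + 2) + 4 * A + 8

/-- code of a type: kind `k < 8`, symbol `a ≤ A`, offset or state `o < OB`.  Kinds: 0 null,
1 `D(a,o)`, 2 `H(o)`, 3 `P(a,s)`, 4 `PH(s)`, 5 `X1(s)`, 6 `X2(s)`, 7: `o = 0` initial, `o = 1` `H1`,
`o = 2` `H2`, `o = 3` `X3`.  The offsets `o` of kinds 1, 2 are shifted by `S`. -/
def code (A k a o : ℕ) : ℕ := k + 8 * (a + (A + 1) * o)

/-- number of pushes of a reader of kind `k`, symbol `a`, offset `o` at shifted difference `b` -/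
def rln (A : ℕ) (hl : ℕ → Bool) (n S k a o b : ℕ) : ℕ :=
  if k = 1 then
    if o ≤ b ∧ (b - o) % 2 = 0 ∧ (b - o) / 2 ≤ A then
      if (b - o) / 2 = A then Qn A
      else if hl a then Qn A + 2 * A - 2 * ((b - o) / 2)
      else Qn A + 2 * a - 2 * ((b - o) / 2)
    else 0
  else if k = 2 then
    if o ≤ b ∧ (b - o) % 2 = 0 ∧ (b - o) / 2 ≤ A then
      if (b - o) / 2 = A then 4 else 2 * A - 2 * ((b - o) / 2)
    else 0
  else if k = 3 then
    if b + 4 * o + 2 = S + 2 * A ∨ b + 4 * o = S + 2 * A + 2 then Qn A else 0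
  else if k = 4 then
    if b + 4 * o + 2 = S + 2 * A then Qn A + 2 else 0
  else if k = 5 then
    if b + 4 * o = S + 2 * A + 2 then Qn A else 0
  else if k = 6 then
    if o = 0 ∧ b + 2 * A + 2 = S then 2
    else if b + Qn A + 2 * A = S + 2 * o then Qn A else 0
  else if k = 7 then
    if o = 0 then (if b = S + 1 then Qn A * n + 2 else 0)
    else if o = 1 then (if b + 2 * A = S + 2 then 2 else 0)
    else if o = 2 then (if b + Qn A = S then 2 else 0)
    else if o = 3 then (if b + 2 = S then 2 else if b + Qn A = S then Qn A else 0)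
    else 0
  else 0

/-- type of the first push of a reader (not the initial one) -/
def rhd (A : ℕ) (f : ℕ → ℕ → ℕ) (hl : ℕ → Bool) (S k a o b : ℕ) : ℕ :=
  if k = 1 then
    if (b - o) / 2 = A then code A 5 0 A
    else if hl a then code A 5 0 ((b - o) / 2) else code A 3 a ((b - o) / 2)
  else if k = 2 then
    if (b - o) / 2 = A then code A 7 0 1 else code A 4 0 ((b - o) / 2)
  else if k = 3 then
    if b + 4 * o + 2 = S + 2 * A then code A 1 (f o a) (S + Qn A + 2 + 2 * o - 2 * A)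
    else code A 6 0 o
  else if k = 4 then code A 1 (f o 1) (S + Qn A + 2 + 2 * o - 2 * A)
  else if k = 5 then code A 6 0 o
  else if k = 6 then if o = 0 ∧ b + 2 * A + 2 = S then 0 else code A 7 0 3
  else if k = 7 then
    if o = 1 ∨ o = 2 then code A 7 0 2
    else if b + 2 = S then 0 else code A 7 0 3
  else 0

/-- type of the `i`-th push -/
def rgt (A : ℕ) (f : ℕ → ℕ → ℕ) (hl : ℕ → Bool) (w : List ℕ) (S k a o b i : ℕ) : ℕ :=
  if k = 7 ∧ o = 0 then
    if i = Qn A * w.length then code A 2 0 (S + 1)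
    else if i % Qn A = 0 then
      code A 1 (w.getD (i / Qn A) 1) (S + Qn A * (w.length - i / Qn A) + 1)
    else 0
  else if k = 4 ∧ i = Qn A then code A 2 0 (S + 2 + 2 * o - 2 * A)
  else if i = 0 then rhd A f hl S k a o b
  else 0

/-- the ring program of the word automaton `(A, f, hl)` started at `w` -/
def ring (A : ℕ) (f : ℕ → ℕ → ℕ) (hl : ℕ → Bool) (w : List ℕ) : Prog where
  Tn := 8 * (A + 1) * OBn A w.length
  I := In A w.length
  S := Sn A w.length
  tI := code A 7 0 0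
  ln t b := rln A hl w.length (Sn A w.length) (t % 8) (t / 8 % (A + 1)) (t / 8 / (A + 1)) b
  gt t b i := rgt A f hl w (Sn A w.length) (t % 8) (t / 8 % (A + 1)) (t / 8 / (A + 1)) b i

/-! ## Step G: the parameters (`N` slots, shift `S`) -/

def gP (N : ℕ) : ℕ := 4 * N + 3

def gβ (N S : ℕ) : ℕ := 8 * gP N * S + 1

def gOm (N S : ℕ) : ℕ := gP N * (gβ N S - 2) + 2

/-- number of letters x of the first word -/
def gNx (N S : ℕ) : ℕ := gP N * ((gP N + 1) * gOm N S + 1)

def gρ (N S : ℕ) : ℕ :=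
  2 * gNx N S * (gOm N S + gP N - 2) - (gP N - 2) * (gOm N S + 3 * gP N - 2)

def gρ2 (N S : ℕ) : ℕ := (gβ N S - 1) * (2 * gNx N S + 2 - gP N) - 2 * (gP N - 2)

def glam (N S : ℕ) : ℕ := gρ N S * gρ2 N S

/-- the clocked machine with `pc` padding letters -/
def gpar0 (N S : ℕ) (Eh : ℕ → ℕ → Bool) (pc : ℕ) : Par := ⟨N, gβ N S, glam N S, S, pc, Eh⟩

/-- number of padding letters -/
def gpc (N S : ℕ) (Eh : ℕ → ℕ → Bool) : ℕ :=
  gNx N S - cx (gpar0 N S Eh 0).W1 (gpar0 N S Eh 0).l1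

/-- the clocked machine -/
def gpar (N S : ℕ) (Eh : ℕ → ℕ → Bool) : Par := gpar0 N S Eh (gpc N S Eh)

/-- length of the first word -/
def gl1 (N S : ℕ) : ℕ := glam N S * gOm N S + gP N

def gb1 (N S : ℕ) : ℕ := gl1 N S - gNx N S

def gM (N S : ℕ) : ℕ := (2 * glam N S - 1) * gb1 N S - gNx N S

def gA1 (N S : ℕ) : ℕ := (2 * gβ N S - gP N) * glam N S + 2

def gA2 (N S : ℕ) : ℕ := 2 * gβ N S * glam N S + 2

def ga (N S : ℕ) : ℕ := gA2 N S * gb1 N S - gA1 N S

def gb (N S : ℕ) : ℕ := (2 * glam N S - 1) * gA1 N S - gNx N S * gA2 N S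

/-- The three pairs of the word automaton `(A, f, hl)` started at `w`. -/
def instR (A : ℕ) (f : ℕ → ℕ → ℕ) (hl : ℕ → Bool) (w : List ℕ) : Fin 3 → List ℕ × List ℕ :=
  inst3 (Vh (gpar (ring A f hl w).N (Sn A w.length) (ring A f hl w).Eh).W1
      (gl1 (ring A f hl w).N (Sn A w.length)) (glam (ring A f hl w).N (Sn A w.length))
      (gM (ring A f hl w).N (Sn A w.length)) (ga (ring A f hl w).N (Sn A w.length))
      (gb (ring A f hl w).N (Sn A w.length)))
    (gM (ring A f hl w).N (Sn A w.length)) (ga (ring A f hl w).N (Sn A w.length))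
    (gb (ring A f hl w).N (Sn A w.length))

end Pool.Agent.H15.PCP3
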