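import Mathlib
import Pool.Agent.H15.PCP3.Defs

set_option autoImplicit false

/-!
# Module AA: the list of push times

`st T` is the list of the push times `< T` (increasing).  A push at time `T` means
`st (T+1) = st T ++ [T]`; it happens iff `T = 0` or `PC T (st T)`.  `PC` requires `T / P < length` and
`T % P = 2 N + 2 + 2 e` with `e < N` (so `T % P` is even, `2 N + 2 ≤ T % P ≤ 4 N = P - 3`).  After a push
at `T` there is none at `T + 1` (`(T+1) % P` is odd; for `T = 0`: `1 % P = 1`).
`Xs T` (active step at time `T`): a push at `T` or at `T - 1`.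
-/

namespace Pool.Agent.H15.PCP3.Par

open Pool.Agent.H28.PCP (HasSol vl stepW cnt)

variable (p : Par)

/-- push at time `T` -/
def push (T : ℕ) : Bool := decide (T = 0 ∨ p.PC T (p.st T) = true)

/-- active step at time `T` -/
def Xs (T : ℕ) : Bool := p.push T || (decide (1 ≤ T) && p.push (T - 1))

theorem st_succ (T : ℕ) : p.st (T + 1) = if p.push T = true then p.st T ++ [T] else p.st T := by
  simp only [st, push, decide_eq_true_eq]

theorem st_one : p.st 1 = [0] := by
  simp [st]

/-- shape of a push time -/
theorem push_shape (T : ℕ) (h1 : 1 ≤ T) (h : p.push T = true) :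
    T / p.P < (p.st T).length ∧ ∃ e < p.N, T % p.P = 2 * p.N + 2 + 2 * e := by
  simp only [push, decide_eq_true_eq] at h
  rcases h with h | h
  · omega
  · simp only [PC, Bool.and_eq_true, decide_eq_true_eq] at h
    obtain ⟨⟨h2, h3, h4, h5⟩, -⟩ := h
    exact ⟨h2, (T % p.P - (2 * p.N + 2)) / 2, h5, by omega⟩

theorem aa_P_pos : 0 < p.P := by
  unfold P; omega

/-- no push at the times `T` with `T % P` odd, or `T % P < 2 N + 2` (`T ≥ 1`), or `T % P ≥ P - 2` -/
theorem aa_no_push (T : ℕ) (h1 : 1 ≤ T)
    (h : T % p.P % 2 = 1 ∨ T % p.P < 2 * p.N + 2 ∨ 4 * p.N + 1 ≤ T % p.P) :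
    p.push T = false := by
  by_contra hcon
  have hp : p.push T = true := by simpa using hcon
  obtain ⟨-, e, he, h2⟩ := p.push_shape T h1 hp
  omega

theorem push_succ (T : ℕ) (h : p.push T = true) : p.push (T + 1) = false := by
  rcases Nat.eq_zero_or_pos T with h0 | h0
  · subst h0
    refine p.aa_no_push 1 le_rfl ?_
    left
    have : 1 % p.P = 1 := Nat.mod_eq_of_lt (by unfold P; omega)
    rw [this]
  · obtain ⟨-, e, he, h2⟩ := p.push_shape T h0 h
    have h3 : (T + 1) % p.P = T % p.P + 1 := by
      have : T % p.P + 1 < p.P := by unfold P at *; omega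
      rw [Nat.add_mod, Nat.mod_eq_of_lt (a := 1) (by unfold P at *; omega), Nat.mod_eq_of_lt this]
    refine p.aa_no_push (T + 1) (by omega) ?_
    left
    rw [h3, h2]
    omega

theorem aa_prefix_succ (T : ℕ) : p.st T <+: p.st (T + 1) := by
  rw [st_succ]
  split_ifs
  · exact List.prefix_append _ _
  · exact List.prefix_rfl

theorem st_prefix {T T' : ℕ} (h : T ≤ T') : p.st T <+: p.st T' := by
  induction T', h using Nat.le_induction with
  | base => exact List.prefix_rfl
  | succ n hn ih => exact ih.trans (p.aa_prefix_succ n)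

theorem st_len_mono {T T' : ℕ} (h : T ≤ T') : (p.st T).length ≤ (p.st T').length :=
  (p.st_prefix h).length_le

/-- the entry number `g` of the list is the push time `τ` with `g` pushes before it -/
theorem st_get {T g τ : ℕ} (h : (p.st T)[g]? = some τ) :
    τ < T ∧ p.push τ = true ∧ (p.st τ).length = g := by
  induction T with
  | zero => simp [st] at h
  | succ T ih =>
    rw [st_succ] at h
    by_cases hp : p.push T = true
    · rw [if_pos hp] at h
      rcases Nat.lt_or_ge g (p.st T).length with hg | hg
      · rw [List.getElem?_append_left hg] at h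
        obtain ⟨a, b, c⟩ := ih h
        exact ⟨by omega, b, c⟩
      · rw [List.getElem?_append_right hg] at h
        have hg' : g - (p.st T).length = 0 := by
          by_contra hne
          rw [List.getElem?_eq_none (by simp; omega)] at h
          exact absurd h (by simp)
        rw [hg'] at h
        simp only [List.getElem?_cons_zero, Option.some.injEq] at h
        subst h
        exact ⟨by omega, hp, by omega⟩
    · rw [if_neg hp] at h
      obtain ⟨a, b, c⟩ := ih h
      exact ⟨by omega, b, c⟩

theorem st_get_of_push {T τ : ℕ} (h : p.push τ = true) (hT : τ < T) :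
    (p.st T)[(p.st τ).length]? = some τ := by
  obtain ⟨l, hl⟩ := p.st_prefix (show τ + 1 ≤ T from hT)
  rw [← hl, st_succ, if_pos h, List.append_assoc, List.getElem?_append_right le_rfl]
  simp

theorem st_get_zero {T τ : ℕ} (h : (p.st T)[0]? = some τ) : τ = 0 := by
  obtain ⟨-, -, h3⟩ := p.st_get h
  by_contra hne
  have := p.st_len_mono (show 1 ≤ τ by omega)
  rw [st_one, h3] at this
  simp at this

/-- a group `g ≥ 1` is pushed in the window of an earlier group -/
theorem st_get_shape {T g τ : ℕ} (h : (p.st T)[g]? = some τ) (hg : 1 ≤ g) :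
    τ / p.P < g ∧ ∃ e < p.N, τ % p.P = 2 * p.N + 2 + 2 * e := by
  obtain ⟨-, h2, h3⟩ := p.st_get h
  have h1 : 1 ≤ τ := by
    by_contra hne
    have h0 : τ = 0 := by omega
    subst h0
    simp [st] at h3
    omega
  have := p.push_shape τ h1 h2
  rw [h3] at this
  exact this

/-- no push at the times `T` with `T % P` odd, or `T % P < 2 N + 2` (`T ≥ 1`), or `T % P ≥ P - 2` -/
theorem no_push (T : ℕ) (h1 : 1 ≤ T)
    (h : T % p.P % 2 = 1 ∨ T % p.P < 2 * p.N + 2 ∨ 4 * p.N + 1 ≤ T % p.P) :
    p.push T = false := p.aa_no_push T h1 h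

/-- number of active steps before time `T` -/
theorem cnt_Xs (T : ℕ) :
    cnt p.Xs T + (if 1 ≤ T ∧ p.push (T - 1) = true then 1 else 0) = 2 * (p.st T).length := by
  induction T with
  | zero => simp [cnt, st]
  | succ T ih =>
    rw [cnt, Nat.add_sub_cancel]
    by_cases hp : p.push T = true
    · have hx : p.Xs T = true := by simp [Xs, hp]
      have hn : ¬ (1 ≤ T ∧ p.push (T - 1) = true) := by
        rintro ⟨h1, h2⟩
        have h3 := p.push_succ (T - 1) h2
        rw [Nat.sub_add_cancel h1, hp] at h3
        exact absurd h3 (by simp)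
      rw [if_neg hn] at ih
      rw [if_pos hx, if_pos ⟨by omega, hp⟩, st_succ, if_pos hp, List.length_append,
        List.length_singleton]
      omega
    · have e0 : ¬ (1 ≤ T + 1 ∧ p.push T = true) := fun h => hp h.2
      rw [if_neg e0, st_succ, if_neg hp]
      have hx : p.Xs T = true ↔ (1 ≤ T ∧ p.push (T - 1) = true) := by
        simp only [Xs, Bool.or_eq_true, Bool.and_eq_true, decide_eq_true_eq]
        exact ⟨fun h => h.resolve_left hp, fun h => Or.inr h⟩
      by_cases h1 : 1 ≤ T ∧ p.push (T - 1) = true
      · rw [if_pos h1] at ih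
        rw [if_pos (hx.2 h1)]
        omega
      · rw [if_neg h1] at ih
        rw [if_neg (fun h => h1 (hx.1 h))]
        omega

end Pool.Agent.H15.PCP3.Par
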