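import Mathlib
import Pool.Agent.H15.PCP3.Defs

set_option autoImplicit false

/-!
# Module AB: sums over steps

Elementary facts on `xs`, `cnt` and `XTxt`.
-/

namespace Pool.Agent.H15.PCP3

open Pool.Agent.H28.PCP (HasSol vl stepW cnt)

theorem cnt_le (X : ℕ → Bool) (T : ℕ) : cnt X T ≤ T := by
  induction T with
  | zero => simp [cnt]
  | succ T ih =>
    simp only [cnt]
    split_ifs <;> omega

theorem xs_cnt (A B : ℕ) (X : ℕ → Bool) (T : ℕ) :
    xs A B X T + B * cnt X T = A * cnt X T + B * T := by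
  induction T with
  | zero => simp [cnt, xs]
  | succ T ih =>
    simp only [cnt, xs]
    split_ifs
    · simp only [mul_add, mul_one]; omega
    · simp only [mul_add, mul_one, mul_zero]; omega

theorem xs_mono (A B : ℕ) (X : ℕ → Bool) {T T' : ℕ} (h : T ≤ T') : xs A B X T ≤ xs A B X T' := by
  induction h with
  | refl => exact le_rfl
  | step _ ih => exact ih.trans (by simp [xs])

theorem ab_xs_lt_succ {A B : ℕ} (hA : 1 ≤ A) (hB : 1 ≤ B) (X : ℕ → Bool) (T : ℕ) :
    xs A B X T < xs A B X (T + 1) := by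
  simp only [xs]
  split_ifs <;> omega

theorem xs_lt {A B : ℕ} (hA : 1 ≤ A) (hB : 1 ≤ B) (X : ℕ → Bool) {T T' : ℕ} (h : T < T') :
    xs A B X T < xs A B X T' :=
  (ab_xs_lt_succ hA hB X T).trans_le (xs_mono A B X h)

theorem xs_congr (A B : ℕ) {X Y : ℕ → Bool} {T : ℕ} (h : ∀ s < T, X s = Y s) :
    xs A B X T = xs A B Y T := by
  induction T with
  | zero => simp [xs]
  | succ T ih =>
    simp only [xs]
    rw [ih (fun s hs => h s (by omega)), h T (by omega)]

theorem cnt_congr {X Y : ℕ → Bool} {T : ℕ} (h : ∀ s < T, X s = Y s) : cnt X T = cnt Y T := by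
  induction T with
  | zero => simp [cnt]
  | succ T ih =>
    simp only [cnt]
    rw [ih (fun s hs => h s (by omega)), h T (by omega)]

/-- the interval containing a position is unique: evaluation of the letter at `p` -/
theorem xtxt_iff {W1 W2 : ℕ → Bool} {l1 l2 : ℕ} {X : ℕ → Bool} {p t : ℕ}
    (h1 : xs l1 l2 X t ≤ p) (h2 : p < xs l1 l2 X (t + 1)) :
    XTxt W1 W2 l1 l2 X p ↔
      (if X t then W1 (p - xs l1 l2 X t) else W2 (p - xs l1 l2 X t)) = true := by
  constructor
  · rintro ⟨t', h3, h4, h5⟩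
    have h6 : t' = t := by
      by_contra hne
      rcases Nat.lt_or_gt_of_ne hne with hlt | hlt
      · have := xs_mono l1 l2 X (show t' + 1 ≤ t from hlt)
        omega
      · have := xs_mono l1 l2 X (show t + 1 ≤ t' from hlt)
        omega
    subst h6
    exact h5
  · intro h
    exact ⟨t, h1, h2, h⟩

/-- every position of a text is in one of its intervals -/
theorem xs_interval {l1 l2 : ℕ} {X : ℕ → Bool} {p n : ℕ} (h : p < xs l1 l2 X n) :
    ∃ t < n, xs l1 l2 X t ≤ p ∧ p < xs l1 l2 X (t + 1) := by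
  induction n with
  | zero => simp [xs] at h
  | succ n ih =>
    by_cases h1 : p < xs l1 l2 X n
    · obtain ⟨t, ht, h2, h3⟩ := ih h1
      exact ⟨t, by omega, h2, h3⟩
    · exact ⟨n, by omega, by omega, h⟩

end Pool.Agent.H15.PCP3
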