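import Mathlib
import Pool.Agent.H15.PCP3.AA
import Pool.Agent.H15.PCP3.AB

set_option autoImplicit false

/-!
# Module AC1: where a visit lands (first and second copy)

`P = 4 N + 3`, `Om = P β - 2 P + 2`, `l1 = lam Om + P`, `l2 = 2 lam`, `A1 = A2 - P lam`,
`A2 = 2 β lam + 2`, `l1 - l2 = P (lam (β - 2) + 1)`.  Let `X` agree with `Xs` below `T`,
`τ = τ_g` the `g`-th push time, `τ + 1 < T` or (`g = 0`, `1 ≤ T`).  Blocks of the group `g`: step `τ`
(word 1, number `2g` of the active steps: `cnt Xs τ = 2 g`) and step `τ + 1`.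
`len τ = 2 lam τ + P (lam (β-2) + 1) 2 g`, `q = A2 T' - P lam v` with `T' = T + 1 = P g + k`, hence
`q - len τ = lam (β κ - μ) + κ` with `κ = 2 k`, `μ = 2 τ + P (v - 4 g)`, and
`q - len (τ+1) = lam (β κ' - μ') + κ'` with `κ' = 2 k - P`, `μ' = μ - 2 (P - 1)`.
Bounds: `|μ| ≤ 2 Mb + P` (`v = 2 V` or `2 V + 1`, `V` the length of `st T`: `hb1`, `hb2`), `β ≥ 2 Mb + 8 P`.
* `first_copy` (`1 ≤ k ≤ 2 N + 1`, so `κ = 2 k ≤ P - 1 < lam`): `1 ≤ ω = β κ - μ < Om`, the visit is in the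
  interval of the step `τ`.
* `second_copy` (`2 N + 2 ≤ k < P`, `1 ≤ κ' ≤ P - 2`): the same with the step `τ + 1`.
* `boundary` (`k = 0`, `T + 1 = P g`; then no push at `T`, `T - 1`, `v` is `2 V` or `2 V + 1`): put
  `h = μ = 2 τ + P (v - 4 g)` (parity of `h` = parity of `v`), `q = len τ - lam h`.
  - `h ≤ 0`: in the block of step `τ` at offset `lam |h|`: `W1 (lam |h|)`: `κ = 0`, `ω = |h| < Om`: true
    iff `h` is even (also for `h = 0`).
  - `0 < h ≤ 2 * run` where `run` = number of passive steps directly before `τ` (back to the second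
    block of the group `g - 1`, `τ' + 1` with `τ'` the push time number `g - 1`,
    `run = τ - τ' - 2`): `h` even: start of the passive block of step `τ - h/2`: `w2f 0 = true`; `h` odd:
    offset `lam` in the passive block of step `τ - (h+1)/2`: `w2f lam = false`.
  - `h > 2 run`: in the block of step `τ' + 1`, offset `l1 - lam (h - 2 run) = lam ω + P` with
    `ω = Om - (h - 2 run)`, `1 ≤ ω < Om`: `κ = P ≡ 3 mod 4` but `(P - 3)/4 = N` is not `< N`, so no event;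
    letter true iff `(P + ω) % 2 = 0` (and `ω ≠ (β - 1) P` by size) iff `h` even (`Om` is odd as
    `P (β - 2)` is odd: `Om = P (β-2) + 2`).
`g ≥ 1` at the boundary since `T + 1 = P g ≥ 1`; `τ + 1 < T` since `τ / P < g`, `τ % P ≤ 4 N`.
-/

namespace Pool.Agent.H15.PCP3.Par

open Pool.Agent.H28.PCP (HasSol vl stepW cnt)

variable {p : Par} {Mb : ℕ}


/-- facts on the group `g` -/
theorem ac1_facts {X : ℕ → Bool} {T g τ : ℕ} (hX : ∀ s < T, X s = p.Xs s)
    (hτ : (p.st T)[g]? = some τ) :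
    τ < T ∧ X τ = true ∧
      xs p.l1 (2 * p.lam) X τ + 2 * p.lam * (2 * g) = p.l1 * (2 * g) + 2 * p.lam * τ := by
  obtain ⟨h1, h2, h3⟩ := p.st_get hτ
  have hXt : p.Xs τ = true := by
    unfold Xs
    rw [h2, Bool.true_or]
  have hc : cnt p.Xs τ = 2 * g := by
    have h4 := p.cnt_Xs τ
    have h5 : ¬ (1 ≤ τ ∧ p.push (τ - 1) = true) := by
      rintro ⟨h5, h6⟩
      have h7 := p.push_succ (τ - 1) h6
      rw [Nat.sub_add_cancel h5, h2] at h7
      exact Bool.noConfusion h7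
    rw [if_neg h5, add_zero, h3] at h4
    exact h4
  have hc2 : cnt X τ = 2 * g := by
    rw [cnt_congr (fun s hs => hX s (hs.trans h1)), hc]
  refine ⟨h1, by rw [hX τ h1, hXt], ?_⟩
  have h8 := xs_cnt p.l1 (2 * p.lam) X τ
  rw [hc2] at h8
  exact h8

theorem ac1_beta (hp : p.OK Mb) : 2 * p.P ≤ p.β ∧ p.P = 4 * p.N + 3 := by
  have h1 := hp.hβ2
  refine ⟨by omega, rfl⟩

/-- the offset in the block of the step `τ` -/
theorem ac1_off (hp : p.OK Mb) {g k τ v q x T : ℕ}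
    (hgk : T + 1 = p.P * g + k) (hx : x + 2 * p.lam * (2 * g) = p.l1 * (2 * g) + 2 * p.lam * τ)
    (hq : q + p.P * p.lam * v = p.A2 * (T + 1)) :
    (q : ℤ) - x = p.lam * (p.β * (2 * k) - (2 * τ + p.P * ((v : ℤ) - 4 * g))) + 2 * k := by
  obtain ⟨hβ, hP⟩ := ac1_beta hp
  obtain ⟨β2, hβ2⟩ : ∃ β2, p.β = β2 + 2 := ⟨p.β - 2, by omega⟩
  have hOm : p.Om = p.P * β2 + 2 := by
    unfold Om
    rw [hβ2, Nat.add_sub_cancel]
  have h1 : (x : ℤ) + 2 * p.lam * (2 * g) = ((p.lam : ℤ) * (p.P * β2 + 2) + p.P) * (2 * g) +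
      2 * p.lam * τ := by
    have : x + 2 * p.lam * (2 * g) = (p.lam * (p.P * β2 + 2) + p.P) * (2 * g) + 2 * p.lam * τ := by
      rw [hx]
      unfold l1
      rw [hOm]
    exact_mod_cast this
  have h2 : (q : ℤ) + p.P * p.lam * v = (2 * ((β2 : ℤ) + 2) * p.lam + 2) * (p.P * g + k) := by
    have : q + p.P * p.lam * v = (2 * (β2 + 2) * p.lam + 2) * (p.P * g + k) := by
      rw [hq, hgk]
      unfold A2
      rw [hβ2]
    exact_mod_cast this
  have h3 : (p.β : ℤ) = β2 + 2 := by rw [hβ2]; push_cast; ring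
  rw [h3]
  linear_combination h2 - h1

/-- the visit is in the first copy of the group `g` -/
theorem first_copy (hp : p.OK Mb) {X : ℕ → Bool} {T g k τ v q : ℕ} (hT : 1 ≤ T)
    (hX : ∀ s < T, X s = p.Xs s) (hgk : T + 1 = p.P * g + k) (hτ : (p.st T)[g]? = some τ)
    (hv : v = 2 * (p.st T).length ∨ v = 2 * (p.st T).length + 1 ∨
      v + 1 = 2 * (p.st T).length)
    (hb1 : 2 * p.P * g ≤ τ + p.P * (p.st T).length + Mb)
    (hb2 : τ + p.P * (p.st T).length ≤ 2 * p.P * g + Mb)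
    (hq : q + p.P * p.lam * v = p.A2 * (T + 1)) (hk1 : 1 ≤ k) (hk2 : k ≤ 2 * p.N + 1) :
    ∃ ω : ℕ, (ω : ℤ) = p.β * (2 * k) - (2 * τ + p.P * ((v : ℤ) - 4 * g)) ∧ 1 ≤ ω ∧ ω < p.Om ∧
      (XTxt p.W1 (w2f p.lam) p.l1 (2 * p.lam) X q ↔ p.W1 (p.lam * ω + 2 * k) = true) := by
  obtain ⟨hτT, hXτ, hx⟩ := ac1_facts hX hτ
  obtain ⟨hβ, hP⟩ := ac1_beta hp
  have hoff := ac1_off hp hgk hx hq
  set μ : ℤ := 2 * τ + p.P * ((v : ℤ) - 4 * g) with hμ
  set V := (p.st T).length with hV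
  have hPz : (p.P : ℤ) = 4 * p.N + 3 := by rw [hP]; push_cast; ring
  have hPv : (p.P : ℤ) * v ≤ 2 * (p.P * V) + p.P ∧ 2 * ((p.P : ℤ) * V) - p.P ≤ p.P * v := by
    rcases hv with hv | hv | hv
    · subst hv
      push_cast
      constructor <;> nlinarith
    · subst hv
      push_cast
      constructor <;> nlinarith
    · have : (v : ℤ) = 2 * V - 1 := by omega
      rw [this]
      constructor <;> nlinarith
  have hb1z : 2 * ((p.P : ℤ) * g) ≤ τ + p.P * V + Mb := by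
    have : 2 * (p.P * g) ≤ τ + p.P * V + Mb := by
      rw [← mul_assoc]
      exact hb1
    exact_mod_cast this
  have hb2z : (τ : ℤ) + p.P * V ≤ 2 * (p.P * g) + Mb := by
    have : τ + p.P * V ≤ 2 * (p.P * g) + Mb := by
      rw [← mul_assoc]
      exact hb2
    exact_mod_cast this
  have hμ1 : μ ≤ 2 * Mb + p.P := by
    have e : μ = 2 * τ + p.P * v - 4 * (p.P * g) := by rw [hμ]; ring
    rw [e]
    linarith [hPv.1]
  have hμ2 : -(2 * Mb + (p.P : ℤ)) ≤ μ := by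
    have e : μ = 2 * τ + p.P * v - 4 * (p.P * g) := by rw [hμ]; ring
    rw [e]
    linarith [hPv.2]
  have hβz : 2 * (Mb : ℤ) + 8 * p.P ≤ p.β := by exact_mod_cast hp.hβ2
  have hβ0 : (0 : ℤ) ≤ p.β := by positivity
  have hk1z : (1 : ℤ) ≤ k := by exact_mod_cast hk1
  have hk2z : 2 * (k : ℤ) ≤ p.P - 1 := by
    rw [hPz]
    have : (k : ℤ) ≤ 2 * p.N + 1 := by exact_mod_cast hk2
    linarith
  have hN0 : (0 : ℤ) ≤ p.N := by positivity
  have hlow : 1 ≤ (p.β : ℤ) * (2 * k) - μ := by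
    have : (p.β : ℤ) * 2 ≤ p.β * (2 * k) := by
      apply mul_le_mul_of_nonneg_left _ hβ0
      linarith
    nlinarith
  have hup : (p.β : ℤ) * (2 * k) - μ < p.P * (p.β - 2) + 2 := by
    have : (p.β : ℤ) * (2 * k) ≤ p.β * (p.P - 1) := mul_le_mul_of_nonneg_left hk2z hβ0
    nlinarith
  obtain ⟨ω, hω⟩ := Int.eq_ofNat_of_zero_le (show (0 : ℤ) ≤ p.β * (2 * k) - μ by linarith)
  have hOmz : (p.Om : ℤ) = p.P * (p.β - 2) + 2 := by
    unfold Om
    have : 2 ≤ p.β := by omega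
    push_cast [this]
    ring
  have hω1 : 1 ≤ ω := by
    have : (1 : ℤ) ≤ ω := by rw [← hω]; exact hlow
    exact_mod_cast this
  have hω2 : ω < p.Om := by
    have : (ω : ℤ) < p.Om := by rw [← hω, hOmz]; exact hup
    exact_mod_cast this
  refine ⟨ω, hω.symm, hω1, hω2, ?_⟩
  rw [hω] at hoff
  have hqx : q = xs p.l1 (2 * p.lam) X τ + (p.lam * ω + 2 * k) := by
    have : (q : ℤ) = ((xs p.l1 (2 * p.lam) X τ + (p.lam * ω + 2 * k) : ℕ) : ℤ) := by
      push_cast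
      linarith
    exact_mod_cast this
  have hlam := hp.hlam
  have h2k : 2 * k < p.lam := by omega
  have hmul : p.lam * (ω + 1) ≤ p.lam * p.Om := Nat.mul_le_mul_left _ hω2
  have hl1 : p.lam * ω + 2 * k < p.l1 := by
    unfold l1
    rw [mul_add, mul_one] at hmul
    omega
  rw [xtxt_iff (t := τ) (by omega) (by
    show q < xs p.l1 (2 * p.lam) X τ + (if X τ then p.l1 else 2 * p.lam)
    rw [hXτ, if_pos rfl]
    omega), hXτ, if_pos rfl]
  have : q - xs p.l1 (2 * p.lam) X τ = p.lam * ω + 2 * k := by omega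
  rw [this]

/-- the visit is in the second copy of the group `g` -/
theorem second_copy (hp : p.OK Mb) {X : ℕ → Bool} {T g k τ v q : ℕ} (hT : 1 ≤ T)
    (hX : ∀ s < T, X s = p.Xs s) (hgk : T + 1 = p.P * g + k) (hτ : (p.st T)[g]? = some τ)
    (hv : v = 2 * (p.st T).length ∨ v = 2 * (p.st T).length + 1 ∨
      v + 1 = 2 * (p.st T).length)
    (hb1 : 2 * p.P * g ≤ τ + p.P * (p.st T).length + Mb)
    (hb2 : τ + p.P * (p.st T).length ≤ 2 * p.P * g + Mb)
    (hq : q + p.P * p.lam * v = p.A2 * (T + 1)) (hk1 : 2 * p.N + 2 ≤ k) (hk2 : k < p.P) :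
    ∃ ω : ℕ, (ω : ℤ) = p.β * (2 * k - p.P) - (2 * τ + p.P * ((v : ℤ) - 4 * g) - 2 * (p.P - 1)) ∧
      1 ≤ ω ∧ ω < p.Om ∧
      (XTxt p.W1 (w2f p.lam) p.l1 (2 * p.lam) X q ↔
        p.W1 (p.lam * ω + (2 * k - p.P)) = true) := by
  obtain ⟨hτT, hXτ, hx⟩ := ac1_facts hX hτ
  obtain ⟨hβ, hP⟩ := ac1_beta hp
  have hoff := ac1_off hp hgk hx hq
  set μ : ℤ := 2 * τ + p.P * ((v : ℤ) - 4 * g) with hμ
  set V := (p.st T).length with hV
  have hPz : (p.P : ℤ) = 4 * p.N + 3 := by rw [hP]; push_cast; ring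
  have hPv : (p.P : ℤ) * v ≤ 2 * (p.P * V) + p.P ∧ 2 * ((p.P : ℤ) * V) - p.P ≤ p.P * v := by
    rcases hv with hv | hv | hv
    · subst hv
      push_cast
      constructor <;> nlinarith
    · subst hv
      push_cast
      constructor <;> nlinarith
    · have : (v : ℤ) = 2 * V - 1 := by omega
      rw [this]
      constructor <;> nlinarith
  have hb1z : 2 * ((p.P : ℤ) * g) ≤ τ + p.P * V + Mb := by
    have : 2 * (p.P * g) ≤ τ + p.P * V + Mb := by
      rw [← mul_assoc]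
      exact hb1
    exact_mod_cast this
  have hb2z : (τ : ℤ) + p.P * V ≤ 2 * (p.P * g) + Mb := by
    have : τ + p.P * V ≤ 2 * (p.P * g) + Mb := by
      rw [← mul_assoc]
      exact hb2
    exact_mod_cast this
  have hμ1 : μ ≤ 2 * Mb + p.P := by
    have e : μ = 2 * τ + p.P * v - 4 * (p.P * g) := by rw [hμ]; ring
    rw [e]
    linarith [hPv.1]
  have hμ2 : -(2 * Mb + (p.P : ℤ)) ≤ μ := by
    have e : μ = 2 * τ + p.P * v - 4 * (p.P * g) := by rw [hμ]; ring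
    rw [e]
    linarith [hPv.2]
  have hβz : 2 * (Mb : ℤ) + 8 * p.P ≤ p.β := by exact_mod_cast hp.hβ2
  have hβ0 : (0 : ℤ) ≤ p.β := by positivity
  have hN0 : (0 : ℤ) ≤ p.N := by positivity
  have hk1z : (1 : ℤ) ≤ 2 * k - p.P := by
    rw [hPz]
    have : 2 * (p.N : ℤ) + 2 ≤ k := by exact_mod_cast hk1
    linarith
  have hk2z : 2 * (k : ℤ) - p.P ≤ p.P - 2 := by
    have : (k : ℤ) + 1 ≤ p.P := by exact_mod_cast hk2
    linarith
  have hlow : 1 ≤ (p.β : ℤ) * (2 * k - p.P) - (μ - 2 * (p.P - 1)) := by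
    have : (p.β : ℤ) * 1 ≤ p.β * (2 * k - p.P) := mul_le_mul_of_nonneg_left hk1z hβ0
    nlinarith
  have hup : (p.β : ℤ) * (2 * k - p.P) - (μ - 2 * (p.P - 1)) < p.P * (p.β - 2) + 2 := by
    have : (p.β : ℤ) * (2 * k - p.P) ≤ p.β * (p.P - 2) := mul_le_mul_of_nonneg_left hk2z hβ0
    nlinarith
  obtain ⟨ω, hω⟩ := Int.eq_ofNat_of_zero_le
    (show (0 : ℤ) ≤ p.β * (2 * k - p.P) - (μ - 2 * (p.P - 1)) by linarith)
  have hOmz : (p.Om : ℤ) = p.P * (p.β - 2) + 2 := by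
    unfold Om
    have : 2 ≤ p.β := by omega
    push_cast [this]
    ring
  have hω1 : 1 ≤ ω := by
    have : (1 : ℤ) ≤ ω := by rw [← hω]; exact hlow
    exact_mod_cast this
  have hω2 : ω < p.Om := by
    have : (ω : ℤ) < p.Om := by rw [← hω, hOmz]; exact hup
    exact_mod_cast this
  refine ⟨ω, hω.symm, hω1, hω2, ?_⟩
  have hxs1 : xs p.l1 (2 * p.lam) X (τ + 1) = xs p.l1 (2 * p.lam) X τ + p.l1 := by
    show xs p.l1 (2 * p.lam) X τ + (if X τ then p.l1 else 2 * p.lam) = _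
    rw [hXτ, if_pos rfl]
  have hl1z : (p.l1 : ℤ) = p.lam * (p.P * (p.β - 2) + 2) + p.P := by
    unfold l1
    push_cast
    rw [hOmz]
  have h2kP : p.P ≤ 2 * k := by omega
  have hqx : q = xs p.l1 (2 * p.lam) X (τ + 1) + (p.lam * ω + (2 * k - p.P)) := by
    have : (q : ℤ) = ((xs p.l1 (2 * p.lam) X (τ + 1) + (p.lam * ω + (2 * k - p.P)) : ℕ) : ℤ) := by
      rw [hxs1]
      push_cast [h2kP]
      have e1 : (p.lam : ℤ) * ω = p.lam * (p.β * (2 * k - p.P) - (μ - 2 * (p.P - 1))) := by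
        rw [hω]
      rw [hl1z, e1]
      linear_combination hoff
    exact_mod_cast this
  -- the step `τ + 1` is active
  have hτ1 : τ + 1 < T := by
    rcases Nat.eq_zero_or_pos g with hg | hg
    · subst hg
      have := p.st_get_zero hτ
      have := hp.hN
      omega
    · obtain ⟨h1, _⟩ := p.st_get_shape hτ hg
      have hP0 : 0 < p.P := by omega
      have h2 : τ < p.P * g := by
        rw [Nat.div_lt_iff_lt_mul hP0] at h1
        rw [mul_comm]
        exact h1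
      have := hp.hN
      omega
  have hX1 : X (τ + 1) = true := by
    rw [hX _ hτ1]
    obtain ⟨_, h2, _⟩ := p.st_get hτ
    unfold Xs
    rw [Nat.add_sub_cancel, h2]
    simp
  have hlam := hp.hlam
  have h2k : 2 * k - p.P < p.lam := by omega
  have hmul : p.lam * (ω + 1) ≤ p.lam * p.Om := Nat.mul_le_mul_left _ hω2
  have hl1 : p.lam * ω + (2 * k - p.P) < p.l1 := by
    unfold l1
    rw [mul_add, mul_one] at hmul
    omega
  rw [xtxt_iff (t := τ + 1) (by omega) (by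
    show q < xs p.l1 (2 * p.lam) X (τ + 1) + (if X (τ + 1) then p.l1 else 2 * p.lam)
    rw [hX1, if_pos rfl]
    omega), hX1, if_pos rfl]
  have : q - xs p.l1 (2 * p.lam) X (τ + 1) = p.lam * ω + (2 * k - p.P) := by omega
  rw [this]

end Pool.Agent.H15.PCP3.Par
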