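import Mathlib
import Pool.Agent.H15.PCP3.AA
import Pool.Agent.H15.PCP3.AB

set_option autoImplicit false

/-!
# Module AC2: where a visit lands (boundary)

`P = 4 N + 3`, `Om = P β - 2 P + 2`, `l1 = lam Om + P`, `l2 = 2 lam`, `A1 = A2 - P lam`,
`A2 = 2 β lam + 2`, `l1 - l2 = P (lam (β - 2) + 1)`.  Let `X` agree with `Xs` below `T`,
`τ = τ_g` the `g`-th push time, `τ + 1 < T` or (`g = 0`, `1 ≤ T`).  Blocks of the group `g`: step `τ`
(word 1, number `2g` of the active steps: `cnt Xs τ = 2 g`) and step `τ + 1`.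
`len τ = 2 lam τ + P (lam (β-2) + 1) 2 g`, `q = A2 T' - P lam v` with `T' = T + 1 = P g + k`, hence
`q - len τ = lam (β κ - μ) + κ` with `κ = 2 k`, `μ = 2 τ + P (v - 4 g)`, and
`q - len (τ+1) = lam (β κ' - μ') + κ'` with `κ' = 2 k - P`, `μ' = μ - 2 (P - 1)`.
Bounds: `|μ| ≤ 2 Mb + P` (`v = 2 V` or `2 V + 1`, `V` the length of `st T`: `hb1`, `hb2`), `β ≥ 2 Mb + 8 P`.
* `first_copy` (`1 ≤ k ≤ 2 N + 1`, so `κ = 2 k ≤ P - 1 < lam`): `1 ≤ ω = β κ - μ < Om`, the visit is in the
  interval of the step `τ`.
* `second_copy` (`2 N + 2 ≤ k < P`, `1 ≤ κ' ≤ P - 2`): the same with the step `τ + 1`.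
* `boundary` (`k = 0`, `T + 1 = P g`; then no push at `T`, `T - 1`, `v` is `2 V` or `2 V + 1`): put
  `h = μ = 2 τ + P (v - 4 g)` (parity of `h` = parity of `v`), `q = len τ - lam h`.
  - `h ≤ 0`: in the block of step `τ` at offset `lam |h|`: `W1 (lam |h|)`: `κ = 0`, `ω = |h| < Om`: true
    iff `h` is even (also for `h = 0`).
  - `0 < h ≤ 2 * run` where `run` = number of passive steps directly before `τ` (back to the second
    block of the group `g - 1`, `τ' + 1` with `τ'` the push time number `g - 1`,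
    `run = τ - τ' - 2`): `h` even: start of the passive block of step `τ - h/2`: `w2f 0 = true`; `h` odd:
    offset `lam` in the passive block of step `τ - (h+1)/2`: `w2f lam = false`.
  - `h > 2 run`: in the block of step `τ' + 1`, offset `l1 - lam (h - 2 run) = lam ω + P` with
    `ω = Om - (h - 2 run)`, `1 ≤ ω < Om`: `κ = P ≡ 3 mod 4` but `(P - 3)/4 = N` is not `< N`, so no event;
    letter true iff `(P + ω) % 2 = 0` (and `ω ≠ (β - 1) P` by size) iff `h` even (`Om` is odd as
    `P (β - 2)` is odd: `Om = P (β-2) + 2`).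
`g ≥ 1` at the boundary since `T + 1 = P g ≥ 1`; `τ + 1 < T` since `τ / P < g`, `τ % P ≤ 4 N`.
-/

namespace Pool.Agent.H15.PCP3.Par

open Pool.Agent.H28.PCP (HasSol vl stepW cnt)

variable {p : Par} {Mb : ℕ}

theorem ac2_W1a (hp : p.OK Mb) {m : ℕ} (h1 : 1 ≤ m) (h2 : m < p.Om) :
    p.W1 (p.lam * m) = true ↔ m % 2 = 0 := by
  have hlam := hp.hlam
  have hP : p.P = 4 * p.N + 3 := rfl
  have hlam0 : 0 < p.lam := by omega
  have hmod : p.lam * m % p.lam = 0 := Nat.mul_mod_right _ _
  have hdiv : p.lam * m / p.lam = m := Nat.mul_div_cancel_left m hlam0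
  have h3 : p.lam * m ≠ 0 := by positivity
  have h4 : ¬ (p.lam + p.P + 1 ≤ p.lam * m ∧ p.lam * m < p.lam + p.P + 1 + p.pc) := by
    rintro ⟨h5, h6⟩
    rcases Nat.lt_or_ge m 2 with hm | hm
    · have : m = 1 := by omega
      subst this
      omega
    · have : p.lam * 2 ≤ p.lam * m := Nat.mul_le_mul_left _ hm
      omega
  have h5 : ¬ (p.P < p.lam * m % p.lam ∨ p.lam * m / p.lam = 0 ∨ p.Om ≤ p.lam * m / p.lam) := by
    rw [hmod, hdiv]
    omega
  have h6 : ¬ (p.lam * m % p.lam = 2 ∧ p.lam * m / p.lam + p.P = 2 * p.β) := by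
    rw [hmod]
    omega
  have h7 : ∀ w, p.Ev 0 w = false := by
    intro w
    unfold Ev
    simp
  unfold W1
  rw [if_neg h3, if_neg h4, if_neg h5, if_neg h6, hmod, hdiv, h7, h7]
  simp only [Bool.false_eq_true, if_false, decide_eq_true_eq, Nat.mul_zero]
  omega

theorem ac2_W1b (hp : p.OK Mb) {ω : ℕ} (h1 : 1 ≤ ω) (h2 : ω < p.Om) :
    p.W1 (p.lam * ω + p.P) = true ↔ ω % 2 = 1 := by
  have hlam := hp.hlam
  have hN := hp.hN
  have hP : p.P = 4 * p.N + 3 := rfl
  have hβ := hp.hβ2
  have hlam0 : 0 < p.lam := by omega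
  have hPl : p.P < p.lam := by omega
  have hmod : (p.lam * ω + p.P) % p.lam = p.P := by
    rw [Nat.mul_add_mod, Nat.mod_eq_of_lt hPl]
  have hdiv : (p.lam * ω + p.P) / p.lam = ω := by
    rw [Nat.mul_add_div hlam0, Nat.div_eq_of_lt hPl, add_zero]
  have h3 : p.lam * ω + p.P ≠ 0 := by positivity
  have h4 : ¬ (p.lam + p.P + 1 ≤ p.lam * ω + p.P ∧
      p.lam * ω + p.P < p.lam + p.P + 1 + p.pc) := by
    rintro ⟨h5, h6⟩
    rcases Nat.lt_or_ge ω 2 with hm | hm
    · have : ω = 1 := by omega
      subst this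
      omega
    · have : p.lam * 2 ≤ p.lam * ω := Nat.mul_le_mul_left _ hm
      omega
  have h5 : ¬ (p.P < (p.lam * ω + p.P) % p.lam ∨ (p.lam * ω + p.P) / p.lam = 0 ∨
      p.Om ≤ (p.lam * ω + p.P) / p.lam) := by
    rw [hmod, hdiv]
    omega
  have h6 : ¬ ((p.lam * ω + p.P) % p.lam = 2 ∧ (p.lam * ω + p.P) / p.lam + p.P = 2 * p.β) := by
    rw [hmod]
    omega
  have h7 : ∀ w, p.Ev p.P w = false := by
    intro w
    unfold Ev
    have : (p.P - 3) / 4 = p.N := by omega
    rw [this]
    simp
  have h8 : ω ≠ (p.β - 1) * p.P := by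
    have e : p.Om = p.P * (p.β - 2) + 2 := rfl
    have e2 : (p.β - 1) * p.P = p.P * (p.β - 2) + p.P := by
      have : p.β - 1 = (p.β - 2) + 1 := by omega
      rw [this]
      ring
    omega
  unfold W1
  rw [if_neg h3, if_neg h4, if_neg h5, if_neg h6, hmod, hdiv, h7, h7]
  simp only [Bool.false_eq_true, if_false, decide_eq_true_eq]
  constructor
  · rintro ⟨h9, _⟩
    omega
  · intro h9
    exact ⟨by omega, h8⟩

/-- the visit is at the boundary of two windows -/
theorem boundary (hp : p.OK Mb) {X : ℕ → Bool} {T g τ v q : ℕ} (hT : 1 ≤ T)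
    (hX : ∀ s < T, X s = p.Xs s) (hgk : T + 1 = p.P * g) (hτ : (p.st T)[g]? = some τ)
    (hv : v = 2 * (p.st T).length ∨ v = 2 * (p.st T).length + 1)
    (hb1 : 2 * p.P * g ≤ τ + p.P * (p.st T).length + Mb)
    (hb2 : τ + p.P * (p.st T).length ≤ 2 * p.P * g + Mb)
    (hq : q + p.P * p.lam * v = p.A2 * (T + 1)) :
    XTxt p.W1 (w2f p.lam) p.l1 (2 * p.lam) X q ↔ v % 2 = 0 := by
  have hN := hp.hN
  have hP : p.P = 4 * p.N + 3 := rfl
  have hlam := hp.hlam
  have hβ1 := hp.hβ1
  have hβ2 := hp.hβ2
  have hg1 : 1 ≤ g := by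
    rcases Nat.eq_zero_or_pos g with h | h
    · subst h
      omega
    · exact h
  obtain ⟨hτT, hpush, hlenτ⟩ := p.st_get hτ
  obtain ⟨hτg, e, he, hτe⟩ := p.st_get_shape hτ hg1
  -- the push time is two before the end
  have hτ2 : τ + 2 ≤ T := by
    have h1 : p.P * (τ / p.P) + τ % p.P = τ := Nat.div_add_mod _ _
    have h2 : p.P * (τ / p.P + 1) ≤ p.P * g := Nat.mul_le_mul_left _ hτg
    rw [Nat.mul_add, Nat.mul_one] at h2
    omega
  have hτ1 : 1 ≤ τ := by
    have h1 := Nat.mod_le τ p.P
    omega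
  -- number of active steps before the push time
  have hcntτ : cnt X τ = 2 * g := by
    rw [cnt_congr (Y := p.Xs) (fun s hs => hX s (by omega))]
    have h1 := p.cnt_Xs τ
    have h2 : ¬ (1 ≤ τ ∧ p.push (τ - 1) = true) := by
      rintro ⟨_, h3⟩
      have h4 := p.push_succ _ h3
      rw [Nat.sub_add_cancel hτ1, hpush] at h4
      exact Bool.noConfusion h4
    rw [if_neg h2, hlenτ] at h1
    exact h1
  have hl1 : p.l1 = p.lam * p.Om + p.P := rfl
  have hOm : p.Om = p.P * (p.β - 2) + 2 := rfl
  have hA2 : p.A2 = 2 * p.β * p.lam + 2 := rfl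
  obtain ⟨b, hb⟩ : ∃ b, p.β = b + 2 := ⟨p.β - 2, by omega⟩
  have hOm' : p.Om = p.P * b + 2 := by
    rw [hOm, hb, Nat.add_sub_cancel]
  have hPb : b ≤ p.P * b := Nat.le_mul_of_pos_left _ (by omega)
  set len := xs p.l1 (2 * p.lam) X τ with hlen
  have hlen' : len = 2 * g * (p.lam * p.P * b + p.P) + 2 * p.lam * τ := by
    have h1 := xs_cnt p.l1 (2 * p.lam) X τ
    rw [hcntτ, ← hlen, hl1, hOm'] at h1
    zify at h1 ⊢
    linear_combination h1
  have hq' : q + p.lam * (2 * τ + p.P * v) = len + p.lam * (4 * (g * p.P)) := by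
    rw [hgk, hA2, hb] at hq
    rw [hlen']
    zify at hq ⊢
    linear_combination hq
  have hPv : p.P * v = 2 * ((2 * p.N + 1) * v) + v := by
    rw [hP]
    ring
  have hXτ : X τ = true := by
    rw [hX τ (by omega)]
    unfold Xs
    rw [hpush]
    rfl
  have hv1 : p.P * (2 * (p.st T).length) ≤ p.P * v := Nat.mul_le_mul_left _ (by omega)
  have hv2 : p.P * v ≤ p.P * (2 * (p.st T).length + 1) := Nat.mul_le_mul_left _ (by omega)
  have e1 : p.P * (2 * (p.st T).length) = 2 * (p.P * (p.st T).length) := by ring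
  have e2 : p.P * (2 * (p.st T).length + 1) = 2 * (p.P * (p.st T).length) + p.P := by ring
  have e3 : 2 * p.P * g = 2 * (g * p.P) := by ring
  rw [e3] at hb1 hb2
  rw [e1] at hv1
  rw [e2] at hv2
  rcases Nat.lt_or_ge (4 * (g * p.P)) (2 * τ + p.P * v) with hcase | hcase
  · -- positive shift
    obtain ⟨h, hh⟩ : ∃ h, 2 * τ + p.P * v = 4 * (g * p.P) + h :=
      ⟨2 * τ + p.P * v - 4 * (g * p.P), by omega⟩
    have hqh : q + p.lam * h = len := by
      rw [hh, Nat.mul_add] at hq'
      omega
    have hhpos : 1 ≤ h := by omega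
    have hpar : h % 2 = v % 2 := by omega
    have hhle : h ≤ 2 * Mb + p.P := by omega
    -- the previous push
    have hglt : g < (p.st T).length := (List.getElem?_eq_some_iff.1 hτ).1
    obtain ⟨τ', hτ'⟩ : ∃ τ', (p.st T)[g - 1]? = some τ' :=
      ⟨_, List.getElem?_eq_getElem (by omega)⟩
    obtain ⟨hτT', hpush', hlenτ'⟩ := p.st_get hτ'
    have hlen1 : (p.st (τ' + 1)).length = g := by
      rw [p.st_succ, if_pos hpush', List.length_append, hlenτ']
      simp only [List.length_cons, List.length_nil]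
      omega
    have hτlt : τ' < τ := by
      by_contra hge
      have h1 := p.st_len_mono (Nat.le_of_not_lt hge)
      omega
    have hτne : τ ≠ τ' + 1 := by
      intro heq
      have h1 := p.push_succ _ hpush'
      rw [← heq, hpush] at h1
      exact Bool.noConfusion h1
    have hnopush : ∀ s, τ' < s → s < τ → p.push s = false := by
      intro s hs1 hs2
      by_contra hps
      have hps' : p.push s = true := by
        cases hc : p.push s
        · exact absurd hc hps
        · rfl
      have h1 : (p.st (s + 1)).length = (p.st s).length + 1 := by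
        rw [p.st_succ, if_pos hps', List.length_append]
        rfl
      have h2 := p.st_len_mono (show τ' + 1 ≤ s by omega)
      have h3 := p.st_len_mono (show s + 1 ≤ τ by omega)
      omega
    have hpass : ∀ s, τ' + 2 ≤ s → s < τ → X s = false := by
      intro s hs1 hs2
      rw [hX s (by omega)]
      unfold Xs
      rw [hnopush s (by omega) hs2, hnopush (s - 1) (by omega) (by omega)]
      simp
    -- the passive blocks
    have hblock : ∀ j, τ' + 2 + j ≤ τ →
        xs p.l1 (2 * p.lam) X (τ' + 2 + j) = xs p.l1 (2 * p.lam) X (τ' + 2) + 2 * p.lam * j := by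
      intro j
      induction j with
      | zero => intro _; simp
      | succ j ih =>
        intro hj
        have h1 := ih (by omega)
        rw [← Nat.add_assoc]
        show xs p.l1 (2 * p.lam) X (τ' + 2 + j) + (if X (τ' + 2 + j) then p.l1 else 2 * p.lam) = _
        rw [hpass _ (by omega) (by omega), h1]
        simp only [Bool.false_eq_true, if_false]
        ring
    obtain ⟨run, hrun⟩ : ∃ run, τ = τ' + 2 + run := ⟨τ - τ' - 2, by omega⟩
    have hlenrun : len = xs p.l1 (2 * p.lam) X (τ' + 2) + 2 * p.lam * run := by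
      rw [hlen, hrun]
      exact hblock run (by omega)
    rcases Nat.lt_or_ge (2 * run) h with hr | hr
    · -- in the second block of the previous group
      obtain ⟨r', hr'⟩ : ∃ r', h = 2 * run + r' := ⟨h - 2 * run, by omega⟩
      have hX1 : X (τ' + 1) = true := by
        rw [hX _ (by omega)]
        unfold Xs
        rw [Nat.add_sub_cancel, hpush']
        simp
      have hlen2 : xs p.l1 (2 * p.lam) X (τ' + 2) = xs p.l1 (2 * p.lam) X (τ' + 1) + p.l1 := by
        show xs p.l1 (2 * p.lam) X (τ' + 1) + (if X (τ' + 1) then p.l1 else 2 * p.lam) = _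
        rw [hX1]
        rfl
      obtain ⟨ω, hω⟩ : ∃ ω, p.Om = ω + r' := ⟨p.Om - r', by omega⟩
      have hω1 : 1 ≤ ω := by omega
      have hω2 : ω < p.Om := by omega
      have hqpos : q = xs p.l1 (2 * p.lam) X (τ' + 1) + (p.lam * ω + p.P) := by
        have h1 : p.lam * h = p.lam * (2 * run) + p.lam * r' := by rw [hr', Nat.mul_add]
        have h2 : p.l1 = p.lam * ω + p.lam * r' + p.P := by rw [hl1, hω, Nat.mul_add]
        have h3 : 2 * p.lam * run = p.lam * (2 * run) := by ring
        omega
      have hlt : p.lam * ω + p.P < p.l1 := by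
        rw [hl1]
        have : p.lam * ω < p.lam * p.Om := Nat.mul_lt_mul_of_pos_left hω2 (by omega)
        omega
      rw [xtxt_iff (t := τ' + 1) (by omega) (by rw [hlen2]; omega), hX1, if_pos rfl]
      have hsub : q - xs p.l1 (2 * p.lam) X (τ' + 1) = p.lam * ω + p.P := by omega
      rw [hsub, ac2_W1b hp hω1 hω2]
      have hb2' : b % 2 = 1 := by omega
      have hPb2 : (p.P * b) % 2 = 1 := by
        rw [Nat.mul_mod, hb2', hP]
        omega
      omega
    · -- in a passive block
      rcases Nat.even_or_odd' h with ⟨m, hm | hm⟩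
      · have hms : xs p.l1 (2 * p.lam) X (τ' + 2 + (run - m)) = q := by
          rw [hblock _ (by omega)]
          have h1 : 2 * p.lam * run = 2 * p.lam * (run - m) + 2 * p.lam * m := by
            rw [← Nat.mul_add, Nat.sub_add_cancel (by omega)]
          have h2 : p.lam * h = 2 * p.lam * m := by rw [hm]; ring
          omega
        have hXm : X (τ' + 2 + (run - m)) = false := hpass _ (by omega) (by omega)
        have hnext : xs p.l1 (2 * p.lam) X (τ' + 2 + (run - m) + 1) = q + 2 * p.lam := by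
          show xs p.l1 (2 * p.lam) X (τ' + 2 + (run - m)) +
            (if X (τ' + 2 + (run - m)) then p.l1 else 2 * p.lam) = _
          rw [hXm, hms]
          rfl
        rw [xtxt_iff (t := τ' + 2 + (run - m)) hms.le (by rw [hnext]; omega), hXm, hms,
          Nat.sub_self]
        simp only [Bool.false_eq_true, if_false]
        unfold w2f
        have : (0 : ℕ) ≠ p.lam := by omega
        rw [decide_eq_true_eq]
        constructor
        · intro _
          omega
        · intro _
          exact this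
      · have hms : xs p.l1 (2 * p.lam) X (τ' + 2 + (run - (m + 1))) + p.lam = q := by
          rw [hblock _ (by omega)]
          have h1 : 2 * p.lam * run = 2 * p.lam * (run - (m + 1)) + 2 * p.lam * (m + 1) := by
            rw [← Nat.mul_add, Nat.sub_add_cancel (by omega)]
          have h2 : p.lam * h + p.lam = 2 * p.lam * (m + 1) := by rw [hm]; ring
          omega
        have hXm : X (τ' + 2 + (run - (m + 1))) = false := hpass _ (by omega) (by omega)
        have hnext : xs p.l1 (2 * p.lam) X (τ' + 2 + (run - (m + 1)) + 1) =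
            xs p.l1 (2 * p.lam) X (τ' + 2 + (run - (m + 1))) + 2 * p.lam := by
          show xs p.l1 (2 * p.lam) X (τ' + 2 + (run - (m + 1))) +
            (if X (τ' + 2 + (run - (m + 1))) then p.l1 else 2 * p.lam) = _
          rw [hXm]
          rfl
        rw [xtxt_iff (t := τ' + 2 + (run - (m + 1))) (by omega) (by rw [hnext]; omega), hXm]
        have hsub : q - xs p.l1 (2 * p.lam) X (τ' + 2 + (run - (m + 1))) = p.lam := by omega
        rw [hsub]
        simp only [Bool.false_eq_true, if_false]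
        unfold w2f
        rw [decide_eq_true_eq]
        constructor
        · intro hc
          exact absurd rfl hc
        · intro hc
          omega
  · -- nonpositive shift
    obtain ⟨m, hm⟩ : ∃ m, 4 * (g * p.P) = 2 * τ + p.P * v + m :=
      ⟨4 * (g * p.P) - (2 * τ + p.P * v), by omega⟩
    have hqm : q = len + p.lam * m := by
      rw [hm, Nat.mul_add p.lam (2 * τ + p.P * v) m] at hq'
      omega
    have hpar : m % 2 = v % 2 := by omega
    have hmle : m ≤ 2 * Mb := by omega
    have hmOm : m < p.Om := by omega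
    have hnext : xs p.l1 (2 * p.lam) X (τ + 1) = len + p.l1 := by
      show xs p.l1 (2 * p.lam) X τ + (if X τ then p.l1 else 2 * p.lam) = _
      rw [hXτ]
      rfl
    have hlt : p.lam * m < p.l1 := by
      rw [hl1]
      have : p.lam * m < p.lam * p.Om := Nat.mul_lt_mul_of_pos_left hmOm (by omega)
      omega
    rw [xtxt_iff (t := τ) (by omega) (by rw [hnext]; omega), hXτ, if_pos rfl]
    have hsub : q - xs p.l1 (2 * p.lam) X τ = p.lam * m := by omega
    rw [hsub]
    rcases Nat.eq_zero_or_pos m with h0 | h0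
    · subst h0
      have : p.W1 (p.lam * 0) = true := by
        unfold W1
        rw [Nat.mul_zero, if_pos rfl]
      rw [this]
      constructor
      · intro _
        omega
      · intro _
        rfl
    · rw [ac2_W1a hp h0 hmOm]
      omega

end Pool.Agent.H15.PCP3.Par
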