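import Mathlib
import Pool.Agent.H15.PCP3.AB

set_option autoImplicit false

/-!
# Module AD1: letters of the first word (`W1_eq`, `diag`)

`letter_even`, `letter_odd`: evaluation of `W1` at `lam ω + κ` with `κ ≤ P`, `1 ≤ ω < Om` (`κ < lam`,
so the quotient and the remainder of the offset by `lam` are `ω` and `κ`; the padding letters have
remainder `> P`).

`pos_lt_len`: let `(K, X)` be such that `xs A1 A2 X (K+1) = xs l1 l2 X (K+1)`, all visited letters are x
and `xs A1 A2 X T ≠ xs l1 l2 X T` for `1 ≤ T ≤ K`.  Write `δ = (β-1) lam + 1`, `v = cnt X T`: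
`len T - pos T = δ (P v - 2 T)` (`xs_cnt`; `l1 - A1 = (P-2) δ`, `A2 - 2 lam = 2 δ`).  Suppose `pos T ≥ len T`
for some `1 ≤ T ≤ K` and take the largest such `T`; `pos T > len T`.  `pos T < pos (K+1) = len (K+1)`, so
the visit is in the interval of some `t ≤ K`; `t ≥ T`; `t > T` is impossible since then
`pos t ≥ pos T ≥ len t`, contradicting maximality.  So `t = T` and the offset is `δ d` with
`d = 2 T - P v ≥ 1`.  If `X T = false`: `δ d < 2 lam`, impossible (`β ≥ 8`).  If `X T = true`: `δ d < l1`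
gives `d < lam` (as `δ d = lam (β-1) d + d` and `l1 = lam Om + P`, `Om ≤ P β ≤ ...`, so `d ≤ 2 P < lam`),
quotient `(β-1) d`, remainder `d`; `W1` is false there (`diag`): if `d > P` or `(β-1) d ≥ Om` false; not a
padding letter since `(β-1) d ≥ 2`; `d = 2`: `2 (β-1) + P ≠ 2 β` as `P ≥ 7`; if `Ev d ((β-1) d)` false;
`Ev d ((β-1) d + P)` is false: it would mean `d = 4 e + 3`, `e < N` and `Eh e m̂` with
`2 m̂ = β d + 2 (P-1) + 2 P S - (β-1) d - P = 4 e + 1 + P + 2 P S`, `m̂ = 2 e + 2 N + 2 + P S`, excluded by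
`hE`; finally `ω ≠ (β-1) κ` fails.
-/

namespace Pool.Agent.H15.PCP3.Par

open Pool.Agent.H28.PCP (HasSol vl stepW cnt)

variable {p : Par} {Mb : ℕ}


theorem ad1_P (p : Par) : p.P = 4 * p.N + 3 := rfl

/-- value of `W1` at a significant place -/
theorem W1_eq (hp : p.OK Mb) {κ ω : ℕ} (hκ : κ ≤ p.P) (hω1 : 1 ≤ ω) (hω2 : ω < p.Om) :
    p.W1 (p.lam * ω + κ) = if κ = 2 ∧ ω + p.P = 2 * p.β then true
      else if p.Ev κ ω then false else if p.Ev κ (ω + p.P) then true
      else decide ((κ + ω) % 2 = 0 ∧ ω ≠ (p.β - 1) * κ) := by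
  have hlam := hp.hlam
  have hκl : κ < p.lam := by omega
  have hl0 : 0 < p.lam := by omega
  have hmod : (p.lam * ω + κ) % p.lam = κ := by
    rw [Nat.mul_add_mod, Nat.mod_eq_of_lt hκl]
  have hdiv : (p.lam * ω + κ) / p.lam = ω := by
    rw [Nat.mul_add_div hl0, Nat.div_eq_of_lt hκl, add_zero]
  have hge : p.lam ≤ p.lam * ω := Nat.le_mul_of_pos_right _ hω1
  have h0 : ¬ (p.lam * ω + κ = 0) := by omega
  have h1 : ¬ (p.lam + p.P + 1 ≤ p.lam * ω + κ ∧ p.lam * ω + κ < p.lam + p.P + 1 + p.pc) := by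
    rintro ⟨h1, h2⟩
    rcases Nat.lt_or_ge ω 2 with hw | hw
    · have : ω = 1 := by omega
      subst this
      rw [mul_one] at h1
      omega
    · have : p.lam * 2 ≤ p.lam * ω := Nat.mul_le_mul_left _ hw
      omega
  have h2 : ¬ (p.P < (p.lam * ω + κ) % p.lam ∨ (p.lam * ω + κ) / p.lam = 0 ∨
      p.Om ≤ (p.lam * ω + κ) / p.lam) := by
    rw [hmod, hdiv]
    omega
  unfold W1
  rw [if_neg h0, if_neg h1, if_neg h2, hmod, hdiv]

theorem ad1_beta (hp : p.OK Mb) : 56 ≤ p.β := by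
  have h1 := hp.hβ2
  have h2 := hp.hN
  have h3 := ad1_P p
  omega

/-- the diagonal places -/
theorem diag (hp : p.OK Mb) {d : ℕ} (hd : 1 ≤ d) (hd2 : d < p.lam) :
    p.W1 (((p.β - 1) * p.lam + 1) * d) = false := by
  have hlam := hp.hlam
  have hβ := ad1_beta hp
  have hl0 : 0 < p.lam := by omega
  obtain ⟨b1, hb1⟩ : ∃ b1, p.β = b1 + 1 := ⟨p.β - 1, by omega⟩
  have hb1' : p.β - 1 = b1 := by omega
  rw [hb1']
  have hq : (b1 * p.lam + 1) * d = p.lam * (b1 * d) + d := by ring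
  rw [hq]
  have hbd : b1 ≤ b1 * d := Nat.le_mul_of_pos_right _ hd
  have hmod : (p.lam * (b1 * d) + d) % p.lam = d := by
    rw [Nat.mul_add_mod, Nat.mod_eq_of_lt hd2]
  have hdiv : (p.lam * (b1 * d) + d) / p.lam = b1 * d := by
    rw [Nat.mul_add_div hl0, Nat.div_eq_of_lt hd2, add_zero]
  by_cases hc : d ≤ p.P ∧ b1 * d < p.Om
  · rw [W1_eq hp hc.1 (by omega) hc.2]
    have hP : 7 ≤ p.P := by
      have := hp.hN
      have := ad1_P p
      omega
    rw [if_neg]
    · by_cases he : p.Ev d (b1 * d) = true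
      · rw [if_pos he]
      · rw [if_neg he]
        have he2 : ¬ (p.Ev d (b1 * d + p.P) = true) := by
          intro h
          unfold Ev at h
          rw [Bool.and_eq_true, decide_eq_true_eq] at h
          obtain ⟨⟨h1, h2, h3, h4⟩, h5⟩ := h
          obtain ⟨e, he⟩ : ∃ e, d = 4 * e + 3 := ⟨d / 4, by omega⟩
          have h6 : (d - 3) / 4 = e := by omega
          rw [h6] at h2 h5
          have h7 : (p.β * d + 2 * (p.P - 1) + 2 * p.P * p.S - (b1 * d + p.P)) / 2 =
              2 * p.N + 2 + 2 * e + p.P * p.S := by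
            have e1 : p.β * d = b1 * d + d := by rw [hb1]; ring
            have e2 : 2 * p.P * p.S = 2 * (p.P * p.S) := by ring
            have e3 := ad1_P p
            rw [e1, e2]
            omega
          rw [h7, hp.hE e h2] at h5
          exact Bool.false_ne_true h5
        rw [if_neg he2, hb1']
        simp
    · rintro ⟨h1, h2⟩
      subst h1
      omega
  · have h0 : ¬ (p.lam * (b1 * d) + d = 0) := by omega
    have h1 : ¬ (p.lam + p.P + 1 ≤ p.lam * (b1 * d) + d ∧
        p.lam * (b1 * d) + d < p.lam + p.P + 1 + p.pc) := by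
      rintro ⟨_, h2⟩
      have h3 : p.lam * 2 ≤ p.lam * (b1 * d) := Nat.mul_le_mul_left _ (by omega)
      omega
    have h2 : p.P < (p.lam * (b1 * d) + d) % p.lam ∨ (p.lam * (b1 * d) + d) / p.lam = 0 ∨
        p.Om ≤ (p.lam * (b1 * d) + d) / p.lam := by
      rw [hmod, hdiv]
      omega
    unfold W1
    rw [if_neg h0, if_neg h1, if_pos h2]

end Pool.Agent.H15.PCP3.Par
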