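import Mathlib
import Pool.Agent.H15.PCP3.AD1

set_option autoImplicit false

/-!
# Module AD2: the fixed point argument (`pos_lt_len`)

`letter_even`, `letter_odd`: evaluation of `W1` at `lam ω + κ` with `κ ≤ P`, `1 ≤ ω < Om` (`κ < lam`,
so the quotient and the remainder of the offset by `lam` are `ω` and `κ`; the padding letters have
remainder `> P`).

`pos_lt_len`: let `(K, X)` be such that `xs A1 A2 X (K+1) = xs l1 l2 X (K+1)`, all visited letters are x
and `xs A1 A2 X T ≠ xs l1 l2 X T` for `1 ≤ T ≤ K`.  Write `δ = (β-1) lam + 1`, `v = cnt X T`: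
`len T - pos T = δ (P v - 2 T)` (`xs_cnt`; `l1 - A1 = (P-2) δ`, `A2 - 2 lam = 2 δ`).  Suppose `pos T ≥ len T`
for some `1 ≤ T ≤ K` and take the largest such `T`; `pos T > len T`.  `pos T < pos (K+1) = len (K+1)`, so
the visit is in the interval of some `t ≤ K`; `t ≥ T`; `t > T` is impossible since then
`pos t ≥ pos T ≥ len t`, contradicting maximality.  So `t = T` and the offset is `δ d` with
`d = 2 T - P v ≥ 1`.  If `X T = false`: `δ d < 2 lam`, impossible (`β ≥ 8`).  If `X T = true`: `δ d < l1`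
gives `d < lam` (as `δ d = lam (β-1) d + d` and `l1 = lam Om + P`, `Om ≤ P β ≤ ...`, so `d ≤ 2 P < lam`),
quotient `(β-1) d`, remainder `d`; `W1` is false there (`diag`): if `d > P` or `(β-1) d ≥ Om` false; not a
padding letter since `(β-1) d ≥ 2`; `d = 2`: `2 (β-1) + P ≠ 2 β` as `P ≥ 7`; if `Ev d ((β-1) d)` false;
`Ev d ((β-1) d + P)` is false: it would mean `d = 4 e + 3`, `e < N` and `Eh e m̂` with
`2 m̂ = β d + 2 (P-1) + 2 P S - (β-1) d - P = 4 e + 1 + P + 2 P S`, `m̂ = 2 e + 2 N + 2 + P S`, excluded by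
`hE`; finally `ω ≠ (β-1) κ` fails.
-/

namespace Pool.Agent.H15.PCP3.Par

open Pool.Agent.H28.PCP (HasSol vl stepW cnt)

variable {p : Par} {Mb : ℕ}

theorem ad2_base (hp : p.OK Mb) : 7 ≤ p.P ∧ 8 * p.P ≤ p.β ∧ 2 * p.P + 2 ≤ p.lam := by
  have h1 := hp.hN
  have h2 := hp.hβ2
  have h3 := hp.hlam
  have h4 : p.P = 4 * p.N + 3 := rfl
  omega

theorem ad2_diff (hp : p.OK Mb) (X : ℕ → Bool) (T : ℕ) :
    ((xs p.A1 p.A2 X T : ℕ) : ℤ) - (xs p.l1 (2 * p.lam) X T : ℕ) =
      (((p.β : ℤ) - 1) * p.lam + 1) * (2 * (T : ℤ) - (p.P : ℤ) * (cnt X T : ℕ)) := by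
  obtain ⟨hP, hβ, hlam⟩ := ad2_base hp
  have h1 := xs_cnt p.A1 p.A2 X T
  have h2 := xs_cnt p.l1 (2 * p.lam) X T
  have e1 : ((p.A1 : ℕ) : ℤ) = (2 * (p.β : ℤ) - p.P) * p.lam + 2 := by
    have : p.P ≤ 2 * p.β := by omega
    simp only [A1]
    push_cast [this]
    ring
  have e2 : ((p.A2 : ℕ) : ℤ) = 2 * (p.β : ℤ) * p.lam + 2 := by
    simp only [A2]
    push_cast
    ring
  have e3 : ((p.l1 : ℕ) : ℤ) = (p.lam : ℤ) * (p.P * ((p.β : ℤ) - 2) + 2) + p.P := by
    have : 2 ≤ p.β := by omega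
    simp only [l1, Om]
    push_cast [this]
    ring
  have h1' : ((xs p.A1 p.A2 X T : ℕ) : ℤ) + (p.A2 : ℕ) * (cnt X T : ℕ) =
      (p.A1 : ℕ) * (cnt X T : ℕ) + (p.A2 : ℕ) * (T : ℤ) := by exact_mod_cast h1
  have h2' : ((xs p.l1 (2 * p.lam) X T : ℕ) : ℤ) + 2 * (p.lam : ℤ) * (cnt X T : ℕ) =
      (p.l1 : ℕ) * (cnt X T : ℕ) + 2 * (p.lam : ℤ) * (T : ℤ) := by exact_mod_cast h2
  rw [e1, e2] at h1'
  rw [e3] at h2'
  linear_combination h1' - h2'

theorem pos_lt_len (hp : p.OK Mb) {K : ℕ} {X : ℕ → Bool}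
    (hend : xs p.A1 p.A2 X (K + 1) = xs p.l1 (2 * p.lam) X (K + 1))
    (hvis : ∀ T ≤ K, XTxt p.W1 (w2f p.lam) p.l1 (2 * p.lam) X (xs p.A1 p.A2 X T))
    (hmin : ∀ T, 1 ≤ T → T ≤ K → xs p.A1 p.A2 X T ≠ xs p.l1 (2 * p.lam) X T) :
    ∀ T, 1 ≤ T → T ≤ K → xs p.A1 p.A2 X T < xs p.l1 (2 * p.lam) X T := by
  obtain ⟨hP, hβ, hlam⟩ := ad2_base hp
  have hA1 : 1 ≤ p.A1 := by simp only [A1]; omega
  have hA2 : 1 ≤ p.A2 := by simp only [A2]; omega
  -- downward induction
  have main : ∀ j T, 1 ≤ T → T ≤ K → K - T = j →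
      xs p.A1 p.A2 X T < xs p.l1 (2 * p.lam) X T := by
    intro j
    induction j using Nat.strong_induction_on with
    | _ j ih =>
      intro T hT1 hTK hj
      by_contra hcon
      have hne := hmin T hT1 hTK
      have hgt : xs p.l1 (2 * p.lam) X T < xs p.A1 p.A2 X T := by omega
      have hlt : xs p.A1 p.A2 X T < xs p.l1 (2 * p.lam) X (K + 1) := by
        rw [← hend]
        exact xs_lt hA1 hA2 X (by omega)
      obtain ⟨t, htK, ht1, ht2⟩ := xs_interval hlt
      have htT : T ≤ t := by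
        by_contra h
        have := xs_mono p.l1 (2 * p.lam) X (show t + 1 ≤ T by omega)
        omega
      have htT' : t = T := by
        by_contra h
        have h1 := ih (K - t) (by omega) t (by omega) (by omega) rfl
        have h2 := xs_mono p.A1 p.A2 X htT
        omega
      subst htT'
      have hv := (xtxt_iff ht1 ht2).1 (hvis t hTK)
      have hd := ad2_diff hp X t
      have hδ : (0 : ℤ) < ((p.β : ℤ) - 1) * p.lam + 1 := by
        have h1 : (1 : ℤ) ≤ p.β := by exact_mod_cast (by omega : 1 ≤ p.β)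
        have h2 : (0 : ℤ) ≤ ((p.β : ℤ) - 1) * p.lam := mul_nonneg (by linarith) (by positivity)
        linarith
      set D : ℤ := 2 * (t : ℤ) - (p.P : ℤ) * (cnt X t : ℕ) with hD
      have hDpos : 0 < D := by
        have h1 : (0 : ℤ) < (((p.β : ℤ) - 1) * p.lam + 1) * D := by
          rw [← hd]
          have : ((xs p.l1 (2 * p.lam) X t : ℕ) : ℤ) < (xs p.A1 p.A2 X t : ℕ) := by
            exact_mod_cast hgt
          linarith
        exact (pos_iff_pos_of_mul_pos h1).1 hδ
      obtain ⟨d, hdD⟩ := Int.eq_ofNat_of_zero_le hDpos.le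
      have hd1 : 1 ≤ d := by omega
      have hoff : xs p.A1 p.A2 X t - xs p.l1 (2 * p.lam) X t = ((p.β - 1) * p.lam + 1) * d := by
        have h1 : 1 ≤ p.β := by omega
        zify [hgt.le, h1]
        rw [hd, hdD]
      have hstep : xs p.l1 (2 * p.lam) X (t + 1) =
          xs p.l1 (2 * p.lam) X t + (if X t then p.l1 else 2 * p.lam) := rfl
      cases hX : X t with
      | false =>
        rw [hX] at hstep
        simp only [Bool.false_eq_true, if_false] at hstep
        have h3 : ((p.β - 1) * p.lam + 1) * d < 2 * p.lam := by omega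
        have h4 : 2 * p.lam ≤ (p.β - 1) * p.lam := Nat.mul_le_mul_right _ (by omega)
        have h5 : (p.β - 1) * p.lam + 1 ≤ ((p.β - 1) * p.lam + 1) * d := Nat.le_mul_of_pos_right _ hd1
        omega
      | true =>
        rw [hX] at hstep hv
        simp only [if_true] at hstep hv
        have h3 : ((p.β - 1) * p.lam + 1) * d < p.l1 := by omega
        have hdl : d < p.lam := by
          by_contra hc
          have h4 : ((p.β - 1) * p.lam + 1) * p.lam ≤ ((p.β - 1) * p.lam + 1) * d :=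
            Nat.mul_le_mul_left _ (by omega)
          have h5 : p.l1 ≤ ((p.β - 1) * p.lam + 1) * p.lam := by
            have h6 : p.Om + p.P ≤ (p.β - 1) * p.lam := by
              obtain ⟨c, hc⟩ : ∃ c, p.β = c + 2 := ⟨p.β - 2, by omega⟩
              have h7 : (c + 1) * (2 * p.P + 2) ≤ (p.β - 1) * p.lam := by
                rw [hc]
                exact Nat.mul_le_mul (by omega) hlam
              simp only [Om, hc]
              have h8 : p.P * (c + 2 - 2) = p.P * c := by congr 1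
              rw [h8]
              rw [hc] at h7
              nlinarith
            have h7 : p.lam * (p.Om + p.P) ≤ p.lam * ((p.β - 1) * p.lam) :=
              Nat.mul_le_mul_left _ h6
            have h8 : p.P ≤ p.lam * p.P := Nat.le_mul_of_pos_left _ (by omega)
            simp only [l1]
            nlinarith
          omega
        have h6 := diag hp hd1 hdl
        rw [hoff, h6] at hv
        exact absurd hv (by simp)
  intro T h1 h2
  exact main (K - T) T h1 h2 rfl

end Pool.Agent.H15.PCP3.Par
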