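import Mathlib
import Pool.Agent.H15.PCP3.AC1
import Pool.Agent.H15.PCP3.AC2
import Pool.Agent.H15.PCP3.AD1

set_option autoImplicit false

/-!
# Module AE: letters of the candidates

Let `T ≥ 1`, `X = Xs` below `T`, `V` the length of `st T`, `q` the place visited at time `T + 1` after
`v` active steps (`v = cnt Xs T` if the step `T` is passive, `v = cnt Xs T + 1` if it is active),
`g = (T+1)/P < V` (assume the group `g` exists).  Claim `visit_iff`: the letter is x iff
`v = cnt Xs (T + 1)`, i.e. iff the step `T` is the one of the clocked machine.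
Cases (`T + 1 = P g + k`):
* `k = 0`: `boundary` (bounds: `hB (T+1)`, `st (T+1) = st T`); no push at `T`, `T - 1` (`T % P = P - 1`,
  `(T-1) % P = P - 2`: `no_push`), so `cnt Xs T = 2 V` and `Xs T = false`; the letter is x iff `v` is even.
* `1 ≤ k ≤ 2 N + 1`: `T / P = g`, `hB T`; `push T = false` (or `T = 0`); `push (T-1) = false` unless
  `T = 1`.  `first_copy`, `W1_eq` with `κ = 2 k` (even, no event: `Ev` needs `κ % 4 = 3`),
  `κ + ω ≡ μ ≡ v mod 2` (`β` odd).  If `v` is odd the letter is y unless `κ = 2 ∧ ω + P = 2 β`, i.e.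
  `k = 1` and `μ = P`, `2 τ + P (v - 4 g) = P`: then `T = P g`; `g = 0` impossible (`T ≥ 1`); `g ≥ 1`:
  `v = 2 V + 1`, so `τ + P (V - 2 g) = 0`, `P ∣ τ`, but `τ % P ≥ 2 N + 2`.  If `v` is even: x, since
  `ω ≠ (β - 1) κ`: otherwise `μ = κ = 2 k`, `τ + P (V' - 2 g) = k` (`v = 2 V'`), `τ % P = k ≤ 2 N + 1`,
  `k ≥ 1`: impossible as `τ % P ≥ 2 N + 2` for `g ≥ 1` and `= 0` for `g = 0`.  For `T = 1`: `g = 0`, `k = 2`,
  `cnt Xs 1 = 1`, `Xs 1 = true`.
* `2 N + 2 ≤ k ≤ P - 1`: `second_copy`, `κ = 2 k - P` odd, `κ + ω ≡ μ' ≡ v`.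
  - `push (T-1)`: `(T-1) % P = 2 N + 2 + 2 e`, `k = 2 N + 4 + 2 e`, `κ = 4 e + 5`, no event: x iff `v` even
    (`ω ≠ (β-1) κ` as `μ'` even, `κ` odd); `cnt Xs T = 2 V - 1`, `Xs T = true`.
  - no push at `T - 1`: `cnt Xs T = 2 V`.  `v = 2 V`: x iff not `Ev κ ω`; `v = 2 V + 1`: x iff
    `Ev κ (ω + P)` (which is `Ev` at the place of the passive candidate; `Ev κ ω` is false by parity).
    And `Ev κ (β κ - μ')` with `μ' = 2 τ + P (2 V - 4 g) - 2 (P-1)` is exactly `PC T (st T)`
    (`κ = 4 e + 3` iff `T % P = 2 N + 2 + 2 e`; the second argument of `Eh` is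
    `τ + P (V + S) - 2 P g`), i.e. `push T`.
-/

namespace Pool.Agent.H15.PCP3.Par

open Pool.Agent.H28.PCP (HasSol vl stepW cnt)

variable {p : Par} {Mb : ℕ}

theorem ae_P (p : Par) : p.P = 4 * p.N + 3 := rfl

theorem ae_noEv (p : Par) {κ : ℕ} (ω : ℕ) (h : κ % 4 ≠ 3) : p.Ev κ ω = false := by
  unfold Ev
  rw [Bool.and_eq_false_iff]
  left
  rw [decide_eq_false_iff_not]
  rintro ⟨h1, _⟩
  exact h h1

theorem ae_noEv2 (p : Par) {κ ω : ℕ} (h : (p.β * κ + ω) % 2 ≠ 0) : p.Ev κ ω = false := by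
  unfold Ev
  rw [Bool.and_eq_false_iff]
  left
  rw [decide_eq_false_iff_not]
  rintro ⟨_, _, h1, _⟩
  exact h h1

theorem ae_odd_mul {a b : ℕ} (h : a % 2 = 1) : (a * b) % 2 = b % 2 := by
  rw [Nat.mul_mod, h, one_mul, Nat.mod_mod]

/-- the group `g` is pushed at a time with a big residue, or it is the group `0` -/
theorem ae_tau {T g τ : ℕ} (hτ : (p.st T)[g]? = some τ) :
    (g = 0 ∧ τ = 0) ∨ (1 ≤ g ∧ 2 * p.N + 2 ≤ τ % p.P) := by
  rcases Nat.eq_zero_or_pos g with hg | hg
  · subst hg
    exact Or.inl ⟨rfl, p.st_get_zero hτ⟩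
  · obtain ⟨_, e, _, he⟩ := p.st_get_shape hτ hg
    exact Or.inr ⟨hg, by omega⟩

theorem ae_first (hp : p.OK Mb) {X : ℕ → Bool} {T g k τ v q : ℕ} (hT : 1 ≤ T)
    (hX : ∀ s < T, X s = p.Xs s) (hgk : T + 1 = p.P * g + k) (hτ : (p.st T)[g]? = some τ)
    (hv : v = 2 * (p.st T).length ∨ v = 2 * (p.st T).length + 1 ∨
      v + 1 = 2 * (p.st T).length)
    (hb1 : 2 * p.P * g ≤ τ + p.P * (p.st T).length + Mb)
    (hb2 : τ + p.P * (p.st T).length ≤ 2 * p.P * g + Mb)
    (hq : q + p.P * p.lam * v = p.A2 * (T + 1)) (hk1 : 1 ≤ k) (hk2 : k ≤ 2 * p.N + 1) :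
    XTxt p.W1 (w2f p.lam) p.l1 (2 * p.lam) X q ↔ v % 2 = 0 := by
  obtain ⟨ω, hω, hω1, hω2, hiff⟩ := first_copy hp hT hX hgk hτ hv hb1 hb2 hq hk1 hk2
  rw [hiff]
  have hP := ae_P p
  have hN := hp.hN
  have hβ := hp.hβ1
  have hβ2 := hp.hβ2
  have hPodd : p.P % 2 = 1 := by omega
  have hnat : ω + 2 * τ + p.P * v = p.β * (2 * k) + 4 * (p.P * g) := by
    have : ((ω + 2 * τ + p.P * v : ℕ) : ℤ) = ((p.β * (2 * k) + 4 * (p.P * g) : ℕ) : ℤ) := by
      push_cast
      linear_combination hω
    exact_mod_cast this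
  have hpar1 : (p.P * v) % 2 = v % 2 := ae_odd_mul hPodd
  have hpar2 : (p.β * (2 * k)) % 2 = 0 := by
    rw [ae_odd_mul hβ]
    omega
  have hE : ∀ ω', p.Ev (2 * k) ω' = false := fun ω' => ae_noEv p ω' (by omega)
  rw [W1_eq hp (by omega) hω1 hω2, hE, hE]
  -- `P V` in terms of `v`
  obtain ⟨v2, hv2⟩ : ∃ v2, v = 2 * v2 ∨ v = 2 * v2 + 1 := ⟨v / 2, by omega⟩
  have hcases := ae_tau hτ
  have hexc : ¬ (2 * k = 2 ∧ ω + p.P = 2 * p.β) := by
    rintro ⟨h1, h2⟩
    have hk : k = 1 := by omega
    subst hk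
    rcases hv2 with hv2 | hv2
    · omega
    · have e1 : p.P * v = 2 * (p.P * v2) + p.P := by rw [hv2]; ring
      have e2 : p.β * (2 * 1) = 2 * p.β := by ring
      have e3 : τ + p.P * v2 = p.P * (2 * g) := by
        have : p.P * (2 * g) = 2 * (p.P * g) := by ring
        omega
      have e4 : τ % p.P = 0 := by
        have : (τ + p.P * v2) % p.P = 0 := by rw [e3]; exact Nat.mul_mod_right _ _
        rwa [Nat.add_mul_mod_self_left] at this
      rcases hcases with ⟨hg, _⟩ | ⟨_, hg⟩
      · subst hg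
        omega
      · omega
  rw [if_neg hexc, if_neg Bool.false_ne_true, if_neg Bool.false_ne_true, decide_eq_true_eq]
  constructor
  · rintro ⟨h1, _⟩
    omega
  · intro h
    refine ⟨by omega, fun h1 => ?_⟩
    rcases hv2 with hv2 | hv2
    · have e1 : p.P * v = 2 * (p.P * v2) := by rw [hv2]; ring
      have e2 : p.β * (2 * k) = (p.β - 1) * (2 * k) + 2 * k := by
        obtain ⟨b, hb⟩ : ∃ b, p.β = b + 1 := ⟨p.β - 1, by omega⟩
        rw [hb, Nat.add_sub_cancel]
        ring
      have e3 : τ + p.P * v2 = k + p.P * (2 * g) := by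
        have : p.P * (2 * g) = 2 * (p.P * g) := by ring
        omega
      have e4 : τ % p.P = k := by
        have : (τ + p.P * v2) % p.P = (k + p.P * (2 * g)) % p.P := by rw [e3]
        rw [Nat.add_mul_mod_self_left, Nat.add_mul_mod_self_left,
          Nat.mod_eq_of_lt (show k < p.P by omega)] at this
        exact this
      rcases hcases with ⟨_, hg⟩ | ⟨_, hg⟩
      · subst hg
        rw [Nat.zero_mod] at e4
        omega
      · omega
    · omega

/-- the event table at the place of the even candidate -/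
theorem ae_event (hp : p.OK Mb) {T g k τ ω : ℕ} (hT : 1 ≤ T)
    (hgk : T + 1 = p.P * g + k) (hτ : (p.st T)[g]? = some τ)
    (hb1 : 2 * p.P * g ≤ τ + p.P * (p.st T).length + Mb)
    (hk1 : 2 * p.N + 2 ≤ k) (hk2 : k < p.P)
    (hω : ω + 2 * τ + 2 * (p.P * (p.st T).length) =
      p.β * (2 * k - p.P) + 4 * (p.P * g) + 2 * (p.P - 1)) :
    p.Ev (2 * k - p.P) ω = p.push T := by
  have hP := ae_P p
  have hN := hp.hN
  have hS := hp.hS
  have hP0 : 0 < p.P := by omega
  have hTP : T = p.P * g + (k - 1) := by omega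
  have hdiv : T / p.P = g := by
    rw [hTP, Nat.mul_add_div hP0, Nat.div_eq_of_lt (by omega), add_zero]
  have hmod : T % p.P = k - 1 := by
    rw [hTP, Nat.mul_add_mod, Nat.mod_eq_of_lt (by omega)]
  have hgV : g < (p.st T).length := by
    rcases List.getElem?_eq_some_iff.1 hτ with ⟨h, _⟩
    exact h
  have hget : (p.st T).getD g 0 = τ := by
    rw [List.getD_eq_getElem?_getD, hτ]
    rfl
  have hpush : p.push T = p.PC T (p.st T) := by
    unfold push
    have : ¬ T = 0 := by omega
    by_cases h : p.PC T (p.st T) = true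
    · rw [h]
      simp
    · rw [Bool.not_eq_true] at h
      rw [h]
      simp [this]
  rw [hpush]
  set V := (p.st T).length with hV
  have e1 : 2 * p.P * p.S = 2 * (p.P * p.S) := by ring
  have e2 : p.P * (V + p.S) = p.P * V + p.P * p.S := by ring
  have e3 : 2 * p.P * g = 2 * (p.P * g) := by ring
  rw [e3] at hb1
  unfold Ev PC
  rw [hdiv, hmod, hget]
  by_cases hc : k % 2 = 1 ∧ (k - 1 - (2 * p.N + 2)) / 2 < p.N ∧ 2 * p.N + 2 ≤ k - 1
  · obtain ⟨h1, h2, h3⟩ := hc
    have a1 : (2 * k - p.P - 3) / 4 = (k - 1 - (2 * p.N + 2)) / 2 := by omega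
    have a2 : (p.β * (2 * k - p.P) + 2 * (p.P - 1) + 2 * p.P * p.S - ω) / 2 =
        τ + p.P * (V + p.S) - 2 * p.P * g := by
      rw [e1, e2, e3]
      omega
    rw [a1, a2]
    congr 1
    rw [decide_eq_decide]
    constructor
    · rintro _
      exact ⟨hgV, h3, by omega, h2⟩
    · rintro _
      refine ⟨by omega, h2, by omega, ?_⟩
      rw [e1]
      omega
  · have b1 : ¬ ((2 * k - p.P) % 4 = 3 ∧ (2 * k - p.P - 3) / 4 < p.N ∧
        (p.β * (2 * k - p.P) + ω) % 2 = 0 ∧
        ω ≤ p.β * (2 * k - p.P) + 2 * (p.P - 1) + 2 * p.P * p.S) := by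
      rintro ⟨h1, h2, _, _⟩
      exact hc ⟨by omega, by omega, by omega⟩
    have b2 : ¬ (g < (p.st T).length ∧ 2 * p.N + 2 ≤ k - 1 ∧ (k - 1) % 2 = 0 ∧
        (k - 1 - (2 * p.N + 2)) / 2 < p.N) := by
      rintro ⟨_, h1, h2, h3⟩
      exact hc ⟨by omega, h3, h1⟩
    rw [decide_eq_false b1, decide_eq_false b2, Bool.false_and, Bool.false_and]

theorem visit_iff (hp : p.OK Mb) {X : ℕ → Bool} {T v q : ℕ} (hT : 1 ≤ T)
    (hX : ∀ s < T, X s = p.Xs s) (hg : (T + 1) / p.P < (p.st T).length)
    (hv : v = cnt p.Xs T ∨ v = cnt p.Xs T + 1)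
    (hq : q + p.P * p.lam * v = p.A2 * (T + 1)) :
    XTxt p.W1 (w2f p.lam) p.l1 (2 * p.lam) X q ↔ v = cnt p.Xs (T + 1) := by
  have hP := ae_P p
  have hN := hp.hN
  have hP0 : 0 < p.P := by omega
  obtain ⟨g, hgdef⟩ : ∃ g, g = (T + 1) / p.P := ⟨_, rfl⟩
  obtain ⟨k, hkdef⟩ : ∃ k, k = (T + 1) % p.P := ⟨_, rfl⟩
  have hgk : T + 1 = p.P * g + k := by
    rw [hgdef, hkdef]
    exact (Nat.div_add_mod _ _).symm
  have hkP : k < p.P := by rw [hkdef]; exact Nat.mod_lt _ hP0
  rw [← hgdef] at hg
  obtain ⟨τ, hτ⟩ : ∃ τ, (p.st T)[g]? = some τ := ⟨_, List.getElem?_eq_getElem hg⟩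
  have hcnt := p.cnt_Xs T
  have hcs : cnt p.Xs (T + 1) = cnt p.Xs T + (if p.Xs T then 1 else 0) := rfl
  have hXs : p.Xs T = (p.push T || p.push (T - 1)) := by
    unfold Xs
    rw [decide_eq_true hT, Bool.true_and]
  have hget : (p.st T).getD g 0 = τ := by
    rw [List.getD_eq_getElem?_getD, hτ]
    rfl
  rw [hcs, hXs]
  rcases Nat.eq_zero_or_pos k with hk0 | hk0
  · -- boundary
    subst hk0
    rw [add_zero] at hgk
    have hg1 : 1 ≤ g := by
      rcases Nat.eq_zero_or_pos g with h | h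
      · subst h
        omega
      · exact h
    have hT6 : p.P ≤ T + 1 := by
      rw [hgk]
      exact Nat.le_mul_of_pos_right _ hg1
    obtain ⟨g', hg'⟩ : ∃ g', g = g' + 1 := ⟨g - 1, by omega⟩
    have hTm : T % p.P = p.P - 1 := by
      have : T = p.P * g' + (p.P - 1) := by
        have : p.P * g = p.P * g' + p.P := by rw [hg']; ring
        omega
      rw [this, Nat.mul_add_mod, Nat.mod_eq_of_lt (by omega)]
    have hTm1 : (T - 1) % p.P = p.P - 2 := by
      have : T - 1 = p.P * g' + (p.P - 2) := by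
        have : p.P * g = p.P * g' + p.P := by rw [hg']; ring
        omega
      rw [this, Nat.mul_add_mod, Nat.mod_eq_of_lt (by omega)]
    have hpT : p.push T = false := p.no_push T hT (Or.inr (Or.inr (by omega)))
    have hpT1 : p.push (T - 1) = false :=
      p.no_push (T - 1) (by omega) (Or.inr (Or.inr (by omega)))
    have hst : p.st (T + 1) = p.st T := by
      rw [p.st_succ, hpT, if_neg Bool.false_ne_true]
    have hB := hp.hB (T + 1) (by omega) (by rw [hst, ← hgdef]; exact hg)
    rw [hst, ← hgdef, hget] at hB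
    rw [hpT1, if_neg (by simp), add_zero] at hcnt
    rw [hpT, hpT1]
    have hvv : v = 2 * (p.st T).length ∨ v = 2 * (p.st T).length + 1 := by omega
    rw [boundary hp hT hX hgk hτ hvv hB.1 hB.2 hq]
    simp only [Bool.or_self, Bool.false_eq_true, if_false, add_zero]
    omega
  · have hTP : T = p.P * g + (k - 1) := by omega
    have hdiv : T / p.P = g := by
      rw [hTP, Nat.mul_add_div hP0, Nat.div_eq_of_lt (by omega), add_zero]
    have hmod : T % p.P = k - 1 := by
      rw [hTP, Nat.mul_add_mod, Nat.mod_eq_of_lt (by omega)]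
    have hB := hp.hB T hT (by rw [hdiv]; exact hg)
    rw [hdiv, hget] at hB
    rcases Nat.lt_or_ge k (2 * p.N + 2) with hk | hk
    · have hpT : p.push T = false := p.no_push T hT (Or.inr (Or.inl (by omega)))
      rw [hpT, Bool.false_or]
      by_cases hp1 : p.push (T - 1) = true
      · rw [if_pos ⟨hT, hp1⟩] at hcnt
        have hvv : v = 2 * (p.st T).length ∨ v = 2 * (p.st T).length + 1 ∨
            v + 1 = 2 * (p.st T).length := by omega
        rw [ae_first hp hT hX hgk hτ hvv hB.1 hB.2 hq hk0 (by omega), if_pos hp1]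
        omega
      · rw [if_neg (fun h => hp1 h.2), add_zero] at hcnt
        have hvv : v = 2 * (p.st T).length ∨ v = 2 * (p.st T).length + 1 ∨
            v + 1 = 2 * (p.st T).length := by omega
        rw [ae_first hp hT hX hgk hτ hvv hB.1 hB.2 hq hk0 (by omega), if_neg hp1]
        omega
    · have hβ := hp.hβ1
      have hβ2 := hp.hβ2
      have hPodd : p.P % 2 = 1 := by omega
      have hvv : v = 2 * (p.st T).length ∨ v = 2 * (p.st T).length + 1 ∨
          v + 1 = 2 * (p.st T).length := by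
        split_ifs at hcnt <;> omega
      obtain ⟨ω, hω, hω1, hω2, hiff⟩ := second_copy hp hT hX hgk hτ hvv hB.1 hB.2 hq hk hkP
      rw [hiff]
      have h2kP : p.P ≤ 2 * k := by omega
      have hnat : ω + 2 * τ + p.P * v =
          p.β * (2 * k - p.P) + 4 * (p.P * g) + 2 * (p.P - 1) := by
        have hP1 : 1 ≤ p.P := hP0
        have : ((ω + 2 * τ + p.P * v : ℕ) : ℤ) =
            ((p.β * (2 * k - p.P) + 4 * (p.P * g) + 2 * (p.P - 1) : ℕ) : ℤ) := by
          push_cast [h2kP, hP1]
          linear_combination hω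
        exact_mod_cast this
      have hpar1 : (p.P * v) % 2 = v % 2 := ae_odd_mul hPodd
      have hpar2 : (p.β * (2 * k - p.P)) % 2 = (2 * k - p.P) % 2 := ae_odd_mul hβ
      have hκodd : (2 * k - p.P) % 2 = 1 := by omega
      rw [W1_eq hp (by omega) hω1 hω2, if_neg (by omega)]
      by_cases hp1 : p.push (T - 1) = true
      · have hT2 : 1 ≤ T - 1 := by
          have : k - 1 ≤ T := by rw [hTP]; exact Nat.le_add_left _ _
          omega
        obtain ⟨_, e, he, hee⟩ := p.push_shape (T - 1) hT2 hp1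
        have hmod1 : (T - 1) % p.P = k - 2 := by
          have : T - 1 = p.P * g + (k - 2) := by omega
          rw [this, Nat.mul_add_mod, Nat.mod_eq_of_lt (by omega)]
        rw [hmod1] at hee
        have hE : ∀ ω', p.Ev (2 * k - p.P) ω' = false := fun ω' => ae_noEv p ω' (by omega)
        rw [hE, hE, if_neg Bool.false_ne_true, if_neg Bool.false_ne_true, decide_eq_true_eq]
        rw [if_pos ⟨hT, hp1⟩] at hcnt
        rw [hp1, Bool.or_true, if_pos rfl]
        constructor
        · rintro ⟨h1, _⟩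
          omega
        · intro h
          refine ⟨by omega, fun h1 => ?_⟩
          have e2 : ((p.β - 1) * (2 * k - p.P)) % 2 = 0 := by
            rw [Nat.mul_mod, show (p.β - 1) % 2 = 0 by omega]
            simp
          omega
      · rw [if_neg (fun h => hp1 h.2), add_zero] at hcnt
        rw [Bool.not_eq_true] at hp1
        rw [hp1, Bool.or_false]
        rw [hcnt] at hv ⊢
        rcases hv with hv | hv
        · -- passive candidate
          have hPv : p.P * v = 2 * (p.P * (p.st T).length) := by rw [hv]; ring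
          have hev := ae_event hp hT hgk hτ hB.1 hk hkP (by rw [← hPv]; exact hnat)
          have hE2 : p.Ev (2 * k - p.P) (ω + p.P) = false := ae_noEv2 p (by omega)
          rw [hev, hE2]
          by_cases hpT : p.push T = true
          · rw [if_pos hpT, if_pos hpT]
            simp only [Bool.false_eq_true, false_iff]
            omega
          · rw [if_neg hpT, if_neg hpT, if_neg Bool.false_ne_true, decide_eq_true_eq]
            have e2 : ((p.β - 1) * (2 * k - p.P)) % 2 = 0 := by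
              rw [Nat.mul_mod, show (p.β - 1) % 2 = 0 by omega]
              simp
            constructor
            · rintro _
              omega
            · rintro _
              exact ⟨by omega, by omega⟩
        · -- active candidate
          have hPv : p.P * v = 2 * (p.P * (p.st T).length) + p.P := by rw [hv]; ring
          have hev := ae_event hp hT hgk hτ hB.1 hk hkP (ω := ω + p.P) (by omega)
          have hE1 : p.Ev (2 * k - p.P) ω = false := ae_noEv2 p (by omega)
          rw [hev, hE1, if_neg Bool.false_ne_true]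
          by_cases hpT : p.push T = true
          · rw [if_pos hpT, if_pos hpT]
            simp only [true_iff]
            omega
          · rw [if_neg hpT, if_neg hpT, decide_eq_true_eq]
            constructor
            · rintro ⟨h1, _⟩
              omega
            · intro h
              omega

end Pool.Agent.H15.PCP3.Par
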