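import Mathlib
import Pool.Agent.H15.PCP3.AE
import Pool.Agent.H15.PCP3.AD2

set_option autoImplicit false

/-!
# Module AF1: the two word problem and the clocked machine (→)

`len T - pos T = δ (P cnt X T - 2 T)`, `δ = (β-1) lam + 1`.

(→) Let `(K, X)` solve `XW`.  Take `K' + 1` minimal `≥ 1` with `pos = len` (for the same `X`), visited
letters below are still x, so `pos_lt_len` applies to `K'`.  Suppose `(st (P g)).length ≠ g` for all
`g ≥ 1`.  Claim A: for all `T`, `T / P < (st T).length` if `T ≥ 1`; indeed `(st (P g)).length > g` for all `g ≥ 1`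
by induction (if `(st (P g)).length > g` then `≥ g + 1`, so `(st (P (g+1))).length ≥ g + 1`, not equal;
start: `st P` has length `≥ 1`, not `1`), and `st` is monotone.  Claim B: `X s = Xs s` for `s < K' + 1`
... by induction on `s = T`: `T = 0`: `X 0 = true`: otherwise `pos 1 = A2 > 2 lam = len 1`, contradicting
`pos_lt_len` if `K' ≥ 1` and `pos 1 = len 1` if `K' = 0` (`A1 ≠ l1`, so `K' ≥ 1` in the other case too);
`Xs 0 = true`.  `T ≥ 1`, `T + 1 ≤ K'`: the letter visited at `T + 1` is x, `visit_iff` with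
`v = cnt Xs T + (X T)` gives `v = cnt Xs (T+1)`, so `X T = Xs T`; the group `(T+1)/P` exists by claim A
for `T + 1` (`(T+1)/P < (st (T+1)).length`; if it is not `< (st T).length` then `push T` and
`(T+1)/P = (st T).length > T/P`, so `(T+1) % P = 0`, but `no_push`).  So `X = Xs` below `K'`.  Then
`len K' - pos K' > 0` and `len (K'+1) = pos (K'+1)`: `P v = 2 (K'+1)` with `v = cnt X (K'+1)`; the last
step is passive (`X K' = false`: an active step increases `len - pos`), `v = cnt Xs K'`, even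
(`P` odd), `K' + 1 = P (v/2)`; `cnt Xs K' = 2 (st K').length` or `2 (st K').length - 1`, even, so
`K' + 1 = P g`, `g = (st K').length ≥ 1`, no push at `K'` (`K' % P = P - 1`), `(st (P g)).length = g`.
Contradiction.

(←) Let `g ≥ 1` be minimal with `(st (P g)).length = g`, `K = P g - 1`, `X = Xs`.  For `1 ≤ g' < g`:
`(st (P g')).length > g'` (as in claim A).  `cnt Xs (P g) = 2 g` (no push at `P g - 1`), so
`len = pos` at `P g`; `Xs K = false`.  Visited letters, `T ≤ K`: `T = 0`: `W1 0 = true`; `T = 1`: offset `A1 =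
lam (2 β - P) + 2` in the block 0: true by definition of `W1`; `T = T' + 1 ≥ 2`: `visit_iff` for `T'`,
`v = cnt Xs (T'+1)` (`T / P < (st T').length` because `T ≤ K < P g`: `T/P ≤ g - 1`; minimality).
-/

namespace Pool.Agent.H15.PCP3.Par

open Pool.Agent.H28.PCP (HasSol vl stepW cnt)

variable {p : Par} {Mb : ℕ}

theorem af1_P (p : Par) : p.P = 4 * p.N + 3 := rfl

theorem af1_l1 (hp : p.OK Mb) :
    (p.l1 : ℤ) = p.lam * (p.P * ((p.β : ℤ) - 2) + 2) + p.P := by
  have h := hp.hβ2
  have hP := af1_P p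
  have h2 : 2 ≤ p.β := by omega
  unfold Par.l1 Par.Om
  push_cast [Nat.cast_sub h2]
  ring

theorem af1_A1 (hp : p.OK Mb) : (p.A1 : ℤ) = (2 * (p.β : ℤ) - p.P) * p.lam + 2 := by
  have h := hp.hβ2
  have h2 : p.P ≤ 2 * p.β := by omega
  unfold Par.A1
  push_cast [Nat.cast_sub h2]
  ring

theorem af1_A2 (p : Par) : (p.A2 : ℤ) = 2 * p.β * p.lam + 2 := by
  unfold Par.A2
  push_cast
  ring

theorem af1_pos (X : ℕ → Bool) (T : ℕ) :
    (xs p.A1 p.A2 X T : ℤ) = p.A1 * cnt X T + p.A2 * T - p.A2 * cnt X T := by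
  have h := xs_cnt p.A1 p.A2 X T
  have h' : (xs p.A1 p.A2 X T : ℤ) + p.A2 * cnt X T = p.A1 * cnt X T + p.A2 * T := by
    exact_mod_cast h
  linarith

theorem af1_diff (hp : p.OK Mb) (X : ℕ → Bool) (T : ℕ) :
    (xs p.l1 (2 * p.lam) X T : ℤ) - xs p.A1 p.A2 X T =
      (((p.β : ℤ) - 1) * p.lam + 1) * (p.P * cnt X T - 2 * T) := by
  have h := xs_cnt p.l1 (2 * p.lam) X T
  have h' : (xs p.l1 (2 * p.lam) X T : ℤ) + 2 * p.lam * cnt X T =
      p.l1 * cnt X T + 2 * p.lam * T := by
    exact_mod_cast h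
  have h2 := af1_pos (p := p) X T
  rw [h2, af1_A1 hp, af1_A2]
  rw [af1_l1 hp] at h'
  linear_combination h'

theorem af1_delta (hp : p.OK Mb) : 0 < ((p.β : ℤ) - 1) * p.lam + 1 := by
  have h := hp.hβ2
  have hP := af1_P p
  have h1 : (1 : ℤ) ≤ p.β := by
    have : 1 ≤ p.β := by omega
    exact_mod_cast this
  have h2 : (0 : ℤ) ≤ p.lam := by positivity
  nlinarith [mul_nonneg (sub_nonneg.2 h1) h2]

theorem af1_q (hp : p.OK Mb) (X : ℕ → Bool) (T : ℕ) :
    xs p.A1 p.A2 X T + p.P * p.lam * cnt X T = p.A2 * T := by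
  have h2 := af1_pos (p := p) X T
  have : (xs p.A1 p.A2 X T : ℤ) + p.P * p.lam * cnt X T = p.A2 * T := by
    rw [h2, af1_A1 hp, af1_A2]
    ring
  exact_mod_cast this

theorem af1_claimG (hno : ∀ g, 1 ≤ g → (p.st (p.P * g)).length ≠ g) :
    ∀ g, 1 ≤ g → g < (p.st (p.P * g)).length := by
  have hP := af1_P p
  intro g
  induction g with
  | zero => intro h; omega
  | succ g ih =>
    intro _
    rcases Nat.eq_zero_or_pos g with rfl | hg
    · have h1 := p.st_len_mono (T := 1) (T' := p.P * (0 + 1)) (by omega)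
      rw [p.st_one] at h1
      have h2 := hno (0 + 1) (by omega)
      simp only [List.length_singleton] at h1
      omega
    · have h1 := ih hg
      have h2 := p.st_len_mono (T := p.P * g) (T' := p.P * (g + 1))
        (Nat.mul_le_mul_left _ (by omega))
      have h3 := hno (g + 1) (by omega)
      omega

theorem af1_claimA (hno : ∀ g, 1 ≤ g → (p.st (p.P * g)).length ≠ g) (T : ℕ) (hT : 1 ≤ T) :
    T / p.P < (p.st T).length := by
  rcases Nat.eq_zero_or_pos (T / p.P) with h0 | h0
  · have h1 := p.st_len_mono (T := 1) (T' := T) hT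
    rw [p.st_one] at h1
    simp only [List.length_singleton] at h1
    omega
  · have h1 := af1_claimG hno (T / p.P) h0
    have h2 := p.st_len_mono (T := p.P * (T / p.P)) (T' := T) (Nat.mul_div_le T p.P)
    omega

theorem af1_group (hno : ∀ g, 1 ≤ g → (p.st (p.P * g)).length ≠ g) (T : ℕ) (hT : 1 ≤ T) :
    (T + 1) / p.P < (p.st T).length := by
  have hP := af1_P p
  have h1 := af1_claimA hno T hT
  have h2 := af1_claimA hno (T + 1) (by omega)
  by_cases hpush : p.push T = true
  · have hmod : ¬ (T % p.P = p.P - 1) := by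
      intro hm
      have := p.no_push T hT (Or.inr (Or.inr (by omega)))
      rw [this] at hpush
      exact absurd hpush (by simp)
    have hlt : T % p.P < p.P := Nat.mod_lt _ (by omega)
    have heq : (T + 1) / p.P = T / p.P := by
      have hd := Nat.div_add_mod T p.P
      have : T + 1 = T % p.P + 1 + p.P * (T / p.P) := by omega
      rw [this, Nat.add_mul_div_left _ _ (by omega : 0 < p.P),
        Nat.div_eq_of_lt (by omega : T % p.P + 1 < p.P)]
      omega
    rw [heq]
    exact h1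
  · have : p.st (T + 1) = p.st T := by
      rw [p.st_succ, if_neg hpush]
    rw [this] at h2
    exact h2

theorem xw_mp (hp : p.OK Mb) (h : XW p.W1 (w2f p.lam) p.l1 (2 * p.lam) p.A1 p.A2) :
    ∃ g, 1 ≤ g ∧ (p.st (p.P * g)).length = g := by
  obtain ⟨K, X, _, hKend, hvis⟩ := h
  classical
  have hPN := af1_P p
  have hex : ∃ k, xs p.A1 p.A2 X (k + 1) = xs p.l1 (2 * p.lam) X (k + 1) := ⟨K, hKend⟩
  obtain ⟨K', hend, hKK, hmin⟩ : ∃ K', xs p.A1 p.A2 X (K' + 1) = xs p.l1 (2 * p.lam) X (K' + 1) ∧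
      K' ≤ K ∧ ∀ T, 1 ≤ T → T ≤ K' → xs p.A1 p.A2 X T ≠ xs p.l1 (2 * p.lam) X T := by
    refine ⟨Nat.find hex, Nat.find_spec hex, Nat.find_min' hex hKend, ?_⟩
    intro T h1 h2 h3
    obtain ⟨t, rfl⟩ : ∃ t, T = t + 1 := ⟨T - 1, by omega⟩
    exact Nat.find_min hex (show t < Nat.find hex by omega) h3
  have hlt := pos_lt_len hp hend (fun T hT => hvis T (hT.trans hKK)) hmin
  by_contra hno
  push Not at hno
  have hδ := af1_delta hp
  have hPZ : (p.P : ℤ) = 4 * p.N + 3 := by exact_mod_cast hPN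
  have hN0 : (0 : ℤ) ≤ p.N := by positivity
  -- first step
  have hc1 : cnt X 1 = if X 0 then 1 else 0 := by
    show 0 + (if X 0 then 1 else 0) = _
    omega
  have hd1 := af1_diff hp X 1
  have hX0 : X 0 = true := by
    by_contra hX
    rw [hc1, if_neg hX] at hd1
    have hneg : (((p.β : ℤ) - 1) * p.lam + 1) * ((p.P : ℤ) * ((0 : ℕ) : ℤ) - 2 * ((1 : ℕ) : ℤ)) < 0 := by
      push_cast
      nlinarith
    rcases Nat.eq_zero_or_pos K' with h0 | h0
    · rw [h0] at hend
      rw [show (0 + 1 : ℕ) = 1 from rfl] at hend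
      rw [hend] at hd1
      linarith
    · have := hlt 1 le_rfl h0
      have h2 : (xs p.A1 p.A2 X 1 : ℤ) < xs p.l1 (2 * p.lam) X 1 := by exact_mod_cast this
      linarith
  have hK1 : 1 ≤ K' := by
    by_contra h0
    have h0 : K' = 0 := by omega
    rw [h0, show (0 + 1 : ℕ) = 1 from rfl] at hend
    rw [hend, hc1, if_pos hX0] at hd1
    have hpos : 0 < (((p.β : ℤ) - 1) * p.lam + 1) * ((p.P : ℤ) * ((1 : ℕ) : ℤ) - 2 * ((1 : ℕ) : ℤ)) := by
      apply mul_pos hδ
      push_cast
      rw [hPZ]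
      linarith
    linarith
  -- the letters are forced
  have claimB : ∀ s, s < K' → X s = p.Xs s := by
    intro s
    induction s using Nat.strong_induction_on with
    | _ s ih =>
      intro hs
      rcases Nat.eq_zero_or_pos s with rfl | hs0
      · rw [hX0]
        simp [Xs, push]
      · have hXs : ∀ t < s, X t = p.Xs t := fun t ht => ih t ht (by omega)
        have hg := af1_group hno s hs0
        have hcnt : cnt X s = cnt p.Xs s := cnt_congr hXs
        have hs1 : cnt X (s + 1) = cnt X s + (if X s then 1 else 0) := rfl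
        have hs2 : cnt p.Xs (s + 1) = cnt p.Xs s + (if p.Xs s then 1 else 0) := rfl
        have hv : cnt X (s + 1) = cnt p.Xs s ∨ cnt X (s + 1) = cnt p.Xs s + 1 := by
          rw [hs1, hcnt]
          by_cases hx : X s = true
          · right; rw [if_pos hx]
          · left; rw [if_neg hx, add_zero]
        have hq := af1_q hp X (s + 1)
        have hv2 := (visit_iff hp hs0 hXs hg hv hq).1 (hvis (s + 1) (by omega))
        rw [hs1, hs2, hcnt] at hv2
        cases hx : X s <;> cases hy : p.Xs s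
        · rfl
        · rw [hx, hy] at hv2; simp at hv2
        · rw [hx, hy] at hv2; simp at hv2
        · rfl
  -- the last step
  have hdE := af1_diff hp X (K' + 1)
  rw [hend, sub_self] at hdE
  have hdK := af1_diff hp X K'
  have hltK : (xs p.A1 p.A2 X K' : ℤ) < xs p.l1 (2 * p.lam) X K' := by
    exact_mod_cast hlt K' hK1 le_rfl
  have hE : (p.P : ℤ) * cnt X (K' + 1) - 2 * ((K' + 1 : ℕ) : ℤ) = 0 := by
    rcases mul_eq_zero.1 hdE.symm with h | h
    · exact absurd h hδ.ne'
    · exact h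
  have hKpos : 0 < (p.P : ℤ) * cnt X K' - 2 * (K' : ℤ) := by
    by_contra hn
    push Not at hn
    have : (((p.β : ℤ) - 1) * p.lam + 1) * ((p.P : ℤ) * cnt X K' - 2 * (K' : ℤ)) ≤ 0 :=
      mul_nonpos_of_nonneg_of_nonpos hδ.le hn
    linarith
  have hXK : X K' = false := by
    by_contra hx
    have hx : X K' = true := by simpa using hx
    have hs1 : cnt X (K' + 1) = cnt X K' + (if X K' then 1 else 0) := rfl
    rw [hx, if_pos rfl] at hs1
    rw [hs1] at hE
    push_cast at hE
    rw [hPZ] at hE hKpos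
    nlinarith
  have hs1 : cnt X (K' + 1) = cnt X K' + (if X K' then 1 else 0) := rfl
  rw [hXK] at hs1
  simp only [Bool.false_eq_true, if_false, add_zero] at hs1
  have hcK : cnt X K' = cnt p.Xs K' := cnt_congr claimB
  rw [hs1, hcK] at hE
  have hE' : p.P * cnt p.Xs K' = 2 * (K' + 1) := by
    have : (p.P : ℤ) * cnt p.Xs K' = 2 * ((K' + 1 : ℕ) : ℤ) := by linarith
    exact_mod_cast this
  have hev : 2 ∣ cnt p.Xs K' := by
    have h2 : 2 ∣ p.P * cnt p.Xs K' := ⟨K' + 1, hE'⟩
    have hco : Nat.Coprime 2 p.P := by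
      rw [Nat.coprime_two_left, hPN]
      exact ⟨2 * p.N + 1, by ring⟩
    exact hco.dvd_of_dvd_mul_left h2
  obtain ⟨w, hw⟩ := hev
  have hKw : K' + 1 = p.P * w := by
    rw [hw] at hE'
    have : 2 * (p.P * w) = 2 * (K' + 1) := by rw [← hE']; ring
    omega
  have hw1 : 1 ≤ w := by
    rcases Nat.eq_zero_or_pos w with h0 | h0
    · rw [h0, mul_zero] at hKw; omega
    · exact h0
  have hcX := p.cnt_Xs K'
  have hlen : (p.st K').length = w := by
    rw [hw] at hcX
    split_ifs at hcX <;> omega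
  have hmod : K' % p.P = p.P - 1 := by
    obtain ⟨w', rfl⟩ : ∃ w', w = w' + 1 := ⟨w - 1, by omega⟩
    have : K' = (p.P - 1) + p.P * w' := by
      rw [Nat.mul_succ] at hKw
      omega
    rw [this, Nat.add_mul_mod_self_left, Nat.mod_eq_of_lt (by omega)]
  have hnp := p.no_push K' hK1 (Or.inr (Or.inr (by omega)))
  have hst : p.st (K' + 1) = p.st K' := by
    rw [p.st_succ, hnp]
    simp
  apply hno w hw1
  rw [← hKw, hst, hlen]

end Pool.Agent.H15.PCP3.Par
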