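import Mathlib
import Pool.Agent.H15.PCP3.AE
import Pool.Agent.H15.PCP3.AD2

set_option autoImplicit false

/-!
# Module AF2: the two word problem and the clocked machine (←)

`len T - pos T = δ (P cnt X T - 2 T)`, `δ = (β-1) lam + 1`.

(→) Let `(K, X)` solve `XW`.  Take `K' + 1` minimal `≥ 1` with `pos = len` (for the same `X`), visited
letters below are still x, so `pos_lt_len` applies to `K'`.  Suppose `(st (P g)).length ≠ g` for all
`g ≥ 1`.  Claim A: for all `T`, `T / P < (st T).length` if `T ≥ 1`; indeed `(st (P g)).length > g` for all `g ≥ 1`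
by induction (if `(st (P g)).length > g` then `≥ g + 1`, so `(st (P (g+1))).length ≥ g + 1`, not equal;
start: `st P` has length `≥ 1`, not `1`), and `st` is monotone.  Claim B: `X s = Xs s` for `s < K' + 1`
... by induction on `s = T`: `T = 0`: `X 0 = true`: otherwise `pos 1 = A2 > 2 lam = len 1`, contradicting
`pos_lt_len` if `K' ≥ 1` and `pos 1 = len 1` if `K' = 0` (`A1 ≠ l1`, so `K' ≥ 1` in the other case too);
`Xs 0 = true`.  `T ≥ 1`, `T + 1 ≤ K'`: the letter visited at `T + 1` is x, `visit_iff` with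
`v = cnt Xs T + (X T)` gives `v = cnt Xs (T+1)`, so `X T = Xs T`; the group `(T+1)/P` exists by claim A
for `T + 1` (`(T+1)/P < (st (T+1)).length`; if it is not `< (st T).length` then `push T` and
`(T+1)/P = (st T).length > T/P`, so `(T+1) % P = 0`, but `no_push`).  So `X = Xs` below `K'`.  Then
`len K' - pos K' > 0` and `len (K'+1) = pos (K'+1)`: `P v = 2 (K'+1)` with `v = cnt X (K'+1)`; the last
step is passive (`X K' = false`: an active step increases `len - pos`), `v = cnt Xs K'`, even
(`P` odd), `K' + 1 = P (v/2)`; `cnt Xs K' = 2 (st K').length` or `2 (st K').length - 1`, even, so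
`K' + 1 = P g`, `g = (st K').length ≥ 1`, no push at `K'` (`K' % P = P - 1`), `(st (P g)).length = g`.
Contradiction.

(←) Let `g ≥ 1` be minimal with `(st (P g)).length = g`, `K = P g - 1`, `X = Xs`.  For `1 ≤ g' < g`:
`(st (P g')).length > g'` (as in claim A).  `cnt Xs (P g) = 2 g` (no push at `P g - 1`), so
`len = pos` at `P g`; `Xs K = false`.  Visited letters, `T ≤ K`: `T = 0`: `W1 0 = true`; `T = 1`: offset `A1 =
lam (2 β - P) + 2` in the block 0: true by definition of `W1`; `T = T' + 1 ≥ 2`: `visit_iff` for `T'`,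
`v = cnt Xs (T'+1)` (`T / P < (st T').length` because `T ≤ K < P g`: `T/P ≤ g - 1`; minimality).
-/

namespace Pool.Agent.H15.PCP3.Par

open Pool.Agent.H28.PCP (HasSol vl stepW cnt)

variable {p : Par} {Mb : ℕ}

private theorem af2_P_pos (p : Par) : 3 ≤ p.P := by unfold Par.P; omega

private theorem af2_A2 (hp : p.OK Mb) : p.A2 = p.A1 + p.P * p.lam := by
  have h1 := hp.hβ2
  unfold Par.A1 Par.A2
  have h2 : p.P ≤ 2 * p.β := by omega
  obtain ⟨c, hc⟩ := Nat.exists_eq_add_of_le h2
  have h3 : 2 * p.β - p.P = c := by omega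
  rw [h3, hc]
  ring

private theorem af2_geo (hp : p.OK Mb) :
    p.P * p.A2 + 4 * p.lam = 2 * (p.P * p.lam) + 2 * p.l1 + 2 * (p.lam * p.P) := by
  have h1 := hp.hβ2
  unfold Par.l1 Par.A2 Par.Om
  have hP := af2_P_pos p
  have h2 : 2 ≤ p.β := by omega
  obtain ⟨c, hc⟩ := Nat.exists_eq_add_of_le h2
  have h3 : p.β - 2 = c := by omega
  rw [h3, hc]
  ring

private theorem af2_mod (p : Par) {g : ℕ} (hg : 1 ≤ g) {a : ℕ} (ha : 1 ≤ a) (ha2 : a ≤ p.P) :
    (p.P * g - a) % p.P = p.P - a := by
  have hP := af2_P_pos p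
  obtain ⟨c, rfl⟩ : ∃ c, g = c + 1 := ⟨g - 1, by omega⟩
  have h1 : p.P * (c + 1) - a = (p.P - a) + p.P * c := by
    rw [mul_add, mul_one]
    omega
  rw [h1, Nat.add_mul_mod_self_left, Nat.mod_eq_of_lt (by omega)]

theorem xw_mpr (hp : p.OK Mb) (h : ∃ g, 1 ≤ g ∧ (p.st (p.P * g)).length = g) :
    XW p.W1 (w2f p.lam) p.l1 (2 * p.lam) p.A1 p.A2 := by
  classical
  have hN := hp.hN
  have hPN : p.P = 4 * p.N + 3 := rfl
  have hβ := hp.hβ2
  have hlam := hp.hlam
  obtain ⟨hg1, hg2⟩ := Nat.find_spec h
  have hmin : ∀ g', 1 ≤ g' → g' < Nat.find h → (p.st (p.P * g')).length ≠ g' :=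
    fun g' h1 h2 h3 => Nat.find_min h h2 ⟨h1, h3⟩
  generalize Nat.find h = g at hg1 hg2 hmin
  have hone : ∀ T, 1 ≤ T → 1 ≤ (p.st T).length := by
    intro T hT
    have h1 := p.st_len_mono hT
    rw [p.st_one] at h1
    simpa using h1
  have hlen : ∀ g', 1 ≤ g' → g' < g → g' < (p.st (p.P * g')).length := by
    intro g' h1
    induction g', h1 using Nat.le_induction with
    | base =>
      intro h2
      have h3 := hone (p.P * 1) (by omega)
      have h4 := hmin 1 le_rfl h2
      omega
    | succ n hn ih =>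
      intro h2
      have h3 := ih (by omega)
      have h4 : (p.st (p.P * n)).length ≤ (p.st (p.P * (n + 1))).length :=
        p.st_len_mono (Nat.mul_le_mul_left _ (Nat.le_succ n))
      have h5 := hmin (n + 1) (by omega) h2
      omega
  have hPg : p.P ≤ p.P * g := Nat.le_mul_of_pos_right _ hg1
  have hno1 : p.push (p.P * g - 1) = false :=
    p.no_push _ (by omega) (Or.inr (Or.inr (by rw [af2_mod p hg1 le_rfl (by omega)]; omega)))
  have hno2 : p.push (p.P * g - 2) = false :=
    p.no_push _ (by omega) (Or.inr (Or.inr (by rw [af2_mod p hg1 (by omega) (by omega)]; omega)))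
  have hcnt : cnt p.Xs (p.P * g) = 2 * g := by
    have h1 := p.cnt_Xs (p.P * g)
    rw [hno1, hg2] at h1
    simpa using h1
  have hA2 := af2_A2 hp
  have hgeo := af2_geo hp
  have hK : p.P * g - 1 + 1 = p.P * g := by omega
  have hXs0 : p.Xs 0 = true := by simp [Par.Xs, Par.push]
  refine ⟨p.P * g - 1, p.Xs, ?_, ?_, ?_⟩
  · unfold Par.Xs
    rw [hno1]
    have h2 : p.P * g - 1 - 1 = p.P * g - 2 := by omega
    rw [h2, hno2]
    simp
  · rw [hK]
    have h1 := xs_cnt p.A1 p.A2 p.Xs (p.P * g)
    have h2 := xs_cnt p.l1 (2 * p.lam) p.Xs (p.P * g)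
    rw [hcnt] at h1 h2
    have h3 : xs p.A1 p.A2 p.Xs (p.P * g) + p.A1 * (2 * g) + 2 * (p.P * p.lam) * g =
        p.A1 * (2 * g) + g * (p.P * p.A2) := by
      have : p.A2 * (2 * g) = p.A1 * (2 * g) + 2 * (p.P * p.lam) * g := by
        rw [hA2]; ring
      rw [this] at h1
      linarith [h1, mul_comm p.A2 (p.P * g), mul_left_comm g p.P p.A2,
        mul_comm (p.P * g) p.A2, (by ring : p.A2 * (p.P * g) = g * (p.P * p.A2))]
    have h4 : g * (p.P * p.A2 + 4 * p.lam) =
        g * (2 * (p.P * p.lam) + 2 * p.l1 + 2 * (p.lam * p.P)) := by rw [hgeo]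
    nlinarith [h2, h3, h4]
  · intro T hT
    rcases Nat.lt_or_ge T 1 with hT0 | hT1
    · have : T = 0 := by omega
      subst this
      refine ⟨0, le_rfl, ?_, ?_⟩
      · show 0 < 0 + (if p.Xs 0 = true then p.l1 else 2 * p.lam)
        rw [hXs0, if_pos rfl]
        unfold Par.l1
        omega
      · rw [if_pos hXs0]
        show p.W1 (0 - 0) = true
        simp [Par.W1]
    · rcases Nat.lt_or_ge T 2 with hT2 | hT2
      · have : T = 1 := by omega
        subst this
        have hx1 : xs p.A1 p.A2 p.Xs 1 = p.A1 := by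
          show 0 + (if p.Xs 0 = true then p.A1 else p.A2) = p.A1
          rw [hXs0, if_pos rfl, zero_add]
        have hlt : p.A1 < p.l1 := by
          unfold Par.A1 Par.l1 Par.Om
          have h2 : 2 * p.β - p.P ≤ p.P * (p.β - 2) + 2 := by
            have : 2 * (p.β - 2) ≤ p.P * (p.β - 2) := Nat.mul_le_mul_right _ (by omega)
            omega
          have h3 : (2 * p.β - p.P) * p.lam ≤ (p.P * (p.β - 2) + 2) * p.lam :=
            Nat.mul_le_mul_right _ h2
          have h4 : (p.P * (p.β - 2) + 2) * p.lam = p.lam * (p.P * (p.β - 2) + 2) := mul_comm _ _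
          omega
        rw [hx1]
        refine ⟨0, Nat.zero_le _, ?_, ?_⟩
        · show p.A1 < 0 + (if p.Xs 0 = true then p.l1 else 2 * p.lam)
          rw [hXs0, if_pos rfl, zero_add]
          exact hlt
        · rw [if_pos hXs0]
          have e1 : p.A1 - xs p.l1 (2 * p.lam) p.Xs 0 = p.lam * (2 * p.β - p.P) + 2 := by
            show p.A1 - 0 = _
            unfold Par.A1
            rw [Nat.sub_zero, mul_comm]
          rw [e1, W1_eq hp (by omega) (by omega) ?_]
          · rw [if_pos ⟨rfl, by omega⟩]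
          · unfold Par.Om
            have : 3 * (p.β - 2) ≤ p.P * (p.β - 2) := Nat.mul_le_mul_right _ (by omega)
            omega
      · obtain ⟨T', rfl⟩ : ∃ T', T = T' + 1 := ⟨T - 1, by omega⟩
        have hT' : 1 ≤ T' := by omega
        have hv : cnt p.Xs (T' + 1) = cnt p.Xs T' ∨ cnt p.Xs (T' + 1) = cnt p.Xs T' + 1 := by
          show cnt p.Xs T' + (if p.Xs T' then 1 else 0) = _ ∨
            cnt p.Xs T' + (if p.Xs T' then 1 else 0) = _
          split_ifs
          · right; rfl
          · left; rfl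
        have hq : xs p.A1 p.A2 p.Xs (T' + 1) + p.P * p.lam * cnt p.Xs (T' + 1) =
            p.A2 * (T' + 1) := by
          have h1 := xs_cnt p.A1 p.A2 p.Xs (T' + 1)
          have h2 : p.A2 * cnt p.Xs (T' + 1) = p.A1 * cnt p.Xs (T' + 1) +
              p.P * p.lam * cnt p.Xs (T' + 1) := by rw [hA2]; ring
          omega
        have hg : (T' + 1) / p.P < (p.st T').length := by
          have hPpos : 0 < p.P := by omega
          have hG : (T' + 1) / p.P < g := by
            rw [Nat.div_lt_iff_lt_mul hPpos, mul_comm]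
            omega
          rcases Nat.eq_zero_or_pos ((T' + 1) / p.P) with h0 | h0
          · rw [h0]
            exact hone T' hT'
          · have h1 := hlen _ h0 hG
            have h2 : p.P * ((T' + 1) / p.P) ≤ T' + 1 := Nat.mul_div_le _ _
            rcases Nat.lt_or_ge T' (p.P * ((T' + 1) / p.P)) with h3 | h3
            · have h4 : p.P * ((T' + 1) / p.P) = T' + 1 := by omega
              have h5 : p.push T' = false := by
                apply p.no_push _ hT'
                right; right
                have h6 := af2_mod p h0 (a := 1) le_rfl (by omega)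
                rw [h4, Nat.add_sub_cancel] at h6
                rw [h6]
                omega
              have h6 := p.st_succ T'
              rw [h5] at h6
              simp only [Bool.false_eq_true, if_false] at h6
              rw [h4, h6] at h1
              exact h1
            · exact h1.trans_le (p.st_len_mono h3)
        rw [visit_iff hp hT' (fun s _ => rfl) hg hv hq]

end Pool.Agent.H15.PCP3.Par
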