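import Mathlib
import Pool.Agent.H15.PCP3.AF1
import Pool.Agent.H15.PCP3.AF2

set_option autoImplicit false

/-!
# The two word problem and the clocked machine
-/

namespace Pool.Agent.H15.PCP3.Par

variable {p : Par} {Mb : ℕ}

theorem xw_iff (hp : p.OK Mb) :
    XW p.W1 (w2f p.lam) p.l1 (2 * p.lam) p.A1 p.A2 ↔
      ∃ g, 1 ≤ g ∧ (p.st (p.P * g)).length = g :=
  ⟨xw_mp hp, xw_mpr hp⟩

end Pool.Agent.H15.PCP3.Par
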