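import Mathlib
import Pool.Agent.H15.PCP3.AA

set_option autoImplicit false

/-!
# Module BA: one window of the clocked machine of a program

`P = 4 N + 3`, `N = I Tn`.  In the window `g` (times `P g + r`, `0 ≤ r < P`) pushes happen only at
`r = 2 N + 2 + 2 e`, `e < N` (`push_shape`/`no_push`).  `l = st (P g + 2 N + 2)`, `τ = l[g]`.
At the slot `e = i Tn + t` (`i < I`, `t < Tn`) with `j` pushes of this window before it,
`mh = τ + P (l.length + j + S) - 2 P g` has `mh % P = τ % P`, `mh / P = bh + j` and `Eh e mh` says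
`i ≤ bh + j ∧ i < ln t' (bh + j - i) ∧ gt t' (bh + j - i) i = t`, `t' = ty τ`, `n = ln t' bh`.
Claim (induction on `i`, inside on `t`): for `i ≤ I`, `t ≤ Tn` (with `t = 0` if `i = I`)
`st (P g + 2 N + 2 + 2 (i Tn + t)) = l ++ (range (min i n)).map (slot time) ++ (the `i`-th one if
`i < n` and `gt t' bh i < t`)`.
* row `i < n`, before the push: `j = i`, condition `i < n ∧ gt t' bh i = t`: push exactly at
  `t = gt t' bh i < Tn`; after it `j = i + 1`: `i < ln t' (bh + 1)` is false by `hF2`.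
* row `i ≥ n`: `j = n`, `k = i - n`: `i < ln t' (bh - k)` is false: `k = 0` clear, `k ≥ 1` by `hF1`
  (if `i ≤ bh + n`, i.e. `k ≤ bh`).
Between the slots (odd `r`) and for `r ≥ 4 N + 1` and `r < 2 N + 2` in the next window: `no_push`.
`st (P * (g+1) + 2 N + 2)` is then as claimed.
-/

namespace Pool.Agent.H15.PCP3.Prog

/-- type of the token pushed at time `τ` -/
def ty (r : Prog) (τ : ℕ) : ℕ :=
  if τ % (4 * r.N + 3) = 0 then r.tI else (τ % (4 * r.N + 3) - (2 * r.N + 2)) / 2 % r.Tn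

theorem ba_const (p : Par) {x y : ℕ} (hxy : x ≤ y) (h : ∀ T, x ≤ T → T < y → p.push T = false) :
    p.st y = p.st x := by
  induction y, hxy using Nat.le_induction with
  | base => rfl
  | succ y hy ih =>
    rw [p.st_succ, h y hy (Nat.lt_succ_self y), ih (fun T h1 h2 => h T h1 (by omega))]
    simp

theorem ba_slot_mod (r : Prog) (β lam pc : ℕ) (g e : ℕ) (he : e < r.N) :
    ((4 * r.N + 3) * g + 2 * r.N + 2 + 2 * e) / (r.par β lam pc).P = g ∧
    ((4 * r.N + 3) * g + 2 * r.N + 2 + 2 * e) % (r.par β lam pc).P = 2 * r.N + 2 + 2 * e := by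
  have hP : (r.par β lam pc).P = 4 * r.N + 3 := rfl
  have h1 : (4 * r.N + 3) * g + 2 * r.N + 2 + 2 * e = (2 * r.N + 2 + 2 * e) + (4 * r.N + 3) * g := by
    ring
  have h2 : 2 * r.N + 2 + 2 * e < 4 * r.N + 3 := by omega
  rw [hP, h1]
  constructor
  · rw [Nat.add_mul_div_left _ _ (by omega), Nat.div_eq_of_lt h2, zero_add]
  · rw [Nat.add_mul_mod_self_left, Nat.mod_eq_of_lt h2]

/-- the next slot -/
theorem ba_step (r : Prog) (β lam pc : ℕ) (g e : ℕ) (he : e < r.N) :
    (r.par β lam pc).st ((4 * r.N + 3) * g + 2 * r.N + 2 + 2 * (e + 1)) =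
      (r.par β lam pc).st ((4 * r.N + 3) * g + 2 * r.N + 2 + 2 * e) ++
      (if (r.par β lam pc).push ((4 * r.N + 3) * g + 2 * r.N + 2 + 2 * e) = true then
        [(4 * r.N + 3) * g + 2 * r.N + 2 + 2 * e] else []) := by
  set T := (4 * r.N + 3) * g + 2 * r.N + 2 + 2 * e with hT
  have h1 : (4 * r.N + 3) * g + 2 * r.N + 2 + 2 * (e + 1) = (T + 1) + 1 := by
    rw [hT]
    ring
  obtain ⟨h2, h3⟩ := ba_slot_mod r β lam pc g e he
  rw [← hT] at h2 h3
  have hP : (r.par β lam pc).P = 4 * r.N + 3 := rfl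
  have h4 : (T + 1) % (r.par β lam pc).P = 2 * r.N + 2 + 2 * e + 1 := by
    rw [Nat.add_mod, h3, hP, Nat.mod_eq_of_lt (a := 1) (by omega), Nat.mod_eq_of_lt (by omega)]
  have h5 : (r.par β lam pc).push (T + 1) = false := by
    refine Par.no_push _ (T + 1) (by omega) (Or.inl ?_)
    rw [h4]
    omega
  rw [h1, Par.st_succ, h5, Par.st_succ]
  by_cases hp : (r.par β lam pc).push T = true
  · simp [hp]
  · simp [hp]

/-- the push condition at a slot -/
theorem ba_push (r : Prog) (β lam pc : ℕ) {g : ℕ} {l m : List ℕ} {τ bh : ℕ} (hTn : 1 ≤ r.Tn)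
    (hτ : l[g]? = some τ)
    (hb : bh + 2 * g = l.length + r.S + τ / (4 * r.N + 3)) {i t : ℕ} (hi : i < r.I) (ht : t < r.Tn)
    (hs : (r.par β lam pc).st ((4 * r.N + 3) * g + 2 * r.N + 2 + 2 * (i * r.Tn + t)) = l ++ m) :
    (r.par β lam pc).push ((4 * r.N + 3) * g + 2 * r.N + 2 + 2 * (i * r.Tn + t)) = true ↔
      (i ≤ bh + m.length ∧ i < r.ln (r.ty τ) (bh + m.length - i) ∧
        r.gt (r.ty τ) (bh + m.length - i) i = t) := by
  have hN : r.N = r.I * r.Tn := rfl
  have he : i * r.Tn + t < r.N := by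
    rw [hN]
    calc i * r.Tn + t < i * r.Tn + r.Tn := by omega
      _ = (i + 1) * r.Tn := by ring
      _ ≤ r.I * r.Tn := Nat.mul_le_mul_right _ hi
  obtain ⟨h2, h3⟩ := ba_slot_mod r β lam pc g (i * r.Tn + t) he
  set T := (4 * r.N + 3) * g + 2 * r.N + 2 + 2 * (i * r.Tn + t) with hT
  have hT0 : T ≠ 0 := by omega
  have hg : g < l.length := by
    by_contra hcon
    rw [List.getElem?_eq_none (by omega)] at hτ
    exact absurd hτ (by simp)
  have hgetD : (l ++ m).getD g 0 = τ := by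
    rw [List.getD_eq_getElem?_getD, List.getElem?_append_left hg, hτ]
    rfl
  have hmh : τ + (4 * r.N + 3) * ((l ++ m).length + r.S) - 2 * (4 * r.N + 3) * g =
      (4 * r.N + 3) * (bh + m.length) + τ % (4 * r.N + 3) := by
    have h4 := Nat.div_add_mod τ (4 * r.N + 3)
    rw [List.length_append]
    have h5 : τ + (4 * r.N + 3) * (l.length + m.length + r.S) =
        ((4 * r.N + 3) * (bh + m.length) + τ % (4 * r.N + 3)) + 2 * (4 * r.N + 3) * g := by
      calc τ + (4 * r.N + 3) * (l.length + m.length + r.S)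
          = (4 * r.N + 3) * (τ / (4 * r.N + 3)) + τ % (4 * r.N + 3) +
            (4 * r.N + 3) * (l.length + m.length + r.S) := by rw [h4]
        _ = (4 * r.N + 3) * (l.length + r.S + τ / (4 * r.N + 3)) + (4 * r.N + 3) * m.length +
            τ % (4 * r.N + 3) := by ring
        _ = (4 * r.N + 3) * (bh + 2 * g) + (4 * r.N + 3) * m.length + τ % (4 * r.N + 3) := by
            rw [hb]
        _ = ((4 * r.N + 3) * (bh + m.length) + τ % (4 * r.N + 3)) + 2 * (4 * r.N + 3) * g := by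
            ring
    rw [h5, Nat.add_sub_cancel]
  have hmod : ((4 * r.N + 3) * (bh + m.length) + τ % (4 * r.N + 3)) % (4 * r.N + 3) =
      τ % (4 * r.N + 3) := by
    rw [Nat.mul_add_mod, Nat.mod_mod]
  have hdiv : ((4 * r.N + 3) * (bh + m.length) + τ % (4 * r.N + 3)) / (4 * r.N + 3) =
      bh + m.length := by
    rw [Nat.mul_add_div (by omega), Nat.div_eq_of_lt (Nat.mod_lt _ (by omega)), add_zero]
  have hed : (i * r.Tn + t) / r.Tn = i := by
    rw [Nat.mul_comm, Nat.mul_add_div (by omega), Nat.div_eq_of_lt ht, add_zero]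
  have hem : (i * r.Tn + t) % r.Tn = t := by
    rw [Nat.mul_comm, Nat.mul_add_mod, Nat.mod_eq_of_lt ht]
  have hslot : (2 * r.N + 2 + 2 * (i * r.Tn + t) - (2 * r.N + 2)) / 2 = i * r.Tn + t := by omega
  have hEh : r.Eh (i * r.Tn + t) ((4 * r.N + 3) * (bh + m.length) + τ % (4 * r.N + 3)) = true ↔
      (i ≤ bh + m.length ∧ i < r.ln (r.ty τ) (bh + m.length - i) ∧
        r.gt (r.ty τ) (bh + m.length - i) i = t) := by
    unfold Eh
    rw [decide_eq_true_eq, hmod, hdiv, hed, hem]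
    exact Iff.rfl
  rw [← hEh]
  unfold Par.push
  rw [decide_eq_true_eq, hs]
  have hPC : (r.par β lam pc).PC T (l ++ m) = r.Eh (i * r.Tn + t)
      ((4 * r.N + 3) * (bh + m.length) + τ % (4 * r.N + 3)) := by
    unfold Par.PC
    rw [h2, h3, hgetD]
    have hP : (r.par β lam pc).P = 4 * r.N + 3 := rfl
    have hNN : (r.par β lam pc).N = r.N := rfl
    have hSS : (r.par β lam pc).S = r.S := rfl
    have hE : (r.par β lam pc).Eh = r.Eh := rfl
    rw [hP, hNN, hSS, hE, hslot, hmh]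
    have hd : decide (g < (l ++ m).length ∧ 2 * r.N + 2 ≤ 2 * r.N + 2 + 2 * (i * r.Tn + t) ∧
        (2 * r.N + 2 + 2 * (i * r.Tn + t)) % 2 = 0 ∧ i * r.Tn + t < r.N) = true := by
      rw [decide_eq_true_eq]
      refine ⟨?_, by omega, by omega, he⟩
      rw [List.length_append]
      omega
    rw [hd, Bool.true_and]
  rw [hPC]
  exact ⟨fun h => h.resolve_left hT0, fun h => Or.inr h⟩

/-- a row with a push -/
theorem ba_row_lt (r : Prog) (β lam pc : ℕ) {g : ℕ} {l : List ℕ} {τ bh : ℕ} (hTn : 1 ≤ r.Tn)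
    (hτ : l[g]? = some τ)
    (hb : bh + 2 * g = l.length + r.S + τ / (4 * r.N + 3))
    (hF2 : 0 < r.ln (r.ty τ) bh → r.ln (r.ty τ) (bh + 1) = 0)
    {i : ℕ} (hi : i < r.I) (hin : i < r.ln (r.ty τ) bh) {m : List ℕ} (hm : m.length = i)
    (hs : (r.par β lam pc).st ((4 * r.N + 3) * g + 2 * r.N + 2 + 2 * (i * r.Tn)) = l ++ m)
    (t : ℕ) (ht : t ≤ r.Tn) :
    (r.par β lam pc).st ((4 * r.N + 3) * g + 2 * r.N + 2 + 2 * (i * r.Tn + t)) =
      l ++ (m ++ (if r.gt (r.ty τ) bh i < t then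
        [(4 * r.N + 3) * g + 2 * r.N + 2 + 2 * (i * r.Tn + r.gt (r.ty τ) bh i)] else [])) := by
  have hN : r.N = r.I * r.Tn := rfl
  induction t with
  | zero =>
    rw [if_neg (Nat.not_lt_zero _), List.append_nil, add_zero]
    exact hs
  | succ t ih =>
    have ht' : t < r.Tn := ht
    have ih' := ih (by omega)
    have he : i * r.Tn + t < r.N := by
      rw [hN]
      calc i * r.Tn + t < i * r.Tn + r.Tn := by omega
        _ = (i + 1) * r.Tn := by ring
        _ ≤ r.I * r.Tn := Nat.mul_le_mul_right _ hi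
    have hp := ba_push r β lam pc hTn hτ hb hi ht' ih'
    rw [← add_assoc, ba_step r β lam pc g _ he, ih']
    rcases Nat.lt_trichotomy (r.gt (r.ty τ) bh i) t with h | h | h
    · rw [if_pos h, if_pos (show r.gt (r.ty τ) bh i < t + 1 by omega), if_neg, List.append_nil]
      rw [hp, if_pos h, List.length_append, hm, List.length_singleton]
      rintro ⟨-, h2, -⟩
      rw [show bh + (i + 1) - i = bh + 1 by omega, hF2 (by omega)] at h2
      omega
    · rw [if_neg (show ¬ r.gt (r.ty τ) bh i < t by omega),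
        if_pos (show r.gt (r.ty τ) bh i < t + 1 by omega), if_pos, h, List.append_nil,
        List.append_assoc]
      rw [hp, if_neg (show ¬ r.gt (r.ty τ) bh i < t by omega), List.append_nil, hm]
      rw [show bh + i - i = bh by omega]
      exact ⟨by omega, hin, h⟩
    · rw [if_neg (show ¬ r.gt (r.ty τ) bh i < t by omega),
        if_neg (show ¬ r.gt (r.ty τ) bh i < t + 1 by omega), if_neg, List.append_nil,
        List.append_nil]
      rw [hp, if_neg (show ¬ r.gt (r.ty τ) bh i < t by omega), List.append_nil, hm]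
      rw [show bh + i - i = bh by omega]
      rintro ⟨-, -, h3⟩
      omega

/-- a row without a push -/
theorem ba_row_ge (r : Prog) (β lam pc : ℕ) {g : ℕ} {l : List ℕ} {τ bh : ℕ} (hTn : 1 ≤ r.Tn)
    (hτ : l[g]? = some τ)
    (hb : bh + 2 * g = l.length + r.S + τ / (4 * r.N + 3))
    (hF1 : ∀ j, 1 ≤ j → j ≤ bh → r.ln (r.ty τ) (bh - j) ≤ r.ln (r.ty τ) bh + j)
    {i : ℕ} (hi : i < r.I) (hin : r.ln (r.ty τ) bh ≤ i) {m : List ℕ}
    (hm : m.length = r.ln (r.ty τ) bh)
    (hs : (r.par β lam pc).st ((4 * r.N + 3) * g + 2 * r.N + 2 + 2 * (i * r.Tn)) = l ++ m)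
    (t : ℕ) (ht : t ≤ r.Tn) :
    (r.par β lam pc).st ((4 * r.N + 3) * g + 2 * r.N + 2 + 2 * (i * r.Tn + t)) = l ++ m := by
  have hN : r.N = r.I * r.Tn := rfl
  induction t with
  | zero =>
    rw [add_zero]
    exact hs
  | succ t ih =>
    have ht' : t < r.Tn := ht
    have ih' := ih (by omega)
    have he : i * r.Tn + t < r.N := by
      rw [hN]
      calc i * r.Tn + t < i * r.Tn + r.Tn := by omega
        _ = (i + 1) * r.Tn := by ring
        _ ≤ r.I * r.Tn := Nat.mul_le_mul_right _ hi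
    have hp := ba_push r β lam pc hTn hτ hb hi ht' ih'
    rw [← add_assoc, ba_step r β lam pc g _ he, ih', if_neg, List.append_nil]
    rw [hp, hm]
    rintro ⟨h1, h2, -⟩
    rcases Nat.eq_or_lt_of_le hin with h | h
    · rw [show bh + r.ln (r.ty τ) bh - i = bh by omega] at h2
      omega
    · have h3 := hF1 (i - r.ln (r.ty τ) bh) (by omega) (by omega)
      rw [show bh + r.ln (r.ty τ) bh - i = bh - (i - r.ln (r.ty τ) bh) by omega] at h2
      omega

theorem window (r : Prog) (β lam pc : ℕ) {g : ℕ} {l : List ℕ} {τ bh : ℕ} (hTn : 1 ≤ r.Tn)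
    (hI : 1 ≤ r.I)
    (hl : (r.par β lam pc).st ((4 * r.N + 3) * g + 2 * r.N + 2) = l)
    (hτ : l[g]? = some τ)
    (hb : bh + 2 * g = l.length + r.S + τ / (4 * r.N + 3))
    (hF1 : ∀ j, 1 ≤ j → j ≤ bh → r.ln (r.ty τ) (bh - j) ≤ r.ln (r.ty τ) bh + j)
    (hF2 : 0 < r.ln (r.ty τ) bh → r.ln (r.ty τ) (bh + 1) = 0)
    (hn : r.ln (r.ty τ) bh ≤ r.I)
    (hgt : ∀ i < r.ln (r.ty τ) bh, r.gt (r.ty τ) bh i < r.Tn) :
    (r.par β lam pc).st ((4 * r.N + 3) * (g + 1) + 2 * r.N + 2) =
      l ++ (List.range (r.ln (r.ty τ) bh)).map (fun i =>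
        (4 * r.N + 3) * g + 2 * r.N + 2 + 2 * (i * r.Tn + r.gt (r.ty τ) bh i)) := by
  have hN : r.N = r.I * r.Tn := rfl
  have hP : (r.par β lam pc).P = 4 * r.N + 3 := rfl
  have hNN : (r.par β lam pc).N = r.N := rfl
  -- the rows with a push
  have h1 : ∀ i ≤ r.ln (r.ty τ) bh,
      (r.par β lam pc).st ((4 * r.N + 3) * g + 2 * r.N + 2 + 2 * (i * r.Tn)) =
      l ++ (List.range i).map (fun i =>
        (4 * r.N + 3) * g + 2 * r.N + 2 + 2 * (i * r.Tn + r.gt (r.ty τ) bh i)) := by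
    intro i
    induction i with
    | zero =>
      intro _
      rw [Nat.zero_mul, Nat.mul_zero, add_zero, hl]
      simp
    | succ i ih =>
      intro hi
      have h2 := ba_row_lt r β lam pc hTn hτ hb hF2 (by omega : i < r.I) hi
        (by rw [List.length_map, List.length_range]) (ih (by omega)) r.Tn le_rfl
      rw [if_pos (hgt i hi)] at h2
      rw [show (i + 1) * r.Tn = i * r.Tn + r.Tn by ring, h2, List.range_succ, List.map_append]
      rfl
  -- the rows without a push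
  have h2 : ∀ i, r.ln (r.ty τ) bh ≤ i → i ≤ r.I →
      (r.par β lam pc).st ((4 * r.N + 3) * g + 2 * r.N + 2 + 2 * (i * r.Tn)) =
      l ++ (List.range (r.ln (r.ty τ) bh)).map (fun i =>
        (4 * r.N + 3) * g + 2 * r.N + 2 + 2 * (i * r.Tn + r.gt (r.ty τ) bh i)) := by
    intro i hi
    induction i, hi using Nat.le_induction with
    | base =>
      intro _
      exact h1 _ le_rfl
    | succ i hi ih =>
      intro hiI
      have h2 := ba_row_ge r β lam pc hTn hτ hb hF1 (by omega : i < r.I) hi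
        (by rw [List.length_map, List.length_range]) (ih (by omega)) r.Tn le_rfl
      rw [show (i + 1) * r.Tn = i * r.Tn + r.Tn by ring, h2]
  have h3 := h2 r.I hn le_rfl
  rw [← hN] at h3
  rw [← h3]
  refine ba_const _ (by nlinarith) ?_
  intro T hT1 hT2
  refine Par.no_push _ T (by omega) ?_
  rw [hP, hNN]
  rcases Nat.lt_or_ge T ((4 * r.N + 3) * (g + 1)) with h4 | h4
  · right
    right
    have h5 : T = (4 * r.N + 3) * g + (4 * r.N + 2) := by
      have : (4 * r.N + 3) * (g + 1) = (4 * r.N + 3) * g + (4 * r.N + 3) := by ring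
      omega
    rw [h5, Nat.mul_add_mod, Nat.mod_eq_of_lt (by omega)]
    omega
  · right
    left
    obtain ⟨c, hc⟩ := Nat.exists_eq_add_of_le h4
    rw [hc, Nat.mul_add_mod, Nat.mod_eq_of_lt (by omega)]
    omega

end Pool.Agent.H15.PCP3.Prog
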