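import Mathlib
import Pool.Agent.H15.PCP3.BA

set_option autoImplicit false

/-!
# Module BB: the clocked machine follows the queue machine

`L g = st (P g + 2 N + 2)` (`P = 4 N + 3`); `L 0 = [0]` and `L g = st (P g)` for `g ≥ 1` (`no_push`).
Token number `h` (the push time `τ` with number `h`) is `(ty τ, h - τ / P)`.
`inv`: by induction on `g`, as long as `(L g').length ≠ g'` for the `g' < g`:
`g ≤ (L g).length` and `step^[g] q0 = ((L g).zipIdx.map (fun x => (ty x.1, x.2 - x.1 / P))).drop g`.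
Step: `(L g).length > g`; the queue is `(ty τ, g - τ/P) :: q` with `τ = (L g)[g]`,
`q.length + 1 = (L g).length - g`, `τ / P ≤ g` (`st_get_shape`; `τ = 0` for `g = 0`), the shifted
difference of `Reg`/`step` is `q.length + 1 + S - (g - τ/P) = bh` of `window` (`Good.hreg` gives all its
hypotheses); `window` gives `L (g+1) = L g ++ ...`; the new token number `h = (L g).length + i` has push
time `P g + 2 N + 2 + 2 (i Tn + gt i)`, so `/ P = g` (`2 N + 2 + 2 e < P` as `e < N`), type
`(2 (i Tn + gt i)) / 2 % Tn = gt i` and `Δ = h - g = q.length + 1 + i`.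
-/

namespace Pool.Agent.H15.PCP3.Prog

/-- the tokens of a list of push times -/
def toks (r : Prog) (l : List ℕ) : List (ℕ × ℕ) :=
  l.zipIdx.map (fun x => (r.ty x.1, x.2 - x.1 / (4 * r.N + 3)))

theorem bb_stable (p : Par) {a b : ℕ} (hab : a ≤ b)
    (h : ∀ T, a ≤ T → T < b → p.push T = false) : p.st b = p.st a := by
  induction b, hab using Nat.le_induction with
  | base => rfl
  | succ n hn ih =>
    rw [Par.st_succ, h n hn (Nat.lt_succ_self n)]
    simpa using ih (fun T h1 h2 => h T h1 (by omega))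

theorem bb_P (r : Prog) (β lam pc : ℕ) : (r.par β lam pc).P = 4 * r.N + 3 := rfl

theorem bb_N (r : Prog) (β lam pc : ℕ) : (r.par β lam pc).N = r.N := rfl

theorem L_zero (r : Prog) (β lam pc : ℕ) : (r.par β lam pc).st (2 * r.N + 2) = [0] := by
  rw [bb_stable (r.par β lam pc) (a := 1) (b := 2 * r.N + 2) (by omega) ?_]
  · exact Par.st_one _
  · intro T h1 h2
    refine Par.no_push _ T h1 (Or.inr (Or.inl ?_))
    rw [bb_P, bb_N, Nat.mod_eq_of_lt (by omega)]
    exact h2

theorem L_eq (r : Prog) (β lam pc : ℕ) {g : ℕ} (hg : 1 ≤ g) :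
    (r.par β lam pc).st ((4 * r.N + 3) * g + 2 * r.N + 2) =
      (r.par β lam pc).st ((4 * r.N + 3) * g) := by
  refine bb_stable (r.par β lam pc) (by omega) ?_
  intro T h1 h2
  have h3 : 1 ≤ (4 * r.N + 3) * g := Nat.mul_pos (by omega) hg
  refine Par.no_push _ T (by omega) (Or.inr (Or.inl ?_))
  rw [bb_P, bb_N]
  obtain ⟨c, rfl⟩ := Nat.exists_eq_add_of_le h1
  rw [Nat.mul_add_mod, Nat.mod_eq_of_lt (by omega)]
  omega

theorem bb_slot (r : Prog) {g e : ℕ} (he : e < r.N) :
    ((4 * r.N + 3) * g + 2 * r.N + 2 + 2 * e) / (4 * r.N + 3) = g ∧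
      ((4 * r.N + 3) * g + 2 * r.N + 2 + 2 * e) % (4 * r.N + 3) = 2 * r.N + 2 + 2 * e := by
  have h1 : (4 * r.N + 3) * g + 2 * r.N + 2 + 2 * e =
      (4 * r.N + 3) * g + (2 * r.N + 2 + 2 * e) := by omega
  rw [h1]
  constructor
  · rw [Nat.mul_add_div (by omega), Nat.div_eq_of_lt (by omega), Nat.add_zero]
  · rw [Nat.mul_add_mod, Nat.mod_eq_of_lt (by omega)]

theorem bb_ty_slot (r : Prog) {g e : ℕ} (he : e < r.N) :
    r.ty ((4 * r.N + 3) * g + 2 * r.N + 2 + 2 * e) = e % r.Tn := by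
  unfold ty
  rw [(bb_slot r he).2, if_neg (by omega)]
  congr 1
  omega

theorem bb_toks_append (r : Prog) (l l' : List ℕ) :
    r.toks (l ++ l') = r.toks l ++
      (l'.zipIdx l.length).map (fun x => (r.ty x.1, x.2 - x.1 / (4 * r.N + 3))) := by
  unfold toks
  rw [List.zipIdx_append, List.map_append, Nat.zero_add]

theorem bb_toks_length (r : Prog) (l : List ℕ) : (r.toks l).length = l.length := by
  simp [toks]

theorem bb_toks_get (r : Prog) (l : List ℕ) (g : ℕ) (hg : g < (r.toks l).length)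
    (hg' : g < l.length) :
    (r.toks l)[g] = (r.ty l[g], g - l[g] / (4 * r.N + 3)) := by
  simp [toks]

theorem bb_div_le (r : Prog) (β lam pc : ℕ) {T g τ : ℕ}
    (h : ((r.par β lam pc).st T)[g]? = some τ) : τ / (4 * r.N + 3) ≤ g := by
  rcases Nat.eq_zero_or_pos g with h0 | h0
  · subst h0
    have := Par.st_get_zero _ h
    subst this
    simp
  · exact (Par.st_get_shape _ h h0).1.le

/-- one step of the invariant -/
theorem bb_step (r : Prog) {B0 : ℕ} (hr : r.Good B0) (β lam pc : ℕ) (g : ℕ)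
    (hlen : g < ((r.par β lam pc).st ((4 * r.N + 3) * g + 2 * r.N + 2)).length)
    (hq : r.step^[g] r.q0 =
        (r.toks ((r.par β lam pc).st ((4 * r.N + 3) * g + 2 * r.N + 2))).drop g) :
    ∃ τ bh q, ((r.par β lam pc).st ((4 * r.N + 3) * g + 2 * r.N + 2))[g]? = some τ ∧
      τ / (4 * r.N + 3) ≤ g ∧
      q = (r.toks ((r.par β lam pc).st ((4 * r.N + 3) * g + 2 * r.N + 2))).drop (g + 1) ∧
      r.step^[g] r.q0 = (r.ty τ, g - τ / (4 * r.N + 3)) :: q ∧
      q.length + 1 + g = ((r.par β lam pc).st ((4 * r.N + 3) * g + 2 * r.N + 2)).length ∧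
      bh = q.length + 1 + r.S - (g - τ / (4 * r.N + 3)) ∧
      bh + 2 * g = ((r.par β lam pc).st ((4 * r.N + 3) * g + 2 * r.N + 2)).length + r.S +
        τ / (4 * r.N + 3) ∧
      (q.length + 1 ≤ (g - τ / (4 * r.N + 3)) + B0 ∧
        (g - τ / (4 * r.N + 3)) ≤ q.length + 1 + B0) ∧
      r.ln (r.ty τ) bh ≤ r.I ∧
      (∀ i < r.ln (r.ty τ) bh, r.gt (r.ty τ) bh i < r.Tn) ∧
      (r.par β lam pc).st ((4 * r.N + 3) * (g + 1) + 2 * r.N + 2) =
        (r.par β lam pc).st ((4 * r.N + 3) * g + 2 * r.N + 2) ++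
          (List.range (r.ln (r.ty τ) bh)).map (fun i =>
          (4 * r.N + 3) * g + 2 * r.N + 2 + 2 * (i * r.Tn + r.gt (r.ty τ) bh i)) := by
  set l := (r.par β lam pc).st ((4 * r.N + 3) * g + 2 * r.N + 2) with hl
  have hτ : l[g]? = some l[g] := List.getElem?_eq_getElem hlen
  have hdiv : l[g] / (4 * r.N + 3) ≤ g := bb_div_le r β lam pc (T := (4 * r.N + 3) * g + 2 * r.N + 2)
    (by rw [← hl]; exact hτ)
  have hlt : g < (r.toks l).length := by rw [bb_toks_length]; exact hlen
  have hdrop : (r.toks l).drop g = (r.ty l[g], g - l[g] / (4 * r.N + 3)) ::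
      (r.toks l).drop (g + 1) := by
    rw [List.drop_eq_getElem_cons hlt, bb_toks_get r l g hlt hlen]
  have hql : ((r.toks l).drop (g + 1)).length + 1 + g = l.length := by
    rw [List.length_drop, bb_toks_length]
    omega
  have hq' := hq.trans hdrop
  have hreg := hr.hreg g
  rw [hq'] at hreg
  obtain ⟨⟨h1, h2⟩, h3, h4, h5, h6⟩ := hreg
  have hb : (((r.toks l).drop (g + 1)).length + 1 + r.S - (g - l[g] / (4 * r.N + 3))) + 2 * g =
      l.length + r.S + l[g] / (4 * r.N + 3) := by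
    have := hr.hS
    omega
  refine ⟨l[g], ((r.toks l).drop (g + 1)).length + 1 + r.S - (g - l[g] / (4 * r.N + 3)),
    (r.toks l).drop (g + 1), hτ, hdiv, rfl, hq', hql, rfl, hb, ⟨h1, h2⟩, h5, h6, ?_⟩
  exact window r β lam pc hr.hTn hr.hI hl.symm hτ hb h3 h4 h5 h6

theorem inv (r : Prog) {B0 : ℕ} (hr : r.Good B0) (β lam pc : ℕ) (g : ℕ)
    (hg : ∀ g' < g, ((r.par β lam pc).st ((4 * r.N + 3) * g' + 2 * r.N + 2)).length ≠ g') :
    g ≤ ((r.par β lam pc).st ((4 * r.N + 3) * g + 2 * r.N + 2)).length ∧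
      r.step^[g] r.q0 =
        (r.toks ((r.par β lam pc).st ((4 * r.N + 3) * g + 2 * r.N + 2))).drop g := by
  induction g with
  | zero =>
    refine ⟨Nat.zero_le _, ?_⟩
    have h0 : (4 * r.N + 3) * 0 + 2 * r.N + 2 = 2 * r.N + 2 := by omega
    rw [h0, L_zero]
    simp [toks, q0, ty]
  | succ g ih =>
    obtain ⟨ih1, ih2⟩ := ih (fun g' h' => hg g' (by omega))
    have hlen := lt_of_le_of_ne ih1 (Ne.symm (hg g (Nat.lt_succ_self g)))
    obtain ⟨τ, bh, q, hτ, hdiv, hq, hstep, hql, hbh, hb, hB, hn, hgt, hw⟩ :=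
      bb_step r hr β lam pc g hlen ih2
    set l := (r.par β lam pc).st ((4 * r.N + 3) * g + 2 * r.N + 2) with hl
    rw [hw]
    constructor
    · rw [List.length_append]
      omega
    · rw [Function.iterate_succ_apply', hstep, bb_toks_append,
        List.drop_append_of_le_length (by rw [bb_toks_length]; omega), ← hq]
      have hst : r.step ((r.ty τ, g - τ / (4 * r.N + 3)) :: q) =
          q ++ (List.range (r.ln (r.ty τ) (q.length + 1 + r.S - (g - τ / (4 * r.N + 3))))).map
            (fun i => (r.gt (r.ty τ) (q.length + 1 + r.S - (g - τ / (4 * r.N + 3))) i,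
              q.length + 1 + i)) := rfl
      rw [hst, ← hbh]
      congr 1
      refine List.ext_getElem (by simp) ?_
      intro i h1 h2
      have hi : i < r.ln (r.ty τ) bh := by simpa using h1
      have hg1 := hgt i hi
      have he : i * r.Tn + r.gt (r.ty τ) bh i < r.N := by
        have : (i + 1) * r.Tn ≤ r.I * r.Tn := Nat.mul_le_mul_right _ (by omega)
        have h7 : (i + 1) * r.Tn = i * r.Tn + r.Tn := by ring
        unfold N
        omega
      simp only [List.getElem_map, List.getElem_range, List.getElem_zipIdx]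
      rw [(bb_slot r he).1, bb_ty_slot r he]
      refine Prod.ext ?_ ?_
      · show _ = (i * r.Tn + r.gt (r.ty τ) bh i) % r.Tn
        rw [Nat.mul_comm i, Nat.mul_add_mod, Nat.mod_eq_of_lt hg1]
      · show q.length + 1 + i = l.length + i - g
        omega

end Pool.Agent.H15.PCP3.Prog
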