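import Mathlib
import Pool.Agent.H15.PCP3.BB

set_option autoImplicit false

/-!
# Module BC: the clocked machine halts iff the queue machine halts

`halt_iff`: by `inv` and `L_zero`, `L_eq`.  (→) the minimal `g ≥ 1` with `(st (P g)).length = g`: `inv`
applies (`g' = 0`: `L 0` has length `1 ≠ 0`), `step^[g] q0 = []`.  (←) the minimal `u` with
`step^[u] q0 = []`; `u ≥ 1`; if some `g' ≤ u`, `g' ≥ 1` has `(st (P g')).length = g'` done; otherwise `inv`
for `u` gives `(toks ..).drop u = []`, so the length is `≤ u`, contradiction.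
-/

namespace Pool.Agent.H15.PCP3.Prog

theorem bc_ne (r : Prog) (β lam pc : ℕ) (g' : ℕ)
    (h : 1 ≤ g' → ((r.par β lam pc).st ((4 * r.N + 3) * g')).length ≠ g') :
    ((r.par β lam pc).st ((4 * r.N + 3) * g' + 2 * r.N + 2)).length ≠ g' := by
  rcases Nat.eq_zero_or_pos g' with h0 | h0
  · subst h0
    have h1 : (4 * r.N + 3) * 0 + 2 * r.N + 2 = 2 * r.N + 2 := by omega
    rw [h1, L_zero]
    simp
  · rw [L_eq r β lam pc h0]
    exact h h0

theorem halt_iff (r : Prog) {B0 : ℕ} (hr : r.Good B0) (β lam pc : ℕ) :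
    (∃ g, 1 ≤ g ∧ ((r.par β lam pc).st ((r.par β lam pc).P * g)).length = g) ↔
      ∃ u, r.step^[u] r.q0 = [] := by
  rw [bb_P]
  constructor
  · intro hex
    classical
    obtain ⟨h1, h2⟩ := Nat.find_spec hex
    have hmin := fun m (hm : m < Nat.find hex) => Nat.find_min hex hm
    refine ⟨Nat.find hex, ?_⟩
    have h3 := (inv r hr β lam pc (Nat.find hex) (fun g' hg' =>
      bc_ne r β lam pc g' (fun h4 h5 => hmin g' hg' ⟨h4, h5⟩))).2
    rw [h3, L_eq r β lam pc h1]
    exact List.drop_eq_nil_of_le (by rw [bb_toks_length]; exact h2.le)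
  · rintro ⟨u, hu⟩
    by_contra hcon
    have hcon' : ∀ g, 1 ≤ g → ((r.par β lam pc).st ((4 * r.N + 3) * g)).length ≠ g :=
      fun g h1 h2 => hcon ⟨g, h1, h2⟩
    obtain ⟨h3, h4⟩ := inv r hr β lam pc u (fun g' _ =>
      bc_ne r β lam pc g' (hcon' g'))
    rw [hu] at h4
    have h5 := List.drop_eq_nil_iff.1 h4.symm
    rw [bb_toks_length] at h5
    exact bc_ne r β lam pc u (hcon' u) (le_antisymm h5 h3)

end Pool.Agent.H15.PCP3.Prog
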