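import Mathlib
import Pool.Agent.H15.PCP3.BB

set_option autoImplicit false

/-!
# Module BD: bounds for the clocked machine of a program

Let `T ≥ 1`, `g = T / P < (st T).length`.  If there is `g' ≤ g`, `g' ≥ 1` with
`(st (P g')).length = g'`, then `st T = st (P g')` for all `T ≥ P g'` (a push at `T` needs
`T / P < length`), so the length is `g' ≤ g`: contradiction.  Otherwise `inv` for `g` (and the
length of `L g` is `> g`), with `V0` the length of `L g` and `τ = (L g)[g]` (also `= (st T)[g]`, as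
`st` is a prefix chain; note `(st T).length ≥ g + 1`) and `Reg` of `step^[g] q0 = (ty τ, g - τ/P) :: q`,
`q.length + 1 = V0 - g`: `|V0 - 2 g + τ/P| ≤ B0`, and `V0 ≤ (st T).length ≤ V0 + I` (`T` is between
`P g` (or `1`) and `P (g+1) + 2N + 2`; `window` gives the length at the end of the window; before
`P g + 2 N + 2` the list is `L g`).  `τ = P (τ/P) + τ % P`, `0 ≤ τ % P < P`, so both bounds hold with
`P (B0 + I + 1) ≤ P S`.
-/

namespace Pool.Agent.H15.PCP3.Prog

/-- once the list of the group `g'` is exhausted there are no more pushes -/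
theorem bd_stop (r : Prog) (β lam pc : ℕ) {g' : ℕ} (h1 : 1 ≤ g')
    (h2 : ((r.par β lam pc).st ((4 * r.N + 3) * g')).length = g') {T : ℕ}
    (hT : (4 * r.N + 3) * g' ≤ T) : ((r.par β lam pc).st T).length = g' := by
  induction T, hT using Nat.le_induction with
  | base => exact h2
  | succ n hn ih =>
    rw [Par.st_succ]
    have hpos : 1 ≤ (4 * r.N + 3) * g' := Nat.mul_pos (by omega) h1
    have hnp : (r.par β lam pc).push n ≠ true := by
      intro hp
      have h3 := (Par.push_shape _ n (by omega) hp).1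
      rw [ih, bb_P] at h3
      have h4 : g' ≤ n / (4 * r.N + 3) := by
        rw [Nat.le_div_iff_mul_le (by omega), Nat.mul_comm]
        exact hn
      omega
    rw [if_neg hnp]
    exact ih

theorem bd_prefix_get {l l' : List ℕ} (h : l <+: l') {g : ℕ} (hg : g < l.length) :
    l'[g]? = l[g]? := by
  obtain ⟨t, ht⟩ := h
  rw [← ht, List.getElem?_append_left hg]

theorem bounds (r : Prog) {B0 : ℕ} (hr : r.Good B0) (β lam pc : ℕ) (T : ℕ) (hT : 1 ≤ T)
    (hg : T / (r.par β lam pc).P < ((r.par β lam pc).st T).length) :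
    2 * (r.par β lam pc).P * (T / (r.par β lam pc).P) ≤
      ((r.par β lam pc).st T).getD (T / (r.par β lam pc).P) 0 +
        (r.par β lam pc).P * ((r.par β lam pc).st T).length + (4 * r.N + 3) * r.S ∧
    ((r.par β lam pc).st T).getD (T / (r.par β lam pc).P) 0 +
        (r.par β lam pc).P * ((r.par β lam pc).st T).length ≤
      2 * (r.par β lam pc).P * (T / (r.par β lam pc).P) + (4 * r.N + 3) * r.S := by
  rw [bb_P] at *
  obtain ⟨g, hgdef⟩ : ∃ g, g = T / (4 * r.N + 3) := ⟨_, rfl⟩
  rw [← hgdef] at hg ⊢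
  have hPpos : 0 < 4 * r.N + 3 := by omega
  have hTlo : (4 * r.N + 3) * g ≤ T := by
    rw [hgdef]
    exact Nat.mul_div_le T _
  have hThi : T < (4 * r.N + 3) * (g + 1) := by
    rw [hgdef]
    exact Nat.lt_mul_div_succ T hPpos
  -- no exhausted group
  have hne : ∀ g', 1 ≤ g' → g' ≤ g →
      ((r.par β lam pc).st ((4 * r.N + 3) * g')).length ≠ g' := by
    intro g' h1 h2 h3
    have h4 := bd_stop r β lam pc h1 h3 (T := T)
      (le_trans (Nat.mul_le_mul_left _ h2) hTlo)
    omega
  have hne' : ∀ g' ≤ g, ((r.par β lam pc).st ((4 * r.N + 3) * g' + 2 * r.N + 2)).length ≠ g' := by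
    intro g' h2
    rcases Nat.eq_zero_or_pos g' with h0 | h0
    · subst h0
      have h1 : (4 * r.N + 3) * 0 + 2 * r.N + 2 = 2 * r.N + 2 := by omega
      rw [h1, L_zero]
      simp
    · rw [L_eq r β lam pc h0]
      exact hne g' h0 h2
  obtain ⟨hi1, hi2⟩ := inv r hr β lam pc g (fun g' h => hne' g' h.le)
  have hlen := lt_of_le_of_ne hi1 (Ne.symm (hne' g le_rfl))
  obtain ⟨τ, bh, q, hτ, hdiv, hq, hstep, hql, hbh, hb, ⟨hB1, hB2⟩, hn, hgt, hw⟩ :=
    bb_step r hr β lam pc g hlen hi2
  -- the entry number g of the current list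
  have hτT : ((r.par β lam pc).st T)[g]? = some τ := by
    rcases le_total T ((4 * r.N + 3) * g + 2 * r.N + 2) with h | h
    · have hp := Par.st_prefix (r.par β lam pc) h
      rw [← bd_prefix_get hp hg]
      exact hτ
    · have hp := Par.st_prefix (r.par β lam pc) h
      rw [bd_prefix_get hp hlen]
      exact hτ
  have hgetD : ((r.par β lam pc).st T).getD g 0 = τ := by
    rw [List.getD_eq_getElem?_getD, hτT]
    rfl
  rw [hgetD]
  -- lengths
  have hV0 : ((r.par β lam pc).st ((4 * r.N + 3) * g + 2 * r.N + 2)).length ≤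
      ((r.par β lam pc).st T).length := by
    rcases Nat.eq_zero_or_pos g with h0 | h0
    · subst h0
      have h1 : (4 * r.N + 3) * 0 + 2 * r.N + 2 = 2 * r.N + 2 := by omega
      rw [h1, L_zero]
      simp only [List.length_singleton]
      omega
    · rw [L_eq r β lam pc h0]
      exact Par.st_len_mono _ hTlo
  have hV1 : ((r.par β lam pc).st T).length ≤
      ((r.par β lam pc).st ((4 * r.N + 3) * g + 2 * r.N + 2)).length + r.I := by
    have h1 := Par.st_len_mono (r.par β lam pc)
      (show T ≤ (4 * r.N + 3) * (g + 1) + 2 * r.N + 2 by omega)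
    rw [hw, List.length_append, List.length_map, List.length_range] at h1
    omega
  obtain ⟨L0, hL0⟩ : ∃ x, x = ((r.par β lam pc).st ((4 * r.N + 3) * g + 2 * r.N + 2)).length :=
    ⟨_, rfl⟩
  obtain ⟨V, hV⟩ : ∃ x, x = ((r.par β lam pc).st T).length := ⟨_, rfl⟩
  rw [← hL0] at hV0 hV1 hql
  rw [← hV] at hV0 hV1 ⊢
  have hS := hr.hS
  obtain ⟨d, hd⟩ : ∃ d, d = τ / (4 * r.N + 3) := ⟨_, rfl⟩
  rw [← hd] at hdiv hB1 hB2
  have hτ1 : (4 * r.N + 3) * d ≤ τ := by rw [hd]; exact Nat.mul_div_le τ _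
  have hτ2 : τ < (4 * r.N + 3) * (d + 1) := by rw [hd]; exact Nat.lt_mul_div_succ τ hPpos
  obtain ⟨P, hP⟩ : ∃ P, P = 4 * r.N + 3 := ⟨_, rfl⟩
  rw [← hP] at hτ1 hτ2 ⊢
  have e1 : 2 * g ≤ V + d + B0 := by omega
  have e2 : V + d + 1 ≤ 2 * g + r.S := by omega
  constructor
  · have h1 : P * (2 * g) ≤ P * (V + d + B0) := Nat.mul_le_mul_left P e1
    have h2 : P * B0 ≤ P * r.S := Nat.mul_le_mul_left P (by omega)
    linarith [h1, h2, hτ1]
  · have h1 : P * (V + d + 1) ≤ P * (2 * g + r.S) := Nat.mul_le_mul_left P e2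
    linarith [h1, hτ2]

end Pool.Agent.H15.PCP3.Prog
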