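import Mathlib
import Pool.Agent.H15.PCP3.BD

set_option autoImplicit false

/-!
# Module BE: the hypotheses of step A hold for the clocked machine of a program

`hN`: `N = I Tn ≥ 1`; `hS`: equality; `hB`: `bounds`; `hE`: `mh = 2 N + 2 + 2 e + P S` with `e < N`:
`mh % P = 2N+2+2e` (`< P = 4 N + 3`, not 0), `mh / P = S`, type `(2 e)/2 % Tn = e % Tn`,
`i = e / Tn`: `Eh` would give `i ≤ S`, `i < ln (e % Tn) (S - i)`, `gt (e % Tn) (S - i) i = e % Tn`,
excluded by `hself`.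
-/

namespace Pool.Agent.H15.PCP3.Prog

theorem ok (r : Prog) {B0 : ℕ} (hr : r.Good B0) (β lam pc : ℕ) (hβ1 : β % 2 = 1)
    (hβ2 : 2 * ((4 * r.N + 3) * r.S) + 8 * (4 * r.N + 3) ≤ β)
    (hlam : 2 * (4 * r.N + 3) + pc + 2 ≤ lam) :
    (r.par β lam pc).OK ((4 * r.N + 3) * r.S) where
  hN := Nat.mul_pos hr.hI hr.hTn
  hβ1 := hβ1
  hβ2 := hβ2
  hlam := hlam
  hS := le_refl _
  hE := by
    intro e he
    have he' : e < r.N := he
    have hTn := hr.hTn
    change r.Eh e (2 * r.N + 2 + 2 * e + (4 * r.N + 3) * r.S) = false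
    have hm : (2 * r.N + 2 + 2 * e + (4 * r.N + 3) * r.S) % (4 * r.N + 3) =
        2 * r.N + 2 + 2 * e := by
      rw [Nat.add_mul_mod_self_left]
      exact Nat.mod_eq_of_lt (by omega)
    have hd : (2 * r.N + 2 + 2 * e + (4 * r.N + 3) * r.S) / (4 * r.N + 3) = r.S := by
      rw [Nat.add_mul_div_left _ _ (by omega), Nat.div_eq_of_lt (by omega), Nat.zero_add]
    have ht : (2 * r.N + 2 + 2 * e - (2 * r.N + 2)) / 2 % r.Tn = e % r.Tn := by
      congr 1
      omega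
    rw [Eh, hm, hd, if_neg (by omega), ht, decide_eq_false_iff_not]
    rintro ⟨h1, h2, h3⟩
    exact hr.hself (e % r.Tn) (e / r.Tn) (Nat.mod_lt _ hTn) h1 h2 h3
  hB := fun T hT hg => bounds r hr β lam pc T hT hg

end Pool.Agent.H15.PCP3.Prog
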