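import Mathlib
import Pool.Agent.H15.PCP3.Defs

set_option autoImplicit false

/-!
# Module CA: cells

`cellq t Δ m`: a token of type `t` and difference `Δ` followed by `m - 1` nulls (type 0).
`RR r B0 k q q'`: `q` leads to `q'` in `k` steps, all of them regular and with nonempty queue.

`cell_step`: one reads the cell `cellq t Δ m` at the front of a queue of total length `L`.  The head
pushes `p = (range n).map (fun i => (gt t b i, L + i))`, `n = ln t b`, `b = L + S - Δ`; the `j`-th null
(`j < m - 1`, `Δ + 1 + j`) is read at length `L - 1 - j + n`, pushes nothing (`ln 0 _ = 0` since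
`0 % 8 = 0` and `rln` of kind 0 is 0), and is regular because
`|L - 1 - j + n - (Δ + 1 + j)| ≤ b0 + n + 2 m ≤ b0 + 3 In = B0n` (its F1, F2 are trivial as `ln 0 _ = 0`).
-/

namespace Pool.Agent.H15.PCP3

/-- a cell of size `m` whose first token has type `t` and difference `Δ` -/
def cellq (t Δ m : ℕ) : List (ℕ × ℕ) := (t, Δ) :: (List.range (m - 1)).map (fun j => (0, Δ + 1 + j))

/-- `q` leads to `q'` in `k` regular steps with nonempty queue -/
def RR (r : Prog) (B0 k : ℕ) (q q' : List (ℕ × ℕ)) : Prop :=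
  r.step^[k] q = q' ∧ ∀ i < k, r.Reg B0 (r.step^[i] q) ∧ r.step^[i] q ≠ []

theorem RR.refl (r : Prog) (B0 : ℕ) (q : List (ℕ × ℕ)) : RR r B0 0 q q :=
  ⟨rfl, fun i hi => absurd hi (Nat.not_lt_zero i)⟩

theorem RR.trans {r : Prog} {B0 k l : ℕ} {q q' q'' : List (ℕ × ℕ)}
    (h1 : RR r B0 k q q') (h2 : RR r B0 l q' q'') : RR r B0 (k + l) q q'' := by
  refine ⟨?_, fun i hi => ?_⟩
  · rw [Nat.add_comm, Function.iterate_add_apply, h1.1, h2.1]
  · by_cases h : i < k
    · exact h1.2 i h
    · obtain ⟨j, rfl⟩ : ∃ j, i = k + j := ⟨i - k, by omega⟩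
      rw [Nat.add_comm k j, Function.iterate_add_apply, h1.1]
      exact h2.2 j (by omega)

theorem cellq_length {t Δ m : ℕ} (hm : 1 ≤ m) : (cellq t Δ m).length = m := by
  simp [cellq]; omega

/-- decoding -/
theorem code_dec {A k a o : ℕ} (hk : k < 8) (ha : a ≤ A) :
    code A k a o % 8 = k ∧ code A k a o / 8 % (A + 1) = a ∧ code A k a o / 8 / (A + 1) = o := by
  have h1 : code A k a o / 8 = a + (A + 1) * o := by
    unfold code
    omega
  refine ⟨?_, ?_, ?_⟩
  · unfold code
    omega
  · rw [h1, Nat.add_mul_mod_self_left, Nat.mod_eq_of_lt (by omega)]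
  · rw [h1, Nat.add_mul_div_left _ _ (by omega), Nat.div_eq_of_lt (by omega), Nat.zero_add]

theorem code_lt {A k a o B : ℕ} (hk : k < 8) (ha : a ≤ A) (ho : o < B) :
    code A k a o < 8 * (A + 1) * B := by
  unfold code
  obtain ⟨c, rfl⟩ : ∃ c, B = o + 1 + c := ⟨B - (o + 1), by omega⟩
  have h1 : 8 * (A + 1) * (o + 1 + c) = 8 * ((A + 1) * o) + 8 * (A + 1) + 8 * ((A + 1) * c) := by
    ring
  rw [h1]
  have h2 : 8 * (a + (A + 1) * o) = 8 * a + 8 * ((A + 1) * o) := by ring
  rw [h2]
  omega

variable {A : ℕ} {f : ℕ → ℕ → ℕ} {hl : ℕ → Bool} {w : List ℕ}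

theorem ring_ln {k a o b : ℕ} (hk : k < 8) (ha : a ≤ A) :
    (ring A f hl w).ln (code A k a o) b = rln A hl w.length (Sn A w.length) k a o b := by
  obtain ⟨h1, h2, h3⟩ := code_dec (o := o) hk ha
  show rln A hl w.length (Sn A w.length) (code A k a o % 8) (code A k a o / 8 % (A + 1))
    (code A k a o / 8 / (A + 1)) b = _
  rw [h1, h2, h3]

theorem ring_gt {k a o b i : ℕ} (hk : k < 8) (ha : a ≤ A) :
    (ring A f hl w).gt (code A k a o) b i = rgt A f hl w (Sn A w.length) k a o b i := by
  obtain ⟨h1, h2, h3⟩ := code_dec (o := o) hk ha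
  show rgt A f hl w (Sn A w.length) (code A k a o % 8) (code A k a o / 8 % (A + 1))
    (code A k a o / 8 / (A + 1)) b i = _
  rw [h1, h2, h3]

theorem ca_ln_zero (b : ℕ) : (ring A f hl w).ln 0 b = 0 := by
  show rln A hl w.length (Sn A w.length) (0 % 8) (0 / 8 % (A + 1)) (0 / 8 / (A + 1)) b = 0
  simp [rln]

theorem ca_null_step (Δ : ℕ) (q : List (ℕ × ℕ)) :
    (ring A f hl w).step ((0, Δ) :: q) = q := by
  simp only [Prog.step, ca_ln_zero, List.range_zero, List.map_nil, List.append_nil]

theorem ca_null_reg {B0 Δ : ℕ} {q : List (ℕ × ℕ)} (h1 : q.length + 1 ≤ Δ + B0)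
    (h2 : Δ ≤ q.length + 1 + B0) : (ring A f hl w).Reg B0 ((0, Δ) :: q) := by
  refine ⟨⟨h1, h2⟩, ?_, ?_, ?_, ?_⟩
  · intro j _ _
    rw [ca_ln_zero]
    exact Nat.zero_le _
  · intro h
    rw [ca_ln_zero] at h
    exact absurd h (Nat.lt_irrefl 0)
  · rw [ca_ln_zero]
    exact Nat.zero_le _
  · intro i hi
    rw [ca_ln_zero] at hi
    exact absurd hi (Nat.not_lt_zero i)

theorem ca_one {r : Prog} {B0 : ℕ} {q q' : List (ℕ × ℕ)} (h1 : r.step q = q')
    (h2 : r.Reg B0 q) (h3 : q ≠ []) : RR r B0 1 q q' := by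
  refine ⟨h1, fun i hi => ?_⟩
  have : i = 0 := by omega
  subst this
  exact ⟨h2, h3⟩

theorem ca_nulls (B0 : ℕ) (rest : List (ℕ × ℕ)) : ∀ (k Δ : ℕ),
    k + rest.length ≤ Δ + B0 → Δ + k ≤ rest.length + 2 + B0 →
    RR (ring A f hl w) B0 k ((List.range k).map (fun j => (0, Δ + j)) ++ rest) rest := by
  intro k
  induction k with
  | zero =>
    intro Δ _ _
    exact RR.refl _ _ _
  | succ k ih =>
    intro Δ h1 h2
    have e1 : (List.range (k + 1)).map (fun j => (0, Δ + j)) ++ rest =
        (0, Δ) :: ((List.range k).map (fun j => (0, Δ + 1 + j)) ++ rest) := by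
      rw [List.range_succ_eq_map, List.map_cons, List.map_map, List.cons_append, Nat.add_zero]
      congr 2
      apply List.map_congr_left
      intro j _
      simp only [Function.comp, Nat.succ_eq_add_one]
      congr 1
      omega
    rw [e1, show k + 1 = 1 + k from Nat.add_comm _ _]
    refine RR.trans (q' := (List.range k).map (fun j => (0, Δ + 1 + j)) ++ rest) ?_
      (ih (Δ + 1) (by omega) (by omega))
    refine ca_one (ca_null_step _ _) (ca_null_reg ?_ ?_) (List.cons_ne_nil _ _)
    · rw [List.length_append, List.length_map, List.length_range]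
      omega
    · rw [List.length_append, List.length_map, List.length_range]
      omega

/-- reading a cell -/
theorem cell_step (hA : 2 ≤ A) {t Δ m L b : ℕ} {rest : List (ℕ × ℕ)} (hm : 1 ≤ m)
    (hm2 : m ≤ In A w.length) (hL : L = m + rest.length) (hb : b + Δ = L + Sn A w.length)
    (h1 : L ≤ Δ + b0n A w.length) (h2 : Δ ≤ L + b0n A w.length)
    (hF1 : ∀ j, 1 ≤ j → j ≤ b →
      (ring A f hl w).ln t (b - j) ≤ (ring A f hl w).ln t b + j)
    (hF2 : 0 < (ring A f hl w).ln t b → (ring A f hl w).ln t (b + 1) = 0)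
    (hI : (ring A f hl w).ln t b ≤ In A w.length)
    (hT : ∀ i < (ring A f hl w).ln t b, (ring A f hl w).gt t b i < (ring A f hl w).Tn) :
    RR (ring A f hl w) (B0n A w.length) m (cellq t Δ m ++ rest)
      (rest ++ (List.range ((ring A f hl w).ln t b)).map
        (fun i => ((ring A f hl w).gt t b i, L + i))) := by
  have hB0 : B0n A w.length = b0n A w.length + 3 * In A w.length := rfl
  have hlen : ((List.range (m - 1)).map (fun j => (0, Δ + 1 + j)) ++ rest).length + 1 = L := by
    rw [List.length_append, List.length_map, List.length_range]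
    omega
  have hbb : ((List.range (m - 1)).map (fun j => ((0 : ℕ), Δ + 1 + j)) ++ rest).length + 1 +
      (ring A f hl w).S - Δ = b := by
    rw [hlen]
    show L + Sn A w.length - Δ = b
    omega
  have hstep : (ring A f hl w).step (cellq t Δ m ++ rest) =
      (List.range (m - 1)).map (fun j => (0, Δ + 1 + j)) ++ (rest ++
        (List.range ((ring A f hl w).ln t b)).map
          (fun i => ((ring A f hl w).gt t b i, L + i))) := by
    unfold cellq
    rw [List.cons_append]
    show ((List.range (m - 1)).map (fun j => ((0 : ℕ), Δ + 1 + j)) ++ rest) ++ _ = _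
    rw [hbb, hlen, List.append_assoc]
  have hm' : m = 1 + (m - 1) := by omega
  have hfst : RR (ring A f hl w) (B0n A w.length) 1 (cellq t Δ m ++ rest)
      ((List.range (m - 1)).map (fun j => (0, Δ + 1 + j)) ++ (rest ++
        (List.range ((ring A f hl w).ln t b)).map
          (fun i => ((ring A f hl w).gt t b i, L + i)))) := by
    refine ca_one hstep ?_ ?_
    · unfold cellq
      rw [List.cons_append]
      unfold Prog.Reg
      have hb2 : L + (ring A f hl w).S - Δ = b := by
        show L + Sn A w.length - Δ = b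
        omega
      simp only [hlen, hb2]
      exact ⟨⟨by omega, by omega⟩, hF1, hF2, hI, hT⟩
    · unfold cellq
      rw [List.cons_append]
      exact List.cons_ne_nil _ _
  have hsnd := ca_nulls (A := A) (f := f) (hl := hl) (w := w) (B0n A w.length)
    (rest ++ (List.range ((ring A f hl w).ln t b)).map
      (fun i => ((ring A f hl w).gt t b i, L + i))) (m - 1) (Δ + 1)
    (by rw [List.length_append, List.length_map, List.length_range]; omega)
    (by rw [List.length_append, List.length_map, List.length_range]; omega)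
  have := RR.trans hfst hsnd
  rwa [← hm'] at this

/-- pushes of a cell -/
theorem range_cell {n L t2 : ℕ} {g : ℕ → ℕ} (hn : 1 ≤ n) (h0 : g 0 = t2)
    (h : ∀ i, 1 ≤ i → i < n → g i = 0) :
    (List.range n).map (fun i => (g i, L + i)) = cellq t2 L n := by
  obtain ⟨c, rfl⟩ : ∃ c, n = c + 1 := ⟨n - 1, by omega⟩
  unfold cellq
  rw [List.range_succ_eq_map, List.map_cons, List.map_map, h0, Nat.add_zero, Nat.add_sub_cancel]
  congr 1
  apply List.map_congr_left
  intro j hj
  rw [List.mem_range] at hj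
  simp only [Function.comp, Nat.succ_eq_add_one]
  rw [h (j + 1) (by omega) (by omega)]
  congr 1
  omega

end Pool.Agent.H15.PCP3
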