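import Mathlib
import Pool.Agent.H28.PCP.TC
import Pool.Agent.H15.PCP3.CA

set_option autoImplicit false

/-!
# Module CB1: reading the cells of pass A

`Q = Qn A = 4 A + 8`, `S = Sn`.  Apply `cell_step` and `range_cell` (with `ring_ln`, `ring_gt`).
`D(a,o)` (kind 1) at shifted difference `b = o + 2 s`, `s ≤ A`: `ln = Q - 2 s + 2 nx` where
`nx = A` if `s = A ∨ hl a` else `a` (for `s = A`: `Q`), type `ty1`.
F1: for `b - j ≥ o`, `b - j = o + 2 s'`, `j = 2 (s - s')`: `ln (o + 2 s') ≤ Q + 2 nx' - 2 s'` with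
`nx' ≤ nx` ... for `s < A` the same `nx`, so `= ln b + j`; for `s = A`: `ln b = Q` and
`ln (o + 2 s') ≤ Q + 2 A - 2 s' = Q + j`.  F2: parity (`b + 1 - o = 2 s + 1`).
Size: `≤ Q + 2 A ≤ In`.  Types: `< Tn` by `code_lt` (`s ≤ A < OBn`, `a ≤ A`).
Difference: `b - S = o - S + 2 s`, between `- 2 A` and `Q (n+1) + 2 + 2 A`, within `b0n`.
`H(o)` (kind 2) similarly: `ln = 2 A - 2 s` for `s < A`, `4` for `s = A`; F1 for `s = A`:
`2 A - 2 s' ≤ 4 + 2 (A - s')`.
-/

namespace Pool.Agent.H15.PCP3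

open Pool.Agent.H28.PCP (Hyp)

/-- symbol of the next reader -/
def nx (A : ℕ) (hl : ℕ → Bool) (s a : ℕ) : ℕ := if s = A ∨ hl a = true then A else a

/-- type written in pass A -/
def ty1 (A : ℕ) (hl : ℕ → Bool) (s a : ℕ) : ℕ :=
  if s = A ∨ hl a = true then code A 5 0 s else code A 3 a s

variable {A : ℕ} {f : ℕ → ℕ → ℕ} {hl : ℕ → Bool} {w : List ℕ}

theorem cb1_one_le_Qn (A : ℕ) : 1 ≤ Qn A := by unfold Qn; omega

theorem cb1_Qn_le_In (A n : ℕ) : Qn A ≤ In A n := by
  unfold In
  have h : Qn A * 1 ≤ Qn A * (n + 2) := Nat.mul_le_mul_left _ (by omega)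
  omega

theorem cb1_lt_OBn (A n : ℕ) : A + 2 < OBn A n := by unfold OBn; omega

theorem cb1_Tn_pos (A n : ℕ) : 0 < 8 * (A + 1) * OBn A n := by
  have := cb1_lt_OBn A n
  have h1 : 0 < OBn A n := by omega
  positivity

theorem cb1_b0 (A n : ℕ) : Qn A * (n + 1) + 2 + 2 * A ≤ b0n A n := by
  have h : Qn A * (n + 3) = Qn A * (n + 1) + 2 * Qn A := by ring
  have h2 : Qn A = 4 * A + 8 := rfl
  unfold b0n
  omega

/-- number of pushes of `D(a,o)` -/
theorem cb1_rln1 {n S a o s : ℕ} (hs : s ≤ A) :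
    rln A hl n S 1 a o (o + 2 * s) = Qn A + 2 * nx A hl s a - 2 * s := by
  have e1 : o + 2 * s - o = 2 * s := by omega
  have e2 : 2 * s / 2 = s := by omega
  have e3 : 2 * s % 2 = 0 := by omega
  unfold rln nx
  rw [if_pos rfl, e1, e2, e3, if_pos ⟨by omega, rfl, hs⟩]
  by_cases h1 : s = A
  · rw [if_pos h1, if_pos (Or.inl h1)]
    omega
  · rw [if_neg h1]
    by_cases h2 : hl a = true
    · rw [if_pos h2, if_pos (Or.inr h2)]
    · rw [if_neg h2, if_neg (by rintro (h | h); exacts [h1 h, h2 h])]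

/-- number of pushes of `H(o)` -/
theorem cb1_rln2 {n S a o s : ℕ} (hs : s ≤ A) :
    rln A hl n S 2 a o (o + 2 * s) = if s = A then 4 else 2 * A - 2 * s := by
  have e1 : o + 2 * s - o = 2 * s := by omega
  have e2 : 2 * s / 2 = s := by omega
  have e3 : 2 * s % 2 = 0 := by omega
  unfold rln
  rw [if_neg (by omega), if_pos rfl, e1, e2, e3, if_pos ⟨by omega, rfl, hs⟩]

/-- other differences -/
theorem cb1_rln1_lt {n S a o s j : ℕ} (ha : a ≤ A) (hs : s ≤ A) (hj : 1 ≤ j)
    (hjb : j ≤ o + 2 * s) :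
    rln A hl n S 1 a o (o + 2 * s - j) ≤ Qn A + 2 * nx A hl s a - 2 * s + j := by
  by_cases hc : o ≤ o + 2 * s - j ∧ (o + 2 * s - j - o) % 2 = 0 ∧ (o + 2 * s - j - o) / 2 ≤ A
  · obtain ⟨s', hs'⟩ : ∃ s', o + 2 * s - j = o + 2 * s' := ⟨(o + 2 * s - j - o) / 2, by omega⟩
    by_cases h0 : s' < s
    · rw [hs', cb1_rln1 (by omega)]
      have h3 : nx A hl s' a ≤ nx A hl s a := by
        unfold nx
        by_cases h4 : hl a = true
        · rw [if_pos (Or.inr h4), if_pos (Or.inr h4)]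
        · rw [if_neg (by rintro (h | h); exacts [by omega, h4 h])]
          split_ifs
          · exact ha
          · exact le_rfl
      have h5 : nx A hl s a ≤ A := by
        unfold nx
        split_ifs
        · exact le_rfl
        · exact ha
      have h6 : Qn A = 4 * A + 8 := rfl
      omega
    · exfalso
      omega
  · unfold rln
    rw [if_pos rfl, if_neg hc]
    omega

theorem cb1_rln2_lt {n S a o s j : ℕ} (hs : s ≤ A) (hj : 1 ≤ j) (hjb : j ≤ o + 2 * s) :
    rln A hl n S 2 a o (o + 2 * s - j) ≤ (if s = A then 4 else 2 * A - 2 * s) + j := by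
  by_cases hc : o ≤ o + 2 * s - j ∧ (o + 2 * s - j - o) % 2 = 0 ∧ (o + 2 * s - j - o) / 2 ≤ A
  · obtain ⟨s', hs'⟩ : ∃ s', o + 2 * s - j = o + 2 * s' := ⟨(o + 2 * s - j - o) / 2, by omega⟩
    by_cases h0 : s' < s
    · rw [hs', cb1_rln2 (by omega)]
      split_ifs <;> omega
    · exfalso
      omega
  · unfold rln
    rw [if_neg (by omega), if_pos rfl, if_neg hc]
    omega

theorem cb1_rln_odd {n S k a o s : ℕ} (hk : k = 1 ∨ k = 2) :
    rln A hl n S k a o (o + 2 * s + 1) = 0 := by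
  have e1 : o + 2 * s + 1 - o = 2 * s + 1 := by omega
  unfold rln
  rw [e1]
  rcases hk with rfl | rfl
  · rw [if_pos rfl, if_neg (by omega)]
  · rw [if_neg (by omega), if_pos rfl, if_neg (by omega)]

theorem cb1_rgt1 {S a o s : ℕ} : rgt A f hl w S 1 a o (o + 2 * s) 0 = ty1 A hl s a := by
  have e1 : (o + 2 * s - o) / 2 = s := by omega
  unfold rgt rhd ty1
  rw [if_neg (by omega), if_neg (by omega), if_pos rfl, if_pos rfl, e1]
  by_cases h1 : s = A
  · rw [if_pos h1, if_pos (Or.inl h1), h1]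
  · rw [if_neg h1]
    by_cases h2 : hl a = true
    · rw [if_pos h2, if_pos (Or.inr h2)]
    · rw [if_neg h2, if_neg (by rintro (h | h); exacts [h1 h, h2 h])]

theorem cb1_rgt2 {S a o s : ℕ} : rgt A f hl w S 2 a o (o + 2 * s) 0 =
    if s = A then code A 7 0 1 else code A 4 0 s := by
  have e1 : (o + 2 * s - o) / 2 = s := by omega
  unfold rgt rhd
  rw [if_neg (by omega), if_neg (by omega), if_pos rfl, if_neg (by omega), if_pos rfl, e1]

theorem cb1_rgt0 {S k a o b i : ℕ} (hk : k = 1 ∨ k = 2) (hi : 1 ≤ i) :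
    rgt A f hl w S k a o b i = 0 := by
  unfold rgt
  rw [if_neg (by omega), if_neg (by omega), if_neg (by omega)]

theorem rr_D (hyp : Hyp A f) {a o Δ s L : ℕ} {rest : List (ℕ × ℕ)} (ha : 1 ≤ a) (ha2 : a < A)
    (hs : s ≤ A) (ho1 : Sn A w.length ≤ o + 2 * A)
    (ho2 : o ≤ Sn A w.length + Qn A * (w.length + 1) + 2)
    (hL : L = Qn A + rest.length) (hb : L + Sn A w.length = Δ + o + 2 * s) :
    RR (ring A f hl w) (B0n A w.length) (Qn A) (cellq (code A 1 a o) Δ (Qn A) ++ rest)
      (rest ++ cellq (ty1 A hl s a) L (Qn A + 2 * nx A hl s a - 2 * s)) := by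
  have hA := hyp.hA
  have hb0 := cb1_b0 A w.length
  have hnx : nx A hl s a ≤ A := by
    unfold nx
    split_ifs
    · exact le_rfl
    · omega
  have hQ : Qn A = 4 * A + 8 := rfl
  have hln : (ring A f hl w).ln (code A 1 a o) (o + 2 * s) =
      Qn A + 2 * nx A hl s a - 2 * s := by
    rw [ring_ln (by omega) (by omega), cb1_rln1 hs]
  have hgt0 : (ring A f hl w).gt (code A 1 a o) (o + 2 * s) 0 = ty1 A hl s a := by
    rw [ring_gt (by omega) (by omega), cb1_rgt1]
  have hgti : ∀ i, 1 ≤ i → (ring A f hl w).gt (code A 1 a o) (o + 2 * s) i = 0 := by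
    intro i hi
    rw [ring_gt (by omega) (by omega), cb1_rgt0 (Or.inl rfl) hi]
  have hTn : (ring A f hl w).Tn = 8 * (A + 1) * OBn A w.length := rfl
  have hOB := cb1_lt_OBn A w.length
  have key := cell_step (A := A) (f := f) (hl := hl) (w := w) hA (t := code A 1 a o) (Δ := Δ)
    (m := Qn A) (L := L) (b := o + 2 * s) (rest := rest) (cb1_one_le_Qn A)
    (cb1_Qn_le_In A w.length) hL (by omega) (by omega) (by omega) ?_ ?_ ?_ ?_
  · rw [hln] at key
    rw [range_cell (t2 := ty1 A hl s a) (by omega) hgt0 (fun i hi _ => hgti i hi)] at key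
    exact key
  · intro j hj hjb
    rw [hln, ring_ln (by omega) (by omega)]
    exact cb1_rln1_lt (by omega) hs hj hjb
  · intro _
    rw [ring_ln (by omega) (by omega)]
    exact cb1_rln_odd (Or.inl rfl)
  · rw [hln]
    have h1 : In A w.length = Qn A * (w.length + 2) + 4 * A := rfl
    have h2 : Qn A * 1 ≤ Qn A * (w.length + 2) := Nat.mul_le_mul_left _ (by omega)
    omega
  · intro i _
    rw [hTn]
    rcases Nat.eq_zero_or_pos i with rfl | hi
    · rw [hgt0]
      unfold ty1
      split_ifs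
      · exact code_lt (by omega) (by omega) (by omega)
      · exact code_lt (by omega) (by omega) (by omega)
    · rw [hgti i hi]
      exact cb1_Tn_pos A w.length

theorem rr_H (hyp : Hyp A f) {o Δ s L : ℕ} {rest : List (ℕ × ℕ)}
    (hs : s ≤ A) (ho1 : Sn A w.length ≤ o + 2 * A)
    (ho2 : o ≤ Sn A w.length + Qn A * (w.length + 1) + 2)
    (hL : L = 2 + rest.length) (hb : L + Sn A w.length = Δ + o + 2 * s) :
    RR (ring A f hl w) (B0n A w.length) 2 (cellq (code A 2 0 o) Δ 2 ++ rest)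
      (rest ++ if s = A then cellq (code A 7 0 1) L 4 else cellq (code A 4 0 s) L (2 * A - 2 * s)) := by
  have hA := hyp.hA
  have hb0 := cb1_b0 A w.length
  have hQ : Qn A = 4 * A + 8 := rfl
  have hln : (ring A f hl w).ln (code A 2 0 o) (o + 2 * s) =
      if s = A then 4 else 2 * A - 2 * s := by
    rw [ring_ln (by omega) (by omega), cb1_rln2 hs]
  have hgt0 : (ring A f hl w).gt (code A 2 0 o) (o + 2 * s) 0 =
      if s = A then code A 7 0 1 else code A 4 0 s := by
    rw [ring_gt (by omega) (by omega), cb1_rgt2]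
  have hgti : ∀ i, 1 ≤ i → (ring A f hl w).gt (code A 2 0 o) (o + 2 * s) i = 0 := by
    intro i hi
    rw [ring_gt (by omega) (by omega), cb1_rgt0 (Or.inr rfl) hi]
  have hTn : (ring A f hl w).Tn = 8 * (A + 1) * OBn A w.length := rfl
  have hOB := cb1_lt_OBn A w.length
  have hIn := cb1_Qn_le_In A w.length
  have key := cell_step (A := A) (f := f) (hl := hl) (w := w) hA (t := code A 2 0 o) (Δ := Δ)
    (m := 2) (L := L) (b := o + 2 * s) (rest := rest) (by omega)
    (by omega) hL (by omega) (by omega) (by omega) ?_ ?_ ?_ ?_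
  · rw [hln] at key
    rw [range_cell (t2 := if s = A then code A 7 0 1 else code A 4 0 s)
      (by split_ifs <;> omega) hgt0 (fun i hi _ => hgti i hi)] at key
    by_cases h : s = A
    · simp only [if_pos h] at key ⊢
      exact key
    · simp only [if_neg h] at key ⊢
      exact key
  · intro j hj hjb
    rw [hln, ring_ln (by omega) (by omega)]
    exact cb1_rln2_lt hs hj hjb
  · intro _
    rw [ring_ln (by omega) (by omega)]
    exact cb1_rln_odd (Or.inr rfl)
  · rw [hln]
    split_ifs <;> omega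
  · intro i _
    rw [hTn]
    rcases Nat.eq_zero_or_pos i with rfl | hi
    · rw [hgt0]
      split_ifs
      · exact code_lt (by omega) (by omega) (by omega)
      · exact code_lt (by omega) (by omega) (by omega)
    · rw [hgti i hi]
      exact cb1_Tn_pos A w.length

end Pool.Agent.H15.PCP3
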