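import Mathlib
import Pool.Agent.H28.PCP.TC
import Pool.Agent.H15.PCP3.CA

set_option autoImplicit false

/-!
# Module CB2: reading the cells of pass B

`Q = Qn A = 4 A + 8`, `S = Sn`, `b = L + S - Δ`.  Apply `cell_step` and `range_cell`.
`P(a,s)` (kind 3): `Q` pushes at `b = S + 2A - 2 - 4s` and at `b = S + 2A + 2 - 4s`, else none.  F1: at
the first place nothing below; at the second one `j = 4`, `Q ≤ Q + 4`.  F2: parity.
`PH(s)` (kind 4): `Q + 2` pushes, the `Q`-th one is the new `H`; the list of pushes is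
`cellq .. L Q ++ cellq .. (L + Q) 2` (`List.range_add`/append of ranges).
`X1(s)` (kind 5), `H1` (code 7 0 1).  The differences `|L - Δ| ≤ 2 A + 2`.
Sizes `m ≤ Q + 2 A ≤ In`.  Types: `f s a ≤ A` by `Hyp.hf`, offsets `< OBn`.
-/

namespace Pool.Agent.H15.PCP3

open Pool.Agent.H28.PCP (Hyp)

variable {A : ℕ} {f : ℕ → ℕ → ℕ} {hl : ℕ → Bool} {w : List ℕ}

theorem cb2_in (A n : ℕ) : 2 * Qn A + 4 * A ≤ In A n := by
  unfold In
  have : Qn A * 2 ≤ Qn A * (n + 2) := Nat.mul_le_mul_left _ (by omega)
  omega

theorem cb2_b0 (A n : ℕ) : 3 * Qn A + 4 * A ≤ b0n A n := by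
  unfold b0n
  have : Qn A * 3 ≤ Qn A * (n + 3) := Nat.mul_le_mul_left _ (by omega)
  omega

theorem cb2_ob (A n : ℕ) : Sn A n + 2 * Qn A + 4 * A + 8 ≤ OBn A n := by
  unfold OBn
  have : Qn A * 2 ≤ Qn A * (n + 2) := Nat.mul_le_mul_left _ (by omega)
  omega

theorem cb2_S (A n : ℕ) : 3 * Qn A + 4 * A ≤ Sn A n := by
  have h := cb2_b0 A n
  unfold Sn B0n
  omega

theorem cb2_tn (A : ℕ) (f : ℕ → ℕ → ℕ) (hl : ℕ → Bool) (w : List ℕ) :
    (ring A f hl w).Tn = 8 * (A + 1) * OBn A w.length := rfl

theorem cb2_zero (A : ℕ) (f : ℕ → ℕ → ℕ) (hl : ℕ → Bool) (w : List ℕ) :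
    0 < (ring A f hl w).Tn := by
  rw [cb2_tn]
  have h := cb2_ob A w.length
  have : 0 < OBn A w.length := by omega
  positivity

/-- reading a cell whose pushes form one cell -/
theorem cb2_one (hyp : Hyp A f) {k a o Δ m L n t2 : ℕ} {rest : List (ℕ × ℕ)} (hk : k < 8)
    (ha : a ≤ A) (hm : 1 ≤ m) (hm2 : m ≤ In A w.length) (hL : L = m + rest.length)
    (h0 : Δ ≤ L + Sn A w.length)
    (h1 : L ≤ Δ + b0n A w.length) (h2 : Δ ≤ L + b0n A w.length)
    (hn : 1 ≤ n) (hn2 : n ≤ In A w.length)
    (hln : ∀ b, b + Δ = L + Sn A w.length → rln A hl w.length (Sn A w.length) k a o b = n)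
    (hle : ∀ b, rln A hl w.length (Sn A w.length) k a o b ≤ n)
    (hln1 : ∀ b, b + Δ = L + Sn A w.length →
      rln A hl w.length (Sn A w.length) k a o (b + 1) = 0)
    (ht2 : t2 < (ring A f hl w).Tn)
    (hg0 : ∀ b, b + Δ = L + Sn A w.length → rgt A f hl w (Sn A w.length) k a o b 0 = t2)
    (hg : ∀ b i, b + Δ = L + Sn A w.length → 1 ≤ i → i < n →
      rgt A f hl w (Sn A w.length) k a o b i = 0) :
    RR (ring A f hl w) (B0n A w.length) m (cellq (code A k a o) Δ m ++ rest)
      (rest ++ cellq t2 L n) := by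
  obtain ⟨b, hb⟩ : ∃ b, b + Δ = L + Sn A w.length := ⟨L + Sn A w.length - Δ, by omega⟩
  have e1 : (ring A f hl w).ln (code A k a o) b = n := by
    rw [ring_ln hk ha]; exact hln b hb
  have key := cell_step (hl := hl) (f := f) (w := w) hyp.hA (t := code A k a o) hm hm2 hL hb h1 h2
    (by
      intro j _ _
      rw [e1, ring_ln hk ha]
      have := hle (b - j)
      omega)
    (by
      intro _
      rw [ring_ln hk ha]
      exact hln1 b hb)
    (by rw [e1]; exact hn2)
    (by
      intro i hi
      rw [e1] at hi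
      rw [ring_gt hk ha]
      rcases Nat.eq_zero_or_pos i with h | h
      · subst h; rw [hg0 b hb]; exact ht2
      · rw [hg b i hb h hi]; exact cb2_zero A f hl w)
  rw [e1] at key
  rw [range_cell (t2 := t2) (g := fun i => (ring A f hl w).gt (code A k a o) b i) hn
    (by change (ring A f hl w).gt (code A k a o) b 0 = t2; rw [ring_gt hk ha]; exact hg0 b hb)
    (by
      intro i hi1 hi2
      change (ring A f hl w).gt (code A k a o) b i = 0
      rw [ring_gt hk ha]
      exact hg b i hb hi1 hi2)] at key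
  exact key

theorem rr_P (hyp : Hyp A f) {a s Δ m L : ℕ} {rest : List (ℕ × ℕ)} (ha : 1 ≤ a) (ha2 : a < A)
    (hs : s < A) (hm : 1 ≤ m) (hm2 : m ≤ In A w.length)
    (hL : L = m + rest.length) (hb : L + 4 * s + 2 = Δ + 2 * A) :
    RR (ring A f hl w) (B0n A w.length) m (cellq (code A 3 a s) Δ m ++ rest)
      (rest ++ cellq (code A 1 (f s a) (Sn A w.length + Qn A + 2 + 2 * s - 2 * A)) L (Qn A)) := by
  have hin := cb2_in A w.length
  have hb0 := cb2_b0 A w.length
  have hob := cb2_ob A w.length
  have hS := cb2_S A w.length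
  have hQ : Qn A = 4 * A + 8 := rfl
  refine cb2_one hyp (by norm_num) ha2.le hm hm2 hL (by omega) (by omega) (by omega) (by omega)
    (by omega) ?_ ?_ ?_ ?_ ?_ ?_
  · intro b hb'
    simp only [rln]
    norm_num
    omega
  · intro b
    simp only [rln]
    norm_num
    split_ifs <;> omega
  · intro b hb'
    simp only [rln]
    norm_num
    omega
  · rw [cb2_tn]
    exact code_lt (by norm_num) (hyp.hf s hs a ha ha2).2.le (by omega)
  · intro b hb'
    simp only [rgt, rhd]
    norm_num
    omega
  · intro b i hb' hi1 hi2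
    simp only [rgt]
    norm_num
    omega

theorem rr_PH (hyp : Hyp A f) {s Δ m L : ℕ} {rest : List (ℕ × ℕ)}
    (hs : s < A) (hm : 1 ≤ m) (hm2 : m ≤ In A w.length)
    (hL : L = m + rest.length) (hb : L + 4 * s + 2 = Δ + 2 * A) :
    RR (ring A f hl w) (B0n A w.length) m (cellq (code A 4 0 s) Δ m ++ rest)
      (rest ++ (cellq (code A 1 (f s 1) (Sn A w.length + Qn A + 2 + 2 * s - 2 * A)) L (Qn A) ++
        cellq (code A 2 0 (Sn A w.length + 2 + 2 * s - 2 * A)) (L + Qn A) 2)) := by
  have hin := cb2_in A w.length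
  have hb0 := cb2_b0 A w.length
  have hob := cb2_ob A w.length
  have hS := cb2_S A w.length
  have hQ : Qn A = 4 * A + 8 := rfl
  have hk : 4 < 8 := by norm_num
  have ha : 0 ≤ A := Nat.zero_le _
  obtain ⟨b, hb'⟩ : ∃ b, b + Δ = L + Sn A w.length := ⟨L + Sn A w.length - Δ, by omega⟩
  have e1 : (ring A f hl w).ln (code A 4 0 s) b = Qn A + 2 := by
    rw [ring_ln hk ha]
    simp only [rln]
    norm_num
    omega
  have g0 : rgt A f hl w (Sn A w.length) 4 0 s b 0 =
      code A 1 (f s 1) (Sn A w.length + Qn A + 2 + 2 * s - 2 * A) := by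
    simp only [rgt, rhd]
    norm_num
    omega
  have gQ : rgt A f hl w (Sn A w.length) 4 0 s b (Qn A) =
      code A 2 0 (Sn A w.length + 2 + 2 * s - 2 * A) := by
    simp only [rgt]
    norm_num
  have gi : ∀ i, 1 ≤ i → i ≠ Qn A → rgt A f hl w (Sn A w.length) 4 0 s b i = 0 := by
    intro i hi1 hi2
    simp only [rgt]
    norm_num
    rw [if_neg hi2, if_neg (by omega)]
  have key := cell_step (hl := hl) (f := f) (w := w) hyp.hA (t := code A 4 0 s) hm hm2 hL hb'
    (by omega) (by omega)
    (by
      intro j _ _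
      rw [e1, ring_ln hk ha]
      simp only [rln]
      norm_num
      split_ifs <;> omega)
    (by
      intro _
      rw [ring_ln hk ha]
      simp only [rln]
      norm_num
      omega)
    (by rw [e1]; omega)
    (by
      intro i hi
      rw [e1] at hi
      rw [ring_gt hk ha]
      rcases Nat.eq_zero_or_pos i with h | h
      · subst h
        rw [g0, cb2_tn]
        exact code_lt (by norm_num) (by
          have := hyp.hf s hs 1 le_rfl (by have := hyp.hA; omega)
          exact this.2.le) (by omega)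
      · by_cases h' : i = Qn A
        · subst h'
          rw [gQ, cb2_tn]
          exact code_lt (by norm_num) (by omega) (by omega)
        · rw [gi i h h']; exact cb2_zero A f hl w)
  rw [e1, List.range_add, List.map_append, List.map_map] at key
  rw [range_cell (t2 := code A 1 (f s 1) (Sn A w.length + Qn A + 2 + 2 * s - 2 * A))
    (g := fun i => (ring A f hl w).gt (code A 4 0 s) b i) (by omega)
    (by change (ring A f hl w).gt (code A 4 0 s) b 0 = _; rw [ring_gt hk ha]; exact g0)
    (by
      intro i hi1 hi2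
      change (ring A f hl w).gt (code A 4 0 s) b i = 0
      rw [ring_gt hk ha]
      exact gi i hi1 (by omega))] at key
  have e2 : (List.range 2).map ((fun i => ((ring A f hl w).gt (code A 4 0 s) b i, L + i)) ∘
      fun x => Qn A + x) =
      cellq (code A 2 0 (Sn A w.length + 2 + 2 * s - 2 * A)) (L + Qn A) 2 := by
    rw [← range_cell (n := 2) (L := L + Qn A)
      (g := fun i => (ring A f hl w).gt (code A 4 0 s) b (Qn A + i)) (by norm_num)
      (by
        change (ring A f hl w).gt (code A 4 0 s) b (Qn A + 0) = _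
        rw [Nat.add_zero, ring_gt hk ha]; exact gQ)
      (by
        intro i hi1 hi2
        change (ring A f hl w).gt (code A 4 0 s) b (Qn A + i) = 0
        rw [ring_gt hk ha]
        exact gi _ (by omega) (by omega))]
    refine List.map_congr_left fun i _ => ?_
    simp only [Function.comp_apply, Nat.add_assoc]
  rw [e2] at key
  exact key

/-- `P(a,s)` in a dead pass -/
theorem rr_PX (hyp : Hyp A f) {a s Δ m L : ℕ} {rest : List (ℕ × ℕ)} (ha2 : a < A)
    (hs : s < A) (hm : 1 ≤ m) (hm2 : m ≤ In A w.length)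
    (hL : L = m + rest.length) (hb : L + 4 * s = Δ + 2 * A + 2) :
    RR (ring A f hl w) (B0n A w.length) m (cellq (code A 3 a s) Δ m ++ rest)
      (rest ++ cellq (code A 6 0 s) L (Qn A)) := by
  have hin := cb2_in A w.length
  have hb0 := cb2_b0 A w.length
  have hob := cb2_ob A w.length
  have hS := cb2_S A w.length
  have hQ : Qn A = 4 * A + 8 := rfl
  refine cb2_one hyp (by norm_num) ha2.le hm hm2 hL (by omega) (by omega) (by omega) (by omega)
    (by omega) ?_ ?_ ?_ ?_ ?_ ?_
  · intro b hb'
    simp only [rln]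
    norm_num
    omega
  · intro b
    simp only [rln]
    norm_num
    split_ifs <;> omega
  · intro b hb'
    simp only [rln]
    norm_num
    omega
  · rw [cb2_tn]
    exact code_lt (by norm_num) (by omega) (by omega)
  · intro b hb'
    simp only [rgt, rhd]
    norm_num
    omega
  · intro b i hb' hi1 hi2
    simp only [rgt]
    norm_num
    omega

theorem rr_X1 (hyp : Hyp A f) {s Δ m L : ℕ} {rest : List (ℕ × ℕ)}
    (hs : s ≤ A) (hm : 1 ≤ m) (hm2 : m ≤ In A w.length)
    (hL : L = m + rest.length) (hb : L + 4 * s = Δ + 2 * A + 2) :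
    RR (ring A f hl w) (B0n A w.length) m (cellq (code A 5 0 s) Δ m ++ rest)
      (rest ++ cellq (code A 6 0 s) L (Qn A)) := by
  have hin := cb2_in A w.length
  have hb0 := cb2_b0 A w.length
  have hob := cb2_ob A w.length
  have hS := cb2_S A w.length
  have hQ : Qn A = 4 * A + 8 := rfl
  refine cb2_one hyp (by norm_num) (by omega) hm hm2 hL (by omega) (by omega) (by omega) (by omega)
    (by omega) ?_ ?_ ?_ ?_ ?_ ?_
  · intro b hb'
    simp only [rln]
    norm_num
    omega
  · intro b
    simp only [rln]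
    norm_num
    split_ifs <;> omega
  · intro b hb'
    simp only [rln]
    norm_num
    omega
  · rw [cb2_tn]
    exact code_lt (by norm_num) (by omega) (by omega)
  · intro b hb'
    simp only [rgt, rhd]
    norm_num
  · intro b i hb' hi1 hi2
    simp only [rgt]
    norm_num
    omega

theorem rr_H1 (hyp : Hyp A f) {Δ L : ℕ} {rest : List (ℕ × ℕ)}
    (hL : L = 4 + rest.length) (hb : L + 2 * A = Δ + 2) :
    RR (ring A f hl w) (B0n A w.length) 4 (cellq (code A 7 0 1) Δ 4 ++ rest)
      (rest ++ cellq (code A 7 0 2) L 2) := by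
  have hin := cb2_in A w.length
  have hb0 := cb2_b0 A w.length
  have hob := cb2_ob A w.length
  have hS := cb2_S A w.length
  have hQ : Qn A = 4 * A + 8 := rfl
  refine cb2_one hyp (by norm_num) (by omega) (by omega) (by omega) hL (by omega) (by omega)
    (by omega) (by omega) (by omega) ?_ ?_ ?_ ?_ ?_ ?_
  · intro b hb'
    simp only [rln]
    norm_num
    omega
  · intro b
    simp only [rln]
    norm_num
    split_ifs <;> omega
  · intro b hb'
    simp only [rln]
    norm_num
    omega
  · rw [cb2_tn]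
    exact code_lt (by norm_num) (by omega) (by omega)
  · intro b hb'
    simp only [rgt, rhd]
    norm_num
  · intro b i hb' hi1 hi2
    simp only [rgt]
    norm_num
    omega

end Pool.Agent.H15.PCP3
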