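import Mathlib
import Pool.Agent.H28.PCP.TC
import Pool.Agent.H15.PCP3.CA

set_option autoImplicit false

/-!
# Module CB3: reading the cells of the dead ring, nulls

`Q = Qn A = 4 A + 8`, `S = Sn`, `b = L + S - Δ`.  Apply `cell_step` and `range_cell`.
`X2(s)` (kind 6): 2 pushes (nulls) at `b = S - 2A - 2` if `s = 0`; `Q` pushes (`X3`) at
`b = S - Q - 2A + 2s`.  F1 at the first place: `j = Q - 2`: `Q ≤ 2 + (Q - 2)`.
`X3` (code 7 0 3): 2 nulls at `b = S - 2` (F1: `j = Q - 2`), `Q` at `b = S - Q`.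
`H2` (code 7 0 2): 2 at `b = S - Q`; none at `b = S - 2` (F1: `j = Q - 2`, `2 ≤ Q - 2`).
Nulls: type 0 (`= code A 0 0 0`), no pushes.
-/

namespace Pool.Agent.H15.PCP3

open Pool.Agent.H28.PCP (Hyp)

variable {A : ℕ} {f : ℕ → ℕ → ℕ} {hl : ℕ → Bool} {w : List ℕ}

theorem cb3_gen (hyp : Hyp A f) {k o Δ m L b n t2 : ℕ} {rest : List (ℕ × ℕ)} (hk : k < 8)
    (hm : 1 ≤ m) (hm2 : m ≤ In A w.length) (hL : L = m + rest.length)
    (hb : b + Δ = L + Sn A w.length) (h1 : L ≤ Δ + b0n A w.length) (h2 : Δ ≤ L + b0n A w.length)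
    (hn : rln A hl w.length (Sn A w.length) k 0 o b = n) (hn1 : 1 ≤ n) (hn2 : n ≤ In A w.length)
    (hF1 : ∀ j, 1 ≤ j → j ≤ b → rln A hl w.length (Sn A w.length) k 0 o (b - j) ≤ n + j)
    (hF2 : rln A hl w.length (Sn A w.length) k 0 o (b + 1) = 0)
    (hg0 : rgt A f hl w (Sn A w.length) k 0 o b 0 = t2)
    (hgi : ∀ i, 1 ≤ i → i < n → rgt A f hl w (Sn A w.length) k 0 o b i = 0)
    (ht2 : t2 < 8 * (A + 1) * OBn A w.length) :
    RR (ring A f hl w) (B0n A w.length) m (cellq (code A k 0 o) Δ m ++ rest)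
      (rest ++ cellq t2 L n) := by
  have hln : ∀ b', (ring A f hl w).ln (code A k 0 o) b' =
      rln A hl w.length (Sn A w.length) k 0 o b' := fun b' => ring_ln hk (Nat.zero_le _)
  have hgt : ∀ b' i, (ring A f hl w).gt (code A k 0 o) b' i =
      rgt A f hl w (Sn A w.length) k 0 o b' i := fun b' i => ring_gt hk (Nat.zero_le _)
  have h := cell_step (f := f) (hl := hl) (w := w) (t := code A k 0 o) (rest := rest) hyp.hA hm
    hm2 hL hb h1 h2 (by
      intro j hj1 hj2
      rw [hln, hln, hn]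
      exact hF1 j hj1 hj2) (by
      intro _
      rw [hln]
      exact hF2) (by
      rw [hln, hn]
      exact hn2) (by
      intro i hi
      rw [hln, hn] at hi
      rw [hgt]
      change _ < 8 * (A + 1) * OBn A w.length
      rcases Nat.eq_zero_or_pos i with rfl | hi0
      · rw [hg0]; exact ht2
      · rw [hgi i hi0 hi]
        omega)
  rw [hln, hn] at h
  have e : (List.range n).map (fun i => ((ring A f hl w).gt (code A k 0 o) b i, L + i)) =
      cellq t2 L n := by
    refine range_cell hn1 ?_ ?_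
    · rw [hgt]; exact hg0
    · intro i hi1 hi2
      rw [hgt]; exact hgi i hi1 hi2
  rw [e] at h
  exact h

theorem cb3_gen0 (hyp : Hyp A f) {k o Δ m L b : ℕ} {rest : List (ℕ × ℕ)} (hk : k < 8)
    (hm : 1 ≤ m) (hm2 : m ≤ In A w.length) (hL : L = m + rest.length)
    (hb : b + Δ = L + Sn A w.length) (h1 : L ≤ Δ + b0n A w.length) (h2 : Δ ≤ L + b0n A w.length)
    (hn : rln A hl w.length (Sn A w.length) k 0 o b = 0)
    (hF1 : ∀ j, 1 ≤ j → j ≤ b → rln A hl w.length (Sn A w.length) k 0 o (b - j) ≤ j) :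
    RR (ring A f hl w) (B0n A w.length) m (cellq (code A k 0 o) Δ m ++ rest) rest := by
  have hln : ∀ b', (ring A f hl w).ln (code A k 0 o) b' =
      rln A hl w.length (Sn A w.length) k 0 o b' := fun b' => ring_ln hk (Nat.zero_le _)
  have h := cell_step (f := f) (hl := hl) (w := w) (t := code A k 0 o) (rest := rest) hyp.hA hm
    hm2 hL hb h1 h2 (by
      intro j hj1 hj2
      rw [hln, hln, hn, Nat.zero_add]
      exact hF1 j hj1 hj2) (by
      intro h0
      rw [hln, hn] at h0
      omega) (by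
      rw [hln, hn]
      exact Nat.zero_le _) (by
      intro i hi
      rw [hln, hn] at hi
      omega)
  rw [hln, hn] at h
  simpa using h

/-- numerical facts -/
theorem cb3_num (A n : ℕ) : 2 * Qn A + 4 * A + 2 ≤ Sn A n ∧ Qn A + 4 * A ≤ b0n A n ∧
    Qn A ≤ In A n ∧ 3 < OBn A n ∧ Qn A = 4 * A + 8 := by
  have h1 : Qn A * (n + 2) = Qn A * n + 2 * Qn A := by ring
  have h2 : Qn A * (n + 3) = Qn A * n + 3 * Qn A := by ring
  have h3 : Qn A = 4 * A + 8 := rfl
  unfold OBn Sn B0n b0n In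
  rw [h1, h2]
  generalize Qn A * n = K
  refine ⟨?_, ?_, ?_, ?_, h3⟩ <;> omega

theorem rr_X20 (hyp : Hyp A f) {Δ L : ℕ} {rest : List (ℕ × ℕ)}
    (hL : L = Qn A + rest.length) (hb : L + 2 * A + 2 = Δ) :
    RR (ring A f hl w) (B0n A w.length) (Qn A) (cellq (code A 6 0 0) Δ (Qn A) ++ rest)
      (rest ++ cellq 0 L 2) := by
  obtain ⟨n1, n2, n3, n4, n5⟩ := cb3_num A w.length
  refine cb3_gen (b := L + Sn A w.length - Δ) hyp (by norm_num) (by omega) n3 hL (by omega)
    (by omega) (by omega) ?_ (by norm_num) (by omega) ?_ ?_ ?_ ?_ (by positivity)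
  · simp only [rln]
    norm_num
    omega
  · intro j hj1 hj2
    simp only [rln]
    norm_num
    split_ifs <;> omega
  · simp only [rln]
    norm_num
    split_ifs <;> omega
  · simp only [rgt, rhd]
    norm_num
    intro h
    omega
  · intro i hi1 hi2
    simp only [rgt, rhd]
    norm_num
    omega

theorem rr_X2 (hyp : Hyp A f) {s Δ L : ℕ} {rest : List (ℕ × ℕ)} (hs : s ≤ A)
    (hL : L = Qn A + rest.length) (hb : L + Qn A + 2 * A = Δ + 2 * s) :
    RR (ring A f hl w) (B0n A w.length) (Qn A) (cellq (code A 6 0 s) Δ (Qn A) ++ rest)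
      (rest ++ cellq (code A 7 0 3) L (Qn A)) := by
  obtain ⟨n1, n2, n3, n4, n5⟩ := cb3_num A w.length
  refine cb3_gen (b := L + Sn A w.length - Δ) hyp (by norm_num) (by omega) n3 hL (by omega)
    (by omega) (by omega) ?_ (by omega) (by omega) ?_ ?_ ?_ ?_
    (code_lt (by norm_num) (by omega) n4)
  · simp only [rln]
    norm_num
    split_ifs <;> omega
  · intro j hj1 hj2
    simp only [rln]
    norm_num
    split_ifs <;> omega
  · simp only [rln]
    norm_num
    split_ifs <;> omega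
  · simp only [rgt, rhd]
    norm_num
    intro h
    omega
  · intro i hi1 hi2
    simp only [rgt, rhd]
    norm_num
    omega

theorem rr_X30 (hyp : Hyp A f) {Δ L : ℕ} {rest : List (ℕ × ℕ)}
    (hL : L = Qn A + rest.length) (hb : L + 2 = Δ) :
    RR (ring A f hl w) (B0n A w.length) (Qn A) (cellq (code A 7 0 3) Δ (Qn A) ++ rest)
      (rest ++ cellq 0 L 2) := by
  obtain ⟨n1, n2, n3, n4, n5⟩ := cb3_num A w.length
  refine cb3_gen (b := L + Sn A w.length - Δ) hyp (by norm_num) (by omega) n3 hL (by omega)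
    (by omega) (by omega) ?_ (by norm_num) (by omega) ?_ ?_ ?_ ?_ (by positivity)
  · simp only [rln]
    norm_num
    omega
  · intro j hj1 hj2
    simp only [rln]
    norm_num
    split_ifs <;> omega
  · simp only [rln]
    norm_num
    split_ifs <;> omega
  · simp only [rgt, rhd]
    norm_num
    intro h
    omega
  · intro i hi1 hi2
    simp only [rgt, rhd]
    norm_num
    omega

theorem rr_X3 (hyp : Hyp A f) {Δ L : ℕ} {rest : List (ℕ × ℕ)}
    (hL : L = Qn A + rest.length) (hb : L + Qn A = Δ) :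
    RR (ring A f hl w) (B0n A w.length) (Qn A) (cellq (code A 7 0 3) Δ (Qn A) ++ rest)
      (rest ++ cellq (code A 7 0 3) L (Qn A)) := by
  obtain ⟨n1, n2, n3, n4, n5⟩ := cb3_num A w.length
  refine cb3_gen (b := L + Sn A w.length - Δ) hyp (by norm_num) (by omega) n3 hL (by omega)
    (by omega) (by omega) ?_ (by omega) (by omega) ?_ ?_ ?_ ?_
    (code_lt (by norm_num) (by omega) n4)
  · simp only [rln]
    norm_num
    split_ifs <;> omega
  · intro j hj1 hj2
    simp only [rln]
    norm_num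
    split_ifs <;> omega
  · simp only [rln]
    norm_num
    split_ifs <;> omega
  · simp only [rgt, rhd]
    norm_num
    intro h
    omega
  · intro i hi1 hi2
    simp only [rgt, rhd]
    norm_num
    omega

theorem rr_H2 (hyp : Hyp A f) {Δ L : ℕ} {rest : List (ℕ × ℕ)}
    (hL : L = 2 + rest.length) (hb : L + Qn A = Δ) :
    RR (ring A f hl w) (B0n A w.length) 2 (cellq (code A 7 0 2) Δ 2 ++ rest)
      (rest ++ cellq (code A 7 0 2) L 2) := by
  obtain ⟨n1, n2, n3, n4, n5⟩ := cb3_num A w.length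
  refine cb3_gen (b := L + Sn A w.length - Δ) hyp (by norm_num) (by omega) (by omega) hL (by omega)
    (by omega) (by omega) ?_ (by omega) (by omega) ?_ ?_ ?_ ?_
    (code_lt (by norm_num) (by omega) (by omega))
  · simp only [rln]
    norm_num
    omega
  · intro j hj1 hj2
    simp only [rln]
    norm_num
    split_ifs <;> omega
  · simp only [rln]
    norm_num
    omega
  · simp only [rgt, rhd]
    norm_num
  · intro i hi1 hi2
    simp only [rgt, rhd]
    norm_num
    omega

theorem rr_H20 (hyp : Hyp A f) {Δ L : ℕ} {rest : List (ℕ × ℕ)}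
    (hL : L = 2 + rest.length) (hb : L + 2 = Δ) :
    RR (ring A f hl w) (B0n A w.length) 2 (cellq (code A 7 0 2) Δ 2 ++ rest) rest := by
  obtain ⟨n1, n2, n3, n4, n5⟩ := cb3_num A w.length
  refine cb3_gen0 (b := L + Sn A w.length - Δ) hyp (by norm_num) (by omega) (by omega) hL
    (by omega) (by omega) (by omega) ?_ ?_
  · simp only [rln]
    norm_num
    omega
  · intro j hj1 hj2
    simp only [rln]
    norm_num
    split_ifs <;> omega

theorem rr_null (hyp : Hyp A f) {Δ m L : ℕ} {rest : List (ℕ × ℕ)} (hm : 1 ≤ m)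
    (hm2 : m ≤ In A w.length) (hL : L = m + rest.length) (h1 : L ≤ Δ + b0n A w.length)
    (h2 : Δ ≤ L + b0n A w.length) :
    RR (ring A f hl w) (B0n A w.length) m (cellq 0 Δ m ++ rest) rest := by
  have e : (0 : ℕ) = code A 0 0 0 := by simp [code]
  have hS : b0n A w.length ≤ Sn A w.length := by unfold Sn B0n; omega
  conv_lhs => rw [e]
  refine cb3_gen0 (b := L + Sn A w.length - Δ) hyp (by norm_num) hm hm2 hL
    (by omega) h1 h2 ?_ ?_
  · simp [rln]
  · intro j hj1 hj2
    simp [rln]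

end Pool.Agent.H15.PCP3
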