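import Mathlib
import Pool.Agent.H28.PCP.TC
import Pool.Agent.H15.PCP3.CA

set_option autoImplicit false

/-!
# Module CB4: the initial token

`rr_I`: the initial token `(code A 7 0 0, 0)` is read at length 1, `b = S + 1`: `Q n + 2` pushes
`(rgt .. i, 1 + i)`, `i < Q n + 2`; by definition of `rgt` (`k = 7`, `o = 0`): `i = Q n`: the last cell's
head, `i = Q x` with `x < n`: head of the cell `x`, other `i`: nulls.  So the list is the concatenation of
`n` cells of size `Q = 4 A + 8` and one of size 2 (split `range (Q n + 2)`, induction on the number of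
cells, or compare entries with `List.ext_getElem`).
Regular: `1 ≤ 0 + B0n`; F1: `ln (S + 1 - j) = 0` for `1 ≤ j`; F2: `ln (S + 2) = 0`; `Q n + 2 ≤ In`;
types `< Tn` by `code_lt` (symbols `≤ A`, offsets `≤ S + Q n + 1 < OBn`).
-/

namespace Pool.Agent.H15.PCP3

open Pool.Agent.H28.PCP (Hyp)

variable {A : ℕ} {f : ℕ → ℕ → ℕ} {hl : ℕ → Bool} {w : List ℕ}

private theorem cb4_range {α : Type} (G : ℕ → α) (Q n : ℕ) :
    (List.range (Q * n)).map G =
      (List.range n).flatMap (fun x => (List.range Q).map (fun j => G (Q * x + j))) := by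
  induction n with
  | zero => simp
  | succ n ih =>
    rw [mul_add, mul_one, List.range_add, List.map_append, ih, List.range_succ,
      List.flatMap_append, List.map_map]
    simp [Function.comp_def]

private theorem cb4_range2 {α : Type} (G : ℕ → α) (Q n m : ℕ) :
    (List.range (Q * n + m)).map G =
      (List.range n).flatMap (fun x => (List.range Q).map (fun j => G (Q * x + j))) ++
        (List.range m).map (fun j => G (Q * n + j)) := by
  rw [List.range_add, List.map_append, cb4_range, List.map_map]
  rfl

/-- the initial ring -/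
theorem rr_I (hyp : Hyp A f) (hw : ∀ a ∈ w, 1 ≤ a ∧ a < A) :
    RR (ring A f hl w) (B0n A w.length) 1 (ring A f hl w).q0
      (((List.range w.length).flatMap (fun x => cellq (code A 1 (w.getD x 1)
        (Sn A w.length + Qn A * (w.length - x) + 1)) (1 + Qn A * x) (Qn A))) ++
        cellq (code A 2 0 (Sn A w.length + 1)) (1 + Qn A * w.length) 2) := by
  have hA : 2 ≤ A := hyp.hA
  have hQ : Qn A = 4 * A + 8 := rfl
  have hln : ∀ b, (ring A f hl w).ln (code A 7 0 0) b =
      if b = Sn A w.length + 1 then Qn A * w.length + 2 else 0 := by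
    intro b
    rw [ring_ln (by norm_num) (Nat.zero_le _)]
    simp [rln]
  have hgt : ∀ b i, (ring A f hl w).gt (code A 7 0 0) b i =
      if i = Qn A * w.length then code A 2 0 (Sn A w.length + 1)
      else if i % Qn A = 0 then
        code A 1 (w.getD (i / Qn A) 1) (Sn A w.length + Qn A * (w.length - i / Qn A) + 1)
      else 0 := by
    intro b i
    rw [ring_gt (by norm_num) (Nat.zero_le _)]
    simp [rgt]
  have hgetD : ∀ x, w.getD x 1 ≤ A := by
    intro x
    rcases Nat.lt_or_ge x w.length with hx | hx
    · rw [List.getD_eq_getElem _ _ hx]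
      exact (hw _ (List.getElem_mem hx)).2.le
    · rw [List.getD_eq_default _ _ hx]
      omega
  have hB1 : 1 ≤ B0n A w.length := by
    unfold B0n b0n
    omega
  have hlnv : (ring A f hl w).ln (code A 7 0 0) (0 + 1 + Sn A w.length - 0) =
      Qn A * w.length + 2 := by
    rw [hln, if_pos (by omega)]
  refine ⟨?_, ?_⟩
  · show (ring A f hl w).step (ring A f hl w).q0 = _
    show [] ++ (List.range ((ring A f hl w).ln (code A 7 0 0)
      (0 + 1 + Sn A w.length - 0))).map (fun i => ((ring A f hl w).gt (code A 7 0 0)
      (0 + 1 + Sn A w.length - 0) i, 0 + 1 + i)) = _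
    rw [hlnv, List.nil_append, cb4_range2]
    congr 1
    · apply List.flatMap_congr
      intro x hx
      have hx' : x < w.length := List.mem_range.1 hx
      rw [← range_cell (n := Qn A) (L := 1 + Qn A * x)
        (g := fun j => (ring A f hl w).gt (code A 7 0 0) (0 + 1 + Sn A w.length - 0)
          (Qn A * x + j)) (by omega)]
      · apply List.map_congr_left
        intro j _
        simp only [Prod.mk.injEq, true_and]
        omega
      · show (ring A f hl w).gt (code A 7 0 0) (0 + 1 + Sn A w.length - 0) (Qn A * x + 0) = _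
        rw [hgt, add_zero, if_neg, if_pos (Nat.mul_mod_right _ _),
          Nat.mul_div_cancel_left _ (by omega)]
        intro h
        have := Nat.eq_of_mul_eq_mul_left (by omega) h
        omega
      · intro j hj1 hj2
        show (ring A f hl w).gt (code A 7 0 0) (0 + 1 + Sn A w.length - 0) (Qn A * x + j) = _
        have h1 : Qn A * x + j < Qn A * w.length := by
          calc Qn A * x + j < Qn A * x + Qn A := by omega
            _ = Qn A * (x + 1) := by ring
            _ ≤ Qn A * w.length := Nat.mul_le_mul_left _ hx'
        rw [hgt, if_neg (by omega), if_neg]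
        rw [Nat.mul_add_mod, Nat.mod_eq_of_lt hj2]
        omega
    · rw [← range_cell (n := 2) (L := 1 + Qn A * w.length)
        (g := fun j => (ring A f hl w).gt (code A 7 0 0) (0 + 1 + Sn A w.length - 0)
          (Qn A * w.length + j)) (by omega)]
      · apply List.map_congr_left
        intro j _
        simp only [Prod.mk.injEq, true_and]
        omega
      · show (ring A f hl w).gt (code A 7 0 0) (0 + 1 + Sn A w.length - 0)
          (Qn A * w.length + 0) = _
        rw [hgt, add_zero, if_pos rfl]
      · intro j hj1 hj2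
        show (ring A f hl w).gt (code A 7 0 0) (0 + 1 + Sn A w.length - 0)
          (Qn A * w.length + j) = _
        rw [hgt, if_neg (by omega), if_neg]
        rw [Nat.mul_add_mod, Nat.mod_eq_of_lt (by omega)]
        omega
  · intro i hi
    have : i = 0 := by omega
    subst this
    refine ⟨?_, by simp [Prog.q0]⟩
    show ((0 + 1 ≤ 0 + B0n A w.length ∧ 0 ≤ 0 + 1 + B0n A w.length) ∧
      (∀ j, 1 ≤ j → j ≤ 0 + 1 + Sn A w.length - 0 →
        (ring A f hl w).ln (code A 7 0 0) (0 + 1 + Sn A w.length - 0 - j) ≤
          (ring A f hl w).ln (code A 7 0 0) (0 + 1 + Sn A w.length - 0) + j) ∧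
      (0 < (ring A f hl w).ln (code A 7 0 0) (0 + 1 + Sn A w.length - 0) →
        (ring A f hl w).ln (code A 7 0 0) (0 + 1 + Sn A w.length - 0 + 1) = 0) ∧
      (ring A f hl w).ln (code A 7 0 0) (0 + 1 + Sn A w.length - 0) ≤ In A w.length ∧
      ∀ i < (ring A f hl w).ln (code A 7 0 0) (0 + 1 + Sn A w.length - 0),
        (ring A f hl w).gt (code A 7 0 0) (0 + 1 + Sn A w.length - 0) i <
          8 * (A + 1) * OBn A w.length)
    have hOB : Sn A w.length + Qn A * w.length + 1 < OBn A w.length := by
      unfold OBn
      rw [mul_add]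
      omega
    refine ⟨⟨by omega, by omega⟩, ?_, ?_, ?_, ?_⟩
    · intro j hj1 hj2
      rw [hln, if_neg (by omega)]
      exact Nat.zero_le _
    · intro _
      rw [hln, if_neg (by omega)]
    · rw [hlnv]
      unfold In
      rw [mul_add]
      omega
    · intro i _
      rw [hgt]
      split_ifs with h1 h2
      · exact code_lt (by norm_num) (Nat.zero_le _) (by omega)
      · refine code_lt (by norm_num) (hgetD _) (lt_of_le_of_lt ?_ hOB)
        have : Qn A * (w.length - i / Qn A) ≤ Qn A * w.length :=
          Nat.mul_le_mul_left _ (Nat.sub_le _ _)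
        omega
      · have : 0 < OBn A w.length := by omega
        positivity

end Pool.Agent.H15.PCP3
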