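import Mathlib
import Pool.Agent.H15.PCP3.CB1

set_option autoImplicit false

/-!
# Module CC: pass A

The ring before pass A: cells `D(a, o)` with `Δ + o = S + L0`, of size `Q`, and a cell `H(o)` of size 2
with `Δ + o = S + L0`; `L0` is the total length.  The reader of a cell with left neighbour `s` is read at
length `L0 + 2 s` (`rr_D` with `hb : L + S = Δ + o + 2 s`), and after it the length is `L0 + 2 nx`.
Induction on the word `l` with `rest` growing (`rest ++ cellq ..`), then `rr_H`.
-/

namespace Pool.Agent.H15.PCP3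

open Pool.Agent.H28.PCP (Hyp)

/-- cells before pass A -/
def DC (A n L0 : ℕ) : List ℕ → List (ℕ × ℕ) → Prop
  | [], q => q = []
  | a :: l, q => ∃ Δ o q', q = cellq (code A 1 a o) Δ (Qn A) ++ q' ∧ Δ + o = Sn A n + L0 ∧
      Sn A n ≤ o + 2 * A ∧ o ≤ Sn A n + Qn A * (n + 1) + 2 ∧ DC A n L0 l q'

/-- last cell before pass A -/
def HC1 (A n L0 : ℕ) (q : List (ℕ × ℕ)) : Prop :=
  ∃ Δ o, q = cellq (code A 2 0 o) Δ 2 ∧ Δ + o = Sn A n + L0 ∧
      Sn A n ≤ o + 2 * A ∧ o ≤ Sn A n + Qn A * (n + 1) + 2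

/-- ring after pass A -/
def PX (A : ℕ) (hl : ℕ → Bool) (L0 : ℕ) : ℕ → List ℕ → List (ℕ × ℕ)
  | s, [] => if s = A then cellq (code A 7 0 1) (L0 + 2 * A) 4
      else cellq (code A 4 0 s) (L0 + 2 * s) (2 * A - 2 * s)
  | s, a :: l => cellq (ty1 A hl s a) (L0 + 2 * s) (Qn A + 2 * nx A hl s a - 2 * s) ++
      PX A hl L0 (nx A hl s a) l

/-- symbol seen by the last cell -/
def lst (A : ℕ) (hl : ℕ → Bool) : ℕ → List ℕ → ℕ
  | s, [] => s
  | s, a :: l => lst A hl (nx A hl s a) l

theorem nx_le {A : ℕ} {hl : ℕ → Bool} {s a : ℕ} (ha : a < A) : nx A hl s a ≤ A := by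
  unfold nx; split_ifs <;> omega

theorem lst_le {A : ℕ} {hl : ℕ → Bool} {s : ℕ} {l : List ℕ} (hs : s ≤ A)
    (h : ∀ a ∈ l, 1 ≤ a ∧ a < A) : lst A hl s l ≤ A := by
  induction l generalizing s with
  | nil => exact hs
  | cons a l ih =>
    exact ih (nx_le (h a (by simp)).2) (fun x hx => h x (by simp [hx]))

/-- no halting symbol -/
theorem lst_alive {A : ℕ} {hl : ℕ → Bool} {s : ℕ} {l : List ℕ} (hs : s < A)
    (h : ∀ a ∈ l, 1 ≤ a ∧ a < A) (h2 : ∀ a ∈ l, hl a = false) : lst A hl s l < A := by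
  induction l generalizing s with
  | nil => exact hs
  | cons a l ih =>
    refine ih ?_ (fun x hx => h x (by simp [hx])) (fun x hx => h2 x (by simp [hx]))
    have h3 := h2 a (by simp)
    have h4 := h a (by simp)
    unfold nx
    rw [if_neg (by rw [h3]; simp; omega)]
    exact h4.2

/-- a halting symbol -/
theorem lst_dead {A : ℕ} {hl : ℕ → Bool} {s : ℕ} {l : List ℕ}
    (h2 : s = A ∨ ∃ a ∈ l, hl a = true) : lst A hl s l = A := by
  induction l generalizing s with
  | nil =>
    rcases h2 with h | ⟨a, ha, _⟩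
    · exact h
    · simp at ha
  | cons a l ih =>
    show lst A hl (nx A hl s a) l = A
    apply ih
    rcases h2 with h | ⟨x, hx, hx2⟩
    · left
      unfold nx
      rw [if_pos (Or.inl h)]
    · rcases List.mem_cons.1 hx with rfl | hx3
      · left
        unfold nx
        rw [if_pos (Or.inr hx2)]
      · exact Or.inr ⟨x, hx3, hx2⟩

/-- length of the ring after pass A -/
theorem PX_length {A : ℕ} {hl : ℕ → Bool} {L0 s : ℕ} {l : List ℕ} (hs : s ≤ A)
    (h : ∀ a ∈ l, 1 ≤ a ∧ a < A) :
    (PX A hl L0 s l).length + 2 * s =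
      Qn A * l.length + 2 * A + (if lst A hl s l = A then 4 else 0) := by
  induction l generalizing s with
  | nil =>
    show (if s = A then cellq (code A 7 0 1) (L0 + 2 * A) 4
      else cellq (code A 4 0 s) (L0 + 2 * s) (2 * A - 2 * s)).length + 2 * s =
      Qn A * 0 + 2 * A + (if s = A then 4 else 0)
    split_ifs with h1
    · rw [cellq_length (by norm_num)]
      omega
    · rw [cellq_length (by omega)]
      omega
  | cons a l ih =>
    have h1 := ih (s := nx A hl s a) (nx_le (h a (by simp)).2) (fun x hx => h x (by simp [hx]))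
    show (cellq (ty1 A hl s a) (L0 + 2 * s) (Qn A + 2 * nx A hl s a - 2 * s) ++
      PX A hl L0 (nx A hl s a) l).length + 2 * s = Qn A * (l.length + 1) + 2 * A +
        (if lst A hl (nx A hl s a) l = A then 4 else 0)
    have hQ : Qn A = 4 * A + 8 := rfl
    rw [List.length_append, cellq_length (by omega), Nat.mul_add, Nat.mul_one]
    omega

variable {A : ℕ} {f : ℕ → ℕ → ℕ} {hl : ℕ → Bool} {w : List ℕ}

theorem passA (hyp : Hyp A f) {L0 s : ℕ} {l : List ℕ} {q1 q2 rest : List (ℕ × ℕ)} (hs : s ≤ A)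
    (h : ∀ a ∈ l, 1 ≤ a ∧ a < A) (hq1 : DC A w.length L0 l q1) (hq2 : HC1 A w.length L0 q2)
    (hlen : (q1 ++ q2 ++ rest).length = L0 + 2 * s) :
    ∃ k, 1 ≤ k ∧ RR (ring A f hl w) (B0n A w.length) k (q1 ++ q2 ++ rest)
      (rest ++ PX A hl L0 s l) := by
  have hQ : Qn A = 4 * A + 8 := rfl
  induction l generalizing s q1 rest with
  | nil =>
    obtain ⟨Δ, o, rfl, h1, h2, h3⟩ := hq2
    have hq1' : q1 = [] := hq1
    subst hq1'
    rw [List.nil_append] at hlen ⊢
    rw [List.length_append, cellq_length (by norm_num)] at hlen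
    refine ⟨2, by norm_num, ?_⟩
    have key := rr_H (A := A) (f := f) (hl := hl) (w := w) hyp (o := o) (Δ := Δ) (s := s)
      (L := L0 + 2 * s) (rest := rest) hs h2 h3 hlen.symm (by omega)
    have e : PX A hl L0 s [] = if s = A then cellq (code A 7 0 1) (L0 + 2 * s) 4
        else cellq (code A 4 0 s) (L0 + 2 * s) (2 * A - 2 * s) := by
      show (if s = A then cellq (code A 7 0 1) (L0 + 2 * A) 4
        else cellq (code A 4 0 s) (L0 + 2 * s) (2 * A - 2 * s)) = _
      split_ifs with h4
      · rw [h4]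
      · rfl
    rw [e]
    exact key
  | cons a l ih =>
    obtain ⟨Δ, o, q', rfl, h1, h2, h3, h4⟩ := hq1
    have ha := h a (by simp)
    obtain ⟨Δ2, o2, hq2e, h5⟩ := id hq2
    have hlen2 : q2.length = 2 := by rw [hq2e, cellq_length (by norm_num)]
    have hlen' : (q' ++ q2 ++ rest).length = q'.length + 2 + rest.length := by
      rw [List.length_append, List.length_append, hlen2]
    rw [List.append_assoc, List.append_assoc, List.length_append, cellq_length (by omega),
      ← List.append_assoc, hlen'] at hlen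
    have key := rr_D (A := A) (f := f) (hl := hl) (w := w) hyp (a := a) (o := o) (Δ := Δ) (s := s)
      (L := L0 + 2 * s) (rest := q' ++ q2 ++ rest) ha.1 ha.2 hs h2 h3
      (by rw [hlen']; omega) (by omega)
    have hnx := nx_le (hl := hl) (s := s) ha.2
    obtain ⟨k, hk, hRR⟩ := ih (s := nx A hl s a) (q1 := q')
      (rest := rest ++ cellq (ty1 A hl s a) (L0 + 2 * s) (Qn A + 2 * nx A hl s a - 2 * s))
      hnx (fun x hx => h x (by simp [hx])) h4
      (by
        rw [List.length_append, List.length_append, List.length_append, hlen2,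
          cellq_length (by omega)]
        omega)
    refine ⟨Qn A + k, by omega, ?_⟩
    have e1 : cellq (code A 1 a o) Δ (Qn A) ++ q' ++ q2 ++ rest =
        cellq (code A 1 a o) Δ (Qn A) ++ (q' ++ q2 ++ rest) := by
      simp only [List.append_assoc]
    have e2 : (q' ++ q2 ++ rest) ++
        cellq (ty1 A hl s a) (L0 + 2 * s) (Qn A + 2 * nx A hl s a - 2 * s) =
        q' ++ q2 ++ (rest ++ cellq (ty1 A hl s a) (L0 + 2 * s) (Qn A + 2 * nx A hl s a - 2 * s)) := by
      simp only [List.append_assoc]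
    have e3 : rest ++ PX A hl L0 s (a :: l) =
        (rest ++ cellq (ty1 A hl s a) (L0 + 2 * s) (Qn A + 2 * nx A hl s a - 2 * s)) ++
          PX A hl L0 (nx A hl s a) l := by
      show rest ++ (cellq (ty1 A hl s a) (L0 + 2 * s) (Qn A + 2 * nx A hl s a - 2 * s) ++
        PX A hl L0 (nx A hl s a) l) = _
      rw [List.append_assoc]
    rw [e1, e3]
    rw [e2] at key
    exact key.trans hRR

end Pool.Agent.H15.PCP3
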