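import Mathlib
import Pool.Agent.H15.PCP3.CC
import Pool.Agent.H15.PCP3.CB2

set_option autoImplicit false

/-!
# Module CD: pass B of a ring without halting symbol

`PX` with `L0 = Q M + 2`: the cell `P(a,s)` has difference `L0 + 2 s` and is read at length
`L = Q M + 2 A - 2 s` (`rr_P`: `L + 4 s + 2 = L0 + 2 s + 2 A`), it writes `D(f s a, o)` with
`o = S + Q + 2 + 2 s - 2 A`, `Δ = L`: `Δ + o = S + Q (M+1) + 2`; the length becomes
`Q M + 2 A - 2 a`.  The last cell `PH(s)` (`rr_PH`) writes `D(f s 1, o)` and `H(S + 2 + 2 s - 2 A)` at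
`L + Q`: `Δ + o = S + Q (M + 1) + 2`.  Induction on `l` with `rest` growing.
-/

namespace Pool.Agent.H15.PCP3

open Pool.Agent.H28.PCP (Hyp)

variable {A : ℕ} {f : ℕ → ℕ → ℕ} {hl : ℕ → Bool} {w : List ℕ}

theorem passB (hyp : Hyp A f) {M s : ℕ} {l : List ℕ} {rest : List (ℕ × ℕ)} (hs : s < A)
    (h : ∀ a ∈ l, 1 ≤ a ∧ a < A) (h2 : ∀ a ∈ l, hl a = false)
    (hlen : (PX A hl (Qn A * M + 2) s l ++ rest).length + 2 * s = Qn A * M + 2 * A) :
    ∃ k q1 q2, 1 ≤ k ∧ RR (ring A f hl w) (B0n A w.length) k (PX A hl (Qn A * M + 2) s l ++ rest)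
      (rest ++ (q1 ++ q2)) ∧
      DC A w.length (Qn A * (M + 1) + 2) (List.zipWith f (s :: l) (l ++ [1])) q1 ∧
      HC1 A w.length (Qn A * (M + 1) + 2) q2 := by
  have hQ : Qn A = 4 * A + 8 := rfl
  have hS0 : 4 * A ≤ Sn A w.length := by
    unfold Sn In; omega
  have hI0 : Qn A + 2 * A ≤ In A w.length := by
    unfold In
    have : Qn A * (w.length + 2) = Qn A * w.length + 2 * Qn A := by ring
    omega
  have hQ1 : Qn A ≤ Qn A * (w.length + 1) := Nat.le_mul_of_pos_right _ (by omega)
  have hQM : Qn A * (M + 1) = Qn A * M + Qn A := by ring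
  induction l generalizing s rest with
  | nil =>
    have hPX : PX A hl (Qn A * M + 2) s [] =
        cellq (code A 4 0 s) (Qn A * M + 2 + 2 * s) (2 * A - 2 * s) := by
      simp only [PX]
      rw [if_neg (by omega)]
    rw [hPX] at hlen ⊢
    have hm : 1 ≤ 2 * A - 2 * s := by omega
    rw [List.length_append, cellq_length hm] at hlen
    have hstep := rr_PH (hl := hl) (w := w) (rest := rest) (Δ := Qn A * M + 2 + 2 * s)
      (m := 2 * A - 2 * s) (L := 2 * A - 2 * s + rest.length) hyp hs hm (by omega) rfl (by omega)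
    refine ⟨_, _, _, hm, hstep, ?_, ?_⟩
    · show DC A w.length (Qn A * (M + 1) + 2) [f s 1] _
      refine ⟨_, _, [], (List.append_nil _).symm, ?_, ?_, ?_, rfl⟩
      · omega
      · omega
      · omega
    · refine ⟨_, _, rfl, ?_, ?_, ?_⟩
      · omega
      · omega
      · omega
  | cons a l ih =>
    have ha := h a (by simp)
    have hla := h2 a (by simp)
    have hnx : nx A hl s a = a := by
      unfold nx; rw [if_neg]; rintro (h' | h')
      · omega
      · rw [hla] at h'; exact absurd h' (by simp)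
    have hty : ty1 A hl s a = code A 3 a s := by
      unfold ty1; rw [if_neg]; rintro (h' | h')
      · omega
      · rw [hla] at h'; exact absurd h' (by simp)
    have hPX : PX A hl (Qn A * M + 2) s (a :: l) =
        cellq (code A 3 a s) (Qn A * M + 2 + 2 * s) (Qn A + 2 * a - 2 * s) ++
          PX A hl (Qn A * M + 2) a l := by
      simp only [PX, hnx, hty]
    rw [hPX, List.append_assoc] at hlen ⊢
    have hm : 1 ≤ Qn A + 2 * a - 2 * s := by omega
    rw [List.length_append, cellq_length hm] at hlen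
    have hstep := rr_P (hl := hl) (w := w) (rest := PX A hl (Qn A * M + 2) a l ++ rest)
      (Δ := Qn A * M + 2 + 2 * s) (m := Qn A + 2 * a - 2 * s)
      (L := Qn A + 2 * a - 2 * s + (PX A hl (Qn A * M + 2) a l ++ rest).length)
      hyp ha.1 ha.2 hs hm (by omega) rfl (by omega)
    rw [List.append_assoc] at hstep
    have hlen2 : (PX A hl (Qn A * M + 2) a l ++ (rest ++ cellq
        (code A 1 (f s a) (Sn A w.length + Qn A + 2 + 2 * s - 2 * A))
        (Qn A + 2 * a - 2 * s + (PX A hl (Qn A * M + 2) a l ++ rest).length) (Qn A))).length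
        + 2 * a = Qn A * M + 2 * A := by
      rw [← List.append_assoc, List.length_append, cellq_length (by omega)]
      omega
    obtain ⟨k, q1, q2, hk, hrr, hd, hh⟩ := ih (s := a) ha.2 (fun x hx => h x (by simp [hx]))
      (fun x hx => h2 x (by simp [hx])) hlen2
    have h3 := hstep.trans hrr
    rw [List.append_assoc, ← List.append_assoc _ q1 q2] at h3
    refine ⟨_, cellq (code A 1 (f s a) (Sn A w.length + Qn A + 2 + 2 * s - 2 * A))
      (Qn A + 2 * a - 2 * s + (PX A hl (Qn A * M + 2) a l ++ rest).length) (Qn A) ++ q1, q2,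
      ?_, h3, ?_, hh⟩
    · omega
    · show DC A w.length (Qn A * (M + 1) + 2) (f s a :: List.zipWith f (a :: l) (l ++ [1])) _
      refine ⟨_, _, q1, rfl, ?_, ?_, ?_, hd⟩
      · omega
      · omega
      · omega

end Pool.Agent.H15.PCP3
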