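import Mathlib
import Pool.Agent.H15.PCP3.CC
import Pool.Agent.H15.PCP3.CB2

set_option autoImplicit false

/-!
# Module CE1: pass B of a ring with a halting symbol

`passX`: `PX` with `L0 = Q M + 2` and a halting symbol (`lst = A`), total length `Q M + 2 A + 4 - 2 s`:
the cell with state `s` (type `P(a,s)` or `X1(s)`, `Δ = L0 + 2 s`) is read at
`L = Q M + 2 A + 4 - 2 s` (`L + 4 s = Δ + 2 A + 2`: `rr_PX`, `rr_X1`), writes `X2(s)` (size `Q`), length
becomes `Q M + 2 A + 4 - 2 nx`; the last cell `H1` (`Δ = L0 + 2 A`, read at `Q M + 4`, `rr_H1`) writes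
`H2` at `Q M + 4`.  Induction on `l` with `rest` growing.
-/

namespace Pool.Agent.H15.PCP3

open Pool.Agent.H28.PCP (Hyp)

/-- ring of cells `X2` -/
def X2C (A : ℕ) (hl : ℕ → Bool) (M : ℕ) : ℕ → List ℕ → List (ℕ × ℕ)
  | _, [] => []
  | s, a :: l => cellq (code A 6 0 s) (Qn A * M + 2 * A + 4 - 2 * s) (Qn A) ++
      X2C A hl M (nx A hl s a) l

variable {A : ℕ} {f : ℕ → ℕ → ℕ} {hl : ℕ → Bool} {w : List ℕ}

theorem passX (hyp : Hyp A f) {M s : ℕ} {l : List ℕ} {rest : List (ℕ × ℕ)} (hs : s ≤ A)
    (h : ∀ a ∈ l, 1 ≤ a ∧ a < A) (hlst : lst A hl s l = A)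
    (hlen : (PX A hl (Qn A * M + 2) s l ++ rest).length + 2 * s = Qn A * M + 2 * A + 4) :
    ∃ k, RR (ring A f hl w) (B0n A w.length) k (PX A hl (Qn A * M + 2) s l ++ rest)
      (rest ++ (X2C A hl M s l ++ cellq (code A 7 0 2) (Qn A * M + 4) 2)) := by
  have hQ : Qn A = 4 * A + 8 := rfl
  have hI0 : Qn A + 2 * A ≤ In A w.length := by
    unfold In
    have : Qn A * (w.length + 2) = Qn A * w.length + 2 * Qn A := by ring
    omega
  induction l generalizing s rest with
  | nil =>
    have hsA : s = A := hlst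
    subst hsA
    have hPX : PX s hl (Qn s * M + 2) s [] =
        cellq (code s 7 0 1) (Qn s * M + 2 + 2 * s) 4 := by
      simp only [PX, if_true]
    rw [hPX] at hlen ⊢
    rw [List.length_append, cellq_length (by omega)] at hlen
    have hstep := rr_H1 (hl := hl) (w := w) (rest := rest) (Δ := Qn s * M + 2 + 2 * s)
      (L := Qn s * M + 4) hyp (by omega) (by omega)
    exact ⟨_, hstep⟩
  | cons a l ih =>
    have ha := h a (by simp)
    have hnx := nx_le (hl := hl) (s := s) ha.2
    have hPX : PX A hl (Qn A * M + 2) s (a :: l) =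
        cellq (ty1 A hl s a) (Qn A * M + 2 + 2 * s) (Qn A + 2 * nx A hl s a - 2 * s) ++
          PX A hl (Qn A * M + 2) (nx A hl s a) l := rfl
    rw [hPX, List.append_assoc] at hlen ⊢
    have hm : 1 ≤ Qn A + 2 * nx A hl s a - 2 * s := by omega
    rw [List.length_append, cellq_length hm] at hlen
    have hstep : RR (ring A f hl w) (B0n A w.length) (Qn A + 2 * nx A hl s a - 2 * s)
        (cellq (ty1 A hl s a) (Qn A * M + 2 + 2 * s) (Qn A + 2 * nx A hl s a - 2 * s) ++
          (PX A hl (Qn A * M + 2) (nx A hl s a) l ++ rest))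
        ((PX A hl (Qn A * M + 2) (nx A hl s a) l ++ rest) ++
          cellq (code A 6 0 s) (Qn A * M + 2 * A + 4 - 2 * s) (Qn A)) := by
      by_cases hc : s = A ∨ hl a = true
      · have hty : ty1 A hl s a = code A 5 0 s := by unfold ty1; rw [if_pos hc]
        rw [hty]
        exact rr_X1 hyp hs hm (by omega) (by omega) (by omega)
      · have hty : ty1 A hl s a = code A 3 a s := by unfold ty1; rw [if_neg hc]
        rw [hty]
        have hsA : s < A := by
          rcases Nat.lt_or_ge s A with h' | h'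
          · exact h'
          · exact absurd (Or.inl (by omega)) hc
        exact rr_PX hyp ha.2 hsA hm (by omega) (by omega) (by omega)
    rw [List.append_assoc] at hstep
    have hlen2 : (PX A hl (Qn A * M + 2) (nx A hl s a) l ++ (rest ++
        cellq (code A 6 0 s) (Qn A * M + 2 * A + 4 - 2 * s) (Qn A))).length +
        2 * nx A hl s a = Qn A * M + 2 * A + 4 := by
      rw [← List.append_assoc, List.length_append, cellq_length (by omega)]
      omega
    obtain ⟨k, hrr⟩ := ih (s := nx A hl s a) hnx (fun x hx => h x (by simp [hx])) hlst hlen2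
    have h3 := hstep.trans hrr
    refine ⟨Qn A + 2 * nx A hl s a - 2 * s + k, ?_⟩
    · rw [show X2C A hl M s (a :: l) =
        cellq (code A 6 0 s) (Qn A * M + 2 * A + 4 - 2 * s) (Qn A) ++
          X2C A hl M (nx A hl s a) l from rfl, List.append_assoc, ← List.append_assoc rest]
      exact h3

end Pool.Agent.H15.PCP3
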