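import Mathlib
import Pool.Agent.H15.PCP3.CC
import Pool.Agent.H15.PCP3.CE1
import Pool.Agent.H15.PCP3.CB3

set_option autoImplicit false

/-!
# Module CE2: the dead ring vanishes

`x2pass`: total length `Q M + 2`, `M = l.length + 1`: the first cell `X2(0)` has
`Δ = Q M + 2 A + 4 = L + 2 A + 2` (`rr_X20`), writes two nulls with `Δ = Q M + 2`; length
`Q (M - 1) + 4`; the others (`rr_X2`, state `s ≤ A` by `nx_le`) write `X3`; `H2` (`Δ = Q M + 4`) writes
`H2` (`rr_H2`).
`sk_succ`: the two nulls (`rr_null`) vanish, length `Q (K+1) + 2`; the first `X3` (`Δ = Q (K+1) + 4`)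
writes two nulls (`rr_X30`), the other `K` are copied (`rr_X3`), `H2` is copied (`rr_H2`).
`sk_zero`: `rr_null`, `rr_H20` (`Δ = 4`, `L = 2`).
-/

namespace Pool.Agent.H15.PCP3

open Pool.Agent.H28.PCP (Hyp)

/-- dead ring with `K` cells -/
def SK (A K : ℕ) : List (ℕ × ℕ) :=
  cellq 0 (Qn A * (K + 1) + 2) 2 ++
    (List.replicate K (cellq (code A 7 0 3) (Qn A * K + 4) (Qn A))).flatten ++
    cellq (code A 7 0 2) (Qn A * K + 4) 2

variable {A : ℕ} {f : ℕ → ℕ → ℕ} {hl : ℕ → Bool} {w : List ℕ}

private lemma ce2_len_cell (t Δ : ℕ) : (cellq t Δ (Qn A)).length = Qn A := by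
  apply cellq_length
  unfold Qn; omega

private lemma ce2_len_two (t Δ : ℕ) : (cellq t Δ 2).length = 2 := cellq_length (by omega)

/-- the cells `X2` other than the first one become `X3` -/
private lemma ce2_x2tail (hyp : Hyp A f) {n : ℕ} : ∀ {l : List ℕ} {s : ℕ} {R : List (ℕ × ℕ)},
    s ≤ A → (∀ x ∈ l, 1 ≤ x ∧ x < A) →
    (X2C A hl (n + 1) s l ++ R).length = Qn A * n + 4 →
    ∃ k, RR (ring A f hl w) (B0n A w.length) k (X2C A hl (n + 1) s l ++ R)
      (R ++ (List.replicate l.length (cellq (code A 7 0 3) (Qn A * n + 4) (Qn A))).flatten) := by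
  intro l
  induction l with
  | nil =>
    intro s R _ _ _
    refine ⟨0, ?_⟩
    have : X2C A hl (n + 1) s [] ++ R = R ++ (List.replicate ([] : List ℕ).length
        (cellq (code A 7 0 3) (Qn A * n + 4) (Qn A))).flatten := by
      simp [X2C]
    rw [← this]
    exact RR.refl _ _ _
  | cons a l ih =>
    intro s R hs h hlen
    have e1 : X2C A hl (n + 1) s (a :: l) ++ R =
        cellq (code A 6 0 s) (Qn A * (n + 1) + 2 * A + 4 - 2 * s) (Qn A) ++
          (X2C A hl (n + 1) (nx A hl s a) l ++ R) := by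
      simp only [X2C, List.append_assoc]
    have hlen2 : (X2C A hl (n + 1) (nx A hl s a) l ++ R).length + Qn A = Qn A * n + 4 := by
      rw [e1, List.length_append, ce2_len_cell] at hlen
      omega
    have h1 := rr_X2 (hl := hl) (w := w) hyp (s := s)
      (Δ := Qn A * (n + 1) + 2 * A + 4 - 2 * s) (L := Qn A * n + 4)
      (rest := X2C A hl (n + 1) (nx A hl s a) l ++ R) hs (by omega)
      (by
        have : Qn A * (n + 1) = Qn A * n + Qn A := by ring
        omega)
    have h2 := @ih (nx A hl s a) (R ++ cellq (code A 7 0 3) (Qn A * n + 4) (Qn A))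
      (nx_le (h a (by simp)).2) (fun x hx => h x (by simp [hx]))
      (by
        rw [← List.append_assoc, List.length_append, ce2_len_cell]
        exact hlen2)
    obtain ⟨k, h2⟩ := h2
    refine ⟨Qn A + k, ?_⟩
    rw [e1]
    refine RR.trans h1 ?_
    have e2 : (X2C A hl (n + 1) (nx A hl s a) l ++ R) ++ cellq (code A 7 0 3) (Qn A * n + 4) (Qn A) =
        X2C A hl (n + 1) (nx A hl s a) l ++ (R ++ cellq (code A 7 0 3) (Qn A * n + 4) (Qn A)) := by
      rw [List.append_assoc]
    have e3 : R ++ (List.replicate (a :: l).length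
          (cellq (code A 7 0 3) (Qn A * n + 4) (Qn A))).flatten =
        R ++ cellq (code A 7 0 3) (Qn A * n + 4) (Qn A) ++
          (List.replicate l.length (cellq (code A 7 0 3) (Qn A * n + 4) (Qn A))).flatten := by
      rw [List.length_cons, List.replicate_succ, List.flatten_cons, List.append_assoc]
    rw [e2, e3]
    exact h2

/-- cells `X3` are copied -/
private lemma ce2_x3copy (hyp : Hyp A f) (K : ℕ) : ∀ (j : ℕ) (R : List (ℕ × ℕ)),
    ((List.replicate j (cellq (code A 7 0 3) (Qn A * (K + 1) + 4) (Qn A))).flatten ++ R).length =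
      Qn A * K + 4 →
    ∃ k, RR (ring A f hl w) (B0n A w.length) k
      ((List.replicate j (cellq (code A 7 0 3) (Qn A * (K + 1) + 4) (Qn A))).flatten ++ R)
      (R ++ (List.replicate j (cellq (code A 7 0 3) (Qn A * K + 4) (Qn A))).flatten) := by
  intro j
  induction j with
  | zero =>
    intro R _
    refine ⟨0, ?_⟩
    have : (List.replicate 0 (cellq (code A 7 0 3) (Qn A * (K + 1) + 4) (Qn A))).flatten ++ R =
        R ++ (List.replicate 0 (cellq (code A 7 0 3) (Qn A * K + 4) (Qn A))).flatten := by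
      simp
    rw [← this]
    exact RR.refl _ _ _
  | succ j ih =>
    intro R hlen
    have e1 : (List.replicate (j + 1)
          (cellq (code A 7 0 3) (Qn A * (K + 1) + 4) (Qn A))).flatten ++ R =
        cellq (code A 7 0 3) (Qn A * (K + 1) + 4) (Qn A) ++
          ((List.replicate j (cellq (code A 7 0 3) (Qn A * (K + 1) + 4) (Qn A))).flatten ++ R) := by
      rw [List.replicate_succ, List.flatten_cons, List.append_assoc]
    have hlen2 : ((List.replicate j
        (cellq (code A 7 0 3) (Qn A * (K + 1) + 4) (Qn A))).flatten ++ R).length + Qn A =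
        Qn A * K + 4 := by
      rw [e1, List.length_append, ce2_len_cell] at hlen
      omega
    have h1 := rr_X3 (hl := hl) (w := w) hyp (Δ := Qn A * (K + 1) + 4) (L := Qn A * K + 4)
      (rest := (List.replicate j
        (cellq (code A 7 0 3) (Qn A * (K + 1) + 4) (Qn A))).flatten ++ R)
      (by omega) (by ring)
    obtain ⟨k, h2⟩ := ih (R ++ cellq (code A 7 0 3) (Qn A * K + 4) (Qn A))
      (by
        rw [← List.append_assoc, List.length_append, ce2_len_cell]
        exact hlen2)
    refine ⟨Qn A + k, ?_⟩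
    rw [e1]
    refine RR.trans h1 ?_
    have e3 : R ++ (List.replicate (j + 1) (cellq (code A 7 0 3) (Qn A * K + 4) (Qn A))).flatten =
        R ++ cellq (code A 7 0 3) (Qn A * K + 4) (Qn A) ++
          (List.replicate j (cellq (code A 7 0 3) (Qn A * K + 4) (Qn A))).flatten := by
      rw [List.replicate_succ, List.flatten_cons, List.append_assoc]
    rw [List.append_assoc, e3]
    exact h2

private lemma ce2_b0 : Qn A ≤ b0n A w.length := by
  unfold b0n
  have : Qn A * (w.length + 3) = Qn A * w.length + 2 * Qn A + Qn A := by ring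
  omega

private lemma ce2_In : 2 ≤ In A w.length := by
  unfold In
  have h1 : Qn A * (w.length + 2) = Qn A * w.length + Qn A + Qn A := by ring
  have h2 : Qn A = 4 * A + 8 := rfl
  omega

private lemma ce2_X2C_length {M : ℕ} : ∀ (l : List ℕ) (s : ℕ),
    (X2C A hl M s l).length = Qn A * l.length := by
  intro l
  induction l with
  | nil => intro s; simp [X2C]
  | cons a l ih =>
    intro s
    simp only [X2C]
    rw [List.length_append, ce2_len_cell, ih, List.length_cons]
    ring

private lemma ce2_flat_length (K Δ : ℕ) :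
    ((List.replicate K (cellq (code A 7 0 3) Δ (Qn A))).flatten).length = Qn A * K := by
  induction K with
  | zero => simp
  | succ K ih =>
    rw [List.replicate_succ, List.flatten_cons, List.length_append, ce2_len_cell, ih]
    ring

theorem x2pass (hyp : Hyp A f) {a : ℕ} {l : List ℕ} (h : ∀ x ∈ a :: l, 1 ≤ x ∧ x < A) :
    ∃ k, RR (ring A f hl w) (B0n A w.length) k
      (X2C A hl (l.length + 1) 0 (a :: l) ++ cellq (code A 7 0 2) (Qn A * (l.length + 1) + 4) 2)
      (SK A l.length) := by
  set n := l.length with hn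
  have e1 : X2C A hl (n + 1) 0 (a :: l) ++ cellq (code A 7 0 2) (Qn A * (n + 1) + 4) 2 =
      cellq (code A 6 0 0) (Qn A * (n + 1) + 2 * A + 4) (Qn A) ++
        (X2C A hl (n + 1) (nx A hl 0 a) l ++ cellq (code A 7 0 2) (Qn A * (n + 1) + 4) 2) := by
    simp only [X2C, List.append_assoc, Nat.mul_zero, Nat.sub_zero]
  have hQn : Qn A * (n + 1) = Qn A * n + Qn A := by ring
  have hl1 : (X2C A hl (n + 1) (nx A hl 0 a) l ++
      cellq (code A 7 0 2) (Qn A * (n + 1) + 4) 2).length = Qn A * n + 2 := by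
    rw [List.length_append, ce2_X2C_length, ce2_len_two]
  have h1 := rr_X20 (hl := hl) (w := w) hyp (Δ := Qn A * (n + 1) + 2 * A + 4)
    (L := Qn A * (n + 1) + 2)
    (rest := X2C A hl (n + 1) (nx A hl 0 a) l ++ cellq (code A 7 0 2) (Qn A * (n + 1) + 4) 2)
    (by rw [hl1]; omega) (by omega)
  obtain ⟨k2, h2⟩ := ce2_x2tail (hl := hl) (w := w) hyp (n := n) (l := l) (s := nx A hl 0 a)
    (R := cellq (code A 7 0 2) (Qn A * (n + 1) + 4) 2 ++ cellq 0 (Qn A * (n + 1) + 2) 2)
    (nx_le (h a (by simp)).2) (fun x hx => h x (by simp [hx]))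
    (by
      rw [List.length_append, List.length_append, ce2_X2C_length, ce2_len_two, ce2_len_two])
  have h3 := rr_H2 (hl := hl) (w := w) hyp (Δ := Qn A * (n + 1) + 4) (L := Qn A * n + 4)
    (rest := cellq 0 (Qn A * (n + 1) + 2) 2 ++
      (List.replicate l.length (cellq (code A 7 0 3) (Qn A * n + 4) (Qn A))).flatten)
    (by rw [List.length_append, ce2_len_two, ce2_flat_length, ← hn]; omega) (by omega)
  refine ⟨Qn A + (k2 + 2), ?_⟩
  rw [e1]
  refine RR.trans h1 ?_
  rw [List.append_assoc]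
  refine RR.trans h2 ?_
  rw [List.append_assoc]
  exact h3

theorem sk_succ (hyp : Hyp A f) (K : ℕ) :
    ∃ k, RR (ring A f hl w) (B0n A w.length) k (SK A (K + 1)) (SK A K) := by
  have hQ1 : Qn A * (K + 1) = Qn A * K + Qn A := by ring
  have hQ2 : Qn A * (K + 1 + 1) = Qn A * K + Qn A + Qn A := by ring
  have hb0 := ce2_b0 (A := A) (w := w)
  have hQ8 : 8 ≤ Qn A := by unfold Qn; omega
  have e0 : SK A (K + 1) = cellq 0 (Qn A * (K + 1 + 1) + 2) 2 ++
      ((List.replicate (K + 1) (cellq (code A 7 0 3) (Qn A * (K + 1) + 4) (Qn A))).flatten ++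
        cellq (code A 7 0 2) (Qn A * (K + 1) + 4) 2) := by
    unfold SK
    rw [List.append_assoc]
  have h1 := rr_null (hl := hl) (w := w) hyp (Δ := Qn A * (K + 1 + 1) + 2) (m := 2)
    (L := Qn A * (K + 1) + 4)
    (rest := (List.replicate (K + 1)
        (cellq (code A 7 0 3) (Qn A * (K + 1) + 4) (Qn A))).flatten ++
        cellq (code A 7 0 2) (Qn A * (K + 1) + 4) 2)
    (by omega) ce2_In
    (by rw [List.length_append, ce2_len_two, ce2_flat_length]; omega)
    (by omega) (by omega)
  have e1 : (List.replicate (K + 1)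
        (cellq (code A 7 0 3) (Qn A * (K + 1) + 4) (Qn A))).flatten ++
        cellq (code A 7 0 2) (Qn A * (K + 1) + 4) 2 =
      cellq (code A 7 0 3) (Qn A * (K + 1) + 4) (Qn A) ++
        ((List.replicate K (cellq (code A 7 0 3) (Qn A * (K + 1) + 4) (Qn A))).flatten ++
        cellq (code A 7 0 2) (Qn A * (K + 1) + 4) 2) := by
    rw [List.replicate_succ, List.flatten_cons, List.append_assoc]
  have h2 := rr_X30 (hl := hl) (w := w) hyp (Δ := Qn A * (K + 1) + 4) (L := Qn A * (K + 1) + 2)
    (rest := (List.replicate K (cellq (code A 7 0 3) (Qn A * (K + 1) + 4) (Qn A))).flatten ++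
        cellq (code A 7 0 2) (Qn A * (K + 1) + 4) 2)
    (by rw [List.length_append, ce2_len_two, ce2_flat_length]; omega) (by omega)
  obtain ⟨k3, h3⟩ := ce2_x3copy (hl := hl) (w := w) hyp K K
    (cellq (code A 7 0 2) (Qn A * (K + 1) + 4) 2 ++ cellq 0 (Qn A * (K + 1) + 2) 2)
    (by rw [List.length_append, List.length_append, ce2_len_two, ce2_len_two, ce2_flat_length])
  have h4 := rr_H2 (hl := hl) (w := w) hyp (Δ := Qn A * (K + 1) + 4) (L := Qn A * K + 4)
    (rest := cellq 0 (Qn A * (K + 1) + 2) 2 ++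
      (List.replicate K (cellq (code A 7 0 3) (Qn A * K + 4) (Qn A))).flatten)
    (by rw [List.length_append, ce2_len_two, ce2_flat_length]; omega) (by omega)
  refine ⟨2 + (Qn A + (k3 + 2)), ?_⟩
  rw [e0]
  refine RR.trans h1 ?_
  rw [e1]
  refine RR.trans h2 ?_
  rw [List.append_assoc]
  refine RR.trans h3 ?_
  rw [List.append_assoc]
  exact h4

theorem sk_zero (hyp : Hyp A f) :
    ∃ k, RR (ring A f hl w) (B0n A w.length) k (SK A 0) [] := by
  have hb0 := ce2_b0 (A := A) (w := w)
  have e0 : SK A 0 = cellq 0 (Qn A + 2) 2 ++ cellq (code A 7 0 2) 4 2 := by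
    unfold SK
    simp
  have h1 := rr_null (hl := hl) (w := w) hyp (Δ := Qn A + 2) (m := 2) (L := 4)
    (rest := cellq (code A 7 0 2) 4 2) (by omega) ce2_In
    (by rw [ce2_len_two]) (by unfold Qn; omega) (by omega)
  have h2 := rr_H20 (hl := hl) (w := w) hyp (Δ := 4) (L := 2) (rest := [])
    (by simp) (by omega)
  refine ⟨2 + 2, ?_⟩
  rw [e0]
  refine RR.trans h1 ?_
  rw [List.append_nil] at h2
  exact h2

theorem sk_nil (hyp : Hyp A f) (K : ℕ) :
    ∃ k, RR (ring A f hl w) (B0n A w.length) k (SK A K) [] := by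
  induction K with
  | zero => exact sk_zero hyp
  | succ K ih =>
    obtain ⟨k1, h1⟩ := sk_succ (hl := hl) (w := w) hyp K
    obtain ⟨k2, h2⟩ := ih
    exact ⟨k1 + k2, h1.trans h2⟩

end Pool.Agent.H15.PCP3
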