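import Mathlib
import Pool.Agent.H15.PCP3.CA

set_option autoImplicit false

/-!
# Module CS: no type is written by itself at its own slot (`hself`)

`r = ring A f hl w`, `t < Tn`: `t = code A k a o` with `k = t % 8`, `a = t / 8 % (A + 1)`,
`o = t / 8 / (A + 1)` (so `a ≤ A`).  Let `b = S - i`, `i ≤ S`, `i < ln t b`.  Show `gt t b i ≠ t`.
* `k = 0`: `ln = 0`.
* `k = 7, o = 0`: `ln ≠ 0` only for `b = S + 1`: impossible.
* `i ≥ 1` (and not `k = 7, o = 0`): `gt` is 0 (`≠ t`, since `t % 8 = k ≠ 0`) or (`k = 4`, `i = Q`) of kind 2.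
* `i = 0`: `gt = rhd`: `k = 1`: kind 5 or 3; `k = 2`: kind 7 or 4; `k = 3`: kind 1 or 6; `k = 4`: kind 1;
  `k = 5`: kind 6; `k = 6`: 0 or kind 7; `k = 7`: `o = 1`: `code A 7 0 2` has `o = 2`; `o = 2`: `ln ≠ 0` needs
  `S + Q = S`, impossible; `o = 3`: `S + 2 = S` or `S + Q = S`: impossible; `o ≥ 4`: `ln = 0`.
-/

namespace Pool.Agent.H15.PCP3

variable {A : ℕ} {f : ℕ → ℕ → ℕ} {hl : ℕ → Bool} {w : List ℕ}

theorem cs_kind {k' a' o' t k : ℕ} (hk : k' < 8) (hne : k' ≠ k) (ht : t % 8 = k) :
    code A k' a' o' ≠ t := by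
  intro h
  have h2 : code A k' a' o' % 8 = k' := by
    unfold code
    omega
  rw [h] at h2
  omega

theorem cs_off {k' a' o' t o : ℕ} (hk : k' < 8) (ha : a' ≤ A) (hne : o' ≠ o)
    (ht : t / 8 / (A + 1) = o) : code A k' a' o' ≠ t := by
  intro h
  have := (code_dec (o := o') hk ha).2.2
  rw [h] at this
  omega

theorem cs_zero {t k : ℕ} (ht : t % 8 = k) (hk : k ≠ 0) : (0 : ℕ) ≠ t := by
  intro h
  subst h
  omega

theorem cs_core (hA : 2 ≤ A) (n t i k a o : ℕ) (hi : i ≤ Sn A n) (hk : t % 8 = k) (ha : a ≤ A)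
    (ho : t / 8 / (A + 1) = o)
    (h : i < rln A hl n (Sn A n) k a o (Sn A n - i)) :
    rgt A f hl w (Sn A n) k a o (Sn A n - i) i ≠ t := by
  have hk8 : k < 8 := by omega
  have hS : 2 ≤ Sn A n := by unfold Sn; omega
  have hQ : 1 ≤ Qn A := by unfold Qn; omega
  generalize Sn A n = S at *
  unfold rgt
  by_cases h7 : k = 7 ∧ o = 0
  · exfalso
    obtain ⟨rfl, rfl⟩ := h7
    unfold rln at h
    norm_num at h
    split_ifs at h <;> omega
  rw [if_neg h7]
  by_cases h4 : k = 4 ∧ i = Qn A
  · rw [if_pos h4]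
    exact cs_kind (by norm_num) (by omega) hk
  rw [if_neg h4]
  by_cases hi0 : i = 0
  · rw [if_pos hi0]
    subst hi0
    generalize hb : S - 0 = b at *
    unfold rhd
    interval_cases k
    · simp [rln] at h
    · simp only [if_true]
      split_ifs <;> exact cs_kind (by norm_num) (by omega) hk
    · norm_num
      split_ifs <;> exact cs_kind (by norm_num) (by omega) hk
    · norm_num
      split_ifs <;> exact cs_kind (by norm_num) (by omega) hk
    · norm_num
      exact cs_kind (by norm_num) (by omega) hk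
    · norm_num
      exact cs_kind (by norm_num) (by omega) hk
    · norm_num
      split_ifs
      · exact cs_zero hk (by omega)
      · exact cs_kind (by norm_num) (by omega) hk
    · simp only [rln] at h
      norm_num at h ⊢
      by_cases h1 : o = 1 ∨ o = 2
      · rw [if_pos h1]
        rcases h1 with rfl | rfl
        · exact cs_off (by norm_num) (by omega) (by omega) ho
        · norm_num at h
          rw [if_neg (by omega)] at h
          omega
      · rw [if_neg h1]
        have h01 : o ≠ 0 := by omega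
        have h11 : o ≠ 1 := by omega
        have h21 : o ≠ 2 := by omega
        rw [if_neg h01, if_neg h11, if_neg h21] at h
        split_ifs at h <;> omega
  · rw [if_neg hi0]
    apply cs_zero hk
    rintro rfl
    simp [rln] at h

theorem ring_self (hA : 2 ≤ A) (t i : ℕ) (ht : t < (ring A f hl w).Tn)
    (hi : i ≤ (ring A f hl w).S)
    (h : i < (ring A f hl w).ln t ((ring A f hl w).S - i)) :
    (ring A f hl w).gt t ((ring A f hl w).S - i) i ≠ t := by
  exact cs_core (w := w) hA w.length t i (t % 8) (t / 8 % (A + 1)) (t / 8 / (A + 1)) hi rfl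
    (Nat.lt_succ_iff.1 (Nat.mod_lt _ (by omega))) rfl h

end Pool.Agent.H15.PCP3
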