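import Mathlib
import Pool.Agent.H28.PCP.TG
import Pool.Agent.H15.PCP3.CD
import Pool.Agent.H15.PCP3.CE2
import Pool.Agent.H15.PCP3.CB4
import Pool.Agent.H15.PCP3.CS

set_option autoImplicit false

/-!
# Module CF: the ring program simulates the word automaton

`rr_I` gives the initial ring (`DC A n (Q n + 2) w`, `HC1`): `Δ = 1 + Q x`, `o = S + Q (n - x) + 1`.
As long as no halting symbol occurs: `passA` (`s = 0`) and `passB` (`s = 0`, `stepW_eq`):
`alive`: ring of `u` leads to the ring of `stepW f u`.  When one occurs: `passA`, `passX`, `x2pass`,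
`sk_nil`: the ring leads to `[]` (`dead`).
`main`: if the automaton halts (first time `t`): `q0` leads to `[]` in `k` regular steps and after that
`step [] = []`, `Reg [] = True`.  If not: for every `K` there are `k ≥ K` and a ring `q` with
`RR k q0 q`, so all steps are regular and the queue is never empty.
-/

namespace Pool.Agent.H15.PCP3

open Pool.Agent.H28.PCP (Hyp stepW)

variable {A : ℕ} {f : ℕ → ℕ → ℕ} {hl : ℕ → Bool} {w : List ℕ}

/-- the ring of a word -/
def Ring (A n : ℕ) (u : List ℕ) (q : List (ℕ × ℕ)) : Prop :=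
  ∃ q1 q2, q = q1 ++ q2 ∧ DC A n (Qn A * u.length + 2) u q1 ∧ HC1 A n (Qn A * u.length + 2) q2

theorem cf_Qn_pos (A : ℕ) : 1 ≤ Qn A := by
  unfold Qn
  omega

theorem cf_DC_length {n L0 : ℕ} {u : List ℕ} : ∀ {q : List (ℕ × ℕ)}, DC A n L0 u q →
    q.length = Qn A * u.length := by
  induction u with
  | nil =>
    intro q h
    have : q = [] := h
    simp [this]
  | cons a l ih =>
    intro q h
    obtain ⟨Δ, o, q', rfl, -, -, -, h'⟩ := h
    rw [List.length_append, cellq_length (cf_Qn_pos A), ih h', List.length_cons]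
    ring

theorem cf_HC_length {n L0 : ℕ} {q : List (ℕ × ℕ)} (h : HC1 A n L0 q) : q.length = 2 := by
  obtain ⟨Δ, o, rfl, -, -, -⟩ := h
  exact cellq_length (by norm_num)

theorem Ring.length {n : ℕ} {u : List ℕ} {q : List (ℕ × ℕ)} (h : Ring A n u q) :
    q.length = Qn A * u.length + 2 := by
  obtain ⟨q1, q2, rfl, h1, h2⟩ := h
  rw [List.length_append, cf_DC_length h1, cf_HC_length h2]

theorem cf_start_aux (n : ℕ) : ∀ (l : List ℕ) (j : ℕ), j + l.length = n →
    DC A n (Qn A * n + 2) l ((List.range l.length).flatMap (fun x => cellq (code A 1 (l.getD x 1)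
        (Sn A n + Qn A * (l.length - x) + 1)) (1 + Qn A * (j + x)) (Qn A))) := by
  intro l
  induction l with
  | nil =>
    intro j _
    rfl
  | cons a l ih =>
    intro j hj
    rw [List.length_cons] at hj
    rw [List.length_cons, List.range_succ_eq_map, List.flatMap_cons, List.flatMap_map]
    refine ⟨1 + Qn A * j, Sn A n + Qn A * (l.length + 1) + 1, _, ?_, ?_, ?_, ?_,
      ih (j + 1) (by omega)⟩
    · congr 1
      congr 1
      funext x
      simp only [Nat.succ_eq_add_one, List.getD_cons_succ]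
      have e1 : l.length + 1 - (x + 1) = l.length - x := by omega
      have e2 : j + (x + 1) = j + 1 + x := by ring
      rw [e1, e2]
    · rw [← hj]
      ring
    · omega
    · have : Qn A * (l.length + 1) ≤ Qn A * (n + 1) := Nat.mul_le_mul_left _ (by omega)
      omega

theorem start (hyp : Hyp A f) (hw : ∀ a ∈ w, 1 ≤ a ∧ a < A) :
    ∃ q, RR (ring A f hl w) (B0n A w.length) 1 (ring A f hl w).q0 q ∧ Ring A w.length w q := by
  refine ⟨_, rr_I hyp hw, _, _, rfl, ?_, ?_⟩
  · have h := cf_start_aux (A := A) w.length w 0 (by omega)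
    simpa only [Nat.zero_add] using h
  · refine ⟨1 + Qn A * w.length, Sn A w.length + 1, rfl, ?_, ?_, ?_⟩
    · ring
    · omega
    · omega

theorem alive (hyp : Hyp A f) {u : List ℕ} {q : List (ℕ × ℕ)}
    (h : ∀ a ∈ u, 1 ≤ a ∧ a < A) (h2 : ∀ a ∈ u, hl a = false) (hq : Ring A w.length u q) :
    ∃ k q', 1 ≤ k ∧ RR (ring A f hl w) (B0n A w.length) k q q' ∧
      Ring A w.length (stepW f u) q' := by
  have hA := hyp.hA
  have hlen := hq.length
  obtain ⟨q1, q2, rfl, hd, hh⟩ := hq
  obtain ⟨k1, hk1, a1⟩ := passA (hl := hl) (w := w) (s := 0) (rest := []) hyp (Nat.zero_le _) h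
    hd hh (by rw [List.append_nil, hlen])
  rw [List.append_nil, List.nil_append] at a1
  have hl1 := lst_alive (A := A) (hl := hl) (s := 0) (by omega) h h2
  have hl2 := PX_length (A := A) (hl := hl) (L0 := Qn A * u.length + 2) (s := 0)
    (Nat.zero_le _) h
  rw [if_neg (by omega)] at hl2
  obtain ⟨k2, p1, p2, hk2, b1, b2, b3⟩ := passB (w := w) (M := u.length) (s := 0) (l := u)
    (rest := []) hyp (by omega) h h2 (by rw [List.append_nil]; omega)
  rw [List.append_nil, List.nil_append] at b1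
  rw [Pool.Agent.H28.PCP.stepW_eq hyp] at b2
  have hl3 : (stepW f u).length = u.length + 1 := by
    simp [stepW]
  refine ⟨k1 + k2, p1 ++ p2, by omega, a1.trans b1, p1, p2, rfl, ?_, ?_⟩
  · rw [hl3]
    exact b2
  · rw [hl3]
    exact b3

theorem dead (hyp : Hyp A f) {u : List ℕ} {q : List (ℕ × ℕ)}
    (h : ∀ a ∈ u, 1 ≤ a ∧ a < A) (h2 : ∃ a ∈ u, hl a = true) (hq : Ring A w.length u q) :
    ∃ k, RR (ring A f hl w) (B0n A w.length) k q [] := by
  have hA := hyp.hA
  have hlen := hq.length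
  obtain ⟨q1, q2, rfl, hd, hh⟩ := hq
  obtain ⟨k1, hk1, a1⟩ := passA (hl := hl) (w := w) (s := 0) (rest := []) hyp (Nat.zero_le _) h
    hd hh (by rw [List.append_nil, hlen])
  rw [List.append_nil, List.nil_append] at a1
  have hl1 := lst_dead (A := A) (hl := hl) (s := 0) (l := u) (Or.inr h2)
  have hl2 := PX_length (A := A) (hl := hl) (L0 := Qn A * u.length + 2) (s := 0)
    (Nat.zero_le _) h
  rw [if_pos hl1] at hl2
  obtain ⟨k2, b1⟩ := passX (w := w) (M := u.length) (s := 0) (l := u)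
    (rest := []) hyp (Nat.zero_le _) h hl1 (by rw [List.append_nil]; omega)
  rw [List.append_nil, List.nil_append] at b1
  cases u with
  | nil =>
    obtain ⟨a, ha, -⟩ := h2
    simp at ha
  | cons a l =>
    obtain ⟨k3, c1⟩ := x2pass (hl := hl) (w := w) hyp h
    obtain ⟨k4, d1⟩ := sk_nil (hl := hl) (w := w) hyp l.length
    exact ⟨k1 + k2 + k3 + k4, ((a1.trans b1).trans c1).trans d1⟩

theorem cf_run (hyp : Hyp A f) (hw : ∀ a ∈ w, 1 ≤ a ∧ a < A) (t : ℕ)
    (ht : ∀ i < t, ∀ a ∈ (stepW f)^[i] w, hl a = false) :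
    ∃ k q, t ≤ k ∧ RR (ring A f hl w) (B0n A w.length) k (ring A f hl w).q0 q ∧
      Ring A w.length ((stepW f)^[t] w) q := by
  induction t with
  | zero =>
    obtain ⟨q, h1, h2⟩ := start (hl := hl) hyp hw
    exact ⟨1, q, Nat.zero_le _, h1, h2⟩
  | succ t ih =>
    obtain ⟨k, q, hk, h1, h2⟩ := ih fun i hi => ht i (by omega)
    have hmem := Pool.Agent.H28.PCP.stepW_iter_mem hyp w hw t
    obtain ⟨k1, q', hk1, a1, a2⟩ := alive (hl := hl) hyp hmem (ht t (by omega)) h2
    rw [← Function.iterate_succ_apply' (stepW f) t w] at a2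
    exact ⟨k + k1, q', by omega, h1.trans a1, a2⟩

theorem cf_halt (hyp : Hyp A f) (hw : ∀ a ∈ w, 1 ≤ a ∧ a < A)
    (hh : ∃ t, ∃ a ∈ (stepW f)^[t] w, hl a = true) :
    ∃ k, RR (ring A f hl w) (B0n A w.length) k (ring A f hl w).q0 [] := by
  classical
  set t := Nat.find hh with ht
  have h1 : ∃ a ∈ (stepW f)^[t] w, hl a = true := Nat.find_spec hh
  have h2 : ∀ i < t, ∀ a ∈ (stepW f)^[i] w, hl a = false := by
    intro i hi a ha
    have h3 := Nat.find_min hh hi
    push Not at h3
    simpa using h3 a ha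
  obtain ⟨k, q, -, b1, b2⟩ := cf_run (hl := hl) hyp hw t h2
  obtain ⟨k', c1⟩ := dead (hl := hl) hyp
    (Pool.Agent.H28.PCP.stepW_iter_mem hyp w hw t) h1 b2
  exact ⟨k + k', b1.trans c1⟩

theorem cf_iter_nil (r : Prog) (k : ℕ) : r.step^[k] [] = [] := by
  induction k with
  | zero => rfl
  | succ k ih => rw [Function.iterate_succ_apply', ih]; rfl

theorem cf_reg (hyp : Hyp A f) (hw : ∀ a ∈ w, 1 ≤ a ∧ a < A) (u : ℕ) :
    (ring A f hl w).Reg (B0n A w.length) ((ring A f hl w).step^[u] (ring A f hl w).q0) := by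
  by_cases hh : ∃ t, ∃ a ∈ (stepW f)^[t] w, hl a = true
  · obtain ⟨k, h1, h2⟩ := cf_halt hyp hw hh
    by_cases hu : u < k
    · exact (h2 u hu).1
    · obtain ⟨j, rfl⟩ : ∃ j, u = j + k := ⟨u - k, by omega⟩
      rw [Function.iterate_add_apply, h1, cf_iter_nil]
      trivial
  · have hno : ∀ i, ∀ a ∈ (stepW f)^[i] w, hl a = false := by
      intro i a ha
      by_contra hcon
      exact hh ⟨i, a, ha, by simpa using hcon⟩
    obtain ⟨k, q, hk, h1, -⟩ := cf_run (hl := hl) hyp hw (u + 1) fun i _ => hno i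
    exact (h1.2 u (by omega)).1

theorem ring_main (hyp : Hyp A f) (hl : ℕ → Bool) (w : List ℕ) (hw : ∀ a ∈ w, 1 ≤ a ∧ a < A) :
    (ring A f hl w).Good (B0n A w.length) ∧
      ((∃ u, (ring A f hl w).step^[u] (ring A f hl w).q0 = []) ↔
        ∃ t, ∃ a ∈ (stepW f)^[t] w, hl a = true) := by
  have hA := hyp.hA
  refine ⟨⟨?_, ?_, ?_, ?_, rfl, fun t i ht hi h => ring_self hA t i ht hi h,
    cf_reg hyp hw⟩, ?_⟩
  · change 1 ≤ 8 * (A + 1) * OBn A w.length
    have h1 : 0 < OBn A w.length := by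
      unfold OBn
      omega
    have h2 : 0 < 8 * (A + 1) * OBn A w.length := by positivity
    exact h2
  · change 1 ≤ In A w.length
    unfold In
    omega
  · change code A 7 0 0 < 8 * (A + 1) * OBn A w.length
    exact code_lt (by norm_num) (Nat.zero_le _) (by unfold OBn; omega)
  · unfold B0n b0n
    omega
  · by_cases hh : ∃ t, ∃ a ∈ (stepW f)^[t] w, hl a = true
    · obtain ⟨k, h1, h2⟩ := cf_halt (hl := hl) hyp hw hh
      exact ⟨fun _ => hh, fun _ => ⟨k, h1⟩⟩
    · have hno : ∀ i, ∀ a ∈ (stepW f)^[i] w, hl a = false := by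
        intro i a ha
        by_contra hcon
        exact hh ⟨i, a, ha, by simpa using hcon⟩
      refine ⟨fun ⟨u, hu⟩ => ?_, fun h => absurd h hh⟩
      obtain ⟨k, q, hk, h1, -⟩ := cf_run (hl := hl) hyp hw (u + 1) fun i _ => hno i
      exact absurd hu (h1.2 u (by omega)).2

end Pool.Agent.H15.PCP3
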