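import Mathlib
import Pool.Agent.H15.PCP3.Defs

set_option autoImplicit false

/-!
# Module GA: inequalities and identities for the parameters

`P = gP N = 4 N + 3 ≥ 7`, `β = 8 P S + 1 ≥ 16 P + 1`, `Om = P (β - 2) + 2`, `Nx = P ((P+1) Om + 1)`,
`ρ = 2 Nx (Om + P - 2) - (P - 2) (Om + 3 P - 2)` (natural subtraction is exact as `Nx ≥ P (P+1) Om`),
`ρ2 = (β - 1) (2 Nx + 2 - P) - 2 (P - 2)`, `lam = ρ ρ2`, `l1 = lam Om + P`, `b1 = l1 - Nx`,
`M = (2 lam - 1) b1 - Nx`, `A1 = (2 β - P) lam + 2`, `A2 = 2 β lam + 2`, `a = A2 b1 - A1`,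
`b = (2 lam - 1) A1 - Nx A2`.  With `lam ≥ 4 Nx` all subtractions are exact (`b`: `2 β - P ≥ β`,
`2 lam - 1 ≥ 2 Nx`, so `(2 lam - 1) (β lam + 2) > Nx (2 β lam + 2)`).
Hint: first prove the `_eq`/`_ge` statements (generalise the parameters: `obtain ⟨P, hP⟩` etc., clear the
definitions, `nlinarith`), then the integer identities `g_aM`, `g_Mb` by substituting
`M = (2 lam - 1) b1 - Nx`, `a`, `b`, `b1 = lam Om + P - Nx`, `Om = P (β - 2) + 2` and `ring`.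
Checks: `a - M - δ e' = lam (Om - 2 β + P - (P - 2) (β - 1)) = 0` with `δ = (β - 1) lam + 1`,
`e' = 2 b1 + P - 2`; `M - b = δ f'` with `f' = 2 Nx + (2 lam - 1) (P - 2)`.
-/

namespace Pool.Agent.H15.PCP3

variable {N S : ℕ}

theorem gP_ge (hN : 1 ≤ N) : 7 ≤ gP N := by
  unfold gP
  omega

theorem gβ_ge (hN : 1 ≤ N) (hS : 2 ≤ S) : 16 * gP N + 1 ≤ gβ N S := by
  unfold gβ
  have h : 8 * gP N * 2 ≤ 8 * gP N * S := Nat.mul_le_mul_left _ hS
  omega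

theorem gOm_eq (hN : 1 ≤ N) (hS : 2 ≤ S) : gOm N S + 2 * gP N = gP N * gβ N S + 2 := by
  have h1 := gβ_ge hN hS
  have h2 := gP_ge hN
  unfold gOm
  obtain ⟨c, hc⟩ := Nat.exists_eq_add_of_le (show 2 ≤ gβ N S by omega)
  rw [hc, Nat.add_sub_cancel_left]
  ring

theorem gOm_ge (hN : 1 ≤ N) (hS : 2 ≤ S) : 100 * gP N ≤ gOm N S := by
  have h1 := gβ_ge hN hS
  have h2 := gP_ge hN
  unfold gOm
  have h : gP N * 100 ≤ gP N * (gβ N S - 2) := Nat.mul_le_mul_left _ (by omega)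
  omega

theorem gNx_ge (hN : 1 ≤ N) (hS : 2 ≤ S) : (gP N + 1) * gOm N S + 100 * gP N ≤ gNx N S := by
  have h2 := gP_ge hN
  have h3 := gOm_ge hN hS
  unfold gNx
  have h4 : 2 * ((gP N + 1) * gOm N S) ≤ gP N * ((gP N + 1) * gOm N S) :=
    Nat.mul_le_mul_right _ (by omega)
  have h5 : 1 * gOm N S ≤ (gP N + 1) * gOm N S := Nat.mul_le_mul_right _ (by omega)
  rw [mul_add, mul_one]
  omega

theorem ga_small (hN : 1 ≤ N) (hS : 2 ≤ S) :
    (gP N - 2) * (gOm N S + 3 * gP N - 2) ≤ gNx N S := by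
  have h2 := gP_ge hN
  have h3 := gOm_ge hN hS
  have h4 := gNx_ge hN hS
  have h1 := gβ_ge hN hS
  have h6 := gOm_eq hN hS
  generalize gP N = P at *
  generalize gβ N S = β at *
  generalize gOm N S = Om at *
  generalize gNx N S = Nx at *
  have h5 : (P - 2) * (Om + 3 * P - 2) ≤ P * (Om + 3 * P) :=
    Nat.mul_le_mul (by omega) (by omega)
  have h7 : P * (16 * P + 1) ≤ P * β := Nat.mul_le_mul_left _ h1
  have h8 : P * (3 * P) ≤ Om := by nlinarith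
  nlinarith

theorem gρ_eq (hN : 1 ≤ N) (hS : 2 ≤ S) :
    (gρ N S : ℤ) = 2 * gNx N S * (gOm N S + gP N - 2) - (gP N - 2) * (gOm N S + 3 * gP N - 2) := by
  have h2 := gP_ge hN
  have h3 := gOm_ge hN hS
  have h4 := ga_small hN hS
  have h5 : gNx N S * 1 ≤ gNx N S * (2 * (gOm N S + gP N - 2)) :=
    Nat.mul_le_mul_left _ (by omega)
  have h6 : (gP N - 2) * (gOm N S + 3 * gP N - 2) ≤ 2 * gNx N S * (gOm N S + gP N - 2) := by
    calc (gP N - 2) * (gOm N S + 3 * gP N - 2) ≤ gNx N S := h4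
      _ ≤ gNx N S * (2 * (gOm N S + gP N - 2)) := by omega
      _ = 2 * gNx N S * (gOm N S + gP N - 2) := by ring
  unfold gρ
  rw [Nat.cast_sub h6]
  push_cast [Nat.cast_sub (show 2 ≤ gOm N S + gP N by omega), Nat.cast_sub (show 2 ≤ gP N by omega),
    Nat.cast_sub (show 2 ≤ gOm N S + 3 * gP N by omega)]
  ring

theorem ga_ρ2 (hN : 1 ≤ N) (hS : 2 ≤ S) :
    2 * (gP N - 2) + 4 ≤ (gβ N S - 1) * (2 * gNx N S + 2 - gP N) := by
  have h1 := gβ_ge hN hS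
  have h2 := gP_ge hN
  have h3 := gOm_ge hN hS
  have h4 := gNx_ge hN hS
  have h5 : (gβ N S - 1) * 1 ≤ (gβ N S - 1) * (2 * gNx N S + 2 - gP N) :=
    Nat.mul_le_mul_left _ (by omega)
  omega

theorem gρ2_eq (hN : 1 ≤ N) (hS : 2 ≤ S) :
    (gρ2 N S : ℤ) = (gβ N S - 1) * (2 * gNx N S + 2 - gP N) - 2 * (gP N - 2) := by
  have h1 := gβ_ge hN hS
  have h2 := gP_ge hN
  have h3 := gOm_ge hN hS
  have h4 := gNx_ge hN hS
  have h5 := ga_ρ2 hN hS
  unfold gρ2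
  rw [Nat.cast_sub (by omega)]
  push_cast [Nat.cast_sub (show 1 ≤ gβ N S by omega), Nat.cast_sub (show 2 ≤ gP N by omega),
    Nat.cast_sub (show gP N ≤ 2 * gNx N S + 2 by omega)]
  ring

theorem gρ_ge (hN : 1 ≤ N) (hS : 2 ≤ S) : gNx N S ≤ gρ N S := by
  have h2 := gP_ge hN
  have h3 := gOm_ge hN hS
  have h4 := ga_small hN hS
  have h5 : gNx N S * 2 ≤ gNx N S * (2 * (gOm N S + gP N - 2)) :=
    Nat.mul_le_mul_left _ (by omega)
  have h6 : gNx N S * (2 * (gOm N S + gP N - 2)) = 2 * gNx N S * (gOm N S + gP N - 2) := by ring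
  unfold gρ
  omega

theorem gρ2_ge (hN : 1 ≤ N) (hS : 2 ≤ S) : 4 ≤ gρ2 N S := by
  have h5 := ga_ρ2 hN hS
  unfold gρ2
  omega

theorem glam_ge (hN : 1 ≤ N) (hS : 2 ≤ S) : 4 * gNx N S ≤ glam N S := by
  have h1 := gρ_ge hN hS
  have h2 := gρ2_ge hN hS
  unfold glam
  calc 4 * gNx N S = gNx N S * 4 := by ring
    _ ≤ gρ N S * gρ2 N S := Nat.mul_le_mul h1 h2

theorem ga_l1 (hN : 1 ≤ N) (hS : 2 ≤ S) : 700 * glam N S ≤ gl1 N S := by
  have h2 := gP_ge hN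
  have h3 := gOm_ge hN hS
  unfold gl1
  have : glam N S * 700 ≤ glam N S * gOm N S := Nat.mul_le_mul_left _ (by omega)
  omega

theorem gb1_eq (hN : 1 ≤ N) (hS : 2 ≤ S) : gb1 N S + gNx N S = gl1 N S := by
  have h1 := ga_l1 hN hS
  have h2 := glam_ge hN hS
  unfold gb1
  omega

theorem gb1_ge (hN : 1 ≤ N) (hS : 2 ≤ S) : 2 * glam N S + 4 ≤ gb1 N S := by
  have h1 := ga_l1 hN hS
  have h2 := glam_ge hN hS
  have h3 := gb1_eq hN hS
  have h4 := gNx_ge hN hS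
  have h5 := gP_ge hN
  omega

theorem gM_eq (hN : 1 ≤ N) (hS : 2 ≤ S) :
    gM N S + gNx N S = (2 * glam N S - 1) * gb1 N S := by
  have h2 := glam_ge hN hS
  have h3 := gb1_ge hN hS
  have h4 := gNx_ge hN hS
  have h5 := gP_ge hN
  have h6 : 1 * gb1 N S ≤ (2 * glam N S - 1) * gb1 N S := Nat.mul_le_mul_right _ (by omega)
  unfold gM
  omega

theorem ga_A (hN : 1 ≤ N) (hS : 2 ≤ S) : gA1 N S ≤ gA2 N S ∧ gA2 N S ≤ 2 * gA1 N S := by
  have h1 := gβ_ge hN hS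
  unfold gA1 gA2
  have h2 : (2 * gβ N S - gP N) * glam N S ≤ 2 * gβ N S * glam N S :=
    Nat.mul_le_mul_right _ (by omega)
  have h3 : gβ N S * glam N S ≤ (2 * gβ N S - gP N) * glam N S :=
    Nat.mul_le_mul_right _ (by omega)
  have h4 : 2 * gβ N S * glam N S = 2 * (gβ N S * glam N S) := by ring
  omega

theorem ga_eq (hN : 1 ≤ N) (hS : 2 ≤ S) : ga N S + gA1 N S = gA2 N S * gb1 N S := by
  have h1 := ga_A hN hS
  have h3 := gb1_ge hN hS
  have h2 : gA2 N S * 1 ≤ gA2 N S * gb1 N S := Nat.mul_le_mul_left _ (by omega)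
  unfold ga
  omega

theorem ga_b (hN : 1 ≤ N) (hS : 2 ≤ S) :
    gNx N S * gA2 N S + 1 ≤ (2 * glam N S - 1) * gA1 N S := by
  obtain ⟨h1, h1'⟩ := ga_A hN hS
  have h2 := glam_ge hN hS
  have h4 := gNx_ge hN hS
  have h5 := gP_ge hN
  have h6 : (2 * gNx N S + 1) * gA1 N S ≤ (2 * glam N S - 1) * gA1 N S :=
    Nat.mul_le_mul_right _ (by omega)
  have h7 : gNx N S * gA2 N S ≤ gNx N S * (2 * gA1 N S) := Nat.mul_le_mul_left _ h1'
  have h8 : (2 * gNx N S + 1) * gA1 N S = gNx N S * (2 * gA1 N S) + gA1 N S := by ring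
  have h9 : 2 ≤ gA1 N S := by
    unfold gA1
    omega
  omega

theorem gb_eq (hN : 1 ≤ N) (hS : 2 ≤ S) :
    gb N S + gNx N S * gA2 N S = (2 * glam N S - 1) * gA1 N S := by
  have h := ga_b hN hS
  unfold gb
  omega

theorem gb_pos (hN : 1 ≤ N) (hS : 2 ≤ S) : 1 ≤ gb N S := by
  have h := ga_b hN hS
  unfold gb
  omega

/-- all the equations over the integers -/
theorem ga_int (hN : 1 ≤ N) (hS : 2 ≤ S) :
    ((ga N S : ℤ) + ((2 * gβ N S - gP N) * glam N S + 2) = (2 * gβ N S * glam N S + 2) * gb1 N S) ∧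
    ((gM N S : ℤ) + gNx N S = (2 * glam N S - 1) * gb1 N S) ∧
    ((gb1 N S : ℤ) + gNx N S = glam N S * gOm N S + gP N) ∧
    ((gOm N S : ℤ) + 2 * gP N = gP N * gβ N S + 2) ∧
    ((gb N S : ℤ) + gNx N S * (2 * gβ N S * glam N S + 2) =
      (2 * glam N S - 1) * ((2 * gβ N S - gP N) * glam N S + 2)) := by
  have hβ := gβ_ge hN hS
  have hP := gP_ge hN
  have hl := glam_ge hN hS
  have hNx := gNx_ge hN hS
  have hA1 : (gA1 N S : ℤ) = (2 * gβ N S - gP N) * glam N S + 2 := by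
    unfold gA1
    push_cast [Nat.cast_sub (show gP N ≤ 2 * gβ N S by omega)]
    ring
  have hA2 : (gA2 N S : ℤ) = 2 * gβ N S * glam N S + 2 := by
    unfold gA2
    push_cast
    ring
  have h1 := congrArg (Nat.cast : ℕ → ℤ) (ga_eq hN hS)
  have h2 := congrArg (Nat.cast : ℕ → ℤ) (gM_eq hN hS)
  have h3 := congrArg (Nat.cast : ℕ → ℤ) (gb1_eq hN hS)
  have h4 := congrArg (Nat.cast : ℕ → ℤ) (gOm_eq hN hS)
  have h5 := congrArg (Nat.cast : ℕ → ℤ) (gb_eq hN hS)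
  have hs : ((2 * glam N S - 1 : ℕ) : ℤ) = 2 * glam N S - 1 := by
    push_cast [Nat.cast_sub (show 1 ≤ 2 * glam N S by omega)]
    ring
  rw [Nat.cast_add, Nat.cast_mul, hA1, hA2] at h1
  rw [Nat.cast_add, Nat.cast_mul, hs] at h2
  rw [Nat.cast_add] at h3
  unfold gl1 at h3
  rw [Nat.cast_add, Nat.cast_mul] at h3
  rw [Nat.cast_add, Nat.cast_mul, hA2, Nat.cast_mul, hs, hA1] at h5
  push_cast at h4
  exact ⟨h1, h2, h3, h4, h5⟩

theorem g_aM (hN : 1 ≤ N) (hS : 2 ≤ S) :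
    (ga N S : ℤ) - gM N S =
      ((gβ N S - 1) * glam N S + 1) * (2 * gb1 N S + gP N - 2) := by
  obtain ⟨h1, h2, h3, h4, -⟩ := ga_int hN hS
  linear_combination h1 - h2 + h3 + (glam N S : ℤ) * h4

theorem g_Mb (hN : 1 ≤ N) (hS : 2 ≤ S) :
    (gM N S : ℤ) - gb N S =
      ((gβ N S - 1) * glam N S + 1) * (2 * gNx N S + (2 * glam N S - 1) * (gP N - 2)) := by
  obtain ⟨h1, h2, h3, h4, h5⟩ := ga_int hN hS
  linear_combination h2 - h5 + (2 * (glam N S : ℤ) - 1) * h3 +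
    (2 * (glam N S : ℤ) - 1) * (glam N S : ℤ) * h4

/-- the numerical hypotheses of step A -/
theorem g_num (hN : 1 ≤ N) (hS : 2 ≤ S) :
    gβ N S % 2 = 1 ∧ 2 * (gP N * S) + 8 * gP N ≤ gβ N S := by
  have h : gP N * 2 ≤ gP N * S := Nat.mul_le_mul_left _ hS
  have h2 : gβ N S = 8 * (gP N * S) + 1 := by
    unfold gβ
    ring
  rw [h2]
  constructor <;> omega

end Pool.Agent.H15.PCP3
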