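import Mathlib
import Pool.Agent.H15.PCP3.GA

set_option autoImplicit false

/-!
# Module GB: number of letters x of the first word

`W1` with `pc = 0` is true only at `q = 0` and at `q` with `q % lam ≤ P`, `1 ≤ q / lam < Om`: at most
`1 + (P + 1) (Om - 1) ≤ (P + 1) Om ≤ Nx` places below `l1` (inject `q ↦ (q % lam, q / lam)`, or count
row by row).  The `pc` padding places `[lam + P + 1, lam + P + 1 + pc)` are below `2 lam ≤ l1`
(`pc ≤ Nx`, `lam ≥ 4 Nx`, `Nx ≥ 100 P`), and there `W1` with `pc = 0` is false (`q / lam = 1`,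
`q % lam > P`); at the other places `W1` does not depend on `pc`.  So the count is `cx0 + pc = Nx`.
-/

namespace Pool.Agent.H15.PCP3

variable {N S : ℕ}

theorem gb_split (A B : ℕ → Bool) (s m n : ℕ)
    (h1 : ∀ q, ¬ (s ≤ q ∧ q < s + m) → A q = B q)
    (h2 : ∀ q, s ≤ q → q < s + m → A q = true ∧ B q = false) (h3 : s + m ≤ n) :
    cx A n = cx B n + m := by
  classical
  rw [cx, cx, Nat.count_eq_card_filter_range, Nat.count_eq_card_filter_range]
  have hU : (Finset.range n).filter (fun i => A i = true) =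
      (Finset.range n).filter (fun i => B i = true) ∪ Finset.Ico s (s + m) := by
    ext q
    simp only [Finset.mem_filter, Finset.mem_range, Finset.mem_union, Finset.mem_Ico]
    by_cases hq : s ≤ q ∧ q < s + m
    · obtain ⟨ha, hb⟩ := h2 q hq.1 hq.2
      simp only [ha, hb, hq]
      simp
      omega
    · rw [h1 q hq]
      simp only [hq, or_false]
  have hD : Disjoint ((Finset.range n).filter (fun i => B i = true)) (Finset.Ico s (s + m)) := by
    rw [Finset.disjoint_left]
    intro q hq hq2
    simp only [Finset.mem_filter, Finset.mem_range, Finset.mem_Ico] at hq hq2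
    have := (h2 q hq2.1 hq2.2).2
    rw [this] at hq
    simp at hq
  rw [hU, Finset.card_union_of_disjoint hD, Nat.card_Ico]
  omega

theorem gcx0_le (hN : 1 ≤ N) (hS : 2 ≤ S) (Eh : ℕ → ℕ → Bool) :
    cx (gpar0 N S Eh 0).W1 (gpar0 N S Eh 0).l1 ≤ gNx N S := by
  classical
  have h1 := gNx_ge hN hS
  have h2 := glam_ge hN hS
  have h3 := gOm_ge hN hS
  have h4 := gP_ge hN
  have hlam : 0 < glam N S := by omega
  rw [cx, Nat.count_eq_card_filter_range]
  have hle : ((Finset.range (gpar0 N S Eh 0).l1).filter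
      (fun i => (gpar0 N S Eh 0).W1 i = true)).card ≤
      (Finset.range (gP N + 1) ×ˢ Finset.range (gOm N S)).card := by
    apply Finset.card_le_card_of_injOn (fun q => (q % glam N S, q / glam N S))
    · intro q hq
      simp only [Finset.coe_filter, Finset.mem_range, Set.mem_setOf_eq] at hq
      simp only [Finset.coe_product, Finset.coe_range, Set.mem_prod, Set.mem_Iio]
      obtain ⟨-, hq⟩ := hq
      by_cases h0 : q = 0
      · subst h0
        rw [Nat.zero_mod, Nat.zero_div]
        omega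
      · have hW : ¬ (gP N < q % glam N S ∨ q / glam N S = 0 ∨ gOm N S ≤ q / glam N S) := by
          intro h
          have hf : (gpar0 N S Eh 0).W1 q = false := by
            rw [Par.W1, if_neg h0, if_neg (by simp only [gpar0]; omega)]
            rw [if_pos]
            exact h
          rw [hf] at hq
          simp at hq
        push Not at hW
        omega
    · intro q _ q' _ h
      simp only [Prod.mk.injEq] at h
      rw [← Nat.div_add_mod q (glam N S), ← Nat.div_add_mod q' (glam N S), h.1, h.2]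
  rw [Finset.card_product, Finset.card_range, Finset.card_range] at hle
  omega

theorem gb_pc_le (hN : 1 ≤ N) (hS : 2 ≤ S) (Eh : ℕ → ℕ → Bool) : gpc N S Eh ≤ gNx N S := by
  unfold gpc
  omega

theorem gpc_le (hN : 1 ≤ N) (hS : 2 ≤ S) (Eh : ℕ → ℕ → Bool) :
    2 * gP N + gpc N S Eh + 2 ≤ glam N S := by
  have h1 := gNx_ge hN hS
  have h2 := glam_ge hN hS
  have h3 := gb_pc_le hN hS Eh
  have h4 := gP_ge hN
  omega

theorem gcx (hN : 1 ≤ N) (hS : 2 ≤ S) (Eh : ℕ → ℕ → Bool) :
    cx (gpar N S Eh).W1 (gl1 N S) = gNx N S := by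
  have h0 := gpc_le hN hS Eh
  have h1 := gcx0_le hN hS Eh
  have h2 := ga_l1 hN hS
  have h4 := gP_ge hN
  have hl : (gpar0 N S Eh 0).l1 = gl1 N S := rfl
  rw [hl] at h1
  have hs := gb_split (gpar N S Eh).W1 (gpar0 N S Eh 0).W1 (glam N S + gP N + 1) (gpc N S Eh)
    (gl1 N S) ?_ ?_ (by omega)
  · rw [hs]
    unfold gpc
    rw [hl]
    omega
  · intro q hq
    have e1 : ¬ ((gpar N S Eh).lam + (gpar N S Eh).P + 1 ≤ q ∧
        q < (gpar N S Eh).lam + (gpar N S Eh).P + 1 + (gpar N S Eh).pc) := hq
    have e2 : ¬ ((gpar0 N S Eh 0).lam + (gpar0 N S Eh 0).P + 1 ≤ q ∧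
        q < (gpar0 N S Eh 0).lam + (gpar0 N S Eh 0).P + 1 + (gpar0 N S Eh 0).pc) := by
      simp only [gpar0]
      omega
    rw [Par.W1, Par.W1, if_neg e1, if_neg e2]
    rfl
  · intro q hq1 hq2
    have hq0 : q ≠ 0 := by omega
    have hdiv : q / glam N S = 1 := by
      rw [Nat.div_eq_iff (by omega)]
      omega
    have hmod : q % glam N S = q - glam N S := by
      have := Nat.div_add_mod q (glam N S)
      rw [hdiv] at this
      omega
    constructor
    · have e1 : ((gpar N S Eh).lam + (gpar N S Eh).P + 1 ≤ q ∧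
        q < (gpar N S Eh).lam + (gpar N S Eh).P + 1 + (gpar N S Eh).pc) := ⟨hq1, hq2⟩
      rw [Par.W1, if_neg hq0, if_pos e1]
    · have e2 : ¬ ((gpar0 N S Eh 0).lam + (gpar0 N S Eh 0).P + 1 ≤ q ∧
        q < (gpar0 N S Eh 0).lam + (gpar0 N S Eh 0).P + 1 + (gpar0 N S Eh 0).pc) := by
        simp only [gpar0]
        omega
      rw [Par.W1, if_neg hq0, if_neg e2, if_pos]
      left
      change gP N < q % glam N S
      omega

end Pool.Agent.H15.PCP3
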