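import Mathlib
import Pool.Agent.H15.PCP3.GA

set_option autoImplicit false

/-!
# Module GC: coprimality

`δ = (β - 1) lam + 1`, `e' = 2 b1 + P - 2`, `f' = 2 Nx + (2 lam - 1) (P - 2)`; `a - M = δ e'` (`g_aM`),
`M - b = δ f'` (`g_Mb`), `a (2 lam - 1) + b = A2 M` (from `ga_eq`, `gb_eq`, `gM_eq`),
`M + lam f' = (2 lam - 1) P δ`, `Om f' - (P - 2) e' = ρ`, `(β - 1) f' - 2 (P - 2) δ = ρ2`, `lam = ρ ρ2`.
Let a prime `p` divide `a` and `M`; then `p ∣ b`, `p ∣ δ e'`, `p ∣ δ f'`.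
* `p ∣ δ`: `p ∣ lam f'`, and `p ∤ lam` (as `δ = (β - 1) lam + 1`), so `p ∣ f'`, `p ∣ ρ2`, `p ∣ lam`:
  contradiction.
* `p ∤ δ`: `p ∣ e'`, `p ∣ f'`, `p ∣ ρ`, `p ∣ lam`; `M = (2 lam - 1) b1 - Nx`, `b1 + Nx = lam Om + P`, so
  `M ≡ - P` mod `p`, `p ∣ P`; `P ∣ Nx`, so `f' ≡ 2` mod `p`, `p = 2`; but `P = 4 N + 3` is odd.
-/

namespace Pool.Agent.H15.PCP3

variable {N S : ℕ}

/-- the arithmetic of `g_coprime` -/
theorem gc_aux (p a b M A1 A2 b1 Nx lam Om P β ρ ρ2 n : ℤ) (hp : Prime p)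
    (E1 : a - M = ((β - 1) * lam + 1) * (2 * b1 + P - 2))
    (E2 : M - b = ((β - 1) * lam + 1) * (2 * Nx + (2 * lam - 1) * (P - 2)))
    (E3 : a + A1 = A2 * b1) (E4 : b + Nx * A2 = (2 * lam - 1) * A1)
    (E5 : M + Nx = (2 * lam - 1) * b1) (E6 : b1 + Nx = lam * Om + P)
    (E7 : ρ = 2 * Nx * (Om + P - 2) - (P - 2) * (Om + 3 * P - 2))
    (E8 : ρ2 = (β - 1) * (2 * Nx + 2 - P) - 2 * (P - 2))
    (E9 : lam = ρ * ρ2) (E10 : Nx = P * ((P + 1) * Om + 1)) (E11 : P = 4 * n + 3)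
    (E12 : Om + 2 * P = P * β + 2) (ha : p ∣ a) (hM : p ∣ M) : False := by
  have hb : p ∣ b := by
    have h1 : b = A2 * M - a * (2 * lam - 1) := by linear_combination (-A2) * E5 + (2 * lam - 1) * E3 + E4
    rw [h1]
    exact dvd_sub (Dvd.dvd.mul_left hM _) (Dvd.dvd.mul_right ha _)
  set δ := (β - 1) * lam + 1 with hδ
  set e := 2 * b1 + P - 2 with he
  set f := 2 * Nx + (2 * lam - 1) * (P - 2) with hf
  have h1 : p ∣ δ * e := by
    rw [← E1]
    exact dvd_sub ha hM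
  have h2 : p ∣ δ * f := by
    rw [← E2]
    exact dvd_sub hM hb
  have i2 : M + lam * f = (2 * lam - 1) * P * δ := by
    rw [hf, hδ]
    linear_combination E5 + (2 * lam - 1) * E6 + (2 * lam - 1) * lam * E12
  have i3 : Om * f - (P - 2) * e = ρ := by
    rw [hf, he, E7]
    linear_combination (-2 * (P - 2)) * E6
  have i4 : (β - 1) * f - 2 * (P - 2) * δ = ρ2 := by
    rw [hf, hδ, E8]
    ring
  by_cases hd : p ∣ δ
  · have h3 : p ∣ lam * f := by
      have h4 : lam * f = (2 * lam - 1) * P * δ - M := by linarith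
      rw [h4]
      exact dvd_sub (Dvd.dvd.mul_left hd _) hM
    have h5 : ¬ p ∣ lam := by
      intro h5
      have h6 : p ∣ (1 : ℤ) := by
        have h7 : (1 : ℤ) = δ - (β - 1) * lam := by rw [hδ]; ring
        rw [h7]
        exact dvd_sub hd (Dvd.dvd.mul_left h5 _)
      exact hp.not_isUnit (isUnit_of_dvd_one h6)
    have h6 : p ∣ f := (hp.dvd_or_dvd h3).resolve_left h5
    have h7 : p ∣ ρ2 := by
      rw [← i4]
      exact dvd_sub (Dvd.dvd.mul_left h6 _) (Dvd.dvd.mul_left hd _)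
    apply h5
    rw [E9]
    exact Dvd.dvd.mul_left h7 _
  · have h3 : p ∣ e := (hp.dvd_or_dvd h1).resolve_left hd
    have h4 : p ∣ f := (hp.dvd_or_dvd h2).resolve_left hd
    have h5 : p ∣ ρ := by
      rw [← i3]
      exact dvd_sub (Dvd.dvd.mul_left h4 _) (Dvd.dvd.mul_left h3 _)
    have h6 : p ∣ lam := by
      rw [E9]
      exact Dvd.dvd.mul_right h5 _
    have h7 : p ∣ P := by
      have h8 : P = 2 * b1 * lam - lam * Om - M := by
        linear_combination E5 - E6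
      rw [h8]
      exact dvd_sub (dvd_sub (Dvd.dvd.mul_left h6 _) (Dvd.dvd.mul_right h6 _)) hM
    have h8 : p ∣ (2 : ℤ) := by
      have h9 : (2 : ℤ) = f - 2 * ((P + 1) * Om + 1) * P - 2 * (P - 2) * lam + P := by
        rw [hf, E10]
        ring
      rw [h9]
      exact dvd_add (dvd_sub (dvd_sub h4 (Dvd.dvd.mul_left h7 _)) (Dvd.dvd.mul_left h6 _)) h7
    have h9 : p ∣ (1 : ℤ) := by
      have h10 : (1 : ℤ) = P - 2 * (2 * n + 1) := by rw [E11]; ring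
      rw [h10]
      exact dvd_sub h7 (Dvd.dvd.mul_right h8 _)
    exact hp.not_isUnit (isUnit_of_dvd_one h9)

theorem g_coprime (hN : 1 ≤ N) (hS : 2 ≤ S) : Nat.Coprime (ga N S) (gM N S) := by
  by_contra hcon
  obtain ⟨p, hp, hpa, hpM⟩ := Nat.Prime.not_coprime_iff_dvd.1 hcon
  have hlam : 1 ≤ glam N S := by
    have h1 := glam_ge hN hS
    have h2 := gNx_ge hN hS
    have h3 := gP_ge hN
    nlinarith
  have hl : 1 ≤ 2 * glam N S := by omega
  have c5 := gM_eq hN hS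
  have c4 := gb_eq hN hS
  have c5' : (gM N S : ℤ) + gNx N S = (2 * glam N S - 1) * gb1 N S := by
    have h := congrArg (Nat.cast : ℕ → ℤ) c5
    push_cast [Nat.cast_sub hl] at h
    exact h
  have c4' : (gb N S : ℤ) + gNx N S * gA2 N S = (2 * glam N S - 1) * gA1 N S := by
    have h := congrArg (Nat.cast : ℕ → ℤ) c4
    push_cast [Nat.cast_sub hl] at h
    exact h
  have c3 := congrArg (Nat.cast : ℕ → ℤ) (ga_eq hN hS)
  push_cast at c3
  have c6 := congrArg (Nat.cast : ℕ → ℤ) (gb1_eq hN hS)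
  unfold gl1 at c6
  push_cast at c6
  have c9 : (glam N S : ℤ) = gρ N S * gρ2 N S := by
    unfold glam
    push_cast
    ring
  have c10 : (gNx N S : ℤ) = gP N * ((gP N + 1) * gOm N S + 1) := by
    unfold gNx
    push_cast
    ring
  have c11 : (gP N : ℤ) = 4 * (N : ℤ) + 3 := by
    unfold gP
    push_cast
    ring
  have c12 := congrArg (Nat.cast : ℕ → ℤ) (gOm_eq hN hS)
  push_cast at c12
  exact gc_aux (p : ℤ) _ _ _ _ _ _ _ _ _ _ _ _ _ _ (Nat.prime_iff_prime_int.1 hp) (g_aM hN hS)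
    (g_Mb hN hS) c3 c4' c5' c6 (gρ_eq hN hS) (gρ2_eq hN hS) c9 c10 c11 c12
    (Int.natCast_dvd_natCast.2 hpa) (Int.natCast_dvd_natCast.2 hpM)

end Pool.Agent.H15.PCP3
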