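import Mathlib
import Pool.Agent.H15.PCP3.GB
import Pool.Agent.H15.PCP3.GC

set_option autoImplicit false

/-!
# Module GD: the hypotheses of step H

Fields of `HHyp` from modules GA, GB, GC.  `W1 0 = true`; `W1 1 = W1 2 = false` (`q / lam = 0`);
`W1 (l1 - 1) = W1 (l1 - 2) = false` (`q / lam = Om`, as `l1 = lam Om + P`, `7 ≤ P < lam`, and these
places are not padding: they are `≥ 2 lam`).
-/

namespace Pool.Agent.H15.PCP3

variable {N S : ℕ}

lemma gd_W1_low (p : Par) (q : ℕ) (h1 : 1 ≤ q) (h2 : q < p.lam) : p.W1 q = false := by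
  unfold Par.W1
  rw [if_neg (by omega), if_neg (by omega), if_pos]
  right; left
  exact Nat.div_eq_of_lt h2

lemma gd_W1_high (p : Par) (q r : ℕ) (hq : q = p.lam * p.Om + r) (hr : r < p.lam)
    (h3 : p.P + p.pc + 1 ≤ p.lam) (hOm : 2 ≤ p.Om) : p.W1 q = false := by
  have h2 : p.lam * 2 ≤ p.lam * p.Om := Nat.mul_le_mul_left _ hOm
  unfold Par.W1
  rw [if_neg (by omega), if_neg (by omega), if_pos]
  right; right
  rw [hq, Nat.mul_add_div (by omega), Nat.div_eq_of_lt hr]
  omega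

theorem g_hh (hN : 1 ≤ N) (hS : 2 ≤ S) (Eh : ℕ → ℕ → Bool) :
    HHyp (gpar N S Eh).W1 (gl1 N S) (glam N S) (gA1 N S) (gA2 N S) (gM N S) (ga N S)
      (gb N S) := by
  have hP := gP_ge hN
  have hOm := gOm_ge hN hS
  have hNx := gNx_ge hN hS
  have hlam := glam_ge hN hS
  have hpc := gpc_le hN hS Eh
  have hcx := gcx hN hS Eh
  have hb1 := gb1_ge hN hS
  have hb1e := gb1_eq hN hS
  have hb1' : gl1 N S - gNx N S = gb1 N S := by omega
  have hl1 : gl1 N S = glam N S * gOm N S + gP N := rfl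
  have hOm' : (gpar N S Eh).Om = gOm N S := rfl
  have hla' : (gpar N S Eh).lam = glam N S := rfl
  have hP' : (gpar N S Eh).P = gP N := rfl
  have hpc' : (gpar N S Eh).pc = gpc N S Eh := rfl
  have hlamOm : 1 ≤ glam N S * gOm N S := Nat.mul_pos (by omega) (by omega)
  have hM0 : 1 ≤ glam N S * 2 := by omega
  refine ⟨by omega, ?_, ?_, ?_, by omega, ?_, ?_, ?_, ?_, ?_, ?_, ?_, ?_, ?_, ?_, ?_, ?_, ?_⟩
  · unfold Par.W1
    rw [if_pos rfl]
  · exact gd_W1_low _ 1 (le_refl _) (by rw [hla']; omega)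
  · exact gd_W1_low _ 2 (by omega) (by rw [hla']; omega)
  · refine gd_W1_high _ _ (gP N - 1) ?_ (by rw [hla']; omega) (by rw [hP', hpc', hla']; omega)
      (by rw [hOm']; omega)
    rw [hl1, hla', hOm']; omega
  · refine gd_W1_high _ _ (gP N - 2) ?_ (by rw [hla']; omega) (by rw [hP', hpc', hla']; omega)
      (by rw [hOm']; omega)
    rw [hl1, hla', hOm']; omega
  · rw [hcx]; omega
  · rw [hcx]; omega
  · rw [hcx, hb1']; exact gM_eq hN hS
  · rw [hcx, hb1']; exact ga_eq hN hS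
  · rw [hcx]; exact gb_eq hN hS
  · unfold gA1; omega
  · unfold gA2; omega
  · exact gb_pos hN hS
  · have h := g_Mb hN hS
    have hβ := gβ_ge hN hS
    have h1 : (0 : ℤ) ≤ (gβ N S - 1) * glam N S := mul_nonneg (by omega) (by omega)
    have h2 : (0 : ℤ) ≤ (2 * glam N S - 1) * (gP N - 2) := mul_nonneg (by omega) (by omega)
    have h3 : (0 : ℤ) < ((gβ N S - 1) * glam N S + 1) *
        (2 * gNx N S + (2 * glam N S - 1) * (gP N - 2)) := mul_pos (by omega) (by omega)
    omega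
  · have h := g_aM hN hS
    have hβ := gβ_ge hN hS
    have h1 : (0 : ℤ) ≤ (gβ N S - 1) * glam N S := mul_nonneg (by omega) (by omega)
    have h3 : (0 : ℤ) ≤ ((gβ N S - 1) * glam N S + 1) * (2 * gb1 N S + gP N - 2) :=
      mul_nonneg (by omega) (by omega)
    omega
  · exact g_coprime hN hS

end Pool.Agent.H15.PCP3
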