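import Mathlib
import Pool.Agent.H15.PCP3.Defs

set_option autoImplicit false

/-!
# Module HA1: residues of the prefixes (`modEq_iff`, `end_hole`, `no_hole`)

`(i, j)` = numbers of letters x, y of a prefix.  By `HHyp.ha, hb, hM`:
`a (2 lam - 1) + b = A2 M` and `a Nx + b b1 = A1 M` (`Nx = cx W1 l1`, `b1 = l1 - Nx`), i.e.
`end_hole`.  So `b = -(2 lam - 1) a` mod `M`, and since `a` is invertible mod `M`:
`a i + b j = a i' + b j'` mod `M` iff `ρ = ρ'` mod `M`, where `ρ = (2 lam - 1) j - i` (integer).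
The letter x changes `ρ` by `-1`, y by `+(2 lam - 1)`.

Residues (representatives in `[0, M)`) of the proper nonempty prefixes:
* second word `x^lam y x^(lam-1)`: `n ≤ lam`: `ρ = -n`, i.e. `M-1 .. M-lam`; `n > lam`:
  `ρ = 2 lam - n`, i.e. `lam - 1 .. 1`.
* first word: `n = 1`: `ρ = -1`; `n ≥ 2`: `(i,j)` with `1 ≤ j ≤ b1 - 1`, `1 ≤ i ≤ Nx`,
  `ρ = (2 lam - 1) j - i`; `j = 1` only with `i = 1` (letters 1, 2 are y): `ρ = 2 lam - 2`; `j = b1 - 1`
  only with `i = Nx` (the last two letters are y): `ρ = M - (2 lam - 1)`; otherwise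
  `3 lam ≤ ρ ≤ M - 3 lam`.  (`Nx ≤ lam - 2`, `b1 ≥ 4`, `M ≥ 7 lam - 2`.)
Different prefixes of the first word (with `n ≥ 2`) have different `ρ` because `|i - i'| < 2 lam - 1`.

`cont`: a letter after a proper prefix of one of the words that leads to an allowed residue (or to
the hole residue 0) continues a prefix of one of the words (both words start with x):
* from `n = 0` (`ρ = 0`): y leads to `2 lam - 1`: not allowed.
* from `n = 1` (`ρ = M - 1`): x leads to `M - 2` (second word), y to `2 lam - 2` (first word).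
* second word, `2 ≤ n ≤ lam - 1`: y leads to `[lam, 2 lam - 3]`: not allowed; `n = lam`: x leads to
  `M - lam - 1`: not allowed; `n > lam`: y leads to `[2 lam, 3 lam - 2]`: not allowed.
* first word, `n ≥ 2` at `(i,j)`: a wrong y (then `2 ≤ j ≤ b1 - 2`) leads to
  `(2 lam - 1)(j+1) - i ≤ M - lam - 1`, a wrong x to `(2 lam - 1) j - (i+1) ≥ 2 lam - 3 ≥ lam`; equal to a
  prefix residue of the first word only for the prefix with counts `(i, j+1)`, resp. `(i+1, j)`, but
  the prefix of length `i+j+1` has the other counts; and `2 lam - 3 < 2 lam - 2`.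
`no_hole`: the residue of a proper nonempty prefix is not 0 (list above).
-/

namespace Pool.Agent.H15.PCP3

/-- the two words -/
def wd (W1 : ℕ → Bool) (lam : ℕ) (c : Bool) (q : ℕ) : Bool := if c then W1 q else w2f lam q

/-- their lengths -/
def wl (l1 lam : ℕ) (c : Bool) : ℕ := if c then l1 else 2 * lam

variable {W1 : ℕ → Bool} {l1 lam A1 A2 M a b : ℕ}

theorem ha1_cx_zero (W : ℕ → Bool) : cx W 0 = 0 := by
  simp [cx]

theorem ha1_cx_succ (W : ℕ → Bool) (n : ℕ) : cx W (n + 1) = cx W n + (if W n = true then 1 else 0) := by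
  unfold cx
  exact Nat.count_succ _ _

theorem ha1_cx_le (W : ℕ → Bool) (n : ℕ) : cx W n ≤ n := by
  induction n with
  | zero => rw [ha1_cx_zero]
  | succ n ih =>
    rw [ha1_cx_succ]
    split <;> omega

theorem ha1_cx_mono (W : ℕ → Bool) {n m : ℕ} (h : n ≤ m) : cx W n ≤ cx W m := by
  induction m, h using Nat.le_induction with
  | base => exact le_refl _
  | succ m hm ih =>
    rw [ha1_cx_succ]
    split <;> omega

theorem ha1_cy_mono (W : ℕ → Bool) {n m : ℕ} (h : n ≤ m) : n - cx W n ≤ m - cx W m := by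
  induction m, h using Nat.le_induction with
  | base => exact le_refl _
  | succ m hm ih =>
    have := ha1_cx_le W m
    rw [ha1_cx_succ]
    split <;> omega

/-- prefixes of the second word -/
theorem ha1_cx_w2_le (lam n : ℕ) (h : n ≤ lam) : cx (w2f lam) n = n := by
  induction n with
  | zero => exact ha1_cx_zero _
  | succ n ih =>
    rw [ha1_cx_succ, ih (by omega), if_pos]
    simp only [w2f, decide_eq_true_eq]
    omega

theorem ha1_cx_w2_gt (lam n : ℕ) (h : lam < n) : cx (w2f lam) n + 1 = n := by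
  induction n, h using Nat.le_induction with
  | base =>
    rw [ha1_cx_succ, ha1_cx_w2_le lam lam (le_refl _), if_neg]
    simp [w2f]
  | succ n hn ih =>
    rw [ha1_cx_succ, if_pos]
    · omega
    · simp only [w2f, decide_eq_true_eq]
      omega

theorem HHyp.ha1_M (h : HHyp W1 l1 lam A1 A2 M a b) : 7 * lam ≤ M + 2 := by
  have h1 := h.hM
  have h2 := h.hNx
  have h3 := h.hb14
  have h4 := h.hlam
  have h5 : (2 * lam - 1) * 4 ≤ (2 * lam - 1) * (l1 - cx W1 l1) := Nat.mul_le_mul_left _ h3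
  omega

theorem HHyp.ha1_int (h : HHyp W1 l1 lam A1 A2 M a b) :
    ((M : ℤ) + cx W1 l1 = (2 * lam - 1) * ((l1 : ℤ) - cx W1 l1)) ∧
    ((a : ℤ) + A1 = A2 * ((l1 : ℤ) - cx W1 l1)) ∧
    ((b : ℤ) + cx W1 l1 * A2 = (2 * lam - 1) * A1) := by
  have hle : cx W1 l1 ≤ l1 := ha1_cx_le _ _
  have hlam := h.hlam
  have h1 := congrArg (Nat.cast : ℕ → ℤ) h.hM
  have h2 := congrArg (Nat.cast : ℕ → ℤ) h.ha
  have h3 := congrArg (Nat.cast : ℕ → ℤ) h.hb
  push_cast [Nat.cast_sub hle, Nat.cast_sub (show 1 ≤ 2 * lam by omega)] at h1 h2 h3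
  exact ⟨h1, h2, h3⟩

theorem HHyp.ha1_ab (h : HHyp W1 l1 lam A1 A2 M a b) :
    (a : ℤ) * (2 * lam - 1) + b = A2 * M := by
  obtain ⟨h1, h2, h3⟩ := h.ha1_int
  have e1 : (a : ℤ) = A2 * ((l1 : ℤ) - cx W1 l1) - A1 := by linarith
  have e2 : (b : ℤ) = (2 * lam - 1) * A1 - cx W1 l1 * A2 := by linarith
  have e3 : (M : ℤ) = (2 * lam - 1) * ((l1 : ℤ) - cx W1 l1) - cx W1 l1 := by linarith
  rw [e1, e2, e3]
  ring

theorem HHyp.ha1_key (h : HHyp W1 l1 lam A1 A2 M a b) (i j : ℤ) :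
    (M : ℤ) ∣ a * i + b * j ↔ (M : ℤ) ∣ (2 * lam - 1) * j - i := by
  have e : (a : ℤ) * i + b * j = M * (A2 * j) - a * ((2 * lam - 1) * j - i) := by
    have := h.ha1_ab
    have e2 : (b : ℤ) = A2 * M - a * (2 * lam - 1) := by linarith
    rw [e2]
    ring
  have hco : IsCoprime (M : ℤ) (a : ℤ) := by
    rw [Nat.isCoprime_iff_coprime]
    exact h.hco.symm
  rw [e, dvd_sub_right (dvd_mul_right _ _)]
  exact ⟨fun h1 => hco.dvd_of_dvd_mul_left h1, fun h1 => Dvd.dvd.mul_left h1 _⟩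

/-- residues in terms of `ρ = (2 lam - 1) j - i` -/
theorem HHyp.modEq_iff (h : HHyp W1 l1 lam A1 A2 M a b) (i j i' j' : ℕ) :
    (M - 1 + a * i + b * j) % M = (M - 1 + a * i' + b * j') % M ↔
      (M : ℤ) ∣ ((2 * lam - 1) * j - i) - ((2 * lam - 1) * j' - i') := by
  have h1 : (M - 1 + a * i + b * j) % M = (M - 1 + a * i' + b * j') % M ↔
      (M : ℤ) ∣ ((M - 1 + a * i' + b * j' : ℕ) : ℤ) - ((M - 1 + a * i + b * j : ℕ) : ℤ) :=
    Nat.modEq_iff_dvd
  rw [h1]
  have h2 : ((M - 1 + a * i' + b * j' : ℕ) : ℤ) - ((M - 1 + a * i + b * j : ℕ) : ℤ) =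
      a * ((i' : ℤ) - i) + b * ((j' : ℤ) - j) := by
    push_cast
    ring
  rw [h2, h.ha1_key]
  rw [← dvd_neg]
  have h3 : -((2 * (lam : ℤ) - 1) * ((j' : ℤ) - j) - ((i' : ℤ) - i)) =
      ((2 * lam - 1) * j - i) - ((2 * lam - 1) * j' - i') := by ring
  rw [h3]

theorem HHyp.dvd_iff (h : HHyp W1 l1 lam A1 A2 M a b) (i j : ℕ) :
    M ∣ a * i + b * j ↔ (M : ℤ) ∣ (2 * lam - 1) * j - i := by
  rw [← h.ha1_key]
  rw [← Int.natCast_dvd_natCast]
  push_cast
  exact Iff.rfl

theorem HHyp.end_hole (h : HHyp W1 l1 lam A1 A2 M a b) (c : Bool) :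
    a * cx (wd W1 lam c) (wl l1 lam c) + b * (wl l1 lam c - cx (wd W1 lam c) (wl l1 lam c)) =
      (if c then A1 else A2) * M := by
  cases c with
  | true =>
    have hw : wd W1 lam true = W1 := by
      funext q
      simp [wd]
    have hl : wl l1 lam true = l1 := by simp [wl]
    rw [hw, hl, if_pos rfl]
    obtain ⟨h1, h2, h3⟩ := h.ha1_int
    have hle : cx W1 l1 ≤ l1 := ha1_cx_le _ _
    have e1 : (a : ℤ) = A2 * ((l1 : ℤ) - cx W1 l1) - A1 := by linarith
    have e2 : (b : ℤ) = (2 * lam - 1) * A1 - cx W1 l1 * A2 := by linarith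
    have e3 : (M : ℤ) = (2 * lam - 1) * ((l1 : ℤ) - cx W1 l1) - cx W1 l1 := by linarith
    zify [hle]
    rw [e1, e2, e3]
    ring
  | false =>
    have hw : wd W1 lam false = w2f lam := by
      funext q
      simp [wd]
    have hl : wl l1 lam false = 2 * lam := by simp [wl]
    have hlam := h.hlam
    have hc := ha1_cx_w2_gt lam (2 * lam) (by omega)
    have hc1 : cx (w2f lam) (2 * lam) = 2 * lam - 1 := by omega
    have hc2 : 2 * lam - (2 * lam - 1) = 1 := by omega
    rw [hw, hl, hc1, hc2, mul_one]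
    have h1 := h.ha1_ab
    simp only [Bool.false_eq_true, if_false]
    zify [show 1 ≤ 2 * lam by omega]
    exact h1

theorem ha1_not_dvd {M : ℕ} {r : ℤ} (h0 : 0 < r) (h1 : r < M) : ¬ (M : ℤ) ∣ r := fun h =>
  absurd (Int.le_of_dvd h0 h) (by omega)

theorem HHyp.no_hole (h : HHyp W1 l1 lam A1 A2 M a b) (c : Bool) (n : ℕ) (h1 : 1 ≤ n)
    (hn : n < wl l1 lam c) :
    ¬ M ∣ a * cx (wd W1 lam c) n + b * (n - cx (wd W1 lam c) n) := by
  have hM := h.ha1_M
  have hlam := h.hlam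
  rw [h.dvd_iff]
  cases c with
  | true =>
    have hw : wd W1 lam true = W1 := by
      funext q
      simp [wd]
    have hl : wl l1 lam true = l1 := by simp [wl]
    rw [hw]
    rw [hl] at hn
    have hle : cx W1 n ≤ n := ha1_cx_le _ _
    have hle1 : cx W1 l1 ≤ l1 := ha1_cx_le _ _
    have hc1 : cx W1 1 = 1 := by
      rw [show (1 : ℕ) = 0 + 1 from rfl, ha1_cx_succ, ha1_cx_zero, if_pos h.h0]
    rcases Nat.lt_or_ge n 2 with h2 | h2
    · have hn1 : n = 1 := by omega
      rw [hn1, hc1]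
      intro h3
      rw [← dvd_neg] at h3
      refine ha1_not_dvd ?_ ?_ h3
      · push_cast
        norm_num
      · push_cast
        norm_num
        omega
    · have hc2 : cx W1 2 = 1 := by
        rw [show (2 : ℕ) = 1 + 1 from rfl, ha1_cx_succ, hc1, if_neg]
        rw [h.h1]
        simp
      have hj1 : 2 - cx W1 2 ≤ n - cx W1 n := ha1_cy_mono W1 h2
      rw [hc2] at hj1
      have hlast : cx W1 l1 = cx W1 (l1 - 1) := by
        have hs := ha1_cx_succ W1 (l1 - 1)
        rw [if_neg (by rw [h.he1]; simp), show l1 - 1 + 1 = l1 by omega] at hs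
        exact hs
      have hj2 : n - cx W1 n ≤ (l1 - 1) - cx W1 (l1 - 1) := ha1_cy_mono W1 (by omega)
      have hi : cx W1 n ≤ cx W1 l1 := ha1_cx_mono W1 (le_of_lt hn)
      have hNx := h.hNx
      obtain ⟨e1, e2, e3⟩ := h.ha1_int
      have hle3 : cx W1 (l1 - 1) ≤ l1 - 1 := ha1_cx_le _ _
      have hj3 : (((n - cx W1 n : ℕ) : ℤ)) + 1 ≤ (l1 : ℤ) - cx W1 l1 := by omega
      have hj0 : (1 : ℤ) ≤ ((n - cx W1 n : ℕ) : ℤ) := by omega
      have hlam1 : (0 : ℤ) < 2 * lam - 1 := by omega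
      have g1 : (2 * (lam : ℤ) - 1) * 1 ≤ (2 * lam - 1) * ((n - cx W1 n : ℕ) : ℤ) :=
        mul_le_mul_of_nonneg_left hj0 hlam1.le
      have g2 : (2 * (lam : ℤ) - 1) * (((n - cx W1 n : ℕ) : ℤ) + 1) ≤
          (2 * lam - 1) * ((l1 : ℤ) - cx W1 l1) :=
        mul_le_mul_of_nonneg_left hj3 hlam1.le
      refine ha1_not_dvd ?_ ?_
      · omega
      · rw [← e1, mul_add] at g2
        omega
  | false =>
    have hw : wd W1 lam false = w2f lam := by
      funext q
      simp [wd]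
    have hl : wl l1 lam false = 2 * lam := by simp [wl]
    rw [hw]
    rw [hl] at hn
    rcases Nat.lt_or_ge lam n with h2 | h2
    · have hc := ha1_cx_w2_gt lam n h2
      have hc1 : cx (w2f lam) n = n - 1 := by omega
      have hc2 : n - (n - 1) = 1 := by omega
      rw [hc1, hc2]
      refine ha1_not_dvd ?_ ?_
      · omega
      · omega
    · rw [ha1_cx_w2_le lam n h2, Nat.sub_self]
      intro h3
      rw [← dvd_neg] at h3
      refine ha1_not_dvd ?_ ?_ h3
      · omega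
      · omega

end Pool.Agent.H15.PCP3
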