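import Mathlib
import Pool.Agent.H15.PCP3.HA1

set_option autoImplicit false

/-!
# Module HA: the allowed residues are two loops (`cont`)

See the header of module HA1 (residues, `ρ`, and the case distinction for `cont`).
-/

namespace Pool.Agent.H15.PCP3

variable {W1 : ℕ → Bool} {l1 lam A1 A2 M a b : ℕ}

lemma ha_cx_succ (W : ℕ → Bool) (n : ℕ) : cx W (n + 1) = cx W n + (if W n = true then 1 else 0) := by
  unfold cx
  rw [Nat.count_succ]

lemma ha_cx_zero (W : ℕ → Bool) : cx W 0 = 0 := by
  unfold cx
  rw [Nat.count_zero]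

lemma ha_cx_mono (W : ℕ → Bool) {m n : ℕ} (h : m ≤ n) : cx W m ≤ cx W n := Nat.count_monotone _ h

lemma ha_cx_le (W : ℕ → Bool) (n : ℕ) : cx W n ≤ n := by
  induction n with
  | zero => rw [ha_cx_zero]
  | succ n ih =>
    rw [ha_cx_succ]
    split_ifs <;> omega

lemma ha_cx_add (W : ℕ → Bool) (m d : ℕ) : cx W (m + d) ≤ cx W m + d := by
  induction d with
  | zero => simp
  | succ d ih =>
    rw [← Nat.add_assoc, ha_cx_succ]
    split_ifs <;> omega

lemma ha_cx_w2 (lam n : ℕ) : cx (w2f lam) n = if n ≤ lam then n else n - 1 := by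
  induction n with
  | zero => rw [ha_cx_zero]; simp
  | succ n ih =>
    rw [ha_cx_succ, ih]
    unfold w2f
    by_cases h1 : n < lam
    · rw [if_pos (by omega), if_pos (by simp; omega), if_pos (by omega)]
    · by_cases h2 : n = lam
      · subst h2
        rw [if_pos (le_refl _), if_neg (by simp), if_neg (by omega)]
        omega
      · rw [if_neg (by omega), if_pos (by simp; omega), if_neg (by omega)]
        omega

/-- data of the first word -/
lemma ha_first (h : HHyp W1 l1 lam A1 A2 M a b) (n : ℕ) (h1 : 3 ≤ n) (h2 : n + 2 ≤ l1) :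
    1 ≤ cx W1 n ∧ cx W1 n ≤ cx W1 l1 ∧ cx W1 n + 2 ≤ n ∧ n + cx W1 l1 + 2 ≤ l1 + cx W1 n := by
  have e1 : cx W1 1 = 1 := by
    rw [show (1 : ℕ) = 0 + 1 by rfl, ha_cx_succ, ha_cx_zero, h.h0]; simp
  have e2 : cx W1 2 = 1 := by
    rw [show (2 : ℕ) = 1 + 1 by rfl, ha_cx_succ, e1, h.h1]; simp
  have e3 : cx W1 3 = 1 := by
    rw [show (3 : ℕ) = 2 + 1 by rfl, ha_cx_succ, e2, h.h2]; simp
  have e4 : cx W1 (l1 - 1) = cx W1 (l1 - 2) := by
    have : l1 - 1 = (l1 - 2) + 1 := by have := h.hl5; omega
    rw [this, ha_cx_succ, h.he2]; simp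
  have e5 : cx W1 l1 = cx W1 (l1 - 1) := by
    have : l1 = (l1 - 1) + 1 := by have := h.hl5; omega
    conv_lhs => rw [this]
    rw [ha_cx_succ, h.he1]; simp
  have m1 : cx W1 3 ≤ cx W1 n := ha_cx_mono W1 h1
  have m2 : cx W1 n ≤ cx W1 l1 := ha_cx_mono W1 (by omega)
  have m3 : cx W1 n ≤ cx W1 3 + (n - 3) := by
    have := ha_cx_add W1 3 (n - 3)
    rwa [show 3 + (n - 3) = n by omega] at this
  have m4 : cx W1 (l1 - 2) ≤ cx W1 n + (l1 - 2 - n) := by
    have := ha_cx_add W1 n (l1 - 2 - n)
    rwa [show n + (l1 - 2 - n) = l1 - 2 by omega] at this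
  refine ⟨by omega, m2, by omega, by omega⟩

/-- the allowed residues -/
lemma ha_allowed (h : HHyp W1 l1 lam A1 A2 M a b) (i j : ℕ)
    (hx : M ∣ a * i + b * j ∨ Vh W1 l1 lam M a b ((M - 1 + a * i + b * j) % M) = true) :
    (∃ k : ℤ, -(lam : ℤ) ≤ k ∧ k ≤ lam - 1 ∧ (M : ℤ) ∣ ((2 * lam - 1) * j - i) - k) ∨
    (M : ℤ) ∣ ((2 * lam - 1) * j - i) - (2 * lam - 2) ∨
    (M : ℤ) ∣ ((2 * lam - 1) * j - i) + (2 * lam - 1) ∨
    (∃ n' i' j' : ℕ, 3 ≤ n' ∧ n' + 2 ≤ l1 ∧ i' = cx W1 n' ∧ i' + j' = n' ∧
      (M : ℤ) ∣ ((2 * lam - 1) * j - i) - ((2 * lam - 1) * j' - i')) := by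
  have hlam := h.hlam
  rcases hx with hx | hx
  · left
    refine ⟨0, by omega, by omega, ?_⟩
    rw [sub_zero]
    exact (h.dvd_iff i j).1 hx
  · unfold Vh at hx
    rw [decide_eq_true_eq] at hx
    rcases hx with ⟨n', hn', h1', he⟩ | ⟨n', hn', h1', he⟩
    · have hd := (h.modEq_iff i j (cx W1 n') (n' - cx W1 n')).1 he.symm
      have hle := ha_cx_le W1 n'
      by_cases c1 : n' = 1
      · subst c1
        have e1 : cx W1 1 = 1 := by
          rw [show (1 : ℕ) = 0 + 1 by rfl, ha_cx_succ, ha_cx_zero, h.h0]; simp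
        rw [e1] at hd
        left
        refine ⟨-1, by omega, by omega, ?_⟩
        simpa using hd
      · by_cases c2 : n' = 2
        · subst c2
          have e1 : cx W1 1 = 1 := by
            rw [show (1 : ℕ) = 0 + 1 by rfl, ha_cx_succ, ha_cx_zero, h.h0]; simp
          have e2 : cx W1 2 = 1 := by
            rw [show (2 : ℕ) = 1 + 1 by rfl, ha_cx_succ, e1, h.h1]; simp
          rw [e2] at hd
          right; left
          have : ((2 * (lam : ℤ) - 1) * ((2 - 1 : ℕ) : ℤ) - ((1 : ℕ) : ℤ)) = 2 * lam - 2 := by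
            push_cast; ring
          rwa [this] at hd
        · by_cases c3 : n' = l1 - 1
          · right; right; left
            have e5 : cx W1 l1 = cx W1 n' := by
              have : l1 = n' + 1 := by omega
              conv_lhs => rw [this]
              rw [ha_cx_succ, c3, h.he1]; simp
            have hM := h.hM
            have hb := h.hb14
            have hM' : (M : ℤ) = (2 * lam - 1) * (n' - cx W1 n' + 1) - cx W1 n' := by
              have h3 : ((M + cx W1 l1 : ℕ) : ℤ) = ((2 * lam - 1) * (l1 - cx W1 l1) : ℕ) := by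
                rw [hM]
              rw [e5] at h3
              push_cast [Nat.cast_sub (show cx W1 n' ≤ l1 by omega),
                Nat.cast_sub (show 1 ≤ 2 * lam by omega)] at h3
              have h4 : (l1 : ℤ) = n' + 1 := by omega
              rw [h4] at h3
              linarith
            have h6 : ((n' - cx W1 n' : ℕ) : ℤ) = n' - cx W1 n' := by
              rw [Nat.cast_sub hle]
            rw [h6] at hd
            have h5 : (2 * (lam : ℤ) - 1) * j - i + (2 * lam - 1) =
                ((2 * (lam : ℤ) - 1) * j - i - ((2 * lam - 1) * (n' - cx W1 n') - cx W1 n')) + M := by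
              rw [hM']; ring
            rw [h5]
            exact dvd_add hd (dvd_refl _)
          · right; right; right
            refine ⟨n', cx W1 n', n' - cx W1 n', by omega, by omega, rfl, by omega, hd⟩
    · have hd := (h.modEq_iff i j (cx (w2f lam) n') (n' - cx (w2f lam) n')).1 he.symm
      rw [ha_cx_w2] at hd
      left
      by_cases c1 : n' ≤ lam
      · rw [if_pos c1] at hd
        refine ⟨-n', by omega, by omega, ?_⟩
        simpa using hd
      · rw [if_neg c1] at hd
        refine ⟨2 * lam - n', by omega, by omega, ?_⟩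
        have h6 : ((n' - (n' - 1) : ℕ) : ℤ) = 1 := by
          have : n' - (n' - 1) = 1 := by omega
          rw [this]; rfl
        have h7 : ((n' - 1 : ℕ) : ℤ) = n' - 1 := by
          rw [Nat.cast_sub (by omega)]; rfl
        rw [h6, h7] at hd
        have h8 : (2 * (lam : ℤ) - 1) * 1 - (n' - 1) = 2 * lam - n' := by ring
        rwa [h8] at hd

/-- no multiple of `M` strictly between `0` and `M` -/
lemma ha_pos {M : ℕ} {u : ℤ} (hd : (M : ℤ) ∣ u) (h1 : 0 < u) (h2 : u < M) : False := by
  have := Int.le_of_dvd h1 hd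
  omega

lemma ha_neg {M : ℕ} {u : ℤ} (hd : (M : ℤ) ∣ u) (h1 : u < 0) (h2 : -(M : ℤ) < u) : False := by
  have := Int.le_of_dvd (a := (M : ℤ)) (b := -u) (by omega) ((dvd_neg).2 hd)
  omega

lemma ha_zero {M : ℕ} {u : ℤ} (hd : (M : ℤ) ∣ u) (h1 : u < M) (h2 : -(M : ℤ) < u) : u = 0 := by
  by_contra h
  rcases lt_or_gt_of_ne h with h | h
  · exact ha_neg hd h h2
  · exact ha_pos hd h h1

lemma ha_M {M : ℕ} {u : ℤ} (hd : (M : ℤ) ∣ u) (h1 : 0 < u) (h2 : u < 2 * M) : u = M := by
  have h3 : (M : ℤ) ∣ u - M := dvd_sub hd (dvd_refl _)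
  have := ha_zero h3 (by omega) (by omega)
  omega

lemma ha_uniq {L x d : ℤ} (hL : 0 < L) (h : L * x = d) (h1 : d < L) (h2 : -L < d) : x = 0 := by
  rcases lt_trichotomy x 0 with k | k | k
  · have := mul_le_mul_of_nonneg_left (show x ≤ -1 by omega) hL.le
    omega
  · exact k
  · have := mul_le_mul_of_nonneg_left (show 1 ≤ x by omega) hL.le
    omega

theorem HHyp.cont (h : HHyp W1 l1 lam A1 A2 M a b) (c : Bool) (n : ℕ) (hn : n < wl l1 lam c)
    (x : Bool) (i j : ℕ) (hi : i = cx (wd W1 lam c) n + (if x then 1 else 0))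
    (hj : i + j = n + 1)
    (hx : M ∣ a * i + b * j ∨ Vh W1 l1 lam M a b ((M - 1 + a * i + b * j) % M) = true) :
    ∃ c' : Bool, (∀ q < n, wd W1 lam c' q = wd W1 lam c q) ∧ n < wl l1 lam c' ∧
      wd W1 lam c' n = x := by
  have hlam := h.hlam
  have hl5 := h.hl5
  have hNx := h.hNx
  have hb14 := h.hb14
  -- integers
  obtain ⟨N, hN⟩ : ∃ N : ℤ, N = cx W1 l1 := ⟨_, rfl⟩
  obtain ⟨B, hB⟩ : ∃ B : ℤ, B = (l1 : ℤ) - cx W1 l1 := ⟨_, rfl⟩
  obtain ⟨L, hL⟩ : ∃ L : ℤ, L = 2 * (lam : ℤ) - 1 := ⟨_, rfl⟩
  have hcl : cx W1 l1 ≤ l1 := ha_cx_le W1 l1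
  have hM : (M : ℤ) = L * B - N := by
    have h3 : ((M + cx W1 l1 : ℕ) : ℤ) = ((2 * lam - 1) * (l1 - cx W1 l1) : ℕ) := by
      rw [h.hM]
    push_cast [Nat.cast_sub hcl, Nat.cast_sub (show 1 ≤ 2 * lam by omega)] at h3
    rw [hL, hB, hN]
    linarith
  have hB4 : 4 ≤ B := by omega
  have hN0 : 0 ≤ N := by omega
  have hNl : N + 2 ≤ lam := by omega
  have hL0 : 0 < L := by omega
  have hMbig : 7 * (lam : ℤ) - 2 ≤ M := by
    have := mul_le_mul_of_nonneg_left hB4 hL0.le
    omega
  have e1 : cx W1 1 = 1 := by
    rw [show (1 : ℕ) = 0 + 1 by rfl, ha_cx_succ, ha_cx_zero, h.h0]; simp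
  have e2 : cx W1 2 = 1 := by
    rw [show (2 : ℕ) = 1 + 1 by rfl, ha_cx_succ, e1, h.h1]; simp
  have e3 : cx W1 3 = 1 := by
    rw [show (3 : ℕ) = 2 + 1 by rfl, ha_cx_succ, e2, h.h2]; simp
  have w20 : w2f lam 0 = true := by
    unfold w2f; rw [decide_eq_true_eq]; omega
  have w21 : w2f lam 1 = true := by
    unfold w2f; rw [decide_eq_true_eq]; omega
  have hall := ha_allowed h i j hx
  rw [← hL] at hall
  -- bounds for the middle prefixes of the first word
  have hmid : ∀ n' i' j' : ℕ, 3 ≤ n' → n' + 2 ≤ l1 → i' = cx W1 n' → i' + j' = n' →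
      (1 : ℤ) ≤ i' ∧ (i' : ℤ) ≤ N ∧ 3 * (lam : ℤ) ≤ L * j' - i' ∧
        L * j' - i' ≤ M - 3 * lam - 1 := by
    intro n' i' j' g1 g2 g3 g4
    obtain ⟨f1, f2, f3, f4⟩ := ha_first h n' g1 g2
    rw [← g3] at f1 f2 f3 f4
    have t1 : (2 : ℤ) ≤ j' := by omega
    have t2 : (j' : ℤ) ≤ B - 2 := by omega
    have p1 := mul_le_mul_of_nonneg_left t1 hL0.le
    have p2 := mul_le_mul_of_nonneg_left t2 hL0.le
    rw [mul_sub] at p2
    refine ⟨by omega, by omega, ?_, ?_⟩
    · omega
    · omega
  -- a residue in a gap is not allowed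
  have hgap : ∀ u : ℤ, u = L * j - i → (-(M : ℤ) < u - (lam - 1) ∧ u + lam < M) →
      (u + lam < 0 ∨ (lam : ℤ) ≤ u) → (u ≠ 2 * lam - 2) → (u ≠ -L) →
      (3 * (lam : ℤ) - u > 0) → (u - (M - 3 * lam - 1) > -M) → (u < 3 * lam) → False := by
    intro u hu1 hu2 hu3 hu4 hu5 hu6 hu7 hu8
    rw [← hu1] at hall
    rcases hall with ⟨k, k1, k2, k3⟩ | k3 | k3 | ⟨n', i', j', g1, g2, g3, g4, k3⟩
    · have := ha_zero k3 (by omega) (by omega)
      omega
    · have := ha_zero k3 (by omega) (by omega)
      omega
    · have := ha_zero k3 (by omega) (by omega)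
      omega
    · obtain ⟨t1, t2, t3, t4⟩ := hmid n' i' j' g1 g2 g3 g4
      have := ha_zero k3 (by omega) (by omega)
      omega
  by_cases n0 : n = 0
  · subst n0
    have hc0 : wd W1 lam c 0 = true := by
      unfold wd
      split_ifs
      · exact h.h0
      · exact w20
    cases x with
    | true => exact ⟨c, fun q hq => rfl, hn, hc0⟩
    | false =>
      exfalso
      rw [ha_cx_zero] at hi
      simp at hi
      subst hi
      have hj1 : j = 1 := by omega
      subst hj1
      refine hgap (2 * lam - 1) ?_ ?_ ?_ ?_ ?_ ?_ ?_ ?_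
      · rw [hL]; push_cast; ring
      · constructor <;> omega
      · omega
      · omega
      · omega
      · omega
      · omega
      · omega
  by_cases n1 : n = 1
  · subst n1
    have hag : ∀ c' : Bool, wd W1 lam c' 0 = wd W1 lam c 0 := by
      intro c'
      unfold wd
      split_ifs <;> simp [h.h0, w20]
    cases x with
    | true =>
      refine ⟨false, ?_, ?_, ?_⟩
      · intro q hq
        have : q = 0 := by omega
        subst this
        exact hag _
      · simp [wl]; omega
      · simp [wd, w21]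
    | false =>
      refine ⟨true, ?_, ?_, ?_⟩
      · intro q hq
        have : q = 0 := by omega
        subst this
        exact hag _
      · simp [wl]; omega
      · simp [wd, h.h1]
  by_cases hcx : wd W1 lam c n = x
  · exact ⟨c, fun q hq => rfl, hn, hcx⟩
  exfalso
  cases c with
  | false =>
    have hw : wd W1 lam false = w2f lam := by
      funext q; simp [wd]
    rw [hw] at hcx hi
    rw [ha_cx_w2] at hi
    have hn' : n < 2 * lam := by simpa [wl] using hn
    by_cases d1 : n < lam
    · -- wrong y
      have hxf : x = false := by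
        have : w2f lam n = true := by unfold w2f; rw [decide_eq_true_eq]; omega
        rw [this] at hcx
        cases x <;> simp_all
      subst hxf
      rw [if_pos (by omega)] at hi
      simp at hi
      have hj1 : j = 1 := by omega
      subst hj1
      refine hgap (2 * lam - 1 - n) ?_ ?_ ?_ ?_ ?_ ?_ ?_ ?_
      · rw [hL, hi]; push_cast; ring
      · constructor <;> omega
      · omega
      · omega
      · omega
      · omega
      · omega
      · omega
    · by_cases d2 : n = lam
      · have hxt : x = true := by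
          have : w2f lam n = false := by unfold w2f; rw [decide_eq_false_iff_not]; omega
          rw [this] at hcx
          cases x <;> simp_all
        subst hxt
        rw [if_pos (by omega)] at hi
        simp at hi
        have hj1 : j = 0 := by omega
        subst hj1
        refine hgap (-lam - 1) ?_ ?_ ?_ ?_ ?_ ?_ ?_ ?_
        · rw [hi, d2]; push_cast; ring
        · constructor <;> omega
        · omega
        · omega
        · omega
        · omega
        · omega
        · omega
      · have hxf : x = false := by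
          have : w2f lam n = true := by unfold w2f; rw [decide_eq_true_eq]; omega
          rw [this] at hcx
          cases x <;> simp_all
        subst hxf
        rw [if_neg (by omega)] at hi
        simp at hi
        have hj1 : j = 2 := by omega
        subst hj1
        have hi' : (i : ℤ) = n - 1 := by omega
        refine hgap (4 * lam - 1 - n) ?_ ?_ ?_ ?_ ?_ ?_ ?_ ?_
        · rw [hL, hi']; push_cast; ring
        · constructor <;> omega
        · omega
        · omega
        · omega
        · omega
        · omega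
        · omega
  | true =>
    have hw : wd W1 lam true = W1 := by
      funext q; simp [wd]
    rw [hw] at hcx hi
    have hn' : n < l1 := by simpa [wl] using hn
    have hle := ha_cx_le W1 n
    have e4 : cx W1 (l1 - 1) = cx W1 (l1 - 2) := by
      have : l1 - 1 = (l1 - 2) + 1 := by omega
      rw [this, ha_cx_succ, h.he2]; simp
    have e5 : cx W1 l1 = cx W1 (l1 - 1) := by
      have : l1 = (l1 - 1) + 1 := by omega
      conv_lhs => rw [this]
      rw [ha_cx_succ, h.he1]; simp
    cases x with
    | false =>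
      -- wrong y
      simp at hi
      have hWn : W1 n = true := by
        cases hW : W1 n
        · exact absurd hW hcx
        · rfl
      have g1 : 3 ≤ n := by
        by_contra hcon
        have : n = 2 := by omega
        rw [this, h.h2] at hWn
        exact absurd hWn (by simp)
      have g2 : n + 2 < l1 := by
        by_contra hcon
        have : n = l1 - 1 ∨ n = l1 - 2 := by omega
        rcases this with h9 | h9
        · rw [h9, h.he1] at hWn
          exact absurd hWn (by simp)
        · rw [h9, h.he2] at hWn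
          exact absurd hWn (by simp)
      obtain ⟨f1, f2, f3, f4⟩ := ha_first h n g1 (by omega)
      have hs : cx W1 (n + 1) = cx W1 n + 1 := by
        rw [ha_cx_succ, if_pos hWn]
      obtain ⟨f1', f2', f3', f4'⟩ := ha_first h (n + 1) (by omega) (by omega)
      rw [← hi] at f1 f2 f3 f4 hs
      rw [hs] at f1' f2' f3' f4'
      have t1 : (3 : ℤ) ≤ j := by omega
      have t2 : (j : ℤ) ≤ B - 1 := by omega
      have t3 : (i : ℤ) + 1 ≤ N := by omega
      have p1 := mul_le_mul_of_nonneg_left t1 hL0.le
      have p2 := mul_le_mul_of_nonneg_left t2 hL0.le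
      rw [mul_sub] at p2
      have r1 : 5 * (lam : ℤ) ≤ L * j - i := by omega
      have r2 : L * j - i ≤ M - lam - 2 := by omega
      rcases hall with ⟨k, k1, k2, k3⟩ | k3 | k3 | ⟨n', i', j', g1', g2', g3', g4', k3⟩
      · exact ha_pos k3 (by omega) (by omega)
      · exact ha_pos k3 (by omega) (by omega)
      · have k4 := ha_M k3 (by omega) (by omega)
        -- L * (j + 1) - i = L * B - N
        have k5 : L * (B - 1 - j) = N - i := by
          rw [hM] at k4
          linarith
        have k6 := ha_uniq hL0 k5 (by omega) (by omega)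
        rw [k6] at k5
        omega
      · obtain ⟨t1', t2', t3', t4'⟩ := hmid n' i' j' g1' g2' g3' g4'
        have k4 := ha_zero k3 (by omega) (by omega)
        have k5 : L * (j - j') = i - i' := by linarith
        have k6 : (j : ℤ) - j' = 0 := ha_uniq hL0 k5 (by omega) (by omega)
        rw [k6] at k5
        have k8 : i' = i := by omega
        have k9 : j' = j := by omega
        have k10 : n' = n + 1 := by omega
        rw [k10] at g3'
        omega
    | true =>
      simp at hi
      have hWn : W1 n = false := by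
        cases hW : W1 n
        · rfl
        · exact absurd hW hcx
      have hs : cx W1 (n + 1) = cx W1 n := by
        rw [ha_cx_succ, hWn]; simp
      have m1 : cx W1 2 ≤ cx W1 n := ha_cx_mono W1 (by omega)
      have m2 : cx W1 n ≤ cx W1 l1 := ha_cx_mono W1 (by omega)
      have m3 : cx W1 n ≤ cx W1 2 + (n - 2) := by
        have := ha_cx_add W1 2 (n - 2)
        rwa [show 2 + (n - 2) = n by omega] at this
      have m4 : cx W1 l1 ≤ cx W1 (n + 1) + (l1 - (n + 1)) := by
        have := ha_cx_add W1 (n + 1) (l1 - (n + 1))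
        rwa [show n + 1 + (l1 - (n + 1)) = l1 by omega] at this
      have t1 : (1 : ℤ) ≤ j := by omega
      have t2 : (j : ℤ) ≤ B - 1 := by omega
      have t3 : (i : ℤ) ≤ N + 1 := by omega
      have t4 : (2 : ℤ) ≤ i := by omega
      have p1 := mul_le_mul_of_nonneg_left t1 hL0.le
      have p2 := mul_le_mul_of_nonneg_left t2 hL0.le
      rw [mul_sub] at p2
      have r1 : (lam : ℤ) ≤ L * j - i := by omega
      have r2 : L * j - i ≤ M - lam - 3 := by omega
      rcases hall with ⟨k, k1, k2, k3⟩ | k3 | k3 | ⟨n', i', j', g1', g2', g3', g4', k3⟩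
      · exact ha_pos k3 (by omega) (by omega)
      · have k4 := ha_zero k3 (by omega) (by omega)
        have k5 : L * (j - 1) = i - 1 := by
          have : L * (j - 1) = L * j - L := by ring
          rw [this]
          omega
        have k6 := ha_uniq hL0 k5 (by omega) (by omega)
        rw [k6] at k5
        omega
      · have k4 := ha_M k3 (by omega) (by omega)
        have k5 : L * (B - 1 - j) = N - i := by
          rw [hM] at k4
          linarith
        have k7 := ha_uniq hL0 k5 (by omega) (by omega)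
        rw [k7] at k5
        have k8 : (i : ℤ) = N := by linarith
        -- n = l1 - 2
        have k9 : n = l1 - 2 := by omega
        rw [k9] at hi
        omega
      · obtain ⟨t1', t2', t3', t4'⟩ := hmid n' i' j' g1' g2' g3' g4'
        have k4 := ha_zero k3 (by omega) (by omega)
        have k5 : L * (j - j') = i - i' := by linarith
        have k6 : (j : ℤ) - j' = 0 := ha_uniq hL0 k5 (by omega) (by omega)
        rw [k6] at k5
        have k8 : i' = i := by omega
        have k9 : j' = j := by omega
        have k10 : n' = n + 1 := by omega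
        rw [k10] at g3'
        omega

end Pool.Agent.H15.PCP3
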