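import Mathlib
import Pool.Agent.H15.PCP3.HA

set_option autoImplicit false

/-!
# Module HB: from the hole model to the two words

Let `(k, z)` be a solution of `HM (Vh ..) M a b`; write `p_i = M - 1 + xs a b z i`
`= M - 1 + a (number of x among z_0..z_(i-1)) + b (number of y)`, `i` is a hole time if
`p_i % M = M - 1`, i.e. `M ∣ xs a b z i`; `0` and `k+1` are hole times.
Parsing: if `t ≤ k` is a hole time, then there is `c` with `t + wl c ≤ k + 1`, `z (t+q) = wd c q` for
`q < wl c`, and `t + wl c` is a hole time, and `xs a b z (t + wl c) = xs a b z t + (if c then A1 else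
A2) M`.  Proof: by induction on `n`: if `t + n ≤ k + 1` and no `t + n'` with `1 ≤ n' ≤ n` is a hole time,
then `z_t .. z_(t+n-1)` is a prefix of one of the words, `n < wl` (`HHyp.cont`; the residue at
`t + n'` is that of the counts of the prefix, and it is allowed as `hlet .. p_(t+n') = true` and it is
not a hole; the first hole time after `t` exists because `k + 1` is one; at the first hole time the
prefix is the full word by `HHyp.no_hole` and `HHyp.cont`).
So `z` on `[0, k+1)` is a concatenation of words `c_0 .. c_K` (`K + 1` words; strong induction), let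
`X T = c_T`.  `xs l1 (2 lam) X (K+1) = k + 1`, `xs a b z (xs l1 (2 lam) X T) = M xs A1 A2 X T`; at `T = K+1`
this is `(k+1) M`, so `xs A1 A2 X (K+1) = k + 1`.  At the hole time `t_T = xs l1 (2 lam) X T`,
`T ≤ K`: `p / M = xs A1 A2 X T`, so `z (xs A1 A2 X T) = true`, which is `XTxt`.  Last letter: `z k = true`
and the first word ends with y (`he1`), so `X K = false`.
-/

namespace Pool.Agent.H15.PCP3

variable {W1 : ℕ → Bool} {l1 lam A1 A2 M a b : ℕ}

private lemma hb_xs_add (A B : ℕ) (X : ℕ → Bool) (t n : ℕ) :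
    xs A B X (t + n) = xs A B X t + xs A B (fun q => X (t + q)) n := by
  induction n with
  | zero => simp [xs]
  | succ n ih =>
    rw [← Nat.add_assoc]
    simp only [xs]
    rw [ih]
    omega

private lemma hb_cx_succ (X : ℕ → Bool) (n : ℕ) :
    cx X (n + 1) = cx X n + (if X n then 1 else 0) := by
  unfold cx
  rw [Nat.count_succ]

private lemma hb_cx_le (X : ℕ → Bool) (n : ℕ) : cx X n ≤ n := by
  unfold cx
  exact Nat.count_le _

private lemma hb_xs_cx (A B : ℕ) (X : ℕ → Bool) (n : ℕ) :
    xs A B X n = A * cx X n + B * (n - cx X n) := by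
  induction n with
  | zero => simp [xs, cx]
  | succ n ih =>
    have hle := hb_cx_le X n
    rw [hb_cx_succ]
    simp only [xs]
    rw [ih]
    cases hx : X n with
    | false =>
      simp only [Bool.false_eq_true, if_false, Nat.add_zero]
      have : n + 1 - cx X n = (n - cx X n) + 1 := by omega
      rw [this]; ring
    | true =>
      simp only [if_true]
      have : n + 1 - (cx X n + 1) = n - cx X n := by omega
      rw [this]; ring

private lemma hb_cx_congr {X Y : ℕ → Bool} {n : ℕ} (h : ∀ q < n, X q = Y q) : cx X n = cx Y n := by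
  induction n with
  | zero => simp [cx]
  | succ n ih =>
    rw [hb_cx_succ, hb_cx_succ, ih (fun q hq => h q (by omega)), h n (by omega)]

private lemma hb_xs_strict {A B : ℕ} (hA : 1 ≤ A) (hB : 1 ≤ B) (X : ℕ → Bool) (T n : ℕ) :
    xs A B X T + n ≤ xs A B X (T + n) := by
  induction n with
  | zero => simp
  | succ n ih =>
    rw [← Nat.add_assoc T n 1]
    simp only [xs]
    split_ifs <;> omega

/-- a word starts at `t` -/
private def hbW (W1 : ℕ → Bool) (l1 lam k : ℕ) (z : ℕ → Bool) (t : ℕ) (c : Bool) : Prop :=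
  t + wl l1 lam c ≤ k + 1 ∧ ∀ q < wl l1 lam c, z (t + q) = wd W1 lam c q

private lemma hb_wl_pos (h : HHyp W1 l1 lam A1 A2 M a b) (c : Bool) : 1 ≤ wl l1 lam c := by
  have h1 := h.hl5
  have h2 := h.hlam
  unfold wl
  split_ifs <;> omega

/-- one more letter -/
private lemma hb_step (h : HHyp W1 l1 lam A1 A2 M a b) {k : ℕ} {z : ℕ → Bool}
    (hend : M ∣ xs a b z (k + 1))
    (hall : ∀ i ≤ k, hlet (Vh W1 l1 lam M a b) M z (M - 1 + xs a b z i) = true)
    {t : ℕ} (ht : M ∣ xs a b z t) {n : ℕ} (htn : t + n ≤ k) {c : Bool} (hn : n < wl l1 lam c)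
    (hc : ∀ q < n, z (t + q) = wd W1 lam c q) :
    ∃ c' : Bool, n < wl l1 lam c' ∧ ∀ q < n + 1, z (t + q) = wd W1 lam c' q := by
  have hM0 : 0 < M := by have := h.hbM; omega
  have hcx : cx (fun q => z (t + q)) n = cx (wd W1 lam c) n := hb_cx_congr hc
  set i := cx (fun q => z (t + q)) (n + 1) with hi
  have hi2 : i = cx (wd W1 lam c) n + (if z (t + n) then 1 else 0) := by
    rw [hi, hb_cx_succ, hcx]
  have hile : i ≤ n + 1 := hb_cx_le _ _
  have hs : xs a b z (t + (n + 1)) = xs a b z t + (a * i + b * (n + 1 - i)) := by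
    rw [hb_xs_add, hb_xs_cx a b (fun q => z (t + q)) (n + 1)]
  have hkey : M ∣ a * i + b * (n + 1 - i) ∨
      Vh W1 l1 lam M a b ((M - 1 + a * i + b * (n + 1 - i)) % M) = true := by
    by_cases hh : M ∣ a * i + b * (n + 1 - i)
    · exact Or.inl hh
    · right
      have hnot : ¬ M ∣ xs a b z (t + (n + 1)) := by
        rw [hs]
        intro hd
        exact hh ((Nat.dvd_add_right ht).1 hd)
      have hle : t + (n + 1) ≤ k := by
        by_contra hcon
        have : t + (n + 1) = k + 1 := by omega
        rw [this] at hnot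
        exact hnot hend
      have h1 := hall _ hle
      unfold hlet at h1
      have h2 : ¬ (M - 1 + xs a b z (t + (n + 1))) % M = M - 1 := by
        intro h3
        apply hnot
        have h4 : (M - 1 + xs a b z (t + (n + 1)) + 1) % M = 0 := by
          rw [Nat.add_mod, h3]
          have : (M - 1 + 1 % M) % M = (M - 1 + 1) % M := by
            rw [Nat.add_mod (M - 1) (1 % M), Nat.mod_mod, ← Nat.add_mod]
          rw [this, Nat.sub_add_cancel hM0, Nat.mod_self]
        have h5 : M - 1 + xs a b z (t + (n + 1)) + 1 = M + xs a b z (t + (n + 1)) := by omega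
        rw [h5, Nat.add_mod_left] at h4
        exact Nat.dvd_of_mod_eq_zero h4
      rw [if_neg h2, hs] at h1
      obtain ⟨m, hm⟩ := ht
      have h6 : (M - 1 + (xs a b z t + (a * i + b * (n + 1 - i)))) % M =
          (M - 1 + a * i + b * (n + 1 - i)) % M := by
        rw [hm]
        have : M - 1 + (M * m + (a * i + b * (n + 1 - i))) =
            (M - 1 + a * i + b * (n + 1 - i)) + M * m := by ring
        rw [this, Nat.add_mul_mod_self_left]
      rwa [h6] at h1
  obtain ⟨c', h1, h2, h3⟩ := h.cont c n hn (z (t + n)) i (n + 1 - i) hi2 (by omega) hkey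
  refine ⟨c', h2, ?_⟩
  intro q hq
  by_cases hqn : q < n
  · rw [h1 q hqn]; exact hc q hqn
  · have : q = n := by omega
    rw [this, h3]

/-- at a hole time a full word starts -/
private lemma hb_word (h : HHyp W1 l1 lam A1 A2 M a b) {k : ℕ} {z : ℕ → Bool}
    (hend : M ∣ xs a b z (k + 1))
    (hall : ∀ i ≤ k, hlet (Vh W1 l1 lam M a b) M z (M - 1 + xs a b z i) = true)
    {t : ℕ} (ht : M ∣ xs a b z t) (htk : t ≤ k) : ∃ c, hbW W1 l1 lam k z t c := by
  have key : ∀ n : ℕ, (∃ c, hbW W1 l1 lam k z t c) ∨
      (∃ c : Bool, n < wl l1 lam c ∧ t + n ≤ k ∧ ∀ q < n, z (t + q) = wd W1 lam c q) := by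
    intro n
    induction n with
    | zero =>
      right
      refine ⟨true, hb_wl_pos h true, by omega, ?_⟩
      intro q hq
      omega
    | succ n ih =>
      rcases ih with ih | ⟨c, hn, htn, hc⟩
      · exact Or.inl ih
      · obtain ⟨c', hn', hc'⟩ := hb_step h hend hall ht htn hn hc
        by_cases hfull : n + 1 = wl l1 lam c'
        · left
          refine ⟨c', by omega, ?_⟩
          intro q hq
          exact hc' q (by omega)
        · right
          refine ⟨c', by omega, ?_, hc'⟩
          by_contra hcon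
          have he : t + (n + 1) = k + 1 := by omega
          have hs : xs a b z (t + (n + 1)) = xs a b z t +
              (a * cx (wd W1 lam c') (n + 1) + b * (n + 1 - cx (wd W1 lam c') (n + 1))) := by
            rw [hb_xs_add, hb_xs_cx a b (fun q => z (t + q)) (n + 1), hb_cx_congr hc']
          rw [he] at hs
          rw [hs] at hend
          exact h.no_hole c' (n + 1) (by omega) (by omega) ((Nat.dvd_add_right ht).1 hend)
  rcases key (k + 1) with h1 | ⟨c, _, h2, _⟩
  · exact h1
  · omega

/-- the end of a word is a hole time -/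
private lemma hb_next (h : HHyp W1 l1 lam A1 A2 M a b) {k : ℕ} {z : ℕ → Bool} {t : ℕ} {c : Bool}
    (hc : hbW W1 l1 lam k z t c) :
    xs a b z (t + wl l1 lam c) = xs a b z t + (if c then A1 else A2) * M := by
  rw [hb_xs_add, hb_xs_cx a b (fun q => z (t + q)) (wl l1 lam c), hb_cx_congr hc.2,
    h.end_hole c]

open Classical in
/-- choice of the word -/
private noncomputable def hbC (W1 : ℕ → Bool) (l1 lam k : ℕ) (z : ℕ → Bool) (t : ℕ) : Bool :=
  if hh : ∃ c, hbW W1 l1 lam k z t c then hh.choose else false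

private lemma hbC_spec {k : ℕ} {z : ℕ → Bool} {t : ℕ} (hh : ∃ c, hbW W1 l1 lam k z t c) :
    hbW W1 l1 lam k z t (hbC W1 l1 lam k z t) := by
  unfold hbC
  rw [dif_pos hh]
  exact hh.choose_spec

/-- the starting times of the words -/
private noncomputable def hbT (W1 : ℕ → Bool) (l1 lam k : ℕ) (z : ℕ → Bool) : ℕ → ℕ
  | 0 => 0
  | T + 1 => hbT W1 l1 lam k z T + wl l1 lam (hbC W1 l1 lam k z (hbT W1 l1 lam k z T))

/-- the sequence of the words -/
private noncomputable def hbX (W1 : ℕ → Bool) (l1 lam k : ℕ) (z : ℕ → Bool) (T : ℕ) : Bool :=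
  hbC W1 l1 lam k z (hbT W1 l1 lam k z T)

private lemma hbT_eq (W1 : ℕ → Bool) (l1 lam k : ℕ) (z : ℕ → Bool) (T : ℕ) :
    xs l1 (2 * lam) (hbX W1 l1 lam k z) T = hbT W1 l1 lam k z T := by
  induction T with
  | zero => rfl
  | succ T ih =>
    simp only [xs, hbT]
    rw [ih]
    rfl

theorem xw_of_hm (h : HHyp W1 l1 lam A1 A2 M a b) (hm : HM (Vh W1 l1 lam M a b) M a b) :
    XW W1 (w2f lam) l1 (2 * lam) A1 A2 := by
  obtain ⟨k, z, hzk, hsum, hall⟩ := hm
  have hM0 : 0 < M := by have := h.hbM; omega
  have hsk : xs a b z (k + 1) = (k + 1) * M := by omega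
  have hend : M ∣ xs a b z (k + 1) := by rw [hsk]; exact Dvd.intro_left _ rfl
  set X := hbX W1 l1 lam k z with hX
  set τ := hbT W1 l1 lam k z with hτ
  have hτs : ∀ T, τ (T + 1) = τ T + wl l1 lam (X T) := fun T => rfl
  have hτlt : ∀ T, τ T < τ (T + 1) := by
    intro T
    have := hb_wl_pos h (X T)
    rw [hτs]; omega
  have hτge : ∀ T, T ≤ τ T := by
    intro T
    induction T with
    | zero => exact Nat.zero_le _
    | succ T ih => have := hτlt T; omega
  have hτxs : ∀ T, xs l1 (2 * lam) X T = τ T := hbT_eq W1 l1 lam k z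
  -- hole times
  have hhole : ∀ T, τ T ≤ k + 1 → xs a b z (τ T) = xs A1 A2 X T * M := by
    intro T
    induction T with
    | zero => intro _; simp [hτ, hbT, xs]
    | succ T ih =>
      intro hT
      have h1 := hτlt T
      have h2 := ih (by omega)
      have h3 : M ∣ xs a b z (τ T) := by rw [h2]; exact Dvd.intro_left _ rfl
      have h4 := hbC_spec (hb_word h hend hall h3 (by omega))
      have h5 := hb_next h h4
      have h6 : τ T + wl l1 lam (hbC W1 l1 lam k z (τ T)) = τ (T + 1) := rfl
      rw [h6, h2] at h5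
      rw [h5]
      simp only [xs]
      have h7 : X T = hbC W1 l1 lam k z (τ T) := rfl
      rw [← h7]
      ring
  have hspec : ∀ T, τ T ≤ k → hbW W1 l1 lam k z (τ T) (X T) := by
    intro T hT
    have h2 := hhole T (by omega)
    have h3 : M ∣ xs a b z (τ T) := by rw [h2]; exact Dvd.intro_left _ rfl
    exact hbC_spec (hb_word h hend hall h3 hT)
  -- the last word
  have hex : ∃ T, k + 1 ≤ τ T := ⟨k + 1, hτge _⟩
  classical
  obtain ⟨K, hK, hK1⟩ : ∃ K, τ K ≤ k ∧ τ (K + 1) = k + 1 := by
    have h1 := Nat.find_spec hex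
    have h0 : Nat.find hex ≠ 0 := by
      intro he
      rw [he] at h1
      have : τ 0 = 0 := rfl
      omega
    obtain ⟨K, hKe⟩ := Nat.exists_eq_succ_of_ne_zero h0
    have h2 : ¬ (k + 1 ≤ τ K) := Nat.find_min hex (by omega)
    refine ⟨K, by omega, ?_⟩
    have h3 := (hspec K (by omega)).1
    rw [hKe] at h1
    have h4 := hτs K
    have h1' : k + 1 ≤ τ (K + 1) := h1
    omega
  have hKA : xs A1 A2 X (K + 1) = k + 1 := by
    have h1 := hhole (K + 1) (by omega)
    rw [hK1, hsk] at h1
    exact (Nat.eq_of_mul_eq_mul_right hM0 h1).symm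
  refine ⟨K, X, ?_, ?_, ?_⟩
  · -- last word
    by_contra hcon
    have hXK : X K = true := by
      cases hx : X K with
      | false => exact absurd hx hcon
      | true => rfl
    have h1 := (hspec K hK)
    rw [hXK] at h1
    have hl5 := h.hl5
    have h2 := hτs K
    rw [hXK] at h2
    have hwl : wl l1 lam true = l1 := rfl
    rw [hwl] at h2
    have h3 := h1.2 (l1 - 1) (by rw [hwl]; omega)
    have h4 : τ K + (l1 - 1) = k := by omega
    rw [h4, hzk] at h3
    have h5 : wd W1 lam true (l1 - 1) = W1 (l1 - 1) := rfl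
    rw [h5, h.he1] at h3
    exact absurd h3 (by decide)
  · rw [hKA, hτxs, hK1]
  · intro T hT
    have hTk : τ T ≤ k := by
      have hmono : StrictMono τ := strictMono_nat_of_lt_succ hτlt
      have := hmono.monotone hT
      omega
    have h1 := hall (τ T) hTk
    rw [hhole T (by omega)] at h1
    set g := xs A1 A2 X T with hg
    unfold hlet at h1
    have h2 : (M - 1 + g * M) % M = M - 1 := by
      rw [Nat.add_mul_mod_self_right, Nat.mod_eq_of_lt (by omega)]
    have h3 : (M - 1 + g * M) / M = g := by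
      rw [Nat.add_mul_div_right _ _ hM0, Nat.div_eq_of_lt (by omega), Nat.zero_add]
    rw [if_pos h2, h3] at h1
    -- position g
    have hgk : g < k + 1 := by
      have h4 := hb_xs_strict h.hA1 h.hA2 X T (K + 1 - T)
      have h5 : T + (K + 1 - T) = K + 1 := by omega
      rw [h5, hKA] at h4
      omega
    have hex2 : ∃ s, g < τ s := ⟨K + 1, by omega⟩
    have h6 := Nat.find_spec hex2
    have h0 : Nat.find hex2 ≠ 0 := by
      intro he
      rw [he] at h6
      have : τ 0 = 0 := rfl
      omega
    obtain ⟨s, hse⟩ := Nat.exists_eq_succ_of_ne_zero h0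
    have h7 : ¬ (g < τ s) := Nat.find_min hex2 (by omega)
    rw [hse] at h6
    have h6' : g < τ (s + 1) := h6
    have h8 := (hspec s (by omega)).2 (g - τ s) (by have := hτs s; omega)
    have h9 : τ s + (g - τ s) = g := by omega
    rw [h9, h1] at h8
    refine ⟨s, by rw [hτxs]; omega, by rw [hτxs]; omega, ?_⟩
    rw [hτxs]
    unfold wd at h8
    exact h8.symm

end Pool.Agent.H15.PCP3
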