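import Mathlib
import Pool.Agent.H15.PCP3.HA

set_option autoImplicit false

/-!
# Module HC: from the two words to the hole model

Given `(K, X)` with `X K = false`, `xs A1 A2 X (K+1) = xs l1 (2 lam) X (K+1) =: k + 1` (it is `≥ 1`
since `lam ≥ 3`) and the visited letters x.  Let `z q = true` iff `XTxt .. X q` (`decide`, classical).
For `t = xs l1 (2 lam) X T` and `q < wl (X T)`: `z (t + q) = wd (X T) q` (uniqueness of the interval
containing a position).  `xs a b z (xs l1 (2 lam) X T) = M xs A1 A2 X T` by `HHyp.end_hole`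
(induction on `T`), so the last equation of `HM` holds.  For `i ≤ k` write `i = xs l1 (2 lam) X T + n`
with `T ≤ K`, `n < wl (X T)`: `p_i = M - 1 + M xs A1 A2 X T + a i' + b j'` with `(i', j')` the counts
of the prefix of length `n` of the word `X T`.  If `n = 0`: hole, `p_i / M = xs A1 A2 X T`, the letter
is visited.  If `n ≥ 1`: not a hole (`HHyp.no_hole`) and `Vh` holds by definition.
`z k = true`: the last word is the second one and ends with x (`2 lam - 1 ≠ lam`).
-/

namespace Pool.Agent.H15.PCP3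

variable {W1 : ℕ → Bool} {l1 lam A1 A2 M a b : ℕ}

theorem hc_wl_pos (h : HHyp W1 l1 lam A1 A2 M a b) (c : Bool) : 1 ≤ wl l1 lam c := by
  have h1 := h.hl5
  have h2 := h.hlam
  unfold wl
  split_ifs <;> omega

theorem hc_xs_succ (l1 lam : ℕ) (X : ℕ → Bool) (T : ℕ) :
    xs l1 (2 * lam) X (T + 1) = xs l1 (2 * lam) X T + wl l1 lam (X T) := rfl

theorem hc_mono (l1 lam : ℕ) (X : ℕ → Bool) : Monotone (xs l1 (2 * lam) X) := by
  apply monotone_nat_of_le_succ
  intro T
  rw [hc_xs_succ]
  omega

/-- the interval containing a position is unique -/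
theorem hc_unique {l1 lam : ℕ} {X : ℕ → Bool} {t T p : ℕ}
    (h1 : xs l1 (2 * lam) X t ≤ p) (h2 : p < xs l1 (2 * lam) X (t + 1))
    (h3 : xs l1 (2 * lam) X T ≤ p) (h4 : p < xs l1 (2 * lam) X (T + 1)) : t = T := by
  have hm := hc_mono l1 lam X
  rcases lt_trichotomy t T with h | h | h
  · have := hm (show t + 1 ≤ T by omega)
    omega
  · exact h
  · have := hm (show T + 1 ≤ t by omega)
    omega

theorem hc_z (h : HHyp W1 l1 lam A1 A2 M a b) (X : ℕ → Bool) (T q : ℕ)
    (hq : q < wl l1 lam (X T)) :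
    XTxt W1 (w2f lam) l1 (2 * lam) X (xs l1 (2 * lam) X T + q) ↔ wd W1 lam (X T) q = true := by
  have h3 : xs l1 (2 * lam) X T ≤ xs l1 (2 * lam) X T + q := by omega
  have h4 : xs l1 (2 * lam) X T + q < xs l1 (2 * lam) X (T + 1) := by
    rw [hc_xs_succ]; omega
  constructor
  · rintro ⟨t, h1, h2, ht⟩
    have := hc_unique h1 h2 h3 h4
    subst this
    rw [Nat.add_sub_cancel_left] at ht
    unfold wd
    exact ht
  · intro hw
    refine ⟨T, h3, h4, ?_⟩
    rw [Nat.add_sub_cancel_left]
    exact hw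

theorem hc_cx_succ (W : ℕ → Bool) (n : ℕ) :
    cx W (n + 1) = cx W n + (if W n = true then 1 else 0) := by
  unfold cx
  rw [Nat.count_succ]

theorem hc_cx_le (W : ℕ → Bool) (n : ℕ) : cx W n ≤ n := by
  unfold cx
  exact Nat.count_le _

theorem hc_prefix (h : HHyp W1 l1 lam A1 A2 M a b) (X z : ℕ → Bool)
    (hz : ∀ T q, q < wl l1 lam (X T) → z (xs l1 (2 * lam) X T + q) = wd W1 lam (X T) q)
    (T n : ℕ) (hn : n ≤ wl l1 lam (X T)) :
    xs a b z (xs l1 (2 * lam) X T + n) = xs a b z (xs l1 (2 * lam) X T) +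
      (a * cx (wd W1 lam (X T)) n + b * (n - cx (wd W1 lam (X T)) n)) := by
  induction n with
  | zero => simp [cx]
  | succ n ih =>
    have e1 : xs a b z (xs l1 (2 * lam) X T + (n + 1)) = xs a b z (xs l1 (2 * lam) X T + n) +
        (if z (xs l1 (2 * lam) X T + n) then a else b) := rfl
    rw [e1, ih (by omega), hz T n (by omega), hc_cx_succ]
    have hle := hc_cx_le (wd W1 lam (X T)) n
    by_cases hw : wd W1 lam (X T) n = true
    · rw [if_pos hw, if_pos hw]
      have e2 : n + 1 - (cx (wd W1 lam (X T)) n + 1) = n - cx (wd W1 lam (X T)) n := by omega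
      rw [e2]
      ring
    · rw [if_neg hw, if_neg hw]
      have e2 : n + 1 - (cx (wd W1 lam (X T)) n + 0) = (n - cx (wd W1 lam (X T)) n) + 1 := by omega
      rw [e2]
      ring

theorem hc_full (h : HHyp W1 l1 lam A1 A2 M a b) (X z : ℕ → Bool)
    (hz : ∀ T q, q < wl l1 lam (X T) → z (xs l1 (2 * lam) X T + q) = wd W1 lam (X T) q)
    (T : ℕ) : xs a b z (xs l1 (2 * lam) X T) = M * xs A1 A2 X T := by
  induction T with
  | zero => simp [xs]
  | succ T ih =>
    rw [hc_xs_succ, hc_prefix h X z hz T _ le_rfl, ih, h.end_hole (X T)]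
    show _ = M * (xs A1 A2 X T + (if X T then A1 else A2))
    ring

/-- every position before the end lies in one of the intervals -/
theorem hc_find (l1 lam : ℕ) (X : ℕ → Bool) (K i : ℕ) (hi : i < xs l1 (2 * lam) X (K + 1)) :
    ∃ T ≤ K, ∃ n, n < wl l1 lam (X T) ∧ i = xs l1 (2 * lam) X T + n := by
  induction K with
  | zero =>
    refine ⟨0, le_rfl, i, ?_, ?_⟩
    · rw [hc_xs_succ] at hi
      have : xs l1 (2 * lam) X 0 = 0 := rfl
      omega
    · have : xs l1 (2 * lam) X 0 = 0 := rfl
      omega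
  | succ K ih =>
    by_cases hlt : i < xs l1 (2 * lam) X (K + 1)
    · obtain ⟨T, hT, n, hn, he⟩ := ih hlt
      exact ⟨T, by omega, n, hn, he⟩
    · refine ⟨K + 1, le_rfl, i - xs l1 (2 * lam) X (K + 1), ?_, by omega⟩
      rw [hc_xs_succ] at hi
      omega

theorem hm_of_xw (h : HHyp W1 l1 lam A1 A2 M a b) (hx : XW W1 (w2f lam) l1 (2 * lam) A1 A2) :
    HM (Vh W1 l1 lam M a b) M a b := by
  classical
  obtain ⟨K, X, hXK, hend, hvis⟩ := hx
  have hM : 1 ≤ M := by
    have := h.hb1
    have := h.hbM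
    omega
  set z : ℕ → Bool := fun q => decide (XTxt W1 (w2f lam) l1 (2 * lam) X q) with hzdef
  have hz : ∀ T q, q < wl l1 lam (X T) →
      z (xs l1 (2 * lam) X T + q) = wd W1 lam (X T) q := by
    intro T q hq
    have := hc_z h X T q hq
    simp only [hzdef]
    by_cases hw : wd W1 lam (X T) q = true
    · rw [hw, decide_eq_true_iff]
      exact this.2 hw
    · rw [Bool.not_eq_true] at hw
      rw [hw, decide_eq_false_iff_not, this, hw]
      simp
  have hLpos : 1 ≤ xs l1 (2 * lam) X (K + 1) := by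
    have := hc_wl_pos h (X K)
    rw [hc_xs_succ]
    omega
  have hk : xs l1 (2 * lam) X (K + 1) - 1 + 1 = xs l1 (2 * lam) X (K + 1) := by omega
  refine ⟨xs l1 (2 * lam) X (K + 1) - 1, z, ?_, ?_, ?_⟩
  · have hlam := h.hlam
    have hw : wl l1 lam (X K) = 2 * lam := by
      unfold wl; rw [hXK]; simp
    have e : xs l1 (2 * lam) X (K + 1) - 1 = xs l1 (2 * lam) X K + (2 * lam - 1) := by
      rw [hc_xs_succ, hw]; omega
    rw [e, hz K (2 * lam - 1) (by rw [hw]; omega), hXK]
    unfold wd w2f
    simp only [Bool.false_eq_true, if_false, ne_eq, decide_not, Bool.not_eq_eq_eq_not, Bool.not_true,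
      decide_eq_false_iff_not]
    omega
  · rw [hk, hc_full h X z hz (K + 1), hend]
    ring
  · intro i hi
    obtain ⟨T, hT, n, hn, rfl⟩ := hc_find l1 lam X K i (by omega)
    rw [hc_prefix h X z hz T n hn.le, hc_full h X z hz T]
    set s : ℕ := a * cx (wd W1 lam (X T)) n + b * (n - cx (wd W1 lam (X T)) n) with hs
    have hmod : (M - 1 + (M * xs A1 A2 X T + s)) % M = (M - 1 + s) % M := by
      have : M - 1 + (M * xs A1 A2 X T + s) = M - 1 + s + M * xs A1 A2 X T := by ring
      rw [this, Nat.add_mul_mod_self_left]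
    unfold hlet
    rcases Nat.eq_zero_or_pos n with hn0 | hn0
    · subst hn0
      have hs0 : s = 0 := by simp [hs, cx]
      have hm1 : (M - 1 + (M * xs A1 A2 X T + s)) % M = M - 1 := by
        rw [hmod, hs0, Nat.add_zero]
        exact Nat.mod_eq_of_lt (by omega)
      rw [if_pos hm1, hs0]
      have hdiv : (M - 1 + (M * xs A1 A2 X T + 0)) / M = xs A1 A2 X T := by
        rw [Nat.add_zero, Nat.add_mul_div_left _ _ (by omega), Nat.div_eq_of_lt (by omega), zero_add]
      rw [hdiv]
      simp only [hzdef, decide_eq_true_iff]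
      exact hvis T hT
    · have hno := h.no_hole (X T) n hn0 hn
      have hne : ¬ (M - 1 + (M * xs A1 A2 X T + s)) % M = M - 1 := by
        rw [hmod]
        intro hcon
        apply hno
        show M ∣ s
        have h1 : (M - 1 + s) % M = (M - 1 + 0) % M := by
          rw [hcon, Nat.add_zero, Nat.mod_eq_of_lt (by omega)]
        have h2 : (s : ℕ) ≡ 0 [MOD M] := Nat.ModEq.add_left_cancel' (M - 1) h1
        exact (Nat.modEq_zero_iff_dvd).1 h2
      rw [if_neg hne, hmod]
      unfold Vh
      rw [decide_eq_true_iff]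
      have hs' : M - 1 + s = M - 1 + a * cx (wd W1 lam (X T)) n +
          b * (n - cx (wd W1 lam (X T)) n) := by rw [hs]; ring
      rw [hs']
      by_cases hXT : X T = true
      · left
        refine ⟨n, ?_, hn0, ?_⟩
        · rw [hXT] at hn; exact hn
        · rw [hXT]; rfl
      · right
        rw [Bool.not_eq_true] at hXT
        refine ⟨n, ?_, hn0, ?_⟩
        · rw [hXT] at hn; exact hn
        · rw [hXT]; rfl

end Pool.Agent.H15.PCP3
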