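import Mathlib
import Pool.Agent.H28.PCP.KA
import Pool.Agent.H15.PCP3.Defs

set_option autoImplicit false
set_option linter.unreachableTactic false
set_option linter.unusedTactic false

/-!
# Module KA: the program is primitive recursive

Compositions of arithmetic, `Primrec.ite`, `PrimrecPred.and/or`, `kaAdd`, `kaMul`, ..., `kaGetD` of
`Pool.Agent.H28.PCP.KA` (see `Qr_primrec`, `rule_primrec`, `Er_primrec` there for the style:
`repeat' first | assumption | exact Primrec.const _ | apply kaLt | ...`).  `ring`, `Prog.N`, `Prog.Eh`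
unfold definitionally (`rln`, `rgt` at `t % 8`, `t / 8 % (A + 1)`, `t / 8 / (A + 1)`).
-/

namespace Pool.Agent.H15.PCP3

open Pool.Agent.H28.PCP

variable {α : Type*} [Primcodable α]

theorem In_primrec (A : ℕ) {n : α → ℕ} (hn : Primrec n) : Primrec (fun x => In A (n x)) := by
  unfold In
  repeat' first
    | assumption
    | exact Primrec.const _
    | apply kaLt
    | apply kaLe
    | apply kaEq
    | apply kaEqB
    | apply PrimrecPred.and
    | apply PrimrecPred.or
    | apply Primrec.ite
    | apply PrimrecPred.decide
    | apply kaAdd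
    | apply kaSub
    | apply kaMul
    | apply kaDiv
    | apply kaMod
    | apply kaGetD
    | apply kaLen
    | apply Primrec₂.comp ‹_›
    | apply Primrec.comp ‹_›

theorem Sn_primrec (A : ℕ) {n : α → ℕ} (hn : Primrec n) : Primrec (fun x => Sn A (n x)) := by
  unfold Sn B0n b0n
  have h1 := In_primrec A hn
  repeat' first
    | assumption
    | exact Primrec.const _
    | apply kaLt
    | apply kaLe
    | apply kaEq
    | apply kaEqB
    | apply PrimrecPred.and
    | apply PrimrecPred.or
    | apply Primrec.ite
    | apply PrimrecPred.decide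
    | apply kaAdd
    | apply kaSub
    | apply kaMul
    | apply kaDiv
    | apply kaMod
    | apply kaGetD
    | apply kaLen
    | apply Primrec₂.comp ‹_›
    | apply Primrec.comp ‹_›

theorem OBn_primrec (A : ℕ) {n : α → ℕ} (hn : Primrec n) : Primrec (fun x => OBn A (n x)) := by
  unfold OBn
  have h1 := Sn_primrec A hn
  repeat' first
    | assumption
    | exact Primrec.const _
    | apply kaLt
    | apply kaLe
    | apply kaEq
    | apply kaEqB
    | apply PrimrecPred.and
    | apply PrimrecPred.or
    | apply Primrec.ite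
    | apply PrimrecPred.decide
    | apply kaAdd
    | apply kaSub
    | apply kaMul
    | apply kaDiv
    | apply kaMod
    | apply kaGetD
    | apply kaLen
    | apply Primrec₂.comp ‹_›
    | apply Primrec.comp ‹_›

theorem rln_primrec (A : ℕ) (hl : ℕ → Bool) (hhl : Primrec hl) {n S k a o b : α → ℕ}
    (hn : Primrec n) (hS : Primrec S) (hk : Primrec k) (ha : Primrec a) (ho : Primrec o)
    (hb : Primrec b) : Primrec (fun x => rln A hl (n x) (S x) (k x) (a x) (o x) (b x)) := by
  unfold rln
  repeat' first
    | assumption
    | exact Primrec.const _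
    | apply kaLt
    | apply kaLe
    | apply kaEq
    | apply kaEqB
    | apply PrimrecPred.and
    | apply PrimrecPred.or
    | apply Primrec.ite
    | apply PrimrecPred.decide
    | apply kaAdd
    | apply kaSub
    | apply kaMul
    | apply kaDiv
    | apply kaMod
    | apply kaGetD
    | apply kaLen
    | apply Primrec₂.comp ‹_›
    | apply Primrec.comp ‹_›

theorem ka_rhd_primrec (A : ℕ) (f : ℕ → ℕ → ℕ) (hl : ℕ → Bool) (hf : Primrec₂ f)
    (hhl : Primrec hl) {S k a o b : α → ℕ} (hS : Primrec S) (hk : Primrec k)
    (ha : Primrec a) (ho : Primrec o) (hb : Primrec b) :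
    Primrec (fun x => rhd A f hl (S x) (k x) (a x) (o x) (b x)) := by
  unfold rhd code
  repeat' first
    | assumption
    | exact Primrec.const _
    | apply kaLt
    | apply kaLe
    | apply kaEq
    | apply kaEqB
    | apply PrimrecPred.and
    | apply PrimrecPred.or
    | apply Primrec.ite
    | apply PrimrecPred.decide
    | apply kaAdd
    | apply kaSub
    | apply kaMul
    | apply kaDiv
    | apply kaMod
    | apply kaGetD
    | apply kaLen
    | apply Primrec₂.comp ‹_›
    | apply Primrec.comp ‹_›

theorem rgt_primrec (A : ℕ) (f : ℕ → ℕ → ℕ) (hl : ℕ → Bool) (hf : Primrec₂ f) (hhl : Primrec hl)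
    {w : α → List ℕ} {S k a o b i : α → ℕ} (hw : Primrec w) (hS : Primrec S) (hk : Primrec k)
    (ha : Primrec a) (ho : Primrec o) (hb : Primrec b) (hi : Primrec i) :
    Primrec (fun x => rgt A f hl (w x) (S x) (k x) (a x) (o x) (b x) (i x)) := by
  have hr := ka_rhd_primrec A f hl hf hhl hS hk ha ho hb
  unfold rgt code
  repeat' first
    | assumption
    | exact Primrec.const _
    | apply kaLt
    | apply kaLe
    | apply kaEq
    | apply kaEqB
    | apply PrimrecPred.and
    | apply PrimrecPred.or
    | apply Primrec.ite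
    | apply PrimrecPred.decide
    | apply kaAdd
    | apply kaSub
    | apply kaMul
    | apply kaDiv
    | apply kaMod
    | apply kaGetD
    | apply kaLen
    | apply Primrec₂.comp ‹_›
    | apply Primrec.comp ‹_›

theorem ringN_primrec (A : ℕ) (f : ℕ → ℕ → ℕ) (hl : ℕ → Bool) {w : α → List ℕ}
    (hw : Primrec w) : Primrec (fun x => (ring A f hl (w x)).N) := by
  have h1 := In_primrec A (kaLen hw)
  have h2 := OBn_primrec A (kaLen hw)
  change Primrec (fun x => In A (w x).length * (8 * (A + 1) * OBn A (w x).length))
  repeat' first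
    | assumption
    | exact Primrec.const _
    | apply kaLt
    | apply kaLe
    | apply kaEq
    | apply kaEqB
    | apply PrimrecPred.and
    | apply PrimrecPred.or
    | apply Primrec.ite
    | apply PrimrecPred.decide
    | apply kaAdd
    | apply kaSub
    | apply kaMul
    | apply kaDiv
    | apply kaMod
    | apply kaGetD
    | apply kaLen
    | apply Primrec₂.comp ‹_›
    | apply Primrec.comp ‹_›

theorem ringEh_primrec (A : ℕ) (f : ℕ → ℕ → ℕ) (hl : ℕ → Bool) (hf : Primrec₂ f)
    (hhl : Primrec hl) {w : α → List ℕ} {e m : α → ℕ} (hw : Primrec w) (he : Primrec e)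
    (hm : Primrec m) : Primrec (fun x => (ring A f hl (w x)).Eh (e x) (m x)) := by
  have hn := kaLen hw
  have hN := ringN_primrec A f hl hw
  have hS := Sn_primrec A hn
  have hT : Primrec (fun x => 8 * (A + 1) * OBn A (w x).length) :=
    kaMul (Primrec.const _) (OBn_primrec A hn)
  -- the slot part
  have hP : Primrec (fun x => 4 * (ring A f hl (w x)).N + 3) :=
    kaAdd (kaMul (Primrec.const _) hN) (Primrec.const _)
  have hq : Primrec (fun x => m x / (4 * (ring A f hl (w x)).N + 3)) := kaDiv hm hP
  have hr : Primrec (fun x => m x % (4 * (ring A f hl (w x)).N + 3)) := kaMod hm hP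
  have heT : Primrec (fun x => e x / (8 * (A + 1) * OBn A (w x).length)) := kaDiv he hT
  have heT2 : Primrec (fun x => e x % (8 * (A + 1) * OBn A (w x).length)) := kaMod he hT
  have ht : Primrec (fun x => if m x % (4 * (ring A f hl (w x)).N + 3) = 0 then code A 7 0 0
      else (m x % (4 * (ring A f hl (w x)).N + 3) - (2 * (ring A f hl (w x)).N + 2)) / 2 %
        (8 * (A + 1) * OBn A (w x).length)) := by
    refine Primrec.ite (kaEq hr (Primrec.const 0)) (Primrec.const _) ?_
    exact kaMod (kaDiv (kaSub hr (kaAdd (kaMul (Primrec.const _) hN) (Primrec.const _)))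
      (Primrec.const _)) hT
  have hb : Primrec (fun x => m x / (4 * (ring A f hl (w x)).N + 3) -
      e x / (8 * (A + 1) * OBn A (w x).length)) := kaSub hq heT
  have h8 := kaMod ht (Primrec.const 8)
  have h9 := kaMod (kaDiv ht (Primrec.const 8)) (Primrec.const (A + 1))
  have h10 := kaDiv (kaDiv ht (Primrec.const 8)) (Primrec.const (A + 1))
  have hln := rln_primrec A hl hhl hn hS h8 h9 h10 hb
  have hgt := rgt_primrec A f hl hf hhl hw hS h8 h9 h10 hb heT
  refine (PrimrecPred.decide ((kaLe heT hq).and ((kaLt heT hln).and (kaEq hgt heT2)))).of_eq ?_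
  intro x
  unfold Prog.Eh
  exact decide_eq_decide.2 Iff.rfl

end Pool.Agent.H15.PCP3
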