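import Mathlib
import Pool.Agent.H28.PCP.KA
import Pool.Agent.H15.PCP3.Defs

set_option autoImplicit false

/-!
# Module KB: the parameters and the first word are primitive recursive

Arithmetic compositions (`kaAdd`, `kaSub`, `kaMul`, ... of `Pool.Agent.H28.PCP.KA`).
`cx_primrec`: `cx W n` is a sum over `i < n` (`Primrec.nat_rec`, or `Nat.count` as the length of a
filtered range: `Nat.count_eq_card_filter_range`; e.g. `cx W (n+1) = cx W n + if W n then 1 else 0`
and `Primrec.nat_rec'`).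
`W1_primrec`: nested if; `Ev` is `decide (..) && Eh ..`.  `gpar N S Eh = gpar0 N S Eh (gpc N S Eh)`.
-/

namespace Pool.Agent.H15.PCP3

open Pool.Agent.H28.PCP

variable {α : Type*} [Primcodable α]

theorem cx_primrec {W : α → ℕ → Bool} {n : α → ℕ} (hW : Primrec (fun z : α × ℕ => W z.1 z.2))
    (hn : Primrec n) : Primrec (fun x => cx (W x) (n x)) := by
  have hstep : Primrec₂ (fun (x : α) (p : ℕ × ℕ) => p.2 + (if W x p.1 = true then 1 else 0)) := by
    refine kaAdd (Primrec.snd.comp Primrec.snd) (Primrec.ite (kaEqB ?_ (Primrec.const true))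
      (Primrec.const 1) (Primrec.const 0))
    exact hW.comp (Primrec.pair Primrec.fst (Primrec.fst.comp Primrec.snd))
  refine (Primrec.nat_rec' hn (Primrec.const 0) hstep).of_eq fun x => ?_
  induction n x with
  | zero => simp [cx]
  | succ m ih =>
    have e : cx (W x) (m + 1) = cx (W x) m + (if W x m = true then 1 else 0) := by
      unfold cx
      rw [Nat.count_succ]
    rw [e, ← ih]

theorem gP_primrec {N : α → ℕ} (hN : Primrec N) : Primrec (fun x => gP (N x)) :=
  kaAdd (kaMul (Primrec.const 4) hN) (Primrec.const 3)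

theorem gβ_primrec {N S : α → ℕ} (hN : Primrec N) (hS : Primrec S) :
    Primrec (fun x => gβ (N x) (S x)) :=
  kaAdd (kaMul (kaMul (Primrec.const 8) (gP_primrec hN)) hS) (Primrec.const 1)

theorem kb_gOm {N S : α → ℕ} (hN : Primrec N) (hS : Primrec S) :
    Primrec (fun x => gOm (N x) (S x)) :=
  kaAdd (kaMul (gP_primrec hN) (kaSub (gβ_primrec hN hS) (Primrec.const 2))) (Primrec.const 2)

theorem gNx_primrec {N S : α → ℕ} (hN : Primrec N) (hS : Primrec S) :
    Primrec (fun x => gNx (N x) (S x)) :=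
  kaMul (gP_primrec hN) (kaAdd (kaMul (kaAdd (gP_primrec hN) (Primrec.const 1)) (kb_gOm hN hS))
    (Primrec.const 1))

theorem kb_gρ {N S : α → ℕ} (hN : Primrec N) (hS : Primrec S) :
    Primrec (fun x => gρ (N x) (S x)) :=
  kaSub
    (kaMul (kaMul (Primrec.const 2) (gNx_primrec hN hS))
      (kaSub (kaAdd (kb_gOm hN hS) (gP_primrec hN)) (Primrec.const 2)))
    (kaMul (kaSub (gP_primrec hN) (Primrec.const 2))
      (kaSub (kaAdd (kb_gOm hN hS) (kaMul (Primrec.const 3) (gP_primrec hN))) (Primrec.const 2)))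

theorem kb_gρ2 {N S : α → ℕ} (hN : Primrec N) (hS : Primrec S) :
    Primrec (fun x => gρ2 (N x) (S x)) :=
  kaSub
    (kaMul (kaSub (gβ_primrec hN hS) (Primrec.const 1))
      (kaSub (kaAdd (kaMul (Primrec.const 2) (gNx_primrec hN hS)) (Primrec.const 2))
        (gP_primrec hN)))
    (kaMul (Primrec.const 2) (kaSub (gP_primrec hN) (Primrec.const 2)))

theorem glam_primrec {N S : α → ℕ} (hN : Primrec N) (hS : Primrec S) :
    Primrec (fun x => glam (N x) (S x)) :=
  kaMul (kb_gρ hN hS) (kb_gρ2 hN hS)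

theorem gl1_primrec {N S : α → ℕ} (hN : Primrec N) (hS : Primrec S) :
    Primrec (fun x => gl1 (N x) (S x)) :=
  kaAdd (kaMul (glam_primrec hN hS) (kb_gOm hN hS)) (gP_primrec hN)

theorem kb_gb1 {N S : α → ℕ} (hN : Primrec N) (hS : Primrec S) :
    Primrec (fun x => gb1 (N x) (S x)) :=
  kaSub (gl1_primrec hN hS) (gNx_primrec hN hS)

theorem kb_2lam1 {N S : α → ℕ} (hN : Primrec N) (hS : Primrec S) :
    Primrec (fun x => 2 * glam (N x) (S x) - 1) :=
  kaSub (kaMul (Primrec.const 2) (glam_primrec hN hS)) (Primrec.const 1)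

theorem gM_primrec {N S : α → ℕ} (hN : Primrec N) (hS : Primrec S) :
    Primrec (fun x => gM (N x) (S x)) :=
  kaSub (kaMul (kb_2lam1 hN hS) (kb_gb1 hN hS)) (gNx_primrec hN hS)

theorem kb_gA1 {N S : α → ℕ} (hN : Primrec N) (hS : Primrec S) :
    Primrec (fun x => gA1 (N x) (S x)) :=
  kaAdd (kaMul (kaSub (kaMul (Primrec.const 2) (gβ_primrec hN hS)) (gP_primrec hN))
    (glam_primrec hN hS)) (Primrec.const 2)

theorem kb_gA2 {N S : α → ℕ} (hN : Primrec N) (hS : Primrec S) :
    Primrec (fun x => gA2 (N x) (S x)) :=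
  kaAdd (kaMul (kaMul (Primrec.const 2) (gβ_primrec hN hS)) (glam_primrec hN hS))
    (Primrec.const 2)

theorem ga_primrec {N S : α → ℕ} (hN : Primrec N) (hS : Primrec S) :
    Primrec (fun x => ga (N x) (S x)) :=
  kaSub (kaMul (kb_gA2 hN hS) (kb_gb1 hN hS)) (kb_gA1 hN hS)

theorem gb_primrec {N S : α → ℕ} (hN : Primrec N) (hS : Primrec S) :
    Primrec (fun x => gb (N x) (S x)) :=
  kaSub (kaMul (kb_2lam1 hN hS) (kb_gA1 hN hS)) (kaMul (gNx_primrec hN hS) (kb_gA2 hN hS))

theorem kb_Ev {N S pc κ ω : α → ℕ} {Eh : α → ℕ → ℕ → Bool} (hN : Primrec N) (hS : Primrec S)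
    (hκ : Primrec κ) (hω : Primrec ω)
    (hEh : Primrec (fun z : α × ℕ × ℕ => Eh z.1 z.2.1 z.2.2)) :
    Primrec (fun x => (gpar0 (N x) (S x) (Eh x) (pc x)).Ev (κ x) (ω x)) := by
  have hP := gP_primrec hN
  have hβ := gβ_primrec hN hS
  have hsum : Primrec (fun x => gβ (N x) (S x) * κ x + 2 * (gP (N x) - 1) +
      2 * gP (N x) * S x) :=
    kaAdd (kaAdd (kaMul hβ hκ) (kaMul (Primrec.const 2) (kaSub hP (Primrec.const 1))))
      (kaMul (kaMul (Primrec.const 2) hP) hS)
  have h1 : Primrec (fun x => decide (κ x % 4 = 3 ∧ (κ x - 3) / 4 < N x ∧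
      (gβ (N x) (S x) * κ x + ω x) % 2 = 0 ∧
      ω x ≤ gβ (N x) (S x) * κ x + 2 * (gP (N x) - 1) + 2 * gP (N x) * S x)) := by
    refine PrimrecPred.decide ?_
    refine (kaEq (kaMod hκ (Primrec.const 4)) (Primrec.const 3)).and ?_
    refine (kaLt (kaDiv (kaSub hκ (Primrec.const 3)) (Primrec.const 4)) hN).and ?_
    refine (kaEq (kaMod (kaAdd (kaMul hβ hκ) hω) (Primrec.const 2)) (Primrec.const 0)).and ?_
    exact kaLe hω hsum
  have h2 : Primrec (fun x => Eh x ((κ x - 3) / 4)
      ((gβ (N x) (S x) * κ x + 2 * (gP (N x) - 1) + 2 * gP (N x) * S x - ω x) / 2)) :=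
    hEh.comp (Primrec.pair Primrec.id (Primrec.pair
      (kaDiv (kaSub hκ (Primrec.const 3)) (Primrec.const 4))
      (kaDiv (kaSub hsum hω) (Primrec.const 2))))
  exact Primrec.and.comp h1 h2

theorem W1_primrec {N S pc q : α → ℕ} {Eh : α → ℕ → ℕ → Bool} (hN : Primrec N) (hS : Primrec S)
    (hpc : Primrec pc) (hq : Primrec q)
    (hEh : Primrec (fun z : α × ℕ × ℕ => Eh z.1 z.2.1 z.2.2)) :
    Primrec (fun x => (gpar0 (N x) (S x) (Eh x) (pc x)).W1 (q x)) := by
  have hP := gP_primrec hN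
  have hβ := gβ_primrec hN hS
  have hlam := glam_primrec hN hS
  have hOm := kb_gOm hN hS
  have hr : Primrec (fun x => q x % glam (N x) (S x)) := kaMod hq hlam
  have hd : Primrec (fun x => q x / glam (N x) (S x)) := kaDiv hq hlam
  have hE1 := kb_Ev (pc := pc) hN hS hr hd hEh
  have hE2 := kb_Ev (pc := pc) hN hS hr (kaAdd hd hP) hEh
  have key : Primrec (fun x =>
      if q x = 0 then true
      else if glam (N x) (S x) + gP (N x) + 1 ≤ q x ∧
          q x < glam (N x) (S x) + gP (N x) + 1 + pc x then true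
      else if gP (N x) < q x % glam (N x) (S x) ∨ q x / glam (N x) (S x) = 0 ∨
          gOm (N x) (S x) ≤ q x / glam (N x) (S x) then false
      else if q x % glam (N x) (S x) = 2 ∧
          q x / glam (N x) (S x) + gP (N x) = 2 * gβ (N x) (S x) then true
      else if (gpar0 (N x) (S x) (Eh x) (pc x)).Ev (q x % glam (N x) (S x))
          (q x / glam (N x) (S x)) = true then false
      else if (gpar0 (N x) (S x) (Eh x) (pc x)).Ev (q x % glam (N x) (S x))
          (q x / glam (N x) (S x) + gP (N x)) = true then true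
      else decide ((q x % glam (N x) (S x) + q x / glam (N x) (S x)) % 2 = 0 ∧
        q x / glam (N x) (S x) ≠ (gβ (N x) (S x) - 1) * (q x % glam (N x) (S x)))) := by
    have hs : Primrec (fun x => glam (N x) (S x) + gP (N x) + 1) :=
      kaAdd (kaAdd hlam hP) (Primrec.const 1)
    refine Primrec.ite (kaEq hq (Primrec.const 0)) (Primrec.const true) ?_
    refine Primrec.ite ((kaLe hs hq).and (kaLt hq (kaAdd hs hpc))) (Primrec.const true) ?_
    refine Primrec.ite ((kaLt hP hr).or ((kaEq hd (Primrec.const 0)).or (kaLe hOm hd)))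
      (Primrec.const false) ?_
    refine Primrec.ite ((kaEq hr (Primrec.const 2)).and
      (kaEq (kaAdd hd hP) (kaMul (Primrec.const 2) hβ))) (Primrec.const true) ?_
    refine Primrec.ite (kaEqB hE1 (Primrec.const true)) (Primrec.const false) ?_
    refine Primrec.ite (kaEqB hE2 (Primrec.const true)) (Primrec.const true) ?_
    refine PrimrecPred.decide ?_
    refine (kaEq (kaMod (kaAdd hr hd) (Primrec.const 2)) (Primrec.const 0)).and ?_
    exact (kaEq hd (kaMul (kaSub hβ (Primrec.const 1)) hr)).not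
  exact key

theorem gW1_primrec {N S q : α → ℕ} {Eh : α → ℕ → ℕ → Bool} (hN : Primrec N) (hS : Primrec S)
    (hq : Primrec q) (hEh : Primrec (fun z : α × ℕ × ℕ => Eh z.1 z.2.1 z.2.2)) :
    Primrec (fun x => (gpar (N x) (S x) (Eh x)).W1 (q x)) := by
  have hW : Primrec (fun z : α × ℕ => (gpar0 (N z.1) (S z.1) (Eh z.1) 0).W1 z.2) := by
    refine W1_primrec (N := fun z : α × ℕ => N z.1) (S := fun z : α × ℕ => S z.1)
      (pc := fun _ => 0) (q := fun z : α × ℕ => z.2) (Eh := fun z : α × ℕ => Eh z.1)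
      (hN.comp Primrec.fst) (hS.comp Primrec.fst) (Primrec.const 0) Primrec.snd ?_
    exact hEh.comp (Primrec.pair (Primrec.fst.comp Primrec.fst) Primrec.snd)
  have hl1 : Primrec (fun x => (gpar0 (N x) (S x) (Eh x) 0).l1) := gl1_primrec hN hS
  have hcx : Primrec (fun x => cx (gpar0 (N x) (S x) (Eh x) 0).W1
      (gpar0 (N x) (S x) (Eh x) 0).l1) :=
    cx_primrec (W := fun x => (gpar0 (N x) (S x) (Eh x) 0).W1) hW hl1
  have hpc : Primrec (fun x => gpc (N x) (S x) (Eh x)) := kaSub (gNx_primrec hN hS) hcx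
  exact W1_primrec hN hS hpc hq hEh

end Pool.Agent.H15.PCP3
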