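import Mathlib
import Pool.Agent.H28.PCP.KC
import Pool.Agent.H15.PCP3.KA
import Pool.Agent.H15.PCP3.KB

set_option autoImplicit false

/-!
# Module KC: the three pairs are a primitive recursive function of the word

`Vh`: `kaEx` (bounded existence, twice) of arithmetic conditions, with `cx_primrec` for
`cx W1 n`, `cx (w2f lam) n`.  `cd3`, `gA`, `inst3`: lists as in `Pool.Agent.H28.PCP.KC`
(`cd_primrec`, `instW_primrec`: `Primrec.list_map`, `Primrec.list_flatMap`, `Primrec.list_append`,
`Primrec.list_cons`, `kaRepl`; `List.drop`: `Primrec.list_drop` if available, else by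
`Primrec.nat_iterate`/`nat_rec` of `List.tail`).  Values in `Fin 3 → ..`: as at the end of
`instW_primrec`.
-/

namespace Pool.Agent.H15.PCP3

open Pool.Agent.H28.PCP

variable {α : Type*} [Primcodable α]

theorem kc_w2f {lam q : α → ℕ} (hlam : Primrec lam) (hq : Primrec q) :
    Primrec (fun x => w2f (lam x) (q x)) := by
  unfold w2f
  exact PrimrecPred.decide (kaEq hq hlam).not

/-- one bounded search -/
theorem kc_ex {W : α → ℕ → Bool} {l1 M a b r : α → ℕ}
    (hW : Primrec (fun z : α × ℕ => W z.1 z.2)) (hl1 : Primrec l1)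
    (hM : Primrec M) (ha : Primrec a) (hb : Primrec b) (hr : Primrec r) :
    PrimrecPred (fun x => ∃ n < l1 x, 1 ≤ n ∧
      (M x - 1 + a x * cx (W x) n + b x * (n - cx (W x) n)) % M x = r x) := by
  refine kaEx (P := fun n (x : α) => 1 ≤ n ∧
      (M x - 1 + a x * cx (W x) n + b x * (n - cx (W x) n)) % M x = r x) hl1 ?_
  have hn : Primrec (fun z : ℕ × α => z.1) := Primrec.fst
  have hx : Primrec (fun z : ℕ × α => z.2) := Primrec.snd
  have hM' : Primrec (fun z : ℕ × α => M z.2) := hM.comp hx
  have ha' : Primrec (fun z : ℕ × α => a z.2) := ha.comp hx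
  have hb' : Primrec (fun z : ℕ × α => b z.2) := hb.comp hx
  have hr' : Primrec (fun z : ℕ × α => r z.2) := hr.comp hx
  have hW' : Primrec (fun y : (ℕ × α) × ℕ => W y.1.2 y.2) :=
    hW.comp (Primrec.pair (Primrec.snd.comp Primrec.fst) Primrec.snd)
  have hcx : Primrec (fun z : ℕ × α => cx (W z.2) z.1) :=
    cx_primrec (W := fun z : ℕ × α => W z.2) hW' hn
  refine (kaLe (Primrec.const 1) hn).and (kaEq (kaMod ?_ hM') hr')
  exact kaAdd (kaAdd (kaSub hM' (Primrec.const 1)) (kaMul ha' hcx)) (kaMul hb' (kaSub hn hcx))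

theorem Vh_primrec {W : α → ℕ → Bool} {l1 lam M a b r : α → ℕ}
    (hW : Primrec (fun z : α × ℕ => W z.1 z.2)) (hl1 : Primrec l1) (hlam : Primrec lam)
    (hM : Primrec M) (ha : Primrec a) (hb : Primrec b) (hr : Primrec r) :
    Primrec (fun x => Vh (W x) (l1 x) (lam x) (M x) (a x) (b x) (r x)) := by
  unfold Vh
  apply PrimrecPred.decide
  refine (kc_ex hW hl1 hM ha hb hr).or ?_
  exact kc_ex (W := fun x => w2f (lam x)) (kc_w2f (hlam.comp Primrec.fst) Primrec.snd)
    (kaMul (Primrec.const 2) hlam) hM ha hb hr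

theorem kc_cd3 {M a b : α → ℕ} {c : α → Bool} (hM : Primrec M) (ha : Primrec a)
    (hb : Primrec b) (hc : Primrec c) : Primrec (fun x => cd3 (M x) (a x) (b x) (c x)) := by
  unfold cd3
  refine Primrec.list_append.comp (kaRepl 1 (kaSub hM (Primrec.const 1))) ?_
  refine Primrec.list_cons.comp (Primrec.const 0) (kaRepl 1 ?_)
  exact Primrec.ite (kaEqB hc (Primrec.const true)) (kaSub ha hb) (Primrec.const 0)

theorem kc_gA {V : α → ℕ → Bool} {M a b : α → ℕ}
    (hV : Primrec (fun z : α × ℕ => V z.1 z.2)) (hM : Primrec M) (ha : Primrec a)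
    (hb : Primrec b) : Primrec (fun x => gA (V x) (M x) (a x) (b x)) := by
  unfold gA
  have hM1 : Primrec (fun x => M x - 1) := kaSub hM (Primrec.const 1)
  have hvl : Primrec (fun x => vl (V x) (M x - 1)) :=
    Primrec.list_map (Primrec.list_range.comp hM1) hV
  have hflat : Primrec (fun x => (vl (V x) (M x - 1)).flatMap (cd3 (M x) (a x) (b x))) :=
    Primrec.list_flatMap hvl (kc_cd3 (hM.comp Primrec.fst) (ha.comp Primrec.fst)
      (hb.comp Primrec.fst) Primrec.snd)
  refine Primrec.list_drop.comp hM1 (Primrec.list_append.comp hflat ?_)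
  refine Primrec.list_append.comp (kaRepl 1 hM1) ?_
  exact Primrec.list_cons.comp (Primrec.const 0) (kaRepl 1 (kaSub hM hb))

theorem inst3_primrec {V : α → ℕ → Bool} {M a b : α → ℕ}
    (hV : Primrec (fun z : α × ℕ => V z.1 z.2)) (hM : Primrec M) (ha : Primrec a)
    (hb : Primrec b) : Primrec (fun x => inst3 (V x) (M x) (a x) (b x)) := by
  have hx := kc_cd3 hM ha hb (Primrec.const true)
  have hy := kc_cd3 hM ha hb (Primrec.const false)
  have hg := kc_gA hV hM ha hb
  refine Primrec.fin_curry.2 (Primrec₂.swap (Primrec.fin_curry₁.2 ?_))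
  intro i
  fin_cases i
  · exact Primrec.pair hg hx
  · exact Primrec.pair (Primrec.const _) hx
  · exact Primrec.pair (Primrec.const _) hy

theorem instR_primrec (A : ℕ) (f : ℕ → ℕ → ℕ) (hl : ℕ → Bool) (hf : Primrec₂ f)
    (hhl : Primrec hl) : Primrec (fun w : List ℕ => instR A f hl w) := by
  have hN : Primrec (fun w : List ℕ => (ring A f hl w).N) := ringN_primrec A f hl Primrec.id
  have hS : Primrec (fun w : List ℕ => Sn A w.length) := Sn_primrec A (kaLen Primrec.id)
  have hM := gM_primrec hN hS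
  have ha := ga_primrec hN hS
  have hb := gb_primrec hN hS
  have hlam := glam_primrec hN hS
  have hl1 := gl1_primrec hN hS
  have hEh : Primrec (fun z : (List ℕ × ℕ) × ℕ × ℕ => (ring A f hl z.1.1).Eh z.2.1 z.2.2) :=
    ringEh_primrec A f hl hf hhl (Primrec.fst.comp Primrec.fst) (Primrec.fst.comp Primrec.snd)
      (Primrec.snd.comp Primrec.snd)
  have hW : Primrec (fun z : List ℕ × ℕ =>
      (gpar (ring A f hl z.1).N (Sn A z.1.length) (ring A f hl z.1).Eh).W1 z.2) :=
    gW1_primrec (N := fun z : List ℕ × ℕ => (ring A f hl z.1).N)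
      (S := fun z : List ℕ × ℕ => Sn A z.1.length) (q := fun z => z.2)
      (Eh := fun z => (ring A f hl z.1).Eh) (hN.comp Primrec.fst) (hS.comp Primrec.fst)
      Primrec.snd hEh
  have hV : Primrec (fun z : List ℕ × ℕ =>
      Vh (gpar (ring A f hl z.1).N (Sn A z.1.length) (ring A f hl z.1).Eh).W1
        (gl1 (ring A f hl z.1).N (Sn A z.1.length)) (glam (ring A f hl z.1).N (Sn A z.1.length))
        (gM (ring A f hl z.1).N (Sn A z.1.length)) (ga (ring A f hl z.1).N (Sn A z.1.length))
        (gb (ring A f hl z.1).N (Sn A z.1.length)) z.2) := by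
    refine Vh_primrec (W := fun z : List ℕ × ℕ =>
      (gpar (ring A f hl z.1).N (Sn A z.1.length) (ring A f hl z.1).Eh).W1) ?_
      (hl1.comp Primrec.fst) (hlam.comp Primrec.fst) (hM.comp Primrec.fst)
      (ha.comp Primrec.fst) (hb.comp Primrec.fst) Primrec.snd
    exact hW.comp (Primrec.pair (Primrec.fst.comp Primrec.fst) Primrec.snd)
  exact inst3_primrec (V := fun w : List ℕ =>
      Vh (gpar (ring A f hl w).N (Sn A w.length) (ring A f hl w).Eh).W1
        (gl1 (ring A f hl w).N (Sn A w.length)) (glam (ring A f hl w).N (Sn A w.length))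
        (gM (ring A f hl w).N (Sn A w.length)) (ga (ring A f hl w).N (Sn A w.length))
        (gb (ring A f hl w).N (Sn A w.length))) hV hM ha hb

end Pool.Agent.H15.PCP3
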