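import Mathlib
import Pool.Agent.H28.PCP.Defs

set_option autoImplicit false

/-!
# Module KD: adding copies of the pair 0 does not change solvability
-/

namespace Pool.Agent.H15.PCP3

open Pool.Agent.H28.PCP (HasSol)

/-- repeat the pair 0 -/
def extend (n : ℕ) (P : Fin 3 → List ℕ × List ℕ) : Fin n → List ℕ × List ℕ :=
  fun i => if h : i.val < 3 then P ⟨i.val, h⟩ else P 0

/-- the index map -/
def extIdx (n : ℕ) (i : Fin n) : Fin 3 := if h : i.val < 3 then ⟨i.val, h⟩ else 0

theorem extend_eq (n : ℕ) (P : Fin 3 → List ℕ × List ℕ) (i : Fin n) :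
    extend n P i = P (extIdx n i) := by
  unfold extend extIdx
  split_ifs <;> rfl

theorem hasSol_extend (n : ℕ) (hn : 3 ≤ n) (P : Fin 3 → List ℕ × List ℕ) :
    HasSol (extend n P) ↔ HasSol P := by
  constructor
  · rintro ⟨w, hw, h⟩
    refine ⟨w.map (extIdx n), by simpa using hw, ?_⟩
    rw [List.flatMap_map, List.flatMap_map]
    simp only [extend_eq] at h
    exact h
  · rintro ⟨w, hw, h⟩
    refine ⟨w.map (Fin.castLE hn), by simpa using hw, ?_⟩
    rw [List.flatMap_map, List.flatMap_map]
    have h1 : ∀ i : Fin 3, extend n P (Fin.castLE hn i) = P i := by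
      intro i
      rw [extend_eq]
      congr 1
      unfold extIdx
      rw [dif_pos (by simp [i.2])]
      rfl
    simp only [h1]
    exact h

theorem extend_computable (n : ℕ) : Computable (extend n) := by
  have h : Primrec (extend n) := by
    refine (Primrec.fin_curry (f := fun P i => extend n P i)).2 ?_
    have h1 : (fun (P : Fin 3 → List ℕ × List ℕ) (i : Fin n) => extend n P i)
        = fun (P : Fin 3 → List ℕ × List ℕ) (i : Fin n) => P (extIdx n i) := by
      funext P i
      exact extend_eq n P i
    rw [h1]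
    exact (Primrec.fin_app (n := 3) (σ := List ℕ × List ℕ)).comp
      Primrec.fst ((Primrec.dom_finite (extIdx n)).comp Primrec.snd)
  exact h.to_comp

end Pool.Agent.H15.PCP3
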