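import Mathlib
import Pool.Agent.H15.PCP3.Defs

set_option autoImplicit false

/-!
# Module PA: a solution of the three pairs gives a solution of the hole model

Notation: pair 0 = `A = (V', X)`, pair 1 = `B = ([1], X)`, pair 2 = `C = ([1], Y)`, where
`X = cd3 M a b true = 1^(M-1) 0 1^(a-b)`, `Y = cd3 M a b false = 1^(M-1) 0`, and by definition
`1^(M-1) V' = <V> 1^(M-1) 0 1^(M-b)` (`<V> = (vl V (M-1)).flatMap (cd3 M a b)`; it starts with
`1^(M-1)` since `M ≥ 2`).  So `V'` starts with `0`.

Key identity (useful in both directions): for a letter `z`, with `s true = a`, `s false = b`,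
`<V> ++ cd3 z ++ 1^(M-1) = 1^(M-1) ++ V' ++ 1^(s z - 1)` (because `M-b + s z - 1 = (if z then a-b
else 0) + (M-1)`).

Let `w ≠ []` with `G(w) = H(w)`.  `H(w) = S.flatMap cd3` with `S : List Bool` the list of the letters
of `w` (pairs 0, 1 ↦ true, pair 2 ↦ false), `|S| = |w|`.  Write `w = u_0 A u_1 A ... A u_K` with
`u_i` in `{B,C}*`: `G(w) = 1^|u_0| V' 1^|u_1| V' ... V' 1^|u_K|`.
Parsing lemma (induction on `S`/the number of `A`s): if `1^n ++ V' 1^|u_1| ... V' 1^|u_K|
= S.flatMap cd3` with `n = |u_0|` then `n = M-1`, `K ≥ 1` (as `S ≠ []` the right side contains 0)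
and there are letters `z_0 .. z_(K-1)` with `S = vl V (M-1) ++ [z_0] ++ vl V (M-1) ++ [z_1] ...`,
`|u_(i+1)| = s z_i - 1` for `i < K-1`, and for the last one `M - b + |u_K| = (if z then a-b else 0)`
which forces `z_(K-1) = true` (`b < M`) and `|u_K| = a - M`.  (One may peel one block at a time: a
word of the form `1^m 0 ...` equals `S.flatMap cd3` only if `m = M-1`; the number of 1's between two
consecutive 0's of `S.flatMap cd3` is `M-1` or `M-1+a-b`, which determines the letter; multiply by
`1^(M-1)` on the right and use the key identity to peel `<V> cd3 z_0`.)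
Then the `i`-th `A` stands at position `P_i = M - 1 + xs a b z i` of `w` (`z` extended by `true`),
its letter in `S` is `true`, and position `q` of `S` is `hlet V M z q`.  `k = K - 1`:
`|w| = |S| = K M` gives `M - 1 + xs a b z K = K M + (M-1)`.
-/

namespace Pool.Agent.H15.PCP3

open Pool.Agent.H28.PCP (HasSol vl stepW cnt)

/-- code of a letter after moving `1^(M-1)` to the right -/
def pa_d (M a b : ℕ) (c : Bool) : List ℕ :=
  0 :: List.replicate (M - 1 + if c then a - b else 0) 1

lemma pa_flatMap (M a b : ℕ) (S : List Bool) :
    S.flatMap (cd3 M a b) ++ List.replicate (M - 1) 1 =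
      List.replicate (M - 1) 1 ++ S.flatMap (pa_d M a b) := by
  induction S with
  | nil => simp
  | cons c S ih =>
    rw [List.flatMap_cons, List.flatMap_cons, List.append_assoc, ih]
    unfold cd3 pa_d
    simp only [List.append_assoc, List.cons_append]
    congr 2
    rw [← List.append_assoc, List.replicate_append_replicate, Nat.add_comm]

lemma pa_gA (V : ℕ → Bool) (M a b : ℕ) :
    gA V M a b = (vl V (M - 1)).flatMap (pa_d M a b) ++ 0 :: List.replicate (M - b) 1 := by
  unfold gA
  rw [← List.append_assoc, pa_flatMap, List.append_assoc]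
  exact List.drop_left' (by simp)

lemma pa_ones {p q : ℕ} {x y : List ℕ}
    (h : List.replicate p 1 ++ 0 :: x = List.replicate q 1 ++ 0 :: y) : p = q ∧ x = y := by
  induction p generalizing q with
  | zero =>
    cases q with
    | zero => simpa using h
    | succ q => simp [List.replicate_succ] at h
  | succ p ih =>
    cases q with
    | zero => simp [List.replicate_succ] at h
    | succ q =>
      simp only [List.replicate_succ, List.cons_append, List.cons.injEq, true_and] at h
      obtain ⟨h1, h2⟩ := ih h
      exact ⟨by rw [h1], h2⟩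

lemma pa_zero_mem_ne {p q : ℕ} {x : List ℕ}
    (h : List.replicate p 1 ++ 0 :: x = List.replicate q 1) : False := by
  have h1 : (0 : ℕ) ∈ List.replicate q 1 := by
    rw [← h]; simp
  have := List.eq_of_mem_replicate h1
  omega

/-- parsing of a code followed by `0` -/
lemma pa_parse (M a b : ℕ) (hab : b < a) (T : List Bool) (S : List Bool) (R : List ℕ)
    (h : T.flatMap (pa_d M a b) ++ 0 :: R = S.flatMap (pa_d M a b)) :
    ∃ S', S = T ++ S' ∧ 0 :: R = S'.flatMap (pa_d M a b) := by
  induction T generalizing S with
  | nil => exact ⟨S, rfl, by simpa using h⟩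
  | cons c T ih =>
    cases S with
    | nil => simp [pa_d] at h
    | cons c' S =>
      rw [List.flatMap_cons, List.flatMap_cons, List.append_assoc] at h
      unfold pa_d at h
      rw [List.cons_append, List.cons_append, List.cons.injEq] at h
      have h1 := h.2
      change List.replicate (M - 1 + if c then a - b else 0) 1 ++
        (T.flatMap (pa_d M a b) ++ 0 :: R) =
        List.replicate (M - 1 + if c' then a - b else 0) 1 ++ S.flatMap (pa_d M a b) at h1
      -- both rests start with 0
      obtain ⟨x, hx⟩ : ∃ x, T.flatMap (pa_d M a b) ++ 0 :: R = 0 :: x := by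
        cases T with
        | nil => exact ⟨R, rfl⟩
        | cons c2 T => exact ⟨_, rfl⟩
      have h2 : ∃ y, S.flatMap (pa_d M a b) = 0 :: y := by
        cases S with
        | nil =>
          rw [hx] at h1
          simp only [List.flatMap_nil, List.append_nil] at h1
          exact (pa_zero_mem_ne h1).elim
        | cons c2 S => exact ⟨_, rfl⟩
      obtain ⟨y, hy⟩ := h2
      rw [hx, hy] at h1
      obtain ⟨h3, h4⟩ := pa_ones h1
      have hc : c = c' := by
        cases c <;> cases c' <;> simp at h3 ⊢ <;> omega
      obtain ⟨S', hS', hR⟩ := ih S (by rw [hx, hy, h4])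
      exact ⟨S', by rw [hc, hS']; rfl, hR⟩

lemma pa_xs_cons (a b : ℕ) (z : ℕ → Bool) (T : ℕ) :
    xs a b z (T + 1) = (if z 0 then a else b) + xs a b (fun i => z (i + 1)) T := by
  induction T with
  | zero => simp [xs]
  | succ T ih =>
    rw [xs, ih, xs]
    ring

/-- the first words of the pairs -/
def pa_G (V : ℕ → Bool) (M a b : ℕ) (v : List (Fin 3)) : List ℕ :=
  v.flatMap (fun i => (inst3 V M a b i).1)

lemma pa_G_skip (V : ℕ → Bool) (M a b : ℕ) (l : List (Fin 3)) (hl : ∀ x ∈ l, x ≠ 0) :
    pa_G V M a b l = List.replicate l.length 1 := by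
  induction l with
  | nil => rfl
  | cons x l ih =>
    unfold pa_G at ih ⊢
    rw [List.flatMap_cons, ih (fun y hy => hl y (List.mem_cons_of_mem _ hy))]
    have hx := hl x List.mem_cons_self
    have : (inst3 V M a b x).1 = [1] := by
      fin_cases x
      · exact (hx rfl).elim
      · rfl
      · rfl
    rw [this, List.length_cons, List.replicate_succ]
    rfl

lemma pa_split (v : List (Fin 3)) : ∃ l rest : List (Fin 3), v = l ++ rest ∧ (∀ x ∈ l, x ≠ 0) ∧
    (rest = [] ∨ ∃ v', rest = 0 :: v') := by
  induction v with
  | nil => exact ⟨[], [], rfl, by simp, Or.inl rfl⟩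
  | cons x v ih =>
    by_cases hx : x = 0
    · subst hx
      exact ⟨[], 0 :: v, rfl, by simp, Or.inr ⟨v, rfl⟩⟩
    · obtain ⟨l, rest, h1, h2, h3⟩ := ih
      refine ⟨x :: l, rest, by rw [h1]; rfl, ?_, h3⟩
      intro y hy
      rcases List.mem_cons.1 hy with rfl | hy
      · exact hx
      · exact h2 y hy

lemma pa_vl_length (V : ℕ → Bool) (L : ℕ) : (vl V L).length = L := by
  unfold vl; simp

lemma pa_gA_zero (V : ℕ → Bool) (M a b : ℕ) : ∃ x, gA V M a b = 0 :: x := by
  rw [pa_gA]
  cases h : vl V (M - 1) with
  | nil => exact ⟨_, rfl⟩
  | cons c T => exact ⟨_, rfl⟩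

lemma pa_text (V : ℕ → Bool) (M : ℕ) (hM : 2 ≤ M) (z0 : Bool) (q : ℕ) (hq : q < M)
    (z : ℕ → Bool) (hz : z 0 = z0) (S'' : List Bool) :
    (vl V (M - 1) ++ z0 :: S'')[q]? = some (hlet V M z q) := by
  have hL := pa_vl_length V (M - 1)
  unfold hlet
  rw [Nat.mod_eq_of_lt hq, Nat.div_eq_of_lt hq, hz]
  by_cases h1 : q = M - 1
  · rw [if_pos h1, List.getElem?_append_right (by omega)]
    have : q - (vl V (M - 1)).length = 0 := by omega
    rw [this]
    rfl
  · rw [if_neg h1, List.getElem?_append_left (by omega)]
    unfold vl
    rw [List.getElem?_map, List.getElem?_range (by omega)]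
    rfl

lemma pa_main (V : ℕ → Bool) (M a b : ℕ) (hM : 2 ≤ M) (hb : 1 ≤ b) (hbM : b < M)
    (haM : M ≤ a) : ∀ (n : ℕ) (v : List (Fin 3)) (S : List Bool), v.length < n →
    gA V M a b ++ (pa_G V M a b v ++ List.replicate (M - 1) 1) = S.flatMap (pa_d M a b) →
    ∃ (k : ℕ) (z : ℕ → Bool), z k = true ∧ S.length = (k + 1) * M ∧
      (∀ q < (k + 1) * M, S[q]? = some (hlet V M z q)) ∧
      v.length + 1 + (M - 1) = xs a b z (k + 1) ∧
      ∀ i ≤ k, ((0 : Fin 3) :: v)[xs a b z i]? = some 0 := by
  intro n
  induction n with
  | zero =>
    intro v S hv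
    omega
  | succ n ih =>
    intro v S hv h
    rw [pa_gA, List.append_assoc, List.cons_append] at h
    obtain ⟨S', hS, h2⟩ := pa_parse M a b (by omega) _ _ _ h
    cases S' with
    | nil => simp at h2
    | cons z0 S'' =>
      rw [List.flatMap_cons, pa_d, List.cons_append, List.cons.injEq] at h2
      have h3 := h2.2
      change List.replicate (M - b) 1 ++ (pa_G V M a b v ++ List.replicate (M - 1) 1) =
        List.replicate (M - 1 + if z0 then a - b else 0) 1 ++ S''.flatMap (pa_d M a b) at h3
      obtain ⟨l, rest, hv1, hl, hr⟩ := pa_split v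
      have hG : pa_G V M a b v = List.replicate l.length 1 ++ pa_G V M a b rest := by
        rw [hv1, ← pa_G_skip V M a b l hl]
        unfold pa_G
        rw [List.flatMap_append]
      rw [hG, List.append_assoc, ← List.append_assoc, List.replicate_append_replicate] at h3
      have hL := pa_vl_length V (M - 1)
      rcases hr with rfl | ⟨v', rfl⟩
      · -- the last block
        have h4 : pa_G V M a b [] = [] := rfl
        rw [h4, List.nil_append, List.replicate_append_replicate] at h3
        have hS2 : S'' = [] := by
          cases S'' with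
          | nil => rfl
          | cons c T => exact (pa_zero_mem_ne h3.symm).elim
        subst hS2
        rw [List.flatMap_nil, List.append_nil] at h3
        have h5 := congrArg List.length h3
        rw [List.length_replicate, List.length_replicate] at h5
        have hz0 : z0 = true := by
          cases z0
          · simp at h5; omega
          · rfl
        subst hz0
        rw [if_pos rfl] at h5
        have hvl : v.length = l.length := by rw [hv1]; simp
        refine ⟨0, fun _ => true, rfl, ?_, ?_, ?_, ?_⟩
        · rw [hS]; simp [hL]; omega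
        · intro q hq
          rw [hS]
          exact pa_text V M hM true q (by omega) _ rfl []
        · simp [xs]; omega
        · intro i hi
          have : i = 0 := by omega
          subst this
          simp [xs]
      · -- a further block
        have h4 : pa_G V M a b (0 :: v') = gA V M a b ++ pa_G V M a b v' := rfl
        rw [h4, List.append_assoc] at h3
        obtain ⟨x, hx⟩ := pa_gA_zero V M a b
        have h5 : gA V M a b ++ (pa_G V M a b v' ++ List.replicate (M - 1) 1) =
            0 :: (x ++ (pa_G V M a b v' ++ List.replicate (M - 1) 1)) := by rw [hx]; rfl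
        have h6 : ∃ y, S''.flatMap (pa_d M a b) = 0 :: y := by
          cases S'' with
          | nil =>
            rw [h5] at h3
            simp only [List.flatMap_nil, List.append_nil] at h3
            exact (pa_zero_mem_ne h3).elim
          | cons c2 T => exact ⟨_, rfl⟩
        obtain ⟨y, hy⟩ := h6
        rw [h5, hy] at h3
        obtain ⟨h7, h8⟩ := pa_ones h3
        have hvl : v.length = l.length + (v'.length + 1) := by rw [hv1]; simp
        obtain ⟨k, z, hzk, hSl, hSq, hlen, hpos⟩ := ih v' S'' (by omega) (by rw [h5, hy, h8])
        -- the new sequence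
        let z' : ℕ → Bool := fun i => if i = 0 then z0 else z (i - 1)
        have hz' : (fun i => z' (i + 1)) = z := by
          funext i; simp [z']
        have hz0' : z' 0 = z0 := rfl
        have hs : l.length + 1 = if z0 then a else b := by
          cases z0
          · simp at h7 ⊢; omega
          · simp at h7 ⊢; omega
        refine ⟨k + 1, z', ?_, ?_, ?_, ?_, ?_⟩
        · simp [z', hzk]
        · rw [hS, List.length_append, List.length_cons, hL, hSl]
          have : (k + 1 + 1) * M = (k + 1) * M + M := by ring
          omega
        · intro q hq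
          by_cases hqM : q < M
          · rw [hS]
            exact pa_text V M hM z0 q hqM z' hz0' S''
          · obtain ⟨q', rfl⟩ : ∃ q', q = M + q' := ⟨q - M, by omega⟩
            rw [hS, List.getElem?_append_right (by omega)]
            have e1 : M + q' - (vl V (M - 1)).length = q' + 1 := by omega
            rw [e1, List.getElem?_cons_succ, hSq q' (by
              have : (k + 1 + 1) * M = (k + 1) * M + M := by ring
              omega)]
            unfold hlet
            have e2 : (M + q') % M = q' % M := by rw [Nat.add_mod_left]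
            have e3 : (M + q') / M = q' / M + 1 := by
              rw [Nat.add_div_left _ (by omega)]
            rw [e2, e3]
            have e4 : z' (q' / M + 1) = z (q' / M) := by simp [z']
            rw [e4]
        · rw [pa_xs_cons, hz', ← hlen, hz0', ← hs, hvl]
          omega
        · intro i hi
          cases i with
          | zero => simp [xs]
          | succ i =>
            rw [pa_xs_cons, hz', hz0', ← hs, hv1]
            have e1 : l.length + 1 + xs a b z i = l.length + xs a b z i + 1 := by omega
            rw [e1, List.getElem?_cons_succ, List.getElem?_append_right (by omega)]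
            have e2 : l.length + xs a b z i - l.length = xs a b z i := by omega
            rw [e2]
            exact hpos i (by omega)

theorem hm_of_hasSol (V : ℕ → Bool) (M a b : ℕ) (hM : 2 ≤ M) (hb : 1 ≤ b) (hbM : b < M)
    (haM : M ≤ a) (h : HasSol (inst3 V M a b)) : HM V M a b := by
  obtain ⟨w, hw, h⟩ := h
  -- the letters
  let S : List Bool := w.map (fun i => decide (i ≠ 2))
  have hSl : S.length = w.length := by simp [S]
  have hH : w.flatMap (fun i => (inst3 V M a b i).2) = S.flatMap (cd3 M a b) := by
    have : ∀ w : List (Fin 3), w.flatMap (fun i => (inst3 V M a b i).2) =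
        (w.map (fun i => decide (i ≠ 2))).flatMap (cd3 M a b) := by
      intro w
      induction w with
      | nil => rfl
      | cons x w ih =>
        rw [List.flatMap_cons, List.map_cons, List.flatMap_cons, ih]
        congr 1
        fin_cases x <;> rfl
    exact this w
  have h1 : pa_G V M a b w ++ List.replicate (M - 1) 1 =
      List.replicate (M - 1) 1 ++ S.flatMap (pa_d M a b) := by
    rw [← pa_flatMap, ← hH, ← h]
    rfl
  obtain ⟨l, rest, hv1, hl, hr⟩ := pa_split w
  have hG : pa_G V M a b w = List.replicate l.length 1 ++ pa_G V M a b rest := by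
    rw [hv1, ← pa_G_skip V M a b l hl]
    unfold pa_G
    rw [List.flatMap_append]
  rw [hG, List.append_assoc] at h1
  have hSne : ∃ c T, S = c :: T := by
    cases hS : S with
    | nil =>
      rw [hS] at hSl
      exact (hw (List.length_eq_zero_iff.1 hSl.symm)).elim
    | cons c T => exact ⟨c, T, rfl⟩
  obtain ⟨c, T, hcT⟩ := hSne
  have hy : S.flatMap (pa_d M a b) = 0 :: (List.replicate (M - 1 + if c then a - b else 0) 1 ++
      T.flatMap (pa_d M a b)) := by rw [hcT]; rfl
  rcases hr with rfl | ⟨v', rfl⟩
  · exfalso
    have h4 : pa_G V M a b [] = [] := rfl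
    rw [h4, List.nil_append, List.replicate_append_replicate, hy] at h1
    exact pa_zero_mem_ne h1.symm
  · have h4 : pa_G V M a b (0 :: v') = gA V M a b ++ pa_G V M a b v' := rfl
    rw [h4, List.append_assoc] at h1
    obtain ⟨x, hx⟩ := pa_gA_zero V M a b
    have h5 : gA V M a b ++ (pa_G V M a b v' ++ List.replicate (M - 1) 1) =
        0 :: (x ++ (pa_G V M a b v' ++ List.replicate (M - 1) 1)) := by rw [hx]; rfl
    rw [h5, hy] at h1
    obtain ⟨h7, h8⟩ := pa_ones h1
    obtain ⟨k, z, hzk, hSk, hSq, hlen, hpos⟩ := pa_main V M a b hM hb hbM haM (v'.length + 1) v' S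
      (by omega) (by rw [h5, hy, h8])
    have hwl : w.length = l.length + (v'.length + 1) := by
      have := congrArg List.length hv1
      simpa using this
    refine ⟨k, z, hzk, ?_, ?_⟩
    · rw [← hlen]
      omega
    · intro i hi
      have h9 : w[M - 1 + xs a b z i]? = some 0 := by
        rw [hv1, List.getElem?_append_right (by omega), h7]
        have e2 : M - 1 + xs a b z i - (M - 1) = xs a b z i := by omega
        rw [e2]
        exact hpos i hi
      have h10 : S[M - 1 + xs a b z i]? = some true := by
        simp only [S, List.getElem?_map, h9]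
        rfl
      have h11 : M - 1 + xs a b z i < (k + 1) * M := by
        rw [← hSk]
        by_contra hcon
        rw [List.getElem?_eq_none (by omega)] at h10
        cases h10
      have h12 := hSq _ h11
      rw [h10] at h12
      exact (Option.some.inj h12).symm

end Pool.Agent.H15.PCP3
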