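import Mathlib
import Pool.Agent.H15.PCP3.Defs

set_option autoImplicit false

/-!
# Module PB: a solution of the hole model gives a solution of the three pairs

Notation and key identity as in module PA: `<V> ++ cd3 z ++ 1^(M-1) = 1^(M-1) ++ V' ++ 1^(s z - 1)`.
Given `k, z` with `z k = true`, `P_i = M - 1 + xs a b z i`, `P_(k+1) = (k+1) M + (M-1)` and
`hlet V M z P_i = true` for `i ≤ k`.  Let `w` be the list of length `(k+1) M` whose entry at
position `q` is `0` if `q = P_i` for some `i ≤ k`, else `1` if `hlet V M z q`, else `2`.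
`G` of the first `P_j` pairs is the code of the first `j M` letters followed by `1^(M-1)`.
-/

namespace Pool.Agent.H15.PCP3

open Pool.Agent.H28.PCP (HasSol vl stepW cnt)

theorem pb_flatMap_one {α : Type*} (l : List α) (g : α → List ℕ) (h : ∀ x ∈ l, g x = [1]) :
    l.flatMap g = List.replicate l.length 1 := by
  induction l with
  | nil => simp
  | cons x l ih =>
    rw [List.flatMap_cons, h x (by simp), ih (fun y hy => h y (by simp [hy]))]
    simp [List.replicate_succ]

theorem pb_take (V : ℕ → Bool) (M a b : ℕ) (hM : 2 ≤ M) :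
    ((vl V (M - 1)).flatMap (cd3 M a b) ++
      (List.replicate (M - 1) 1 ++ 0 :: List.replicate (M - b) 1)).take (M - 1) =
      List.replicate (M - 1) 1 := by
  obtain ⟨m, rfl⟩ : ∃ m, M = m + 2 := ⟨M - 2, by omega⟩
  have h1 : vl V (m + 2 - 1) = V 0 :: (List.range m).map (fun i => V (i + 1)) := by
    rw [vl, show m + 2 - 1 = m + 1 from by omega, List.range_succ_eq_map]
    simp [Function.comp_def]
  rw [h1, List.flatMap_cons, cd3, List.append_assoc, List.append_assoc,
    List.take_append_of_le_length (by simp)]
  simp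

theorem pb_key (V : ℕ → Bool) (M a b : ℕ) (hM : 2 ≤ M) (hb : 1 ≤ b) (hbM : b < M)
    (haM : M ≤ a) (c : Bool) :
    (vl V (M - 1)).flatMap (cd3 M a b) ++ cd3 M a b c ++ List.replicate (M - 1) 1 =
      List.replicate (M - 1) 1 ++ gA V M a b ++ List.replicate ((if c then a else b) - 1) 1 := by
  have h1 : List.replicate (M - 1) 1 ++ gA V M a b =
      (vl V (M - 1)).flatMap (cd3 M a b) ++
        (List.replicate (M - 1) 1 ++ 0 :: List.replicate (M - b) 1) := by
    conv_lhs => rw [← pb_take V M a b hM]
    rw [gA, List.take_append_drop]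
  rw [h1]
  have h2 : List.replicate (if c then a - b else 0) 1 ++ List.replicate (M - 1) 1 =
      List.replicate (M - b) 1 ++ List.replicate ((if c then a else b) - 1) (1 : ℕ) := by
    rw [← List.replicate_add, ← List.replicate_add]
    congr 1
    cases c <;> simp <;> omega
  simp only [cd3, List.append_assoc, List.cons_append, h2]

theorem pb_xs_lt (a b : ℕ) (ha : 1 ≤ a) (hb : 1 ≤ b) (z : ℕ → Bool) (i : ℕ) :
    xs a b z i < xs a b z (i + 1) := by
  simp only [xs]
  split_ifs <;> omega

theorem pb_xs_mono (a b : ℕ) (ha : 1 ≤ a) (hb : 1 ≤ b) (z : ℕ → Bool) :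
    StrictMono (xs a b z) :=
  strictMono_nat_of_lt_succ (pb_xs_lt a b ha hb z)

theorem pb_flatMap_congr {α : Type*} (l : List α) (f g : α → List ℕ)
    (h : ∀ x ∈ l, f x = g x) : l.flatMap f = l.flatMap g := by
  induction l with
  | nil => simp
  | cons x l ih =>
    rw [List.flatMap_cons, List.flatMap_cons, h x (by simp),
      ih (fun y hy => h y (by simp [hy]))]

theorem pb_code (V : ℕ → Bool) (M a b : ℕ) (hM : 2 ≤ M) (z : ℕ → Bool) (j : ℕ) :
    (List.range ((j + 1) * M)).flatMap (fun q => cd3 M a b (hlet V M z q)) =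
      (List.range (j * M)).flatMap (fun q => cd3 M a b (hlet V M z q)) ++
        ((vl V (M - 1)).flatMap (cd3 M a b) ++ cd3 M a b (z j)) := by
  have h0 : (j + 1) * M = j * M + ((M - 1) + 1) := by
    rw [show M - 1 + 1 = M from by omega]; ring
  rw [h0, List.range_add, List.flatMap_append, List.range_succ, List.map_append,
    List.flatMap_append]
  congr 1
  congr 1
  · rw [vl, List.flatMap_map, List.flatMap_map]
    apply pb_flatMap_congr
    intro q hq
    have hq' : q < M - 1 := by simpa using hq
    have h1 : (j * M + q) % M = q := by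
      rw [Nat.mul_comm, Nat.mul_add_mod]
      exact Nat.mod_eq_of_lt (by omega)
    have h2 : hlet V M z (j * M + q) = V q := by
      rw [hlet, h1, if_neg (by omega)]
    rw [h2]
  · have h1 : (j * M + (M - 1)) % M = M - 1 := by
      rw [Nat.mul_comm, Nat.mul_add_mod]
      exact Nat.mod_eq_of_lt (by omega)
    have h2 : (j * M + (M - 1)) / M = j := by
      rw [Nat.mul_comm, Nat.mul_add_div (by omega), Nat.div_eq_of_lt (by omega)]
      omega
    have h3 : hlet V M z (j * M + (M - 1)) = z j := by
      rw [hlet, h1, if_pos rfl, h2]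
    simp [h3]

theorem pb_G (V : ℕ → Bool) (M a b : ℕ) (hM : 2 ≤ M) (hb : 1 ≤ b) (hbM : b < M)
    (haM : M ≤ a) (z : ℕ → Bool) (k : ℕ) (g : ℕ → List ℕ)
    (hg1 : ∀ i ≤ k, g (M - 1 + xs a b z i) = gA V M a b)
    (hg2 : ∀ q, (∀ i ≤ k, q ≠ M - 1 + xs a b z i) → g q = [1]) (j : ℕ) (hj : j ≤ k + 1) :
    (List.range (M - 1 + xs a b z j)).flatMap g =
      (List.range (j * M)).flatMap (fun q => cd3 M a b (hlet V M z q)) ++
        List.replicate (M - 1) 1 := by
  have ha : 1 ≤ a := by omega
  have hmono := pb_xs_mono a b ha hb z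
  induction j with
  | zero =>
    simp only [xs, Nat.add_zero, Nat.zero_mul, List.range_zero, List.flatMap_nil,
      List.nil_append]
    rw [pb_flatMap_one _ _ (fun q hq => ?_), List.length_range]
    have hq' : q < M - 1 := by simpa using hq
    exact hg2 q (fun i hi => by omega)
  | succ j ih =>
    have ih' := ih (by omega)
    have hs : xs a b z (j + 1) = xs a b z j + (if z j then a else b) := rfl
    have hs1 : 1 ≤ (if z j then a else b) := by split_ifs <;> omega
    have h0 : M - 1 + xs a b z (j + 1) =
        (M - 1 + xs a b z j) + (1 + ((if z j then a else b) - 1)) := by omega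
    rw [h0, List.range_add, List.flatMap_append, ih', List.range_add, List.map_append,
      List.flatMap_append]
    have h1 : (List.map (fun x => M - 1 + xs a b z j + x) (List.range 1)).flatMap g =
        gA V M a b := by
      simp [hg1 j (by omega)]
    have h2 : (List.map (fun x => M - 1 + xs a b z j + x)
        (List.map (fun x => 1 + x) (List.range ((if z j then a else b) - 1)))).flatMap g =
        List.replicate ((if z j then a else b) - 1) 1 := by
      rw [pb_flatMap_one _ _ (fun q hq => ?_)]
      · simp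
      · simp only [List.mem_map, List.mem_range] at hq
        obtain ⟨r, ⟨t, ht, rfl⟩, rfl⟩ := hq
        apply hg2
        intro i hi hE
        have h3 : xs a b z j < xs a b z i := by omega
        have h4 : j < i := hmono.lt_iff_lt.mp h3
        have h5 : xs a b z (j + 1) ≤ xs a b z i := hmono.monotone h4
        omega
    rw [h1, h2, pb_code V M a b hM z j]
    have h3 := pb_key V M a b hM hb hbM haM (z j)
    simp only [List.append_assoc] at h3 ⊢
    rw [h3]

theorem hasSol_of_hm (V : ℕ → Bool) (M a b : ℕ) (hM : 2 ≤ M) (hb : 1 ≤ b) (hbM : b < M)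
    (haM : M ≤ a) (h : HM V M a b) : HasSol (inst3 V M a b) := by
  classical
  obtain ⟨k, z, hzk, hlen, hlet1⟩ := h
  have ha : 1 ≤ a := by omega
  have hmono := pb_xs_mono a b ha hb z
  let e : ℕ → Fin 3 := fun q =>
    if ∃ i ≤ k, q = M - 1 + xs a b z i then 0 else if hlet V M z q = true then 1 else 2
  have he1 : ∀ i ≤ k, e (M - 1 + xs a b z i) = 0 := by
    intro i hi
    simp only [e]
    rw [if_pos ⟨i, hi, rfl⟩]
  have he2 : ∀ q, (∀ i ≤ k, q ≠ M - 1 + xs a b z i) →
      (e q = if hlet V M z q = true then 1 else 2) := by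
    intro q hq
    simp only [e]
    rw [if_neg]
    rintro ⟨i, hi, h⟩
    exact hq i hi h
  have hH : ∀ q, (inst3 V M a b (e q)).2 = cd3 M a b (hlet V M z q) := by
    intro q
    by_cases hq : ∃ i ≤ k, q = M - 1 + xs a b z i
    · obtain ⟨i, hi, rfl⟩ := hq
      rw [he1 i hi, hlet1 i hi]
      rfl
    · push Not at hq
      rw [he2 q hq]
      cases h : hlet V M z q
      · simp [inst3]
      · simp [inst3]
  have hG1 : ∀ i ≤ k, (inst3 V M a b (e (M - 1 + xs a b z i))).1 = gA V M a b := by
    intro i hi
    rw [he1 i hi]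
    rfl
  have hG2 : ∀ q, (∀ i ≤ k, q ≠ M - 1 + xs a b z i) → (inst3 V M a b (e q)).1 = [1] := by
    intro q hq
    rw [he2 q hq]
    split_ifs <;> rfl
  have hmain := pb_G V M a b hM hb hbM haM z k (fun q => (inst3 V M a b (e q)).1) hG1 hG2
    (k + 1) le_rfl
  rw [hlen, List.range_add, List.flatMap_append] at hmain
  have hk : xs a b z (k + 1) = xs a b z k + a := by
    simp [xs, hzk]
  have h2 : (List.map (fun x => (k + 1) * M + x) (List.range (M - 1))).flatMap
      (fun q => (inst3 V M a b (e q)).1) = List.replicate (M - 1) 1 := by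
    rw [pb_flatMap_one _ _ (fun q hq => ?_)]
    · simp
    · simp only [List.mem_map, List.mem_range] at hq
      obtain ⟨r, hr, rfl⟩ := hq
      apply hG2
      intro i hi hE
      have h3 : xs a b z i ≤ xs a b z k := hmono.monotone hi
      omega
  rw [h2] at hmain
  have hmain' := List.append_cancel_right hmain
  refine ⟨(List.range ((k + 1) * M)).map e, ?_, ?_⟩
  · intro h0
    have := congrArg List.length h0
    simp only [List.length_map, List.length_range, List.length_nil] at this
    have h1 : 0 < (k + 1) * M := Nat.mul_pos (by omega) (by omega)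
    omega
  · rw [List.flatMap_map, List.flatMap_map]
    rw [show (List.range ((k + 1) * M)).flatMap (fun q => (inst3 V M a b (e q)).1) =
      (List.range ((k + 1) * M)).flatMap (fun q => cd3 M a b (hlet V M z q)) from hmain']
    exact pb_flatMap_congr _ _ _ (fun q _ => (hH q).symm)

end Pool.Agent.H15.PCP3
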