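import Mathlib
import Pool.Agent.H28.PCP.UA
import Pool.Agent.H28.PCP.KA
import Pool.Agent.H28.PCP.KB
import Pool.Agent.H15.PCP3.PA
import Pool.Agent.H15.PCP3.PB
import Pool.Agent.H15.PCP3.HB
import Pool.Agent.H15.PCP3.HC
import Pool.Agent.H15.PCP3.AF
import Pool.Agent.H15.PCP3.BC
import Pool.Agent.H15.PCP3.BE
import Pool.Agent.H15.PCP3.CF
import Pool.Agent.H15.PCP3.GD
import Pool.Agent.H15.PCP3.KC
import Pool.Agent.H15.PCP3.KD

set_option autoImplicit false

/-!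
# PCP(3) is undecidable: assembly
-/

namespace Pool.Agent.H15.PCP3

open Pool.Agent.H28.PCP (HasSol vl stepW cnt Hyp tm0_undec ca_of_tm0 wordOf wordOf_computable
  primrec_fin1 primrec_fin2)

/-- programs and three pairs -/
theorem pcp3_of_prog (r : Prog) {B0 : ℕ} (hr : r.Good B0) :
    HasSol (inst3 (Vh (gpar r.N r.S r.Eh).W1 (gl1 r.N r.S) (glam r.N r.S) (gM r.N r.S)
      (ga r.N r.S) (gb r.N r.S)) (gM r.N r.S) (ga r.N r.S) (gb r.N r.S)) ↔
      ∃ u, r.step^[u] r.q0 = [] := by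
  have hN : 1 ≤ r.N := Nat.mul_pos hr.hI hr.hTn
  have hS : 2 ≤ r.S := by rw [hr.hS]; omega
  have hh := g_hh hN hS r.Eh
  have hnum := g_num hN hS
  have hpc := gpc_le hN hS r.Eh
  have hok : (gpar r.N r.S r.Eh).OK ((4 * r.N + 3) * r.S) :=
    Prog.ok r hr (gβ r.N r.S) (glam r.N r.S) (gpc r.N r.S r.Eh) hnum.1 hnum.2 hpc
  rw [← Prog.halt_iff r hr (gβ r.N r.S) (glam r.N r.S) (gpc r.N r.S r.Eh)]
  have hxw := Par.xw_iff hok
  constructor
  · intro h
    exact hxw.1 (xw_of_hm hh (hm_of_hasSol _ _ _ _ (by have := hh.hb1; have := hh.hbM; omega)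
      hh.hb1 hh.hbM hh.haM h))
  · intro h
    exact hasSol_of_hm _ _ _ _ (by have := hh.hb1; have := hh.hbM; omega) hh.hb1 hh.hbM hh.haM
      (hm_of_xw hh (hxw.2 h))

/-- word automata and three pairs -/
theorem pcp3_of_word {A : ℕ} {f : ℕ → ℕ → ℕ} (hyp : Hyp A f) (hl : ℕ → Bool) (w : List ℕ)
    (hw : ∀ a ∈ w, 1 ≤ a ∧ a < A) :
    HasSol (instR A f hl w) ↔ ∃ t, ∃ a ∈ (stepW f)^[t] w, hl a = true := by
  obtain ⟨h1, h2⟩ := ring_main hyp hl w hw
  rw [← h2]
  exact pcp3_of_prog _ h1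

/-- the words are nonempty -/
theorem instR_ne {A : ℕ} (f : ℕ → ℕ → ℕ) (hl : ℕ → Bool) (w : List ℕ) (i : Fin 3) :
    (instR A f hl w i).1 ≠ [] ∧ (instR A f hl w i).2 ≠ [] := by
  unfold instR
  generalize Vh _ _ _ _ _ _ = V
  generalize gM _ _ = M
  generalize ga _ _ = a
  generalize gb _ _ = b
  fin_cases i
  · refine ⟨?_, by simp [inst3, cd3]⟩
    simp only [inst3, Fin.zero_eta, Matrix.cons_val_zero, gA, ne_eq, List.drop_eq_nil_iff, not_le]
    simp only [List.length_append, List.length_replicate, List.length_cons]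
    omega
  all_goals simp [inst3, cd3]

/-- **PCP(n) is undecidable for every n ≥ 3.** -/
theorem pcp_undecidable (n : ℕ) (hn : 3 ≤ n) :
    ¬ ∃ d : (Fin n → List ℕ × List ℕ) → Bool, Computable d ∧
      ∀ P : Fin n → List ℕ × List ℕ, (∀ i, (P i).1 ≠ [] ∧ (P i).2 ≠ []) →
        (d P = true ↔ HasSol P) := by
  rintro ⟨d, hd, hdP⟩
  obtain ⟨Γ, Λ, _, _, _, M, S, m, e, l, hS, hsup, hlc, hnc⟩ := tm0_undec
  obtain ⟨A, f, hl, code, hyp, hf1, hhl, hcode, hM⟩ := ca_of_tm0 M S hS hsup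
  refine hnc ?_
  have hw : ∀ n, ∀ a ∈ wordOf code default (l n), 1 ≤ a ∧ a < A := by
    intro n a ha
    rw [wordOf, List.mem_map] at ha
    obtain ⟨j, -, rfl⟩ := ha
    exact hcode _ _ _
  have hcomp : Computable (fun k => d (extend n (instR A f hl (wordOf code default (l k))))) :=
    hd.comp ((extend_computable n).comp ((instR_primrec A f hl (primrec_fin2 A f hf1)
      (primrec_fin1 A hl hhl)).to_comp.comp (wordOf_computable e code l hlc)))
  rw [ComputablePred.computable_iff]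
  refine ⟨_, hcomp, ?_⟩
  funext k
  rw [← hM, ← pcp3_of_word hyp hl _ (hw k), ← hasSol_extend n hn]
  refine propext ((hdP _ ?_).symm)
  intro i
  unfold extend
  split_ifs
  · exact instR_ne f hl _ _
  · exact instR_ne f hl _ _

end Pool.Agent.H15.PCP3
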